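import Pool.Agent.H.MP_345fd7_an.Near

/-! Formal version: matrices over `A⟦t⟧` with constant term `1` and determinant `1` are elementary -/

set_option autoImplicit false

namespace Pool.Agent.H.MP_345fd7_an

open Matrix
open scoped NNReal

open Classical in
/-- the seminorm on `A⟦t⟧` detecting the constant coefficient -/
@[reducible] noncomputable def formal_snCc (A : Type*) [CommRing A] : SN (PowerSeries A) where
  nn f := if PowerSeries.constantCoeff f = 0 then 0 else 1
  nonneg' f := by split_ifs <;> norm_num
  zero' := by simp
  neg' f := by simp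
  add' f g := by
    by_cases hf : PowerSeries.constantCoeff f = 0
    · by_cases hg : PowerSeries.constantCoeff g = 0
      · simp [hf, hg]
      · simp [hf, hg]
    · by_cases hg : PowerSeries.constantCoeff g = 0
      · simp [hf, hg]
      · simp only [hf, hg, if_false]
        split_ifs <;> norm_num
  mul' f g := by
    by_cases hf : PowerSeries.constantCoeff f = 0
    · simp [hf]
    · by_cases hg : PowerSeries.constantCoeff g = 0
      · simp [hg]
      · simp only [hf, hg, if_false]
        split_ifs <;> norm_num

/-- PROOF. Apply `prod_near_mem_Elem` to the one element list `[W]` and the seminorm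
`nn f = if constantCoeff f = 0 then 0 else 1` on `A⟦t⟧` (`letI` an `SN` structure); if `nn x < 1`
then `constantCoeff x = 0` so `1 + x` is a unit (`PowerSeries.invOfUnit`). -/
theorem elem_formal {A : Type*} [CommRing A] {O : Type*} [Fintype O] [DecidableEq O]
    (W : Matrix O O (PowerSeries A)) (hdet : W.det = 1)
    (h0 : W.map (PowerSeries.constantCoeff (R := A)) = 1) : W ∈ Elem O (PowerSeries A) := by
  classical
  let _ := formal_snCc A
  have e1 : ∀ f : PowerSeries A, nn f = if PowerSeries.constantCoeff f = 0 then 0 else 1 :=
    fun f => rfl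
  have key := prod_near_mem_Elem (S := PowerSeries A) ?_ (O := O) [W] ?_ ?_
  · simpa using key
  · intro x hx
    rw [e1] at hx
    have hx0 : PowerSeries.constantCoeff x = 0 := by
      by_contra hne
      rw [if_neg hne] at hx
      exact lt_irrefl _ hx
    have hu : IsUnit (1 + x) := by
      rw [PowerSeries.isUnit_iff_constantCoeff]
      simp [hx0]
    obtain ⟨u, hu⟩ := hu
    refine ⟨(u⁻¹ : (PowerSeries A)ˣ), ?_, ?_⟩
    · rw [← hu]; simp
    · rw [e1 x, if_pos hx0, e1]
      split_ifs <;> norm_num
  · intro V hV
    have hV' : V = W := by simpa using hV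
    subst hV'
    rw [nn_matrix]
    have h1 : ∀ i j, nn ((V - 1) i j) = 0 := by
      intro i j
      have h2 := congrFun (congrFun h0 i) j
      rw [Matrix.map_apply] at h2
      rw [e1, Matrix.sub_apply, map_sub, h2, if_pos]
      rw [Matrix.one_apply, Matrix.one_apply]
      split_ifs <;> simp
    rw [Finset.sum_eq_zero fun i _ => Finset.sum_eq_zero fun j _ => h1 i j]
    exact one_pos
  · simpa using hdet

/-- Truncation of the entries of the elementary factors. -/
theorem elem_trunc {A : Type*} [CommRing A] [SN A] (r : ℝ≥0) {O : Type*} [Fintype O]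
    [DecidableEq O] {W : Matrix O O (PowerSeries A)} (hW : W ∈ Elem O (PowerSeries A)) (N : ℕ) :
    ∃ E ∈ Elem O (Zr r A), ∀ i j, ∀ n < N,
      PowerSeries.coeff n (W i j) = PowerSeries.coeff n (E i j : PowerSeries A) := by
  induction hW using Submonoid.closure_induction with
  | mem x hx =>
    obtain ⟨i, j, h, c, rfl⟩ := hx
    refine ⟨Matrix.transvection i j (toZr r (PowerSeries.trunc N c)),
      transvection_mem_Elem h _, ?_⟩
    intro a b n hn
    simp only [Matrix.transvection, Matrix.add_apply, Matrix.one_apply, Matrix.single_apply]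
    have h1 : PowerSeries.coeff n ((toZr r (PowerSeries.trunc N c) : Zr r A) : PowerSeries A) =
        PowerSeries.coeff n c := by
      rw [coe_toZr, Polynomial.coeff_coe, PowerSeries.coeff_trunc, if_pos hn]
    have h2 : PowerSeries.coeff n (if i = a ∧ j = b then c else 0) =
        PowerSeries.coeff n ((if i = a ∧ j = b then toZr r (PowerSeries.trunc N c) else 0 :
          Zr r A) : PowerSeries A) := by
      split_ifs
      · exact h1.symm
      · simp
    have h3 : PowerSeries.coeff n (if a = b then (1 : PowerSeries A) else 0) =
        PowerSeries.coeff n ((if a = b then 1 else 0 : Zr r A) : PowerSeries A) := by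
      split_ifs <;> simp
    rw [Subring.coe_add, map_add, map_add, h2, h3]
  | one =>
    refine ⟨1, Submonoid.one_mem _, ?_⟩
    intro i j n _
    rw [Matrix.one_apply, Matrix.one_apply]
    split_ifs <;> simp
  | mul x y _ _ hx hy =>
    obtain ⟨E1, hE1, h1⟩ := hx
    obtain ⟨E2, hE2, h2⟩ := hy
    refine ⟨E1 * E2, Submonoid.mul_mem _ hE1 hE2, ?_⟩
    intro i j n hn
    rw [Matrix.mul_apply, Matrix.mul_apply, map_sum]
    have : ((∑ l, E1 i l * E2 l j : Zr r A) : PowerSeries A) =
        ∑ l, (E1 i l : PowerSeries A) * (E2 l j : PowerSeries A) := by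
      push_cast; rfl
    rw [this, map_sum]
    refine Finset.sum_congr rfl fun l _ => ?_
    rw [PowerSeries.coeff_mul, PowerSeries.coeff_mul]
    refine Finset.sum_congr rfl fun p hp => ?_
    have hp' := Finset.HasAntidiagonal.mem_antidiagonal.1 hp
    rw [h1 i l p.1 (by omega), h2 l j p.2 (by omega)]

end Pool.Agent.H.MP_345fd7_an
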