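import Pool.Agent.H.MP_345fd7_an.Basic

/-! Inverses of elements near one in `Zr r A` and `Matrix O O (Zr r A)` -/

set_option autoImplicit false

namespace Pool.Agent.H.MP_345fd7_an

open Matrix
open scoped NNReal

/-- the partial norm `pn r N` as a seminorm on `A⟦t⟧` -/
@[reducible] noncomputable def invNear_snPn (r : ℝ≥0) (N : ℕ) (A : Type*) [CommRing A] [SN A] : SN (PowerSeries A) where
  nn f := pn r N f
  nonneg' f := pn_nonneg r N f
  zero' := pn_zero r N
  neg' f := pn_neg r N f
  add' f g := pn_add r N f g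
  mul' f g := pn_mul r N f g

lemma invNear_tendsto_pn {A : Type*} [CommRing A] [SN A] {r : ℝ≥0} (f : Zr r A) :
    Filter.Tendsto (fun N => pn r N (f : PowerSeries A)) Filter.atTop (nhds (nn f)) :=
  tendsto_atTop_ciSup (fun _ _ h => pn_mono r h _) (bddAbove_pn f)

/-- PROOF. `W` has a formal inverse `Y` over `A⟦t⟧` (its determinant has constant coefficient
`1`); `Y - 1 = -X - X (Y - 1)`, `X = W - 1`, so the finite partial norms
`p_N = ∑ i j, pn r N ((Y - 1) i j)` satisfy `p_N ≤ nn X + nn X * p_N`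
(`pn` is submultiplicative), hence they are bounded. -/
theorem inv_near {A : Type*} [CommRing A] [SN A] {r : ℝ≥0} {O : Type*} [Fintype O]
    [DecidableEq O] (W : Matrix O O (Zr r A)) (h0 : W.map (cc : Zr r A →+* A) = 1)
    (h : nn (W - 1) < 1) :
    ∃ Y : Matrix O O (Zr r A), W * Y = 1 ∧ Y * W = 1 ∧
      nn (Y - 1) * (1 - nn (W - 1)) ≤ nn (W - 1) := by
  classical
  set Wp : Matrix O O (PowerSeries A) := W.map (Zr r A).subtype with hWp
  have hdet : PowerSeries.constantCoeff Wp.det = (1 : A) := by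
    rw [RingHom.map_det, hWp]
    have : (PowerSeries.constantCoeff (R := A)).mapMatrix (W.map (Zr r A).subtype) =
        W.map (cc : Zr r A →+* A) := by
      ext i j; rfl
    rw [this, h0, Matrix.det_one]
  have hu : IsUnit Wp.det := by
    rw [PowerSeries.isUnit_iff_constantCoeff, hdet]
    exact isUnit_one
  set Y' : Matrix O O (PowerSeries A) := Wp⁻¹ with hY'
  have hWY : Wp * Y' = 1 := Matrix.mul_nonsing_inv _ hu
  have hYW : Y' * Wp = 1 := Matrix.nonsing_inv_mul _ hu
  have hXe : Y' - 1 = -(Wp - 1) - (Wp - 1) * (Y' - 1) := by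
    have : (Wp - 1) * (Y' - 1) = Wp * Y' - Wp - Y' + 1 := by noncomm_ring
    rw [this, hWY]; abel
  have hbound : ∀ N, (∑ i, ∑ j, pn r N ((Y' - 1) i j)) * (1 - nn (W - 1)) ≤ nn (W - 1) := by
    intro N
    let _ := invNear_snPn r N A
    have e1 : ∀ M : Matrix O O (PowerSeries A), nn M = ∑ i, ∑ j, pn r N (M i j) := fun M => rfl
    rw [← e1]
    have e2 : nn (Wp - 1) ≤ nn (W - 1) := by
      rw [e1, nn_matrix]
      refine Finset.sum_le_sum fun i _ => Finset.sum_le_sum fun j _ => ?_
      have : (Wp - 1) i j = (((W - 1) i j : Zr r A) : PowerSeries A) := by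
        rw [hWp, Matrix.sub_apply, Matrix.sub_apply, Matrix.map_apply, Matrix.one_apply,
          Matrix.one_apply]
        split_ifs <;> simp
      rw [this]
      exact pn_le_nn _ N
    have e3 : nn (Y' - 1) ≤ nn (Wp - 1) + nn (Wp - 1) * nn (Y' - 1) := by
      calc nn (Y' - 1) = nn (-(Wp - 1) - (Wp - 1) * (Y' - 1)) := by rw [← hXe]
        _ ≤ nn (-(Wp - 1)) + nn ((Wp - 1) * (Y' - 1)) := nn_sub _ _
        _ ≤ _ := by rw [nn_neg]; exact add_le_add le_rfl (nn_mul _ _)
    have e4 : 0 ≤ nn (Y' - 1) := nn_nonneg _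
    have e5 := mul_le_mul_of_nonneg_right e2 e4
    nlinarith
  have hε : 0 < 1 - nn (W - 1) := by linarith
  have hmem1 : ∀ i j, (Y' - 1) i j ∈ Zr r A := by
    intro i j
    refine ⟨nn (W - 1) / (1 - nn (W - 1)), fun N => ?_⟩
    rw [le_div_iff₀ hε]
    refine le_trans (mul_le_mul_of_nonneg_right ?_ hε.le) (hbound N)
    refine le_trans ?_ (Finset.single_le_sum (f := fun i => ∑ j, pn r N ((Y' - 1) i j))
      (fun l' _ => Finset.sum_nonneg fun j _ => pn_nonneg r N _) (Finset.mem_univ i))
    exact Finset.single_le_sum (f := fun j => pn r N ((Y' - 1) i j))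
      (fun l' _ => pn_nonneg r N _) (Finset.mem_univ j)
  have hmem : ∀ i j, Y' i j ∈ Zr r A := by
    intro i j
    have h1 : Y' i j = (Y' - 1) i j + (1 : Matrix O O (PowerSeries A)) i j := by
      rw [Matrix.sub_apply]; ring
    rw [h1]
    refine (Zr r A).add_mem (hmem1 i j) ?_
    rw [Matrix.one_apply]
    split_ifs
    · exact (Zr r A).one_mem
    · exact (Zr r A).zero_mem
  set Y : Matrix O O (Zr r A) := Matrix.of fun i j => ⟨Y' i j, hmem i j⟩ with hY
  have hYm : Y.map (Zr r A).subtype = Y' := by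
    ext i j; rfl
  have hinj : Function.Injective
      (fun M : Matrix O O (Zr r A) => M.map (Zr r A).subtype) :=
    Matrix.map_injective Subtype.val_injective
  refine ⟨Y, ?_, ?_, ?_⟩
  · apply hinj
    simp only
    rw [Matrix.map_mul, hYm, ← hWp, hWY]
    simp
  · apply hinj
    simp only
    rw [Matrix.map_mul, hYm, ← hWp, hYW]
    simp
  · have hlim : Filter.Tendsto (fun N => (∑ i, ∑ j, pn r N ((Y' - 1) i j)) * (1 - nn (W - 1)))
        Filter.atTop (nhds (nn (Y - 1) * (1 - nn (W - 1)))) := by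
      refine Filter.Tendsto.mul_const _ ?_
      rw [nn_matrix]
      refine tendsto_finsetSum _ fun i _ => tendsto_finsetSum _ fun j _ => ?_
      have : (Y' - 1) i j = (((Y - 1) i j : Zr r A) : PowerSeries A) := by
        rw [hY, Matrix.sub_apply, Matrix.sub_apply, Matrix.of_apply, Matrix.one_apply,
          Matrix.one_apply]
        split_ifs <;> simp
      rw [this]
      exact invNear_tendsto_pn _
    exact le_of_tendsto' hlim hbound

/-- an element of `Zr r A` whose constant coefficient is `1` and whose formal inverse has finite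
norm -/
theorem nn_one_Zr {A : Type*} [CommRing A] [SN A] (r : ℝ≥0) :
    nn (1 : Zr r A) = nn (1 : A) := by
  have h1 : ∀ N, pn r (N + 1) (1 : PowerSeries A) = nn (1 : A) := by
    intro N
    unfold pn
    rw [Finset.sum_eq_single 0]
    · simp
    · intro b _ hb
      simp [PowerSeries.coeff_one, hb]
    · intro h'; simp at h'
  apply le_antisymm
  · refine nn_Zr_le fun N => ?_
    exact (pn_mono r (Nat.le_succ N) _).trans (h1 N).le
  · have := pn_le_nn (1 : Zr r A) 1
    rw [← h1 0]
    exact this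

/-- scalar version, for a ring `A` with `nn 1 ≤ 1` in which small elements vanish -/
theorem hinv_Zr {A : Type*} [CommRing A] [SN A] (hone : nn (1 : A) ≤ 1)
    (hdisc : ∀ x : A, nn x < 1 → x = 0) {r : ℝ≥0} (x : Zr r A) (hx : nn x < 1) :
    ∃ y, (1 + x) * y = 1 ∧ nn y * (1 - nn x) ≤ 1 := by
  have hc : cc x = 0 := by
    apply hdisc
    refine lt_of_le_of_lt ?_ hx
    have := pn_le_nn x 1
    unfold pn at this
    simpa [cc_apply] using this
  set W : Matrix Unit Unit (Zr r A) := Matrix.of fun _ _ => 1 + x with hW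
  have e1 : nn (W - 1) = nn x := by
    rw [nn_matrix]
    simp [hW]
  obtain ⟨Y, hY1, _, hY3⟩ := inv_near W (by
    ext i j
    simp [hW, hc]) (by rw [e1]; exact hx)
  rw [e1] at hY3
  refine ⟨Y () (), ?_, ?_⟩
  · have := congrFun (congrFun hY1 ()) ()
    simpa [Matrix.mul_apply, hW] using this
  · have e2 : nn (Y - 1) = nn (Y () () - 1) := by
      rw [nn_matrix]; simp
    rw [e2] at hY3
    have e3 : nn (Y () ()) ≤ nn (Y () () - 1) + nn (1 : Zr r A) := by
      simpa using nn_add (Y () () - 1) (1 : Zr r A)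
    rw [nn_one_Zr] at e3
    have e4 : nn (Y () ()) ≤ nn (Y () () - 1) + 1 := e3.trans (by gcongr)
    have e5 := mul_le_mul_of_nonneg_right e4 (show 0 ≤ 1 - nn x by linarith)
    linarith

end Pool.Agent.H.MP_345fd7_an
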