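import Pool.Agent.H.MP_345fd7_an.Basic

/-! Rounding factorisation of real matrix power series -/

set_option autoImplicit false

namespace Pool.Agent.H.MP_345fd7_an

open Matrix
open scoped NNReal

/-- An integral ring `A₀` inside a real ring `A` with a rounding map. -/
structure RoundData (A₀ A : Type*) [CommRing A₀] [SN A₀] [CommRing A] [SN A] [Algebra ℝ A] where
  ι : A₀ →+* A
  nn_ι : ∀ x, nn (ι x) = nn x
  ι_inj : Function.Injective ι
  rnd : A → A₀
  c0 : ℝ
  rnd_near : ∀ a, nn (a - ι (rnd a)) ≤ c0
  rnd_ι : ∀ x, rnd (ι x) = x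
  disc : ∀ x : A₀, nn x < 1 → x = 0
  one_le : nn (1 : A) ≤ 1
  nn_smul : ∀ (s : ℝ) (a : A), nn (s • a) = |s| * nn a

/-- `f ≡ g mod t ^ N` -/
def ModEq {A : Type*} [CommRing A] (N : ℕ) (f g : PowerSeries A) : Prop :=
  ∀ n < N, PowerSeries.coeff n f = PowerSeries.coeff n g

lemma round_one {B : Type*} [CommRing B] {O : Type*} [DecidableEq O] (i j : O) (n : ℕ) :
    PowerSeries.coeff n ((1 : Matrix O O (PowerSeries B)) i j) =
      if n = 0 then (1 : Matrix O O B) i j else 0 := by
  rw [Matrix.one_apply, Matrix.one_apply]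
  by_cases hij : i = j
  · simp [hij, PowerSeries.coeff_one]
  · simp [hij]

section aux

variable {A₀ A : Type*} [CommRing A₀] [SN A₀] [CommRing A] [SN A] [Algebra ℝ A]
  (D : RoundData A₀ A) {O : Type*} [Fintype O] [DecidableEq O]

/-- the recursion for the coefficient matrices of `γ` and `h` -/
noncomputable def round_seq (G : ℕ → Matrix O O A) : ℕ → Matrix O O A₀ × Matrix O O A
  | n =>
    if n = 0 then (1, 1)
    else
      ((G n - ∑ i : Fin n, if h : (i : ℕ) = 0 then 0 else
          ((round_seq G i).1.map D.ι * (round_seq G (n - i)).2)).map D.rnd,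
       (G n - ∑ i : Fin n, if h : (i : ℕ) = 0 then 0 else
          ((round_seq G i).1.map D.ι * (round_seq G (n - i)).2)) -
        ((G n - ∑ i : Fin n, if h : (i : ℕ) = 0 then 0 else
          ((round_seq G i).1.map D.ι * (round_seq G (n - i)).2)).map D.rnd).map D.ι)
  termination_by n => n
  decreasing_by all_goals (have := i.2; omega)

/-- the middle part of the convolution -/
noncomputable def round_mid (G : ℕ → Matrix O O A) (n : ℕ) : Matrix O O A :=
  ∑ i ∈ Finset.range n, if i = 0 then 0 else
    (round_seq D G i).1.map D.ι * (round_seq D G (n - i)).2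

lemma round_seq_zero (G : ℕ → Matrix O O A) : round_seq D G 0 = (1, 1) := by
  rw [round_seq]; simp

lemma round_seq_pos (G : ℕ → Matrix O O A) (n : ℕ) (hn : n ≠ 0) :
    round_seq D G n = ((G n - round_mid D G n).map D.rnd,
      (G n - round_mid D G n) - ((G n - round_mid D G n).map D.rnd).map D.ι) := by
  have h1 : (∑ i : Fin n, if h : (i : ℕ) = 0 then 0 else
      ((round_seq D G i).1.map D.ι * (round_seq D G (n - i)).2)) = round_mid D G n := by
    unfold round_mid
    rw [Finset.sum_range]
    exact Finset.sum_congr rfl fun i _ => by split_ifs <;> rfl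
  rw [round_seq, if_neg hn, h1]

lemma round_conv (G : ℕ → Matrix O O A) (hG0 : G 0 = 1) (n : ℕ) :
    ∑ p ∈ Finset.HasAntidiagonal.antidiagonal n, (round_seq D G p.1).1.map D.ι * (round_seq D G p.2).2 = G n := by
  rw [Finset.Nat.sum_antidiagonal_eq_sum_range_succ
    (fun a b => (round_seq D G a).1.map D.ι * (round_seq D G b).2) n]
  rcases Nat.eq_zero_or_pos n with h0 | hpos
  · subst h0
    simp [round_seq_zero, hG0]
  · rw [Finset.sum_range_succ]
    obtain ⟨m, rfl⟩ := Nat.exists_eq_add_of_lt hpos
    simp only [zero_add]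
    have h1 : ∑ x ∈ Finset.range (m + 1),
        (round_seq D G x).1.map D.ι * (round_seq D G (m + 1 - x)).2 =
        (round_seq D G (m + 1)).2 + round_mid D G (m + 1) := by
      unfold round_mid
      rw [Finset.sum_range_succ', Finset.sum_range_succ']
      simp only [if_true, add_zero]
      rw [add_comm]
      congr 1
      simp [round_seq_zero]
    rw [h1, Nat.sub_self, round_seq_zero D G]
    simp only [Matrix.mul_one]
    rw [round_seq_pos D G (m + 1) (by omega)]
    dsimp only
    abel

end aux

/-- ROUNDING. Every matrix `g ≡ 1 mod t ^ N` over `A⟦t⟧` factors as `g = γ h` with `γ` integral,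
`γ ≡ h ≡ 1 mod t ^ N` and all coefficients of `h - 1` small; if `g` itself is integral then
`γ = g`.
PROOF. Recursion on the coefficient matrices: `γ_0 = h_0 = 1`,
`c_n = g_n - ∑_{0 < i < n} γ_i h_{n-i}`, `γ_n = rnd c_n` (entrywise), `h_n = c_n - γ_n`
(`n ≥ 1`; `rnd 0 = rnd (ι 0) = 0`). -/
theorem round_factor {A₀ A : Type*} [CommRing A₀] [SN A₀] [CommRing A] [SN A] [Algebra ℝ A]
    (D : RoundData A₀ A) {O : Type*} [Fintype O] [DecidableEq O] (N : ℕ) (hN : 0 < N)
    (g : Matrix O O (PowerSeries A))
    (hg : ∀ i j, ModEq N (g i j) ((1 : Matrix O O (PowerSeries A)) i j)) :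
    ∃ (γ : Matrix O O (PowerSeries A₀)) (h : Matrix O O (PowerSeries A)),
      g = γ.map (PowerSeries.map D.ι) * h ∧
      (∀ i j, ModEq N (γ i j) ((1 : Matrix O O (PowerSeries A₀)) i j)) ∧
      (∀ i j, ModEq N (h i j) ((1 : Matrix O O (PowerSeries A)) i j)) ∧
      (∀ i j n, nn (PowerSeries.coeff n ((h - 1) i j)) ≤ D.c0) ∧
      (∀ γ₀ : Matrix O O (PowerSeries A₀), g = γ₀.map (PowerSeries.map D.ι) → γ = γ₀ ∧ h = 1) := by
  classical
  set G : ℕ → Matrix O O A := fun n => Matrix.of fun i j => PowerSeries.coeff n (g i j) with hGdef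
  have hG : ∀ n i j, G n i j = PowerSeries.coeff n (g i j) := fun n i j => rfl
  have hG0 : G 0 = 1 := by
    ext i j
    rw [hG, hg i j 0 hN, round_one]
    simp
  have hGN : ∀ n, n ≠ 0 → n < N → G n = 0 := by
    intro n hn hnN
    ext i j
    rw [hG, hg i j n hnN, round_one]
    simp [hn]
  have hrnd0 : D.rnd 0 = 0 := by
    have := D.rnd_ι 0
    rwa [map_zero] at this
  have hzero : ∀ n, n ≠ 0 → n < N → round_seq D G n = (0, 0) := by
    intro n
    induction n using Nat.strong_induction_on with
    | _ n ih =>
      intro hn hnN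
      have h1 : round_mid D G n = 0 := by
        unfold round_mid
        refine Finset.sum_eq_zero fun i hi => ?_
        split_ifs with h0
        · rfl
        · have hi' := Finset.mem_range.1 hi
          rw [ih i hi' h0 (by omega)]
          simp
      rw [round_seq_pos D G n hn, h1, hGN n hn hnN]
      have h2 : (0 - 0 : Matrix O O A).map D.rnd = 0 := by
        ext i j
        simp [hrnd0]
      rw [h2]
      simp
  refine ⟨Matrix.of fun i j => PowerSeries.mk fun n => (round_seq D G n).1 i j,
    Matrix.of fun i j => PowerSeries.mk fun n => (round_seq D G n).2 i j, ?_, ?_, ?_, ?_, ?_⟩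
  · ext i j n
    rw [Matrix.mul_apply, map_sum]
    simp_rw [PowerSeries.coeff_mul, Matrix.map_apply, Matrix.of_apply, PowerSeries.coeff_map,
      PowerSeries.coeff_mk]
    rw [Finset.sum_comm]
    have h1 := congrFun (congrFun (round_conv D G hG0 n) i) j
    rw [Matrix.sum_apply] at h1
    rw [hG] at h1
    rw [← h1]
    refine Finset.sum_congr rfl fun p _ => ?_
    rw [Matrix.mul_apply]
    rfl
  · intro i j n hn
    rw [round_one, Matrix.of_apply, PowerSeries.coeff_mk]
    by_cases h0 : n = 0
    · subst h0; simp [round_seq_zero]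
    · simp [h0, hzero n h0 hn]
  · intro i j n hn
    rw [round_one, Matrix.of_apply, PowerSeries.coeff_mk]
    by_cases h0 : n = 0
    · subst h0; simp [round_seq_zero]
    · simp [h0, hzero n h0 hn]
  · intro i j n
    rw [Matrix.sub_apply, map_sub, round_one, Matrix.of_apply, PowerSeries.coeff_mk]
    by_cases h0 : n = 0
    · subst h0
      have h1 : 0 ≤ D.c0 := (nn_nonneg _).trans (D.rnd_near 0)
      simpa [round_seq_zero] using h1
    · rw [if_neg h0, sub_zero, round_seq_pos D G n h0]
      simp only [Matrix.sub_apply, Matrix.map_apply]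
      exact D.rnd_near _
  · intro γ₀ hγ₀
    set Γ : ℕ → Matrix O O A₀ := fun n => Matrix.of fun i j => PowerSeries.coeff n (γ₀ i j)
      with hΓdef
    have hΓ : ∀ n, G n = (Γ n).map D.ι := by
      intro n
      ext i j
      rw [hG, hγ₀]
      simp [hΓdef]
    have hΓ0 : Γ 0 = 1 := by
      have h1 : (Γ 0).map D.ι = (1 : Matrix O O A₀).map D.ι := by
        rw [← hΓ 0, hG0]
        simp
      exact Matrix.map_injective D.ι_inj h1
    have hall : ∀ n, round_seq D G n = (Γ n, if n = 0 then 1 else 0) := by
      intro n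
      induction n using Nat.strong_induction_on with
      | _ n ih =>
        by_cases h0 : n = 0
        · subst h0; simp [round_seq_zero, hΓ0]
        · have h1 : round_mid D G n = 0 := by
            unfold round_mid
            refine Finset.sum_eq_zero fun i hi => ?_
            split_ifs with h2
            · rfl
            · have hi' := Finset.mem_range.1 hi
              rw [ih (n - i) (by omega)]
              simp [show n - i ≠ 0 by omega]
          rw [round_seq_pos D G n h0, h1, sub_zero, hΓ n, if_neg h0]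
          have h2 : ((Γ n).map D.ι).map D.rnd = Γ n := by
            ext i j
            simp [D.rnd_ι]
          rw [h2]
          simp
    constructor
    · ext i j n
      rw [Matrix.of_apply, PowerSeries.coeff_mk, hall n]
      rfl
    · ext i j n
      rw [Matrix.of_apply, PowerSeries.coeff_mk, hall n, round_one]
      by_cases h0 : n = 0 <;> simp [h0]

end Pool.Agent.H.MP_345fd7_an
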