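import Pool.Agent.H.MP_345fd7_an.Near
import Pool.Agent.H.MP_345fd7_an.Formal
import Pool.Agent.H.MP_345fd7_an.Round
import Pool.Agent.H.MP_345fd7_an.InvNear

/-! `SL_k (Zr r A₀)` with constant term one is elementary -/

set_option autoImplicit false
set_option linter.unusedSectionVars false

namespace Pool.Agent.H.MP_345fd7_an

open Matrix
open scoped NNReal

section maps

variable {A₀ A : Type*} [CommRing A₀] [SN A₀] [CommRing A] [SN A] [Algebra ℝ A]

lemma k1_pn_map (D : RoundData A₀ A) (r : ℝ≥0) (N : ℕ) (f : PowerSeries A₀) :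
    pn r N (PowerSeries.map D.ι f) = pn r N f := by
  unfold pn
  refine Finset.sum_congr rfl fun n _ => ?_
  rw [PowerSeries.coeff_map, D.nn_ι]

lemma k1_mem_of_map (D : RoundData A₀ A) (r : ℝ≥0) (f : PowerSeries A₀)
    (h : PowerSeries.map D.ι f ∈ Zr r A) : f ∈ Zr r A₀ := by
  obtain ⟨C, hC⟩ := h
  exact ⟨C, fun N => by rw [← k1_pn_map D]; exact hC N⟩

lemma k1_map_mem (D : RoundData A₀ A) (r : ℝ≥0) (f : PowerSeries A₀)
    (h : f ∈ Zr r A₀) : PowerSeries.map D.ι f ∈ Zr r A := by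
  obtain ⟨C, hC⟩ := h
  exact ⟨C, fun N => by rw [k1_pn_map D]; exact hC N⟩

/-- the map `Zr r A₀ → Zr r A` -/
noncomputable def k1_ι (D : RoundData A₀ A) (r : ℝ≥0) : Zr r A₀ →+* Zr r A :=
  ((PowerSeries.map D.ι).comp (Zr r A₀).subtype).codRestrict (Zr r A)
    (fun f => k1_map_mem D r f.1 f.2)

lemma k1_coe_ι (D : RoundData A₀ A) (r : ℝ≥0) (f : Zr r A₀) :
    ((k1_ι D r f : Zr r A) : PowerSeries A) = PowerSeries.map D.ι f := rfl

lemma k1_nn_ι (D : RoundData A₀ A) (r : ℝ≥0) (f : Zr r A₀) : nn (k1_ι D r f) = nn f := by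
  show (⨆ N, pn r N ((k1_ι D r f : Zr r A) : PowerSeries A)) =
    ⨆ N, pn r N (f : PowerSeries A₀)
  simp only [k1_coe_ι, k1_pn_map]

lemma k1_nn_ι_mat (D : RoundData A₀ A) (r : ℝ≥0) {O : Type*} [Fintype O] [DecidableEq O]
    (W : Matrix O O (Zr r A₀)) : nn (W.map (k1_ι D r)) = nn W := by
  rw [nn_matrix, nn_matrix]
  simp only [Matrix.map_apply, k1_nn_ι]

lemma k1_ι_inj (D : RoundData A₀ A) (r : ℝ≥0) : Function.Injective (k1_ι D r) := by
  intro f g hfg
  apply Subtype.ext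
  have h1 := congrArg (fun x : Zr r A => (x : PowerSeries A)) hfg
  simp only [k1_coe_ι] at h1
  ext n
  have h2 := congrArg (PowerSeries.coeff n) h1
  rw [PowerSeries.coeff_map, PowerSeries.coeff_map] at h2
  exact D.ι_inj h2

lemma k1_pn_rescale (D : RoundData A₀ A) (r : ℝ≥0) (s : ℝ) (hs0 : 0 ≤ s) (hs1 : s ≤ 1) (N : ℕ)
    (f : PowerSeries A) : pn r N (PowerSeries.rescale (algebraMap ℝ A s) f) ≤ pn r N f := by
  unfold pn
  refine Finset.sum_le_sum fun n _ => mul_le_mul_of_nonneg_right ?_ (by positivity)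
  rw [PowerSeries.coeff_rescale, ← map_pow, ← Algebra.smul_def, D.nn_smul, abs_pow,
    abs_of_nonneg hs0]
  exact mul_le_of_le_one_left (nn_nonneg _) (pow_le_one₀ hs0 hs1)

/-- the scaling `f(t) ↦ f(st)` -/
noncomputable def k1_sc (D : RoundData A₀ A) (r : ℝ≥0) (s : Set.Icc (0 : ℝ) 1) :
    Zr r A →+* Zr r A :=
  ((PowerSeries.rescale (algebraMap ℝ A s.1)).comp (Zr r A).subtype).codRestrict (Zr r A)
    (fun f => by
      obtain ⟨C, hC⟩ := f.2
      exact ⟨C, fun N => (k1_pn_rescale D r s.1 s.2.1 s.2.2 N f.1).trans (hC N)⟩)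

lemma k1_coe_sc (D : RoundData A₀ A) (r : ℝ≥0) (s : Set.Icc (0 : ℝ) 1) (f : Zr r A) :
    ((k1_sc D r s f : Zr r A) : PowerSeries A) =
      PowerSeries.rescale (algebraMap ℝ A s.1) (f : PowerSeries A) := rfl

lemma k1_nn_sc (D : RoundData A₀ A) (r : ℝ≥0) (s : Set.Icc (0 : ℝ) 1) (f : Zr r A) :
    nn (k1_sc D r s f) ≤ nn f :=
  nn_Zr_le fun N => (k1_pn_rescale D r s.1 s.2.1 s.2.2 N f.1).trans (pn_le_nn f N)

lemma k1_nn_sc_mat (D : RoundData A₀ A) (r : ℝ≥0) (s : Set.Icc (0 : ℝ) 1) {O : Type*} [Fintype O]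
    [DecidableEq O] (W : Matrix O O (Zr r A)) : nn (W.map (k1_sc D r s)) ≤ nn W := by
  rw [nn_matrix, nn_matrix]
  exact Finset.sum_le_sum fun i _ => Finset.sum_le_sum fun j _ => k1_nn_sc D r s _

/-- tail of the norm -/
lemma k1_tail (r : ℝ≥0) (f : Zr r A) {ε : ℝ} (hε : 0 < ε) :
    ∃ n₀ : ℕ, ∀ N, n₀ ≤ N → pn r N (f : PowerSeries A) - pn r n₀ (f : PowerSeries A) ≤ ε := by
  have h1 : nn f - ε < nn f := by linarith
  obtain ⟨n₀, hn₀⟩ := exists_lt_of_lt_ciSup h1
  refine ⟨n₀, fun N _ => ?_⟩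
  have h2 := pn_le_nn f N
  linarith

lemma k1_cont (D : RoundData A₀ A) (r : ℝ≥0) (f : Zr r A) {ε : ℝ} (hε : 0 < ε) :
    ∃ δ : ℝ, 0 < δ ∧ ∀ s s' : Set.Icc (0 : ℝ) 1, |(s' : ℝ) - s| ≤ δ →
      nn (k1_sc D r s' f - k1_sc D r s f) ≤ ε := by
  obtain ⟨n₀, hn₀⟩ := k1_tail r f (show (0 : ℝ) < ε / 2 by positivity)
  refine ⟨ε / (2 * (n₀ + 1) * (nn f + 1)), by have := nn_nonneg f; positivity,
    fun s s' hss => ?_⟩
  set δ := ε / (2 * (n₀ + 1) * (nn f + 1)) with hδ
  have hδ0 : 0 < δ := by have := nn_nonneg f; positivity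
  have hdiff : ∀ n : ℕ, |(s' : ℝ) ^ n - (s : ℝ) ^ n| ≤ n * |(s' : ℝ) - s| := by
    intro n
    induction n with
    | zero => simp
    | succ n ih =>
      have e1 : (s' : ℝ) ^ (n + 1) - (s : ℝ) ^ (n + 1) =
          (s' : ℝ) * ((s' : ℝ) ^ n - (s : ℝ) ^ n) + ((s' : ℝ) - s) * (s : ℝ) ^ n := by ring
      rw [e1]
      refine (abs_add_le _ _).trans ?_
      rw [abs_mul, abs_mul, abs_of_nonneg s'.2.1, abs_of_nonneg (pow_nonneg s.2.1 n)]
      have h1 : (s' : ℝ) * |(s' : ℝ) ^ n - (s : ℝ) ^ n| ≤ n * |(s' : ℝ) - s| :=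
        (mul_le_of_le_one_left (abs_nonneg _) s'.2.2).trans ih
      have h2 : |(s' : ℝ) - s| * (s : ℝ) ^ n ≤ |(s' : ℝ) - s| :=
        mul_le_of_le_one_right (abs_nonneg _) (pow_le_one₀ s.2.1 s.2.2)
      push_cast
      linarith
  have hdiff1 : ∀ n : ℕ, |(s' : ℝ) ^ n - (s : ℝ) ^ n| ≤ 1 := by
    intro n
    rw [abs_le]
    have h1 := pow_le_one₀ (n := n) s.2.1 s.2.2
    have h2 := pow_le_one₀ (n := n) s'.2.1 s'.2.2
    have h3 := pow_nonneg s.2.1 n
    have h4 := pow_nonneg s'.2.1 n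
    constructor <;> linarith
  have hcoef : ∀ n, nn (PowerSeries.coeff n
      ((k1_sc D r s' f - k1_sc D r s f : Zr r A) : PowerSeries A)) =
      |(s' : ℝ) ^ n - (s : ℝ) ^ n| * nn (PowerSeries.coeff n (f : PowerSeries A)) := by
    intro n
    have e1 : ((k1_sc D r s' f - k1_sc D r s f : Zr r A) : PowerSeries A) =
      PowerSeries.rescale (algebraMap ℝ A s'.1) (f : PowerSeries A) -
      PowerSeries.rescale (algebraMap ℝ A s.1) (f : PowerSeries A) := rfl
    rw [e1, map_sub, PowerSeries.coeff_rescale, PowerSeries.coeff_rescale, ← map_pow, ← map_pow,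
      ← Algebra.smul_def, ← Algebra.smul_def, ← sub_smul, D.nn_smul]
  refine nn_Zr_le fun N => ?_
  -- split the sum at `n₀`
  have hN : pn r N ((k1_sc D r s' f - k1_sc D r s f : Zr r A) : PowerSeries A) ≤
      pn r (max N n₀) ((k1_sc D r s' f - k1_sc D r s f : Zr r A) : PowerSeries A) :=
    pn_mono r (le_max_left _ _) _
  refine hN.trans ?_
  set M := max N n₀ with hM
  have hMn : n₀ ≤ M := le_max_right _ _
  unfold pn
  rw [← Finset.sum_range_add_sum_Ico _ hMn]
  have h1 : ∑ n ∈ Finset.range n₀, nn (PowerSeries.coeff n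
      ((k1_sc D r s' f - k1_sc D r s f : Zr r A) : PowerSeries A)) * (r : ℝ) ^ n ≤ ε / 2 := by
    calc ∑ n ∈ Finset.range n₀, nn (PowerSeries.coeff n
          ((k1_sc D r s' f - k1_sc D r s f : Zr r A) : PowerSeries A)) * (r : ℝ) ^ n
        ≤ ∑ n ∈ Finset.range n₀, (n₀ * δ) * (nn (PowerSeries.coeff n (f : PowerSeries A)) *
            (r : ℝ) ^ n) := by
          refine Finset.sum_le_sum fun n hn => ?_
          have hn' : n < n₀ := Finset.mem_range.1 hn
          rw [hcoef, mul_assoc]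
          refine mul_le_mul_of_nonneg_right ?_ (mul_nonneg (nn_nonneg _) (by positivity))
          refine (hdiff n).trans ?_
          have : (n : ℝ) ≤ n₀ := by exact_mod_cast hn'.le
          exact mul_le_mul this hss (abs_nonneg _) (by positivity)
      _ = (n₀ * δ) * pn r n₀ (f : PowerSeries A) := by rw [← Finset.mul_sum]; rfl
      _ ≤ (n₀ * δ) * nn f := mul_le_mul_of_nonneg_left (pn_le_nn f n₀) (by positivity)
      _ ≤ ((n₀ + 1) * δ) * (nn f + 1) := by
          have := nn_nonneg f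
          gcongr <;> linarith
      _ = ε / 2 := by
          have := nn_nonneg f
          rw [hδ]; field_simp
  have h2 : ∑ n ∈ Finset.Ico n₀ M, nn (PowerSeries.coeff n
      ((k1_sc D r s' f - k1_sc D r s f : Zr r A) : PowerSeries A)) * (r : ℝ) ^ n ≤ ε / 2 := by
    calc ∑ n ∈ Finset.Ico n₀ M, nn (PowerSeries.coeff n
          ((k1_sc D r s' f - k1_sc D r s f : Zr r A) : PowerSeries A)) * (r : ℝ) ^ n
        ≤ ∑ n ∈ Finset.Ico n₀ M, nn (PowerSeries.coeff n (f : PowerSeries A)) * (r : ℝ) ^ n := by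
          refine Finset.sum_le_sum fun n _ => ?_
          rw [hcoef]
          refine mul_le_mul_of_nonneg_right ?_ (by positivity)
          exact mul_le_of_le_one_left (nn_nonneg _) (hdiff1 n)
      _ = pn r M (f : PowerSeries A) - pn r n₀ (f : PowerSeries A) := by
          rw [Finset.sum_Ico_eq_sub _ hMn]; rfl
      _ ≤ ε / 2 := hn₀ M hMn
  linarith

lemma k1_cont_mat (D : RoundData A₀ A) (r : ℝ≥0) {O : Type*} [Fintype O] [DecidableEq O]
    (W : Matrix O O (Zr r A)) {ε : ℝ} (hε : 0 < ε) :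
    ∃ δ : ℝ, 0 < δ ∧ ∀ s s' : Set.Icc (0 : ℝ) 1, |(s' : ℝ) - s| ≤ δ →
      nn (W.map (k1_sc D r s') - W.map (k1_sc D r s)) ≤ ε := by
  classical
  have hc : 0 < ε / ((Fintype.card O : ℝ) * Fintype.card O + 1) := by positivity
  choose δ hδ0 hδ using fun p : O × O => k1_cont D r (W p.1 p.2) hc
  obtain ⟨δ', hδ'0, hδ'⟩ : ∃ δ' : ℝ, 0 < δ' ∧ ∀ p, δ' ≤ δ p := by
    rcases isEmpty_or_nonempty (O × O) with h | h
    · exact ⟨1, one_pos, fun p => h.elim p⟩
    · obtain ⟨p, -, hp⟩ := Finset.exists_min_image Finset.univ δ Finset.univ_nonempty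
      exact ⟨δ p, hδ0 p, fun q => hp q (Finset.mem_univ q)⟩
  refine ⟨δ', hδ'0, fun s s' hss => ?_⟩
  rw [nn_matrix]
  calc ∑ i, ∑ j, nn ((W.map (k1_sc D r s') - W.map (k1_sc D r s)) i j)
      ≤ ∑ _i : O, ∑ _j : O, ε / ((Fintype.card O : ℝ) * Fintype.card O + 1) :=
        Finset.sum_le_sum fun i _ => Finset.sum_le_sum fun j _ =>
          hδ (i, j) s s' (hss.trans (hδ' (i, j)))
    _ = ((Fintype.card O : ℝ) * Fintype.card O) *
          (ε / ((Fintype.card O : ℝ) * Fintype.card O + 1)) := by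
        simp only [Finset.sum_const, Finset.card_univ, nsmul_eq_mul]; ring
    _ ≤ ε := by
        rw [mul_div_assoc', div_le_iff₀ (by positivity)]
        nlinarith

end maps


section factor

variable {A₀ A : Type*} [CommRing A₀] [SN A₀] [CommRing A] [SN A] [Algebra ℝ A]

lemma k1_coe_mul {B : Type*} [CommRing B] [SN B] {r : ℝ≥0} {O : Type*} [Fintype O]
    [DecidableEq O] (P Q : Matrix O O (Zr r B)) :
    (P * Q).map (Zr r B).subtype = P.map (Zr r B).subtype * Q.map (Zr r B).subtype :=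
  Matrix.map_mul

lemma k1_coe_one {B : Type*} [CommRing B] [SN B] {r : ℝ≥0} {O : Type*} [Fintype O]
    [DecidableEq O] : (1 : Matrix O O (Zr r B)).map (Zr r B).subtype = 1 := by
  simp

lemma k1_coe_inj {B : Type*} [CommRing B] [SN B] {r : ℝ≥0} {O : Type*}
    {P Q : Matrix O O (Zr r B)} (h : P.map (Zr r B).subtype = Q.map (Zr r B).subtype) :
    P = Q := by
  ext i j : 2
  exact congrFun (congrFun h i) j

lemma k1_geom (r : ℝ≥0) (hr1 : r < 1) (c : ℝ) (hc : 0 ≤ c) (N M : ℕ) (f : PowerSeries A)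
    (h1 : ∀ n, n < N → PowerSeries.coeff n f = 0) (h2 : ∀ n, nn (PowerSeries.coeff n f) ≤ c) :
    pn r M f ≤ c * (r : ℝ) ^ N / (1 - r) := by
  have hr1' : (r : ℝ) < 1 := by exact_mod_cast hr1
  have h3 : ∀ n, nn (PowerSeries.coeff n f) * (r : ℝ) ^ n ≤
      if n < N then 0 else c * (r : ℝ) ^ n := by
    intro n
    split_ifs with hn
    · rw [h1 n hn]; simp
    · exact mul_le_mul_of_nonneg_right (h2 n) (by positivity)
  unfold pn
  refine (Finset.sum_le_sum fun n _ => h3 n).trans ?_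
  have h4 : ∀ M, ∑ n ∈ Finset.range M, (if n < N then 0 else c * (r : ℝ) ^ n) ≤
      c * ((r : ℝ) ^ N - (r : ℝ) ^ (max M N)) / (1 - r) := by
    intro M
    induction M with
    | zero => simp
    | succ M ih =>
      rw [Finset.sum_range_succ]
      split_ifs with hn
      · rw [add_zero]
        refine ih.trans (le_of_eq ?_)
        rw [max_eq_right (by omega), max_eq_right (by omega)]
      · push Not at hn
        rw [max_eq_left hn] at ih
        rw [max_eq_left (by omega)]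
        refine (add_le_add_left ih _).trans (le_of_eq ?_)
        have h5 : (1 - (r : ℝ)) ≠ 0 := by linarith
        field_simp
        ring
  refine (h4 M).trans ?_
  have h5 : (0 : ℝ) < 1 - r := by linarith
  gcongr
  have : (0 : ℝ) ≤ (r : ℝ) ^ (max M N) := by positivity
  linarith

theorem k1_factor (D : RoundData A₀ A) (r : ℝ≥0) (hr0 : 0 < r) (hr1 : r < 1)
    {O : Type*} [Fintype O] [DecidableEq O] (N : ℕ) (hN : 0 < N)
    (hsmall : (Fintype.card O : ℝ) * ((Fintype.card O : ℝ) * (D.c0 * (r : ℝ) ^ N / (1 - r))) ≤ 1 / 8)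
    (W Winv : Matrix O O (Zr r A₀)) (hW : W * Winv = 1)
    (hmod : ∀ i j, ModEq N (W i j : PowerSeries A₀) ((1 : Matrix O O (PowerSeries A₀)) i j))
    (s : Set.Icc (0 : ℝ) 1) :
    ∃ (γ γ' : Matrix O O (Zr r A₀)) (h h' : Matrix O O (Zr r A)), γ * γ' = 1 ∧
      γ.map (k1_ι D r) = (W.map (k1_ι D r)).map (k1_sc D r s) * h' ∧
      γ'.map (k1_ι D r) = h * (Winv.map (k1_ι D r)).map (k1_sc D r s) ∧
      nn (h - 1) ≤ 1 / 8 ∧ nn (h' - 1) ≤ 1 / 7 ∧
      ∀ γ₀ : Matrix O O (Zr r A₀),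
        (W.map (k1_ι D r)).map (k1_sc D r s) = γ₀.map (k1_ι D r) → γ = γ₀ := by
  classical
  have hr1' : (r : ℝ) < 1 := by exact_mod_cast hr1
  have hc0 : 0 ≤ D.c0 := (nn_nonneg _).trans (D.rnd_near 0)
  set g : Matrix O O (PowerSeries A) :=
    ((W.map (k1_ι D r)).map (k1_sc D r s)).map (Zr r A).subtype with hg
  set ginv : Matrix O O (PowerSeries A) :=
    ((Winv.map (k1_ι D r)).map (k1_sc D r s)).map (Zr r A).subtype with hginv
  have hgg : g * ginv = 1 := by
    rw [hg, hginv, ← k1_coe_mul, ← Matrix.map_mul, ← Matrix.map_mul, hW]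
    simp
  have hgc : ∀ i j n, PowerSeries.coeff n (g i j) =
      (algebraMap ℝ A s.1) ^ n * D.ι (PowerSeries.coeff n (W i j : PowerSeries A₀)) := by
    intro i j n
    show PowerSeries.coeff n (PowerSeries.rescale (algebraMap ℝ A s.1)
      (PowerSeries.map D.ι (W i j : PowerSeries A₀))) = _
    rw [PowerSeries.coeff_rescale, PowerSeries.coeff_map]
  have hgmod : ∀ i j, ModEq N (g i j) ((1 : Matrix O O (PowerSeries A)) i j) := by
    intro i j n hn
    rw [hgc, hmod i j n hn]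
    by_cases hij : i = j
    · subst hij
      rw [Matrix.one_apply_eq, Matrix.one_apply_eq, PowerSeries.coeff_one, PowerSeries.coeff_one]
      split_ifs with h0
      · subst h0; simp
      · simp
    · rw [Matrix.one_apply_ne hij, Matrix.one_apply_ne hij]; simp
  obtain ⟨γp, hp, hfac, hγmod, hhmod, hhc, huniq⟩ := round_factor D N hN g hgmod
  -- `h`
  have hh1 : ∀ i j M, pn r M ((hp - 1) i j) ≤ D.c0 * (r : ℝ) ^ N / (1 - r) := by
    intro i j M
    refine k1_geom r hr1 D.c0 hc0 N M _ (fun n hn => ?_) (fun n => hhc i j n)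
    rw [Matrix.sub_apply, map_sub, hhmod i j n hn, sub_self]
  have hhmem : ∀ i j, hp i j ∈ Zr r A := by
    intro i j
    have h1 : (hp - 1) i j ∈ Zr r A := ⟨_, hh1 i j⟩
    have h2 : (1 : Matrix O O (PowerSeries A)) i j ∈ Zr r A := by
      by_cases hij : i = j
      · subst hij; rw [Matrix.one_apply_eq]; exact (Zr r A).one_mem
      · rw [Matrix.one_apply_ne hij]; exact (Zr r A).zero_mem
    have h3 := (Zr r A).add_mem h1 h2
    rwa [← Matrix.add_apply, sub_add_cancel] at h3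
  let h : Matrix O O (Zr r A) := Matrix.of fun i j => ⟨hp i j, hhmem i j⟩
  have hcoeh : h.map (Zr r A).subtype = hp := by ext i j; rfl
  have hnnh : nn (h - 1) ≤ 1 / 8 := by
    rw [nn_matrix]
    have h1 : ∀ i j, nn ((h - 1) i j) ≤ D.c0 * (r : ℝ) ^ N / (1 - r) := by
      intro i j
      refine nn_Zr_le fun M => ?_
      have e1 : (((h - 1) i j : Zr r A) : PowerSeries A) = (hp - 1) i j := by
        have e2 : (h - 1).map (Zr r A).subtype = hp - 1 := by
          rw [Matrix.map_sub _ (fun a b => map_sub _ a b), hcoeh, k1_coe_one]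
        exact congrFun (congrFun e2 i) j
      rw [e1]; exact hh1 i j M
    calc ∑ i, ∑ j, nn ((h - 1) i j) ≤ ∑ _i : O, ∑ _j : O, D.c0 * (r : ℝ) ^ N / (1 - r) :=
          Finset.sum_le_sum fun i _ => Finset.sum_le_sum fun j _ => h1 i j
      _ = (Fintype.card O : ℝ) * ((Fintype.card O : ℝ) * (D.c0 * (r : ℝ) ^ N / (1 - r))) := by
          simp only [Finset.sum_const, Finset.card_univ, nsmul_eq_mul]
      _ ≤ 1 / 8 := hsmall
  have hhcc : h.map (cc : Zr r A →+* A) = 1 := by
    ext i j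
    show PowerSeries.constantCoeff (hp i j) = _
    rw [← PowerSeries.coeff_zero_eq_constantCoeff_apply, hhmod i j 0 hN]
    by_cases hij : i = j
    · subst hij; simp
    · simp [Matrix.one_apply_ne hij]
  obtain ⟨h', hh', hh'', hnnh'⟩ := inv_near h hhcc (by linarith)
  have hnnh7 : nn (h' - 1) ≤ 1 / 7 := by
    have h1 : nn (h' - 1) * (7 / 8) ≤ nn (h' - 1) * (1 - nn (h - 1)) :=
      mul_le_mul_of_nonneg_left (by linarith) (nn_nonneg _)
    linarith
  -- `γ`
  have hpp' : hp * h'.map (Zr r A).subtype = 1 := by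
    rw [← hcoeh, ← k1_coe_mul, hh', k1_coe_one]
  have hγp : γp.map (PowerSeries.map D.ι) = g * h'.map (Zr r A).subtype := by
    rw [hfac, Matrix.mul_assoc, hpp', Matrix.mul_one]
  have hγmem : ∀ i j, γp i j ∈ Zr r A₀ := by
    intro i j
    apply k1_mem_of_map D
    have h1 := congrFun (congrFun hγp i) j
    rw [Matrix.map_apply] at h1
    rw [h1, hg, ← k1_coe_mul]
    exact Subtype.property _
  let γ : Matrix O O (Zr r A₀) := Matrix.of fun i j => ⟨γp i j, hγmem i j⟩
  have hcoeγ : γ.map (Zr r A₀).subtype = γp := by ext i j; rfl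
  have hγι : γ.map (k1_ι D r) = (W.map (k1_ι D r)).map (k1_sc D r s) * h' := by
    apply k1_coe_inj
    rw [k1_coe_mul, ← hg, ← hγp]
    ext i j; rfl
  -- `γ'`
  have hdet : IsUnit γp.det := by
    rw [PowerSeries.isUnit_iff_constantCoeff, RingHom.map_det]
    have e1 : (PowerSeries.constantCoeff (R := A₀)).mapMatrix γp = 1 := by
      ext i j
      rw [RingHom.mapMatrix_apply, Matrix.map_apply, ← PowerSeries.coeff_zero_eq_constantCoeff_apply,
        hγmod i j 0 hN]
      by_cases hij : i = j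
      · subst hij; simp
      · simp [Matrix.one_apply_ne hij]
    rw [e1, Matrix.det_one]
    exact isUnit_one
  have hY1 : γp * γp⁻¹ = 1 := Matrix.mul_nonsing_inv γp hdet
  have hY2 : γp⁻¹ * γp = 1 := Matrix.nonsing_inv_mul γp hdet
  have hY3 : (γp⁻¹).map (PowerSeries.map D.ι) = hp * ginv := by
    have e1 : (γp⁻¹).map (PowerSeries.map D.ι) * γp.map (PowerSeries.map D.ι) = 1 := by
      rw [← Matrix.map_mul, hY2]; simp
    have e2 : γp.map (PowerSeries.map D.ι) * (hp * ginv) = 1 := by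
      rw [← Matrix.mul_assoc, ← hfac, hgg]
    calc (γp⁻¹).map (PowerSeries.map D.ι)
        = (γp⁻¹).map (PowerSeries.map D.ι) * (γp.map (PowerSeries.map D.ι) * (hp * ginv)) := by
          rw [e2, Matrix.mul_one]
      _ = hp * ginv := by rw [← Matrix.mul_assoc, e1, Matrix.one_mul]
  have hγ'mem : ∀ i j, (γp⁻¹) i j ∈ Zr r A₀ := by
    intro i j
    apply k1_mem_of_map D
    have h1 := congrFun (congrFun hY3 i) j
    rw [Matrix.map_apply] at h1
    rw [h1, hginv, ← hcoeh, ← k1_coe_mul]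
    exact Subtype.property _
  let γ' : Matrix O O (Zr r A₀) := Matrix.of fun i j => ⟨(γp⁻¹) i j, hγ'mem i j⟩
  have hcoeγ' : γ'.map (Zr r A₀).subtype = γp⁻¹ := by ext i j; rfl
  refine ⟨γ, γ', h, h', ?_, hγι, ?_, hnnh, hnnh7, ?_⟩
  · apply k1_coe_inj
    rw [k1_coe_mul, hcoeγ, hcoeγ', hY1, k1_coe_one]
  · apply k1_coe_inj
    rw [k1_coe_mul, ← hginv, hcoeh, ← hY3]
    ext i j; rfl
  · intro γ₀ hγ₀
    apply k1_coe_inj
    rw [hcoeγ]
    refine (huniq (γ₀.map (Zr r A₀).subtype) ?_).1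
    rw [hg, hγ₀]
    ext i j; rfl

end factor


section main

variable {A₀ A : Type*} [CommRing A₀] [SN A₀] [CommRing A] [SN A] [Algebra ℝ A]

lemma k1_prod_telescope {S : Type*} [Ring S] (a b : ℕ → S) (hab : ∀ i, a i * b i = 1) (K : ℕ) :
    ((List.range K).map fun i => b i * a (i + 1)).prod = b 0 * a K ∨ K = 0 := by
  induction K with
  | zero => right; rfl
  | succ K ih =>
    left
    rw [List.range_succ, List.map_append, List.prod_append]
    rcases ih with ih | ih
    · rw [ih]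
      simp only [List.map_cons, List.map_nil, List.prod_cons, List.prod_nil, mul_one]
      rw [mul_assoc, ← mul_assoc (a K), hab, one_mul]
    · subst ih
      simp

/-- the path argument, for a matrix congruent to one modulo a high power of `t` -/
theorem k1_core (D : RoundData A₀ A) (r : ℝ≥0) (hr0 : 0 < r) (hr1 : r < 1)
    {O : Type*} [Fintype O] [DecidableEq O] (N : ℕ) (hN : 0 < N)
    (hsmall : (Fintype.card O : ℝ) * ((Fintype.card O : ℝ) * (D.c0 * (r : ℝ) ^ N / (1 - r))) ≤ 1 / 8)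
    (W : Matrix O O (Zr r A₀)) (hdet : W.det = 1)
    (hmod : ∀ i j, ModEq N (W i j : PowerSeries A₀) ((1 : Matrix O O (PowerSeries A₀)) i j)) :
    W ∈ Elem O (Zr r A₀) := by
  classical
  have hW : W * W.adjugate = 1 := by rw [Matrix.mul_adjugate, hdet, one_smul]
  have hW' : W.adjugate * W = 1 := by rw [Matrix.adjugate_mul, hdet, one_smul]
  choose γ γ' h h' h1 h2 h3 h4 h5 h6 using
    k1_factor D r hr0 hr1 N hN hsmall W W.adjugate hW hmod
  set ιW := W.map (k1_ι D r) with hιW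
  set ιV := W.adjugate.map (k1_ι D r) with hιV
  obtain ⟨δ, hδ0, hδ⟩ := k1_cont_mat D r ιW
    (show (0 : ℝ) < 1 / (8 * (nn ιV + 1)) by have := nn_nonneg ιV; positivity)
  -- nearby points
  have hnear : ∀ s s' : Set.Icc (0 : ℝ) 1, |(s' : ℝ) - s| ≤ δ → nn (γ' s * γ s' - 1) < 1 := by
    intro s s' hss
    rw [← k1_nn_ι_mat D]
    have e1 : (γ' s * γ s' - 1).map (k1_ι D r) =
        h s * (ιV.map (k1_sc D r s)) * ((ιW.map (k1_sc D r s')) * h' s') - 1 := by
      rw [Matrix.map_sub _ (fun a b => map_sub _ a b), Matrix.map_mul, h2, h3]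
      congr 1
      simp
    rw [e1]
    set a := h s - 1 with ha
    set c := h' s' - 1 with hc
    set b := (ιV.map (k1_sc D r s)) * (ιW.map (k1_sc D r s') - ιW.map (k1_sc D r s)) with hb
    have hVW : (ιV.map (k1_sc D r s)) * (ιW.map (k1_sc D r s)) = 1 := by
      rw [← Matrix.map_mul, hιV, hιW, ← Matrix.map_mul, hW']
      simp
    have e2 : h s * (ιV.map (k1_sc D r s)) * ((ιW.map (k1_sc D r s')) * h' s') - 1 =
        a + b + c + a * b + a * c + b * c + a * b * c := by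
      have e3 : h s = 1 + a := by rw [ha]; abel
      have e4 : h' s' = 1 + c := by rw [hc]; abel
      have e5 : (ιV.map (k1_sc D r s)) * (ιW.map (k1_sc D r s')) = 1 + b := by
        rw [hb, Matrix.mul_sub, hVW]; abel
      have e6 : h s * (ιV.map (k1_sc D r s)) * ((ιW.map (k1_sc D r s')) * h' s') =
          h s * ((ιV.map (k1_sc D r s)) * (ιW.map (k1_sc D r s'))) * h' s' := by
        simp only [Matrix.mul_assoc]
      rw [e6, e5, e3, e4]
      noncomm_ring
    rw [e2]
    have ha' : nn a ≤ 1 / 8 := h4 s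
    have hc' : nn c ≤ 1 / 7 := h5 s'
    have hb' : nn b ≤ 1 / 8 := by
      refine (nn_mul _ _).trans ?_
      have h7 : nn (ιV.map (k1_sc D r s)) ≤ nn ιV := k1_nn_sc_mat D r s ιV
      have h8 := hδ s s' hss
      calc nn (ιV.map (k1_sc D r s)) * nn (ιW.map (k1_sc D r s') - ιW.map (k1_sc D r s))
          ≤ nn ιV * (1 / (8 * (nn ιV + 1))) :=
            mul_le_mul h7 h8 (nn_nonneg _) (nn_nonneg _)
        _ ≤ (nn ιV + 1) * (1 / (8 * (nn ιV + 1))) :=
            mul_le_mul_of_nonneg_right (by linarith) (by have := nn_nonneg ιV; positivity)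
        _ = 1 / 8 := by
            have := nn_nonneg ιV
            field_simp
    have na := nn_nonneg a
    have nb := nn_nonneg b
    have nc := nn_nonneg c
    have hab : nn (a * b) ≤ 1 / 8 * (1 / 8) :=
      (nn_mul _ _).trans (mul_le_mul ha' hb' nb (by norm_num))
    have hac : nn (a * c) ≤ 1 / 8 * (1 / 7) :=
      (nn_mul _ _).trans (mul_le_mul ha' hc' nc (by norm_num))
    have hbc : nn (b * c) ≤ 1 / 8 * (1 / 7) :=
      (nn_mul _ _).trans (mul_le_mul hb' hc' nc (by norm_num))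
    have habc : nn (a * b * c) ≤ 1 / 8 * (1 / 8) * (1 / 7) :=
      (nn_mul _ _).trans (mul_le_mul hab hc' nc (by norm_num))
    have t1 := nn_add (a + b + c + a * b + a * c + b * c) (a * b * c)
    have t2 := nn_add (a + b + c + a * b + a * c) (b * c)
    have t3 := nn_add (a + b + c + a * b) (a * c)
    have t4 := nn_add (a + b + c) (a * b)
    have t5 := nn_add (a + b) c
    have t6 := nn_add a b
    linarith
  -- partition
  obtain ⟨K, hK⟩ := exists_nat_gt (1 / δ)
  have hK0 : 0 < K := by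
    have h7 : (0 : ℝ) < K := lt_trans (by positivity) hK
    exact_mod_cast h7
  have hK0' : (0 : ℝ) < K := by exact_mod_cast hK0
  have hKδ : 1 / (K : ℝ) ≤ δ := by
    rw [div_le_iff₀ hK0']
    have := (div_lt_iff₀ hδ0).1 hK
    linarith
  let pt : ℕ → Set.Icc (0 : ℝ) 1 := fun i => ⟨min ((i : ℝ) / K) 1,
    le_min (by positivity) zero_le_one, min_le_right _ _⟩
  have hpt : ∀ i, |((pt (i + 1) : Set.Icc (0 : ℝ) 1) : ℝ) - pt i| ≤ δ := by
    intro i
    show |min (((i + 1 : ℕ) : ℝ) / K) 1 - min ((i : ℝ) / K) 1| ≤ δ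
    refine (abs_min_sub_min_le_max _ _ _ _).trans ?_
    rw [sub_self, abs_zero, ← sub_div]
    push_cast
    rw [add_sub_cancel_left, abs_of_nonneg (by positivity), max_eq_left (by positivity)]
    exact hKδ
  have hprod := k1_prod_telescope (fun i => γ (pt i)) (fun i => γ' (pt i))
    (fun i => h1 (pt i)) K
  have hprod' : ((List.range K).map fun i => γ' (pt i) * γ (pt (i + 1))).prod =
      γ' (pt 0) * γ (pt K) := by
    rcases hprod with h7 | h7
    · exact h7
    · omega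
  -- the end points
  have hone : ∀ s : Set.Icc (0 : ℝ) 1, (s : ℝ) = 1 → γ s = W := by
    intro s hs
    apply h6 s W
    ext i j : 2
    show PowerSeries.rescale (algebraMap ℝ A s.1) (PowerSeries.map D.ι (W i j : PowerSeries A₀)) = _
    rw [hs, map_one, PowerSeries.rescale_one]
    rfl
  have hzero : ∀ s : Set.Icc (0 : ℝ) 1, (s : ℝ) = 0 → γ s = 1 := by
    intro s hs
    apply h6 s 1
    ext i j : 2
    show PowerSeries.rescale (algebraMap ℝ A s.1) (PowerSeries.map D.ι (W i j : PowerSeries A₀)) =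
      PowerSeries.map D.ι (((1 : Matrix O O (Zr r A₀)) i j : Zr r A₀) : PowerSeries A₀)
    have e1 : (((1 : Matrix O O (Zr r A₀)) i j : Zr r A₀) : PowerSeries A₀) =
        (1 : Matrix O O (PowerSeries A₀)) i j := by
      by_cases hij : i = j
      · subst hij; simp
      · simp [Matrix.one_apply_ne hij]
    rw [hs, map_zero, e1]
    ext n
    rw [PowerSeries.coeff_rescale, PowerSeries.coeff_map, PowerSeries.coeff_map]
    rcases Nat.eq_zero_or_pos n with hn | hn
    · subst hn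
      rw [pow_zero, one_mul, hmod i j 0 hN]
    · rw [zero_pow hn.ne', zero_mul]
      by_cases hij : i = j
      · subst hij
        rw [Matrix.one_apply_eq, PowerSeries.coeff_one, if_neg hn.ne', map_zero]
      · rw [Matrix.one_apply_ne hij, map_zero, map_zero]
  have hp0 : γ' (pt 0) = 1 := by
    have h7 := h1 (pt 0)
    rw [hzero (pt 0) (by simp [pt]), Matrix.one_mul] at h7
    exact h7
  have hpK : γ (pt K) = W := by
    apply hone
    simp [pt, div_self hK0'.ne']
  rw [hp0, hpK, Matrix.one_mul] at hprod'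
  rw [← hprod']
  refine prod_near_mem_Elem (fun x hx => hinv_Zr ?_ D.disc x hx) _ ?_ ?_
  · rw [← D.nn_ι, map_one]; exact D.one_le
  · intro V hV
    obtain ⟨i, -, rfl⟩ := List.mem_map.1 hV
    exact hnear _ _ (hpt i)
  · rw [hprod', hdet]

/-- `SL_k (Zr r A₀)` with constant term one is elementary -/
theorem K1 (D : RoundData A₀ A) (r : ℝ≥0) (hr0 : 0 < r) (hr1 : r < 1)
    {O : Type*} [Fintype O] [DecidableEq O] (W : Matrix O O (Zr r A₀))
    (hdet : W.det = 1) (h0 : W.map (cc : Zr r A₀ →+* A₀) = 1) :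
    W ∈ Elem O (Zr r A₀) := by
  classical
  have hr1' : (r : ℝ) < 1 := by exact_mod_cast hr1
  have hr0' : (0 : ℝ) < r := by exact_mod_cast hr0
  -- choose `N`
  obtain ⟨N, hN, hsmall⟩ : ∃ N : ℕ, 0 < N ∧
      (Fintype.card O : ℝ) * ((Fintype.card O : ℝ) * (D.c0 * (r : ℝ) ^ N / (1 - r))) ≤ 1 / 8 := by
    have t1 : Filter.Tendsto (fun N : ℕ => (Fintype.card O : ℝ) *
        ((Fintype.card O : ℝ) * (D.c0 * (r : ℝ) ^ N / (1 - r)))) Filter.atTop
        (nhds ((Fintype.card O : ℝ) * ((Fintype.card O : ℝ) * (D.c0 * 0 / (1 - r))))) := by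
      refine Filter.Tendsto.const_mul _ (Filter.Tendsto.const_mul _
        (Filter.Tendsto.div_const (Filter.Tendsto.const_mul _ ?_) _))
      exact tendsto_pow_atTop_nhds_zero_of_lt_one hr0'.le hr1'
    simp only [mul_zero, zero_div] at t1
    obtain ⟨N, hN⟩ := Filter.eventually_atTop.1
      (t1.eventually (gt_mem_nhds (show (0 : ℝ) < 1 / 8 by norm_num)))
    exact ⟨N + 1, Nat.succ_pos _, (hN (N + 1) (by omega)).le⟩
  -- formal elementary factorisation
  set Wp : Matrix O O (PowerSeries A₀) := W.map (Zr r A₀).subtype with hWp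
  have hWpdet : Wp.det = 1 := by
    have := (RingHom.map_det (Zr r A₀).subtype W)
    rw [hdet, map_one] at this
    exact this.symm
  have hWp0 : Wp.map (PowerSeries.constantCoeff (R := A₀)) = 1 := by
    rw [← h0]; ext i j; rfl
  obtain ⟨E, hE, hEmod⟩ := elem_trunc r (elem_formal Wp hWpdet hWp0) N
  obtain ⟨E', hE', hEE', hE'E⟩ := exists_inv_of_mem_Elem hE
  have hmem : E' * W ∈ Elem O (Zr r A₀) := by
    refine k1_core D r hr0 hr1 N hN hsmall (E' * W) ?_ ?_
    · rw [Matrix.det_mul, det_of_mem_Elem hE', hdet, one_mul]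
    · intro i j n hn
      have e1 : (((E' * W) i j : Zr r A₀) : PowerSeries A₀) =
          (E'.map (Zr r A₀).subtype * Wp) i j := by
        rw [hWp, ← k1_coe_mul]; rfl
      have e2 : (1 : Matrix O O (PowerSeries A₀)) i j =
          (E'.map (Zr r A₀).subtype * E.map (Zr r A₀).subtype) i j := by
        rw [← k1_coe_mul, hE'E, k1_coe_one]
      rw [e1, e2, Matrix.mul_apply, Matrix.mul_apply, map_sum, map_sum]
      refine Finset.sum_congr rfl fun l _ => ?_
      rw [PowerSeries.coeff_mul, PowerSeries.coeff_mul]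
      refine Finset.sum_congr rfl fun p hp => ?_
      have hp' := Finset.HasAntidiagonal.mem_antidiagonal.1 hp
      congr 1
      exact hEmod l j p.2 (by omega)
  have hfin : W = E * (E' * W) := by
    rw [← Matrix.mul_assoc, hEE', Matrix.one_mul]
  rw [hfin]
  exact Submonoid.mul_mem _ hE hmem

end main

end Pool.Agent.H.MP_345fd7_an
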