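import Pool.Agent.H.MP_345fd7_an.Prop5
import Pool.Agent.H.MP_345fd7_an.K1

/-! Polynomial approximation of equivalences over `Zr r A₀` -/

set_option autoImplicit false

namespace Pool.Agent.H.MP_345fd7_an

open Matrix Polynomial
open scoped NNReal

/-- truncations converge -/
theorem approx_elt {A : Type*} [CommRing A] [SN A] (r : ℝ≥0) (f : Zr r A) {ε : ℝ} (hε : 0 < ε) :
    ∃ g : Polynomial A, nn (f - toZr r g) < ε := by
  have hlt : nn f - ε < ⨆ N, pn r N (f : PowerSeries A) := by
    show nn f - ε < nn f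
    linarith
  obtain ⟨N, hN⟩ := exists_lt_of_lt_ciSup hlt
  refine ⟨PowerSeries.trunc N (f : PowerSeries A), lt_of_le_of_lt (nn_Zr_le (C := nn f -
    pn r N (f : PowerSeries A)) fun M => ?_) (by linarith)⟩
  have hcoe : (((f - toZr r (PowerSeries.trunc N (f : PowerSeries A)) : Zr r A)) : PowerSeries A) =
      (f : PowerSeries A) - ((PowerSeries.trunc N (f : PowerSeries A) : Polynomial A) :
        PowerSeries A) := rfl
  rw [hcoe]
  have hc : ∀ n, nn (PowerSeries.coeff n ((f : PowerSeries A) -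
      ((PowerSeries.trunc N (f : PowerSeries A) : Polynomial A) : PowerSeries A))) =
      if n < N then 0 else nn (PowerSeries.coeff n (f : PowerSeries A)) := by
    intro n
    rw [map_sub, Polynomial.coeff_coe, PowerSeries.coeff_trunc]
    split_ifs <;> simp
  have hle : pn r M ((f : PowerSeries A) -
      ((PowerSeries.trunc N (f : PowerSeries A) : Polynomial A) : PowerSeries A)) ≤
      pn r (max M N) (f : PowerSeries A) - pn r N (f : PowerSeries A) := by
    refine (pn_mono r (le_max_left M N) _).trans (le_of_eq ?_)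
    unfold pn
    rw [← Finset.sum_range_add_sum_Ico _ (le_max_right M N),
      ← Finset.sum_range_add_sum_Ico (fun n => nn (PowerSeries.coeff n (f : PowerSeries A)) *
        (r : ℝ) ^ n) (le_max_right M N), add_sub_cancel_left]
    have h1 : ∑ n ∈ Finset.range N, nn (PowerSeries.coeff n ((f : PowerSeries A) -
      ((PowerSeries.trunc N (f : PowerSeries A) : Polynomial A) : PowerSeries A))) *
        (r : ℝ) ^ n = 0 := by
      refine Finset.sum_eq_zero fun n hn => ?_
      rw [hc, if_pos (Finset.mem_range.1 hn), zero_mul]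
    rw [h1, zero_add]
    refine Finset.sum_congr rfl fun n hn => ?_
    rw [hc, if_neg (not_lt.2 (Finset.mem_Ico.1 hn).1)]
  have := pn_le_nn f (max M N)
  linarith

lemma approx_nn_single {A : Type*} [CommRing A] [SN A] {O : Type*} [Fintype O]
    [DecidableEq O] (i j : O) (c : A) : nn (Matrix.single i j c) = nn c := by
  rw [nn_matrix, Finset.sum_eq_single i, Finset.sum_eq_single j]
  · rw [Matrix.single_apply_same]
  · intro b _ hb
    rw [Matrix.single_apply, if_neg (fun h => hb h.2.symm), nn_zero]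
  · intro h; exact absurd (Finset.mem_univ _) h
  · intro b _ hb
    refine Finset.sum_eq_zero fun b' _ => ?_
    rw [Matrix.single_apply, if_neg (fun h => hb h.1.symm), nn_zero]
  · intro h; exact absurd (Finset.mem_univ _) h

/-- Elements of `Elem O (Zr r A)` are limits of polynomial matrices of determinant one.
(The set of `E` for which this holds is closed under products.) -/
theorem approx_Elem {A : Type*} [CommRing A] [SN A] (r : ℝ≥0) {O : Type*} [Fintype O]
    [DecidableEq O] {E : Matrix O O (Zr r A)} (hE : E ∈ Elem O (Zr r A)) {ε : ℝ} (hε : 0 < ε) :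
    ∃ E' : Matrix O O (Polynomial A), E'.det = 1 ∧ nn (E - E'.map (toZr r)) < ε := by
  induction hE using Submonoid.closure_induction generalizing ε with
  | mem x hx =>
    obtain ⟨i, j, h, c, rfl⟩ := hx
    obtain ⟨g, hg⟩ := approx_elt r c hε
    refine ⟨Matrix.transvection i j g, Matrix.det_transvection_of_ne i j h g, ?_⟩
    have : (Matrix.transvection i j g).map (toZr r) =
        Matrix.transvection i j (toZr r g : Zr r A) := by
      rw [Matrix.transvection, Matrix.transvection, Matrix.map_add _ (map_add _),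
        Matrix.map_one _ (map_zero _) (map_one _), Matrix.map_single]
    have h2 : Matrix.single i j c - Matrix.single i j (toZr r g : Zr r A) =
        Matrix.single i j (c - toZr r g) := by
      rw [sub_eq_iff_eq_add, ← Matrix.single_add, sub_add_cancel]
    rw [this, Matrix.transvection, Matrix.transvection, add_sub_add_left_eq_sub,
      h2, approx_nn_single]
    exact hg
  | one =>
    refine ⟨1, Matrix.det_one, ?_⟩
    rw [Matrix.map_one _ (map_zero _) (map_one _), sub_self, nn_zero]
    exact hε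
  | mul x y _ _ hx hy =>
    set δ : ℝ := min 1 (ε / (2 * (nn x + nn y + 2))) with hδ
    have hx0 := nn_nonneg x
    have hy0 := nn_nonneg y
    have hpos : 0 < 2 * (nn x + nn y + 2) := by linarith
    have hδ0 : 0 < δ := lt_min one_pos (div_pos hε hpos)
    have hδ1 : δ ≤ 1 := min_le_left _ _
    have hδ2 : δ * (2 * (nn x + nn y + 2)) ≤ ε := by
      rw [← le_div_iff₀ hpos]; exact min_le_right _ _
    obtain ⟨x', hx1, hx2⟩ := hx hδ0
    obtain ⟨y', hy1, hy2⟩ := hy hδ0
    refine ⟨x' * y', by rw [Matrix.det_mul, hx1, hy1, one_mul], ?_⟩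
    rw [Matrix.map_mul]
    have h1 : x * y - x'.map (toZr r) * y'.map (toZr r) =
        x * (y - y'.map (toZr r)) + (x - x'.map (toZr r)) * y'.map (toZr r) := by
      rw [Matrix.mul_sub, Matrix.sub_mul]; abel
    have h2 : nn (y'.map (toZr r) : Matrix O O (Zr r A)) ≤ nn y + 1 := by
      have : (y'.map (toZr r) : Matrix O O (Zr r A)) = y - (y - y'.map (toZr r)) := by abel
      rw [this]
      refine (nn_sub _ _).trans ?_
      linarith
    rw [h1]
    have h3 := nn_add (x * (y - y'.map (toZr r))) ((x - x'.map (toZr r)) * y'.map (toZr r))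
    have h4 := nn_mul x (y - y'.map (toZr r))
    have h5 := nn_mul (x - x'.map (toZr r)) (y'.map (toZr r))
    have h6 : nn x * nn (y - y'.map (toZr r)) ≤ nn x * δ :=
      mul_le_mul_of_nonneg_left hy2.le hx0
    have h7 : nn (x - x'.map (toZr r)) * nn (y'.map (toZr r) : Matrix O O (Zr r A)) ≤
        δ * (nn y + 1) :=
      mul_le_mul hx2.le h2 (nn_nonneg _) hδ0.le
    nlinarith

/-- Two polynomial matrices with the same determinant `p` are approximately equivalent. -/
theorem approx_main {A₀ A : Type*} [CommRing A₀] [SN A₀] [CommRing A] [SN A] [Algebra ℝ A]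
    (D : RoundData A₀ A) (r : ℝ≥0) (hr0 : 0 < r) (hr1 : r < 1)
    (ev : Zr r A₀ →+* ℝ) (hsurj : ∀ c : ℝ, ∃ f : Zr r A₀, cc f = 0 ∧ ev f = c)
    (p : Polynomial A₀) (hp0 : ev (toZr r p) = 0) (hp1 : p.coeff 0 = 1)
    (hker : ∀ f, ev f = 0 → toZr r p ∣ f)
    {O : Type*} [Fintype O] [DecidableEq O] (P₁ P₂ : Matrix O O (Polynomial A₀))
    (h1 : P₁.det = p) (h2 : P₂.det = p)
    (c1 : ∀ i j, (P₁ i j).coeff 0 = (1 : Matrix O O A₀) i j)
    (c2 : ∀ i j, (P₂ i j).coeff 0 = (1 : Matrix O O A₀) i j) {ε : ℝ} (hε : 0 < ε) :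
    ∃ E F : Matrix O O (Polynomial A₀), E.det = 1 ∧ F.det = 1 ∧
      nn ((P₁ - E * P₂ * F).map (toZr r)) < ε := by
  have hreg : ∀ x : Zr r A₀, toZr r p * x = 0 → x = 0 := by
    intro x hx
    have hx' : (p : PowerSeries A₀) * (x : PowerSeries A₀) = 0 := by
      have := congrArg (Subtype.val) hx
      exact this
    have hu : IsUnit (p : PowerSeries A₀) := by
      rw [PowerSeries.isUnit_iff_constantCoeff]
      rw [← PowerSeries.coeff_zero_eq_constantCoeff_apply, Polynomial.coeff_coe, hp1]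
      exact isUnit_one
    apply Subtype.ext
    exact (hu.mul_right_eq_zero).1 hx'
  have hcc : ∀ P : Matrix O O (Polynomial A₀),
      (∀ i j, (P i j).coeff 0 = (1 : Matrix O O A₀) i j) →
      (P.map (toZr r)).map (cc : Zr r A₀ →+* A₀) = 1 := by
    intro P hP
    ext i j
    rw [Matrix.map_apply, Matrix.map_apply, cc_apply, coe_toZr,
      ← PowerSeries.coeff_zero_eq_constantCoeff_apply, Polynomial.coeff_coe, hP]
  have hdet : ∀ P : Matrix O O (Polynomial A₀), P.det = p →
      (P.map (toZr r)).det = (toZr r p : Zr r A₀) := by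
    intro P hP
    have := RingHom.map_det (toZr r : Polynomial A₀ →+* Zr r A₀) P
    rw [← hP, this]
    rfl
  obtain ⟨G, hG, W, hGW, hW1, hW2⟩ := prop5 (cc : Zr r A₀ →+* A₀) ev hsurj (toZr r p) hp0 hker
    hreg (P₁.map (toZr r)) (P₂.map (toZr r)) (hdet _ h1) (hdet _ h2) (hcc _ c1) (hcc _ c2)
  have hW := K1 D r hr0 hr1 W hW1 hW2
  obtain ⟨G', hG', hGG', hG'G⟩ := exists_inv_of_mem_Elem hG
  set Q : Matrix O O (Zr r A₀) := P₂.map (toZr r) with hQ
  have hP1 : P₁.map (toZr r) = G' * Q * W := by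
    have : G' * (G * P₁.map (toZr r)) = G' * (Q * W) := by rw [hGW]
    rw [← Matrix.mul_assoc, hG'G, Matrix.one_mul] at this
    rw [this, Matrix.mul_assoc]
  have hg0 := nn_nonneg G'
  have hw0 := nn_nonneg W
  have hq0 := nn_nonneg Q
  set K : ℝ := nn Q * nn W + (nn G' + 1) * nn Q + 1 with hK
  have hK0 : 0 < K := by positivity
  set δ : ℝ := min 1 (ε / (2 * K)) with hδ
  have hδ0 : 0 < δ := lt_min one_pos (div_pos hε (by linarith))
  have hδ1 : δ ≤ 1 := min_le_left _ _
  have hδ2 : δ * (2 * K) ≤ ε := by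
    rw [← le_div_iff₀ (by linarith)]; exact min_le_right _ _
  obtain ⟨E, hE1, hE2⟩ := approx_Elem r hG' hδ0
  obtain ⟨F, hF1, hF2⟩ := approx_Elem r hW hδ0
  refine ⟨E, F, hE1, hF1, ?_⟩
  rw [Matrix.map_sub _ (map_sub _), Matrix.map_mul, Matrix.map_mul, hP1]
  have e1 : G' * Q * W - E.map (toZr r) * Q * F.map (toZr r) =
      (G' - E.map (toZr r)) * (Q * W) + (E.map (toZr r) * Q) * (W - F.map (toZr r)) := by
    simp only [Matrix.sub_mul, Matrix.mul_sub, Matrix.mul_assoc]
    abel
  have e2 : nn (E.map (toZr r) : Matrix O O (Zr r A₀)) ≤ nn G' + 1 := by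
    have : (E.map (toZr r) : Matrix O O (Zr r A₀)) = G' - (G' - E.map (toZr r)) := by abel
    rw [this]
    refine (nn_sub _ _).trans ?_
    linarith
  rw [e1]
  have h3 := nn_add ((G' - E.map (toZr r)) * (Q * W))
    ((E.map (toZr r) * Q) * (W - F.map (toZr r)))
  have h4 := nn_mul (G' - E.map (toZr r)) (Q * W)
  have h5 := nn_mul (E.map (toZr r) * Q) (W - F.map (toZr r))
  have h6 := nn_mul Q W
  have h7 := nn_mul (E.map (toZr r) : Matrix O O (Zr r A₀)) Q
  have h8 : nn (G' - E.map (toZr r)) * nn (Q * W) ≤ δ * (nn Q * nn W) :=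
    mul_le_mul hE2.le h6 (nn_nonneg _) hδ0.le
  have h9 : nn (E.map (toZr r) : Matrix O O (Zr r A₀)) * nn Q ≤ (nn G' + 1) * nn Q :=
    mul_le_mul_of_nonneg_right e2 hq0
  have h10 : nn (E.map (toZr r) * Q) * nn (W - F.map (toZr r)) ≤ ((nn G' + 1) * nn Q) * δ :=
    mul_le_mul (h7.trans h9) hF2.le (nn_nonneg _) (by positivity)
  have h11 : δ * (nn Q * nn W) + ((nn G' + 1) * nn Q) * δ < δ * (2 * K) := by
    have : δ * (nn Q * nn W) + ((nn G' + 1) * nn Q) * δ = δ * (K - 1) := by rw [hK]; ring
    rw [this]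
    exact mul_lt_mul_of_pos_left (by linarith) hδ0
  linarith

end Pool.Agent.H.MP_345fd7_an
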