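import Mathlib

/-!
# MP_345fd7_an : basic definitions

* `SN A` : a (real valued) submultiplicative seminorm on a ring (no topology involved).
* `Zr r A` : the subring of `PowerSeries A` of the series with `∑ nn (coeff n f) * r ^ n < ∞`.
* `Elem O S` : the monoid generated by the transvections in `Matrix O O S`.
* `Nn x`, `PNn f` : coefficientwise nonnegativity in `ℤG` and `ℤG[X]`.
* `CokIso P Q` : the cokernels of `P` and `Q` are isomorphic (explicit matrices).
-/

set_option autoImplicit false
set_option linter.unusedSectionVars false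

namespace Pool.Agent.H.MP_345fd7_an

open Finset
open scoped NNReal Matrix

/-- A real valued submultiplicative seminorm on a ring. -/
class SN (A : Type*) [Ring A] where
  nn : A → ℝ
  nonneg' : ∀ a, 0 ≤ nn a
  zero' : nn 0 = 0
  neg' : ∀ a, nn (-a) = nn a
  add' : ∀ a b, nn (a + b) ≤ nn a + nn b
  mul' : ∀ a b, nn (a * b) ≤ nn a * nn b

export SN (nn)

section SNbasic

variable {A : Type*} [Ring A] [SN A]

lemma nn_nonneg (a : A) : 0 ≤ nn a := SN.nonneg' a
@[simp] lemma nn_zero : nn (0 : A) = 0 := SN.zero'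
@[simp] lemma nn_neg (a : A) : nn (-a) = nn a := SN.neg' a
lemma nn_add (a b : A) : nn (a + b) ≤ nn a + nn b := SN.add' a b
lemma nn_mul (a b : A) : nn (a * b) ≤ nn a * nn b := SN.mul' a b
lemma nn_sub (a b : A) : nn (a - b) ≤ nn a + nn b := by
  rw [sub_eq_add_neg]; simpa using nn_add a (-b)
lemma nn_sub_comm (a b : A) : nn (a - b) = nn (b - a) := by
  rw [← nn_neg, neg_sub]

lemma nn_sum {ι : Type*} (s : Finset ι) (f : ι → A) :
    nn (∑ i ∈ s, f i) ≤ ∑ i ∈ s, nn (f i) := by
  classical
  induction s using Finset.induction_on with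
  | empty => simp
  | insert a s ha ih =>
    rw [Finset.sum_insert ha, Finset.sum_insert ha]
    exact (nn_add _ _).trans (by gcongr)

end SNbasic

instance : SN ℤ where
  nn a := |(a : ℝ)|
  nonneg' a := abs_nonneg _
  zero' := by simp
  neg' a := by simp
  add' a b := by push_cast; exact abs_add_le _ _
  mul' a b := by push_cast; exact (abs_mul _ _).le

instance : SN ℝ where
  nn a := |a|
  nonneg' a := abs_nonneg _
  zero' := by simp
  neg' a := by simp
  add' a b := abs_add_le _ _
  mul' a b := (abs_mul _ _).le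

lemma nn_int (a : ℤ) : nn a = |(a : ℝ)| := rfl
lemma nn_real (a : ℝ) : nn a = |a| := rfl

/-- the entry sum norm on square matrices -/
instance instSNMatrix {A : Type*} [Ring A] [SN A] {O : Type*} [Fintype O] [DecidableEq O] :
    SN (Matrix O O A) where
  nn W := ∑ i, ∑ j, nn (W i j)
  nonneg' W := Finset.sum_nonneg fun i _ => Finset.sum_nonneg fun j _ => nn_nonneg _
  zero' := by simp
  neg' W := by simp
  add' W V := by
    rw [← Finset.sum_add_distrib]
    refine Finset.sum_le_sum fun i _ => ?_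
    rw [← Finset.sum_add_distrib]
    exact Finset.sum_le_sum fun j _ => nn_add _ _
  mul' W V := by
    have h1 : ∀ i j, nn ((W * V) i j) ≤ ∑ l, nn (W i l) * nn (V l j) := by
      intro i j
      rw [Matrix.mul_apply]
      exact (nn_sum _ _).trans (Finset.sum_le_sum fun l _ => nn_mul _ _)
    calc ∑ i, ∑ j, nn ((W * V) i j) ≤ ∑ i, ∑ j, ∑ l, nn (W i l) * nn (V l j) :=
          Finset.sum_le_sum fun i _ => Finset.sum_le_sum fun j _ => h1 i j
      _ = ∑ i, ∑ l, nn (W i l) * ∑ j, nn (V l j) := by
          refine Finset.sum_congr rfl fun i _ => ?_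
          rw [Finset.sum_comm]
          exact Finset.sum_congr rfl fun l _ => by rw [Finset.mul_sum]
      _ ≤ ∑ i, ∑ l, nn (W i l) * ∑ l', ∑ j, nn (V l' j) := by
          refine Finset.sum_le_sum fun i _ => Finset.sum_le_sum fun l _ => ?_
          refine mul_le_mul_of_nonneg_left ?_ (nn_nonneg _)
          exact Finset.single_le_sum (f := fun l' => ∑ j, nn (V l' j))
            (fun l' _ => Finset.sum_nonneg fun j _ => nn_nonneg _) (Finset.mem_univ l)
      _ = (∑ i, ∑ l, nn (W i l)) * ∑ l', ∑ j, nn (V l' j) := by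
          rw [Finset.sum_mul]
          exact Finset.sum_congr rfl fun i _ => by rw [Finset.sum_mul]

lemma nn_matrix {A : Type*} [Ring A] [SN A] {O : Type*} [Fintype O] [DecidableEq O]
    (W : Matrix O O A) : nn W = ∑ i, ∑ j, nn (W i j) := rfl

lemma nn_entry_le {A : Type*} [Ring A] [SN A] {O : Type*} [Fintype O] [DecidableEq O]
    (W : Matrix O O A) (i j : O) : nn (W i j) ≤ nn W := by
  rw [nn_matrix]
  refine le_trans ?_ (Finset.single_le_sum (f := fun i => ∑ j, nn (W i j))
    (fun l' _ => Finset.sum_nonneg fun j _ => nn_nonneg _) (Finset.mem_univ i))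
  exact Finset.single_le_sum (f := fun j => nn (W i j))
    (fun l' _ => nn_nonneg _) (Finset.mem_univ j)

section GroupRing

variable {k : Type*} [CommRing k] {G : Type*} [CommGroup G] [Fintype G]

lemma coeff_mul_sum (x y : MonoidAlgebra k G) (g : G) :
    (x * y).coeff g = ∑ h, x.coeff h * y.coeff (h⁻¹ * g) := by
  classical
  rw [MonoidAlgebra.coeff_mul_apply_left, Finsupp.sum_fintype]
  intro i; simp

/-- the `ℓ¹` norm on the group ring -/
instance instSNMonoidAlgebra [SN k] : SN (MonoidAlgebra k G) where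
  nn x := ∑ g, nn (x.coeff g)
  nonneg' x := Finset.sum_nonneg fun i _ => nn_nonneg _
  zero' := by simp
  neg' x := by simp
  add' x y := by
    rw [← Finset.sum_add_distrib]
    exact Finset.sum_le_sum fun g _ => nn_add _ _
  mul' x y := by
    have h1 : ∀ g, nn ((x * y).coeff g) ≤ ∑ h, nn (x.coeff h) * nn (y.coeff (h⁻¹ * g)) := by
      intro g
      rw [coeff_mul_sum]
      exact (nn_sum _ _).trans (Finset.sum_le_sum fun l _ => nn_mul _ _)
    calc ∑ g, nn ((x * y).coeff g) ≤ ∑ g, ∑ h, nn (x.coeff h) * nn (y.coeff (h⁻¹ * g)) :=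
          Finset.sum_le_sum fun g _ => h1 g
      _ = ∑ h, nn (x.coeff h) * ∑ g, nn (y.coeff (h⁻¹ * g)) := by
          rw [Finset.sum_comm]
          exact Finset.sum_congr rfl fun l _ => by rw [Finset.mul_sum]
      _ = ∑ h, nn (x.coeff h) * ∑ g, nn (y.coeff g) := by
          refine Finset.sum_congr rfl fun h _ => ?_
          congr 1
          exact Fintype.sum_equiv (Equiv.mulLeft h⁻¹) _ _ fun g => rfl
      _ = _ := by rw [Finset.sum_mul]

lemma nn_monoidAlgebra [SN k] (x : MonoidAlgebra k G) : nn x = ∑ g, nn (x.coeff g) := rfl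

lemma nn_coeff_le [SN k] (x : MonoidAlgebra k G) (g : G) : nn (x.coeff g) ≤ nn x :=
  Finset.single_le_sum (f := fun g => nn (x.coeff g)) (fun _ _ => nn_nonneg _) (Finset.mem_univ g)

end GroupRing

section PS

/-- partial weighted norms of a power series -/
noncomputable def pn (r : ℝ≥0) {A : Type*} [CommRing A] [SN A] (N : ℕ) (f : PowerSeries A) : ℝ :=
  ∑ n ∈ range N, nn (PowerSeries.coeff n f) * (r : ℝ) ^ n

variable {A : Type*} [CommRing A] [SN A] (r : ℝ≥0)

lemma pn_nonneg (N : ℕ) (f : PowerSeries A) : 0 ≤ pn r N f :=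
  Finset.sum_nonneg fun _ _ => mul_nonneg (nn_nonneg _) (by positivity)

lemma pn_mono {N M : ℕ} (h : N ≤ M) (f : PowerSeries A) : pn r N f ≤ pn r M f :=
  Finset.sum_le_sum_of_subset_of_nonneg (by simpa using h)
    fun _ _ _ => mul_nonneg (nn_nonneg _) (by positivity)

lemma pn_zero (N : ℕ) : pn r N (0 : PowerSeries A) = 0 := by simp [pn]

lemma pn_neg (N : ℕ) (f : PowerSeries A) : pn r N (-f) = pn r N f := by simp [pn]

lemma pn_add (N : ℕ) (f g : PowerSeries A) : pn r N (f + g) ≤ pn r N f + pn r N g := by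
  unfold pn
  rw [← Finset.sum_add_distrib]
  refine Finset.sum_le_sum fun n _ => ?_
  rw [← add_mul, map_add]
  exact mul_le_mul_of_nonneg_right (nn_add _ _) (by positivity)

lemma pn_mul (N : ℕ) (f g : PowerSeries A) : pn r N (f * g) ≤ pn r N f * pn r N g := by
  unfold pn
  have h1 : ∀ n ∈ range N, nn (PowerSeries.coeff n (f * g)) * (r : ℝ) ^ n ≤
      ∑ p ∈ (range N ×ˢ range N).filter (fun p => p.1 + p.2 = n),
        (nn (PowerSeries.coeff p.1 f) * (r : ℝ) ^ p.1) *
          (nn (PowerSeries.coeff p.2 g) * (r : ℝ) ^ p.2) := by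
    intro n hn
    rw [PowerSeries.coeff_mul]
    have h2 : antidiagonal n = (range N ×ˢ range N).filter (fun p => p.1 + p.2 = n) := by
      ext p
      simp only [Finset.HasAntidiagonal.mem_antidiagonal, mem_filter, mem_product, mem_range] at *
      omega
    rw [← h2]
    calc nn (∑ p ∈ antidiagonal n, PowerSeries.coeff p.1 f * PowerSeries.coeff p.2 g) * (r : ℝ) ^ n
        ≤ (∑ p ∈ antidiagonal n,
            nn (PowerSeries.coeff p.1 f) * nn (PowerSeries.coeff p.2 g)) * (r : ℝ) ^ n := by
          refine mul_le_mul_of_nonneg_right ?_ (by positivity)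
          exact (nn_sum _ _).trans (Finset.sum_le_sum fun l _ => nn_mul _ _)
      _ = _ := by
          rw [Finset.sum_mul]
          refine Finset.sum_congr rfl fun p hp => ?_
          rw [← Finset.HasAntidiagonal.mem_antidiagonal.1 hp, pow_add]; ring
  refine (Finset.sum_le_sum h1).trans ?_
  rw [Finset.sum_mul_sum, ← Finset.sum_product', ← Finset.sum_biUnion]
  · refine Finset.sum_le_sum_of_subset_of_nonneg ?_ ?_
    · intro p hp
      simp only [mem_biUnion, mem_filter] at hp
      obtain ⟨_, _, hp, _⟩ := hp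
      exact hp
    · intro p _ _
      exact mul_nonneg (mul_nonneg (nn_nonneg _) (by positivity))
        (mul_nonneg (nn_nonneg _) (by positivity))
  · intro a _ b _ hab
    simp only [Function.onFun]
    rw [Finset.disjoint_left]
    intro p hp hp'
    simp only [mem_filter] at hp hp'
    exact hab (hp.2.symm.trans hp'.2)

/-- power series with coefficients in `A` whose weighted norm is finite -/
noncomputable def Zr (r : ℝ≥0) (A : Type*) [CommRing A] [SN A] : Subring (PowerSeries A) where
  carrier := {f | ∃ C : ℝ, ∀ N, pn r N f ≤ C}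
  mul_mem' := by
    rintro f g ⟨C, hC⟩ ⟨D, hD⟩
    refine ⟨C * D, fun N => (pn_mul r N f g).trans ?_⟩
    exact mul_le_mul (hC N) (hD N) (pn_nonneg r N g) ((pn_nonneg r N f).trans (hC N))
  one_mem' := by
    refine ⟨nn (1 : A), fun N => ?_⟩
    unfold pn
    rcases Nat.eq_zero_or_pos N with h | h
    · subst h; simpa using nn_nonneg (1 : A)
    · rw [Finset.sum_eq_single 0]
      · simp
      · intro b _ hb
        simp [PowerSeries.coeff_one, hb]
      · intro h'; simp at h'; omega
  add_mem' := by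
    rintro f g ⟨C, hC⟩ ⟨D, hD⟩
    exact ⟨C + D, fun N => (pn_add r N f g).trans (add_le_add (hC N) (hD N))⟩
  zero_mem' := ⟨0, fun N => (pn_zero r N).le⟩
  neg_mem' := by
    rintro f ⟨C, hC⟩
    exact ⟨C, fun N => by rw [pn_neg]; exact hC N⟩

lemma mem_Zr {f : PowerSeries A} : f ∈ Zr r A ↔ ∃ C : ℝ, ∀ N, pn r N f ≤ C := Iff.rfl

variable {r}

lemma bddAbove_pn (f : Zr r A) : BddAbove (Set.range fun N => pn r N (f : PowerSeries A)) := by
  obtain ⟨C, hC⟩ := f.2
  exact ⟨C, by rintro _ ⟨N, rfl⟩; exact hC N⟩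

/-- the weighted `ℓ¹` norm -/
noncomputable instance instSNZr : SN (Zr r A) where
  nn f := ⨆ N, pn r N (f : PowerSeries A)
  nonneg' f := (pn_nonneg r 0 _).trans (le_ciSup (bddAbove_pn f) 0)
  zero' := by simp [pn_zero]
  neg' f := by simp [pn_neg]
  add' f g := by
    refine ciSup_le fun N => (pn_add r N _ _).trans ?_
    exact add_le_add (le_ciSup (bddAbove_pn f) N) (le_ciSup (bddAbove_pn g) N)
  mul' f g := by
    refine ciSup_le fun N => (pn_mul r N _ _).trans ?_
    exact mul_le_mul (le_ciSup (bddAbove_pn f) N) (le_ciSup (bddAbove_pn g) N) (pn_nonneg r N _)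
      ((pn_nonneg r 0 _).trans (le_ciSup (bddAbove_pn f) 0))

lemma pn_le_nn (f : Zr r A) (N : ℕ) : pn r N (f : PowerSeries A) ≤ nn f :=
  le_ciSup (bddAbove_pn f) N

lemma nn_Zr_le {f : Zr r A} {C : ℝ} (h : ∀ N, pn r N (f : PowerSeries A) ≤ C) : nn f ≤ C :=
  ciSup_le h

/-- constant coefficient on `Zr` -/
noncomputable def cc : Zr r A →+* A := (PowerSeries.constantCoeff).comp (Zr r A).subtype

lemma cc_apply (f : Zr r A) : cc f = PowerSeries.constantCoeff (f : PowerSeries A) := rfl

lemma poly_mem_Zr (f : Polynomial A) : (f : PowerSeries A) ∈ Zr r A := by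
  refine ⟨∑ n ∈ range (f.natDegree + 1), nn (f.coeff n) * (r : ℝ) ^ n, fun N => ?_⟩
  rcases le_total N (f.natDegree + 1) with h | h
  · refine (pn_mono r h _).trans (le_of_eq ?_)
    unfold pn
    exact Finset.sum_congr rfl fun n _ => by simp
  · unfold pn
    refine le_of_eq (Eq.symm ?_)
    refine (Finset.sum_subset (range_subset_range.2 h) ?_).trans
      (Finset.sum_congr rfl fun n _ => by simp)
    intro n _ hn
    have : f.natDegree < n := by simpa [Nat.lt_succ_iff] using hn
    simp [Polynomial.coeff_eq_zero_of_natDegree_lt this]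

/-- polynomials as elements of `Zr` -/
noncomputable def toZr (r : ℝ≥0) {A : Type*} [CommRing A] [SN A] : Polynomial A →+* Zr r A :=
  (Polynomial.coeToPowerSeries.ringHom).codRestrict (Zr r A) (fun f => poly_mem_Zr f)

@[simp] lemma coe_toZr (f : Polynomial A) : ((toZr r f : Zr r A) : PowerSeries A) = f := rfl

end PS

/-- the monoid generated by the elementary matrices (transvections) -/
def Elem (O S : Type*) [Fintype O] [DecidableEq O] [CommRing S] : Submonoid (Matrix O O S) :=
  Submonoid.closure {M | ∃ i j : O, i ≠ j ∧ ∃ c : S, M = Matrix.transvection i j c}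

section Elem

variable {O S : Type*} [Fintype O] [DecidableEq O] [CommRing S]

lemma transvection_mem_Elem {i j : O} (h : i ≠ j) (c : S) : Matrix.transvection i j c ∈ Elem O S :=
  Submonoid.subset_closure ⟨i, j, h, c, rfl⟩

lemma det_of_mem_Elem {M : Matrix O O S} (hM : M ∈ Elem O S) : M.det = 1 := by
  induction hM using Submonoid.closure_induction with
  | mem x hx =>
    obtain ⟨i, j, h, c, rfl⟩ := hx
    exact Matrix.det_transvection_of_ne i j h c
  | one => simp
  | mul x y _ _ hx hy => rw [Matrix.det_mul, hx, hy, one_mul]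

lemma exists_inv_of_mem_Elem {M : Matrix O O S} (hM : M ∈ Elem O S) :
    ∃ N ∈ Elem O S, M * N = 1 ∧ N * M = 1 := by
  induction hM using Submonoid.closure_induction with
  | mem x hx =>
    obtain ⟨i, j, h, c, rfl⟩ := hx
    refine ⟨Matrix.transvection i j (-c), transvection_mem_Elem h _, ?_, ?_⟩
    · rw [Matrix.transvection_mul_transvection_same i j h]; simp
    · rw [Matrix.transvection_mul_transvection_same i j h]; simp
  | one => exact ⟨1, Submonoid.one_mem _, by simp, by simp⟩
  | mul x y _ _ hx hy =>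
    obtain ⟨x', hx', h1, h2⟩ := hx
    obtain ⟨y', hy', h3, h4⟩ := hy
    refine ⟨y' * x', Submonoid.mul_mem _ hy' hx', ?_, ?_⟩
    · rw [Matrix.mul_assoc, ← Matrix.mul_assoc y, h3, Matrix.one_mul, h1]
    · rw [Matrix.mul_assoc, ← Matrix.mul_assoc x', h2, Matrix.one_mul, h4]

lemma map_mem_Elem {T : Type*} [CommRing T] (φ : S →+* T) {M : Matrix O O S} (hM : M ∈ Elem O S) :
    M.map φ ∈ Elem O T := by
  induction hM using Submonoid.closure_induction with
  | mem x hx =>
    obtain ⟨i, j, h, c, rfl⟩ := hx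
    have : (Matrix.transvection i j c).map φ = Matrix.transvection i j (φ c) := by
      ext a b
      by_cases hab : a = b
      · subst hab
        simp only [Matrix.transvection, Matrix.map_apply, Matrix.add_apply, Matrix.one_apply,
          Matrix.single_apply, map_add]
        split_ifs <;> simp
      · simp only [Matrix.transvection, Matrix.map_apply, Matrix.add_apply, Matrix.one_apply,
          Matrix.single_apply, map_add, hab, if_false, map_zero]
        split_ifs <;> simp
    rw [this]
    exact transvection_mem_Elem h _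
  | one =>
    have : (1 : Matrix O O S).map φ = 1 := by
      simp
    rw [this]; exact Submonoid.one_mem _
  | mul x y _ _ hx hy =>
    rw [Matrix.map_mul]; exact Submonoid.mul_mem _ hx hy

end Elem

/-- explicit form of : the cokernels of `P` and `Q` are isomorphic -/
def CokIso {S : Type*} [CommRing S] {a b : Type*} [Fintype a] [DecidableEq a] [Fintype b]
    [DecidableEq b] (P : Matrix a a S) (Q : Matrix b b S) : Prop :=
  ∃ (X X' : Matrix b a S) (Y Y' : Matrix a b S) (Z : Matrix b b S) (Z' : Matrix a a S),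
    X * P = Q * X' ∧ Y * Q = P * Y' ∧ X * Y + Q * Z = 1 ∧ Y * X + P * Z' = 1

section Positivity

variable {G : Type*} [CommGroup G]

/-- coefficientwise nonnegative elements of `ℤG` -/
def Nn (x : MonoidAlgebra ℤ G) : Prop := ∀ g, 0 ≤ x.coeff g

/-- polynomials over `ℤG` all of whose coefficients are nonnegative -/
def PNn (f : Polynomial (MonoidAlgebra ℤ G)) : Prop := ∀ n, Nn (f.coeff n)

lemma Nn.zero : Nn (0 : MonoidAlgebra ℤ G) := fun g => by simp

lemma Nn.add {x y : MonoidAlgebra ℤ G} (hx : Nn x) (hy : Nn y) : Nn (x + y) := fun g => by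
  simpa using add_nonneg (hx g) (hy g)

lemma Nn.single (g : G) {n : ℤ} (hn : 0 ≤ n) : Nn (MonoidAlgebra.single g n) := fun h => by
  classical
  rw [MonoidAlgebra.coeff_single, Finsupp.single_apply]
  split_ifs
  · exact hn
  · exact le_rfl

lemma Nn.of (g : G) : Nn (MonoidAlgebra.of ℤ G g) := Nn.single g zero_le_one

lemma Nn.one : Nn (1 : MonoidAlgebra ℤ G) := Nn.of 1

lemma Nn.sum {ι : Type*} (s : Finset ι) (f : ι → MonoidAlgebra ℤ G) (h : ∀ i ∈ s, Nn (f i)) :
    Nn (∑ i ∈ s, f i) := by
  classical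
  induction s using Finset.induction_on with
  | empty => simpa using Nn.zero
  | insert a s ha ih =>
    rw [Finset.sum_insert ha]
    exact (h a (by simp)).add (ih fun i hi => h i (by simp [hi]))

lemma Nn.mul [Fintype G] {x y : MonoidAlgebra ℤ G} (hx : Nn x) (hy : Nn y) : Nn (x * y) :=
  fun g => by
    rw [coeff_mul_sum]
    exact Finset.sum_nonneg fun h _ => mul_nonneg (hx _) (hy _)

lemma mem_closure_iff_Nn [Fintype G] (x : MonoidAlgebra ℤ G) :
    x ∈ AddSubmonoid.closure (Set.range (MonoidAlgebra.of ℤ G)) ↔ Nn x := by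
  classical
  constructor
  · intro h
    induction h using AddSubmonoid.closure_induction with
    | mem x hx => obtain ⟨g, rfl⟩ := hx; exact Nn.of g
    | zero => exact Nn.zero
    | add x y _ _ hx hy => exact hx.add hy
  · intro h
    have h1 : x = ∑ g, (x.coeff g).toNat • MonoidAlgebra.of ℤ G g := by
      apply MonoidAlgebra.ext
      ext g
      rw [MonoidAlgebra.coeff_sum, Finsupp.finsetSum_apply]
      rw [Finset.sum_eq_single g]
      · rw [MonoidAlgebra.coeff_smul_apply, MonoidAlgebra.of_apply,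
          MonoidAlgebra.coeff_single, Finsupp.single_apply]
        simp [Int.toNat_of_nonneg (h g)]
      · intro b _ hb
        rw [MonoidAlgebra.coeff_smul_apply, MonoidAlgebra.of_apply,
          MonoidAlgebra.coeff_single, Finsupp.single_apply]
        simp [hb]
      · simp
    rw [h1]
    exact AddSubmonoid.sum_mem _ fun g _ => AddSubmonoid.nsmul_mem _
      (AddSubmonoid.subset_closure (Set.mem_range_self g)) _

/-- the augmentation `ℤG → ℤ` -/
noncomputable def aug (G : Type*) [CommGroup G] : MonoidAlgebra ℤ G →+* ℤ :=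
  ((MonoidAlgebra.lift ℤ ℤ G) (1 : G →* ℤ)).toRingHom

lemma aug_apply [Fintype G] (x : MonoidAlgebra ℤ G) : aug G x = ∑ g, x.coeff g := by
  classical
  show (MonoidAlgebra.lift ℤ ℤ G) (1 : G →* ℤ) x = _
  rw [MonoidAlgebra.lift_apply, Finsupp.sum_fintype]
  · simp
  · intro i; simp

lemma Nn.aug_nonneg [Fintype G] {x : MonoidAlgebra ℤ G} (hx : Nn x) : 0 ≤ aug G x := by
  rw [aug_apply]; exact Finset.sum_nonneg fun g _ => hx g

lemma Nn.aug_pos [Fintype G] {x : MonoidAlgebra ℤ G} (hx : Nn x) (h0 : x ≠ 0) : 0 < aug G x := by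
  rcases hx.aug_nonneg.lt_or_eq with h | h
  · exact h
  · exfalso
    apply h0
    apply MonoidAlgebra.ext
    ext g
    rw [aug_apply] at h
    have := (Finset.sum_eq_zero_iff_of_nonneg (fun g _ => hx g)).1 h.symm g (Finset.mem_univ g)
    simpa using this

lemma PNn.zero : PNn (0 : Polynomial (MonoidAlgebra ℤ G)) := fun n => by
  simpa using Nn.zero

lemma PNn.add {x y : Polynomial (MonoidAlgebra ℤ G)} (hx : PNn x) (hy : PNn y) : PNn (x + y) :=
  fun n => by simpa using (hx n).add (hy n)

lemma PNn.mul [Fintype G] {x y : Polynomial (MonoidAlgebra ℤ G)} (hx : PNn x) (hy : PNn y) :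
    PNn (x * y) := fun n => by
  rw [Polynomial.coeff_mul]
  exact Nn.sum _ _ fun p _ => (hx _).mul (hy _)

lemma PNn.sum {ι : Type*} (s : Finset ι) (f : ι → Polynomial (MonoidAlgebra ℤ G))
    (h : ∀ i ∈ s, PNn (f i)) : PNn (∑ i ∈ s, f i) := fun n => by
  rw [Polynomial.finsetSum_coeff]
  exact Nn.sum _ _ fun i hi => h i hi n

lemma PNn.X : PNn (Polynomial.X : Polynomial (MonoidAlgebra ℤ G)) := fun n => by
  rw [Polynomial.coeff_X]
  split_ifs
  · exact Nn.one
  · exact Nn.zero

lemma PNn.C {x : MonoidAlgebra ℤ G} (hx : Nn x) : PNn (Polynomial.C x) := fun n => by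
  rw [Polynomial.coeff_C]
  split_ifs
  · exact hx
  · exact Nn.zero

lemma PNn.monomial (d : ℕ) {x : MonoidAlgebra ℤ G} (hx : Nn x) : PNn (Polynomial.monomial d x) :=
  fun n => by
    rw [Polynomial.coeff_monomial]
    split_ifs
    · exact hx
    · exact Nn.zero

lemma PNn.one : PNn (1 : Polynomial (MonoidAlgebra ℤ G)) := by
  rw [← Polynomial.C_1]; exact PNn.C Nn.one

/-- total mass of a polynomial over `ℤG`: evaluate at `X = 1` and augment -/
noncomputable def mass (G : Type*) [CommGroup G] : Polynomial (MonoidAlgebra ℤ G) →+* ℤ :=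
  (aug G).comp (Polynomial.evalRingHom 1)

lemma mass_apply (f : Polynomial (MonoidAlgebra ℤ G)) :
    mass G f = f.sum fun _ a => aug G a := by
  show aug G (Polynomial.eval 1 f) = _
  rw [Polynomial.eval_eq_sum, Polynomial.sum, Polynomial.sum, map_sum]
  simp

lemma PNn.mass_nonneg [Fintype G] {f : Polynomial (MonoidAlgebra ℤ G)} (hf : PNn f) :
    0 ≤ mass G f := by
  rw [mass_apply]
  exact Finset.sum_nonneg fun n _ => (hf n).aug_nonneg

lemma PNn.mass_pos [Fintype G] {f : Polynomial (MonoidAlgebra ℤ G)} (hf : PNn f) (h0 : f ≠ 0) :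
    0 < mass G f := by
  rw [mass_apply]
  refine Finset.sum_pos (fun n hn => (hf n).aug_pos ?_) ?_
  · simpa using hn
  · exact Polynomial.nonempty_support_iff.2 h0

lemma PNn.mul_ne_zero [Fintype G] {x y : Polynomial (MonoidAlgebra ℤ G)} (hx : PNn x)
    (hy : PNn y) (hx0 : x ≠ 0) (hy0 : y ≠ 0) : x * y ≠ 0 := by
  intro h
  have h1 := mul_pos (hx.mass_pos hx0) (hy.mass_pos hy0)
  rw [← map_mul, h, map_zero] at h1
  exact lt_irrefl _ h1

lemma PNn.add_ne_zero_left [Fintype G] {x y : Polynomial (MonoidAlgebra ℤ G)} (hx : PNn x)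
    (hy : PNn y) (hx0 : x ≠ 0) : x + y ≠ 0 := by
  intro h
  have h1 := add_pos_of_pos_of_nonneg (hx.mass_pos hx0) hy.mass_nonneg
  rw [← map_add, h, map_zero] at h1
  exact lt_irrefl _ h1

lemma PNn.add_ne_zero_right [Fintype G] {x y : Polynomial (MonoidAlgebra ℤ G)} (hx : PNn x)
    (hy : PNn y) (hy0 : y ≠ 0) : x + y ≠ 0 := by
  rw [add_comm]; exact hy.add_ne_zero_left hx hy0

end Positivity

end Pool.Agent.H.MP_345fd7_an
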