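import Pool.Agent.H.MP_345fd7_an.Renewal

set_option autoImplicit false
set_option linter.unusedSectionVars false

namespace Pool.Agent.H.MP_345fd7_an

open Matrix Polynomial
open scoped NNReal

variable {G : Type} [CommGroup G] [Fintype G]

/-- the element of `ℤG` with all coefficients `n` -/
noncomputable def clean_cst (G : Type) [CommGroup G] [Fintype G] (n : ℤ) : MonoidAlgebra ℤ G :=
  ∑ g : G, MonoidAlgebra.single g n

lemma clean_coeff_cst (n : ℤ) (g : G) : (clean_cst G n).coeff g = n := by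
  classical
  unfold clean_cst
  rw [MonoidAlgebra.coeff_sum, Finsupp.finsetSum_apply, Finset.sum_eq_single g]
  · rw [MonoidAlgebra.coeff_single, Finsupp.single_apply]; simp
  · intro b _ hb
    rw [MonoidAlgebra.coeff_single, Finsupp.single_apply]; simp [hb]
  · simp

lemma clean_cst_zero : clean_cst G 0 = 0 := by
  unfold clean_cst; simp

lemma clean_cst_mul (n : ℤ) (x : MonoidAlgebra ℤ G) :
    clean_cst G n * x = clean_cst G (n * aug G x) := by
  apply MonoidAlgebra.ext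
  ext g
  rw [clean_coeff_cst, coeff_mul_sum, aug_apply]
  simp only [clean_coeff_cst]
  rw [Finset.mul_sum]
  exact Fintype.sum_equiv ((Equiv.inv G).trans (Equiv.mulRight g)) _ _ fun h => rfl

lemma clean_single_mul_coeff (h : G) (x : MonoidAlgebra ℤ G) (g : G) :
    (MonoidAlgebra.single h (1 : ℤ) * x).coeff g = x.coeff (h⁻¹ * g) := by
  classical
  rw [coeff_mul_sum, Finset.sum_eq_single h]
  · rw [MonoidAlgebra.coeff_single, Finsupp.single_apply]; simp
  · intro b _ hb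
    rw [MonoidAlgebra.coeff_single, Finsupp.single_apply]; simp [Ne.symm hb]
  · simp

lemma clean_nn_int (x : MonoidAlgebra ℤ G) : nn x = ((∑ g, |x.coeff g| : ℤ) : ℝ) := by
  rw [nn_monoidAlgebra]
  push_cast
  rfl

lemma clean_disc (x : MonoidAlgebra ℤ G) (h : nn x < 1) : x = 0 := by
  rw [clean_nn_int] at h
  have h1 : (∑ g, |x.coeff g| : ℤ) < 1 := by exact_mod_cast h
  have h2 : (∑ g, |x.coeff g| : ℤ) = 0 :=
    le_antisymm (by omega) (Finset.sum_nonneg fun g _ => abs_nonneg _)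
  apply MonoidAlgebra.ext
  ext g
  have := (Finset.sum_eq_zero_iff_of_nonneg (fun g _ => abs_nonneg (x.coeff g))).1 h2 g
    (Finset.mem_univ g)
  simpa using this

lemma clean_coeff_nn_le (r : ℝ≥0) (f : Polynomial (MonoidAlgebra ℤ G)) (l : ℕ) :
    nn (f.coeff l) * (r : ℝ) ^ l ≤ nn (toZr r f) := by
  refine le_trans ?_ (pn_le_nn (toZr r f) (l + 1))
  unfold pn
  rw [coe_toZr]
  refine le_trans (le_of_eq ?_) (Finset.single_le_sum
    (f := fun n => nn (PowerSeries.coeff n (f : PowerSeries (MonoidAlgebra ℤ G))) * (r : ℝ) ^ n)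
    (fun n _ => mul_nonneg (nn_nonneg _) (by positivity)) (Finset.self_mem_range_succ l))
  simp

lemma clean_lowdeg (r : ℝ≥0) (hr0 : 0 < r) (hr1 : r < 1) (f : Polynomial (MonoidAlgebra ℤ G))
    (J : ℕ) (hf : nn (toZr r f) < 1 / 2 * (r : ℝ) ^ J) (l : ℕ) (hl : l ≤ J) : f.coeff l = 0 := by
  apply clean_disc
  have h1 := clean_coeff_nn_le r f l
  have h2 : (r : ℝ) ^ J ≤ (r : ℝ) ^ l := pow_le_pow_of_le_one r.2 (by exact_mod_cast hr1.le) hl
  have h3 : (0 : ℝ) < (r : ℝ) ^ l := by positivity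
  by_contra h4
  push Not at h4
  have h5 : (r : ℝ) ^ l ≤ nn (f.coeff l) * (r : ℝ) ^ l := by
    nlinarith
  linarith

/-- lower bound for the renewal sequence -/
lemma clean_renewal_lower (f : Polynomial (MonoidAlgebra ℤ G)) (hf : PNn f) (h0 : f.coeff 0 = 0)
    (R : PowerSeries (MonoidAlgebra ℤ G))
    (hR : (1 - (f : PowerSeries (MonoidAlgebra ℤ G))) * R = 1) (r : ℝ≥0) (l₀ : ℕ)
    (hgrow : ∀ l, l₀ ≤ l → ∀ g, ((r : ℝ)⁻¹) ^ l ≤ (((PowerSeries.coeff l R).coeff g : ℤ) : ℝ))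
    (a b : ℕ) (ha : l₀ ≤ a) (g : G) :
    ((r : ℝ)⁻¹) ^ a * ((aug G (PowerSeries.coeff b R) : ℤ) : ℝ) ≤
      (((PowerSeries.coeff (a + b) R).coeff g : ℤ) : ℝ) := by
  obtain ⟨h1, h2, h3⟩ := renewal_supermul f hf h0 R hR
  have h4 := h3 a b g
  rw [MonoidAlgebra.coeff_sub, Finsupp.sub_apply, sub_nonneg, coeff_mul_sum] at h4
  have h5 : ((∑ h, (PowerSeries.coeff a R).coeff h * (PowerSeries.coeff b R).coeff (h⁻¹ * g) : ℤ) : ℝ)
      ≤ (((PowerSeries.coeff (a + b) R).coeff g : ℤ) : ℝ) := by exact_mod_cast h4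
  refine le_trans ?_ h5
  push_cast
  have h6 : ((aug G (PowerSeries.coeff b R) : ℤ) : ℝ) =
      ∑ h, (((PowerSeries.coeff b R).coeff (h⁻¹ * g) : ℤ) : ℝ) := by
    rw [aug_apply]
    push_cast
    exact (Fintype.sum_equiv ((Equiv.inv G).trans (Equiv.mulRight g)) _ _ fun h => rfl).symm
  rw [h6, Finset.mul_sum]
  refine Finset.sum_le_sum fun h _ => mul_le_mul_of_nonneg_right (hgrow a ha h) ?_
  exact_mod_cast h1 b _


/-- the key estimate: `λ R ≤ 1/2 ν R` -/
lemma clean_key (r : ℝ≥0) (hr0 : 0 < r) (hr1 : r < 1)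
    (f : Polynomial (MonoidAlgebra ℤ G)) (hf : PNn f) (hf0 : f.coeff 0 = 0)
    (R : PowerSeries (MonoidAlgebra ℤ G))
    (hR : (1 - (f : PowerSeries (MonoidAlgebra ℤ G))) * R = 1) (l₀ : ℕ)
    (hgrow : ∀ l, l₀ ≤ l → ∀ g, ((r : ℝ)⁻¹) ^ l ≤ (((PowerSeries.coeff l R).coeff g : ℤ) : ℝ))
    (d : ℕ) (J : ℕ) (hJ : d + l₀ ≤ J)
    (Δ : Polynomial (MonoidAlgebra ℤ G)) (hΔ : nn (toZr r Δ) < 1 / 2 * (r : ℝ) ^ J)
    (l : ℕ) (hl : d ≤ l) (g g' : G) :
    (((PowerSeries.coeff l ((PowerSeries.mk fun l => clean_cst G (∑ g, |(Δ.coeff l).coeff g|)) * R)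
      ).coeff g : ℤ) : ℝ) ≤ 1 / 2 * (((PowerSeries.coeff (l - d) R).coeff g' : ℤ) : ℝ) := by
  have hr0' : (0 : ℝ) < r := by exact_mod_cast hr0
  obtain ⟨hRn, -, -⟩ := renewal_supermul f hf hf0 R hR
  rw [PowerSeries.coeff_mul, MonoidAlgebra.coeff_sum, Finsupp.finsetSum_apply]
  simp only [PowerSeries.coeff_mk, clean_cst_mul, clean_coeff_cst]
  rw [Finset.Nat.sum_antidiagonal_eq_sum_range_succ (fun a b =>
    (∑ g, |(Δ.coeff a).coeff g|) * aug G (PowerSeries.coeff b R))]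
  push_cast
  set X : ℝ := (((PowerSeries.coeff (l - d) R).coeff g' : ℤ) : ℝ) with hX
  have hX0 : 0 ≤ X := by rw [hX]; exact_mod_cast hRn _ _
  have h1 : ∀ k ∈ Finset.range (l + 1),
      (∑ g, |(((Δ.coeff k).coeff g : ℤ) : ℝ)|) * ((aug G (PowerSeries.coeff (l - k) R) : ℤ) : ℝ)
      ≤ (nn (Δ.coeff k) * (r : ℝ) ^ k) * (((r : ℝ)⁻¹) ^ d * X) := by
    intro k hk
    have hk' : k ≤ l := by simpa [Nat.lt_succ_iff] using hk
    have e1 : (∑ g, |(((Δ.coeff k).coeff g : ℤ) : ℝ)|) = nn (Δ.coeff k) := rfl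
    rw [e1]
    by_cases hkJ : k ≤ J
    · rw [clean_lowdeg r hr0 hr1 Δ J hΔ k hkJ]; simp
    · push Not at hkJ
      rw [mul_assoc]
      refine mul_le_mul_of_nonneg_left ?_ (nn_nonneg _)
      have h2 := clean_renewal_lower f hf hf0 R hR r l₀ hgrow (k - d) (l - k) (by omega) g'
      have e2 : k - d + (l - k) = l - d := by omega
      rw [e2, ← hX] at h2
      have e3 : (r : ℝ) ^ k * ((r : ℝ)⁻¹) ^ d = (r : ℝ) ^ (k - d) := by
        rw [inv_pow, ← pow_sub₀ _ hr0'.ne' (by omega)]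
      rw [← mul_assoc, e3]
      have h3 := mul_le_mul_of_nonneg_left h2 (show (0 : ℝ) ≤ (r : ℝ) ^ (k - d) by positivity)
      rwa [← mul_assoc, ← mul_pow, mul_inv_cancel₀ hr0'.ne', one_pow, one_mul] at h3
  refine (Finset.sum_le_sum h1).trans ?_
  rw [← Finset.sum_mul]
  have h2 : ∑ k ∈ Finset.range (l + 1), nn (Δ.coeff k) * (r : ℝ) ^ k ≤ 1 / 2 * (r : ℝ) ^ d := by
    have h3 := pn_le_nn (toZr r Δ) (l + 1)
    have h4 : pn r (l + 1) ((toZr r Δ : Zr r (MonoidAlgebra ℤ G)) : PowerSeries (MonoidAlgebra ℤ G)) =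
        ∑ k ∈ Finset.range (l + 1), nn (Δ.coeff k) * (r : ℝ) ^ k := by
      unfold pn; simp
    have h5 : (r : ℝ) ^ J ≤ (r : ℝ) ^ d :=
      pow_le_pow_of_le_one r.2 (by exact_mod_cast hr1.le) (by omega)
    linarith
  have h3 : (0 : ℝ) ≤ ((r : ℝ)⁻¹) ^ d * X := by positivity
  refine (mul_le_mul_of_nonneg_right h2 h3).trans (le_of_eq ?_)
  rw [inv_pow]
  field_simp


lemma clean_row (r : ℝ≥0) (hr0 : 0 < r) (hr1 : r < 1)
    (f : Polynomial (MonoidAlgebra ℤ G)) (hf : PNn f) (hf0 : f.coeff 0 = 0) (hfne : f ≠ 0)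
    (R : PowerSeries (MonoidAlgebra ℤ G))
    (hR : (1 - (f : PowerSeries (MonoidAlgebra ℤ G))) * R = 1) (l₀ : ℕ)
    (hgrow : ∀ l, l₀ ≤ l → ∀ g, ((r : ℝ)⁻¹) ^ l ≤ (((PowerSeries.coeff l R).coeff g : ℤ) : ℝ))
    (d : ℕ) (hd : 1 ≤ d) (h : G) (J : ℕ) (hJ : d + l₀ ≤ J)
    (Δ : Polynomial (MonoidAlgebra ℤ G)) (hΔ : nn (toZr r Δ) < 1 / 2 * (r : ℝ) ^ J) (K0 : ℕ) :
    ∃ Q : Polynomial (MonoidAlgebra ℤ G), PNn Q ∧ Q.coeff 0 = 0 ∧
      PNn (Polynomial.monomial d (MonoidAlgebra.single h (1 : ℤ)) + Δ - Q * (1 - f)) ∧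
      (Polynomial.monomial d (MonoidAlgebra.single h (1 : ℤ)) + Δ - Q * (1 - f)) ≠ 0 ∧
      (∀ l, l < K0 → d + l₀ ≤ l → ∀ g,
        1 / 2 * ((r : ℝ)⁻¹) ^ (l - d) ≤ (((Q.coeff l).coeff g : ℤ) : ℝ)) := by
  classical
  have hr0' : (0 : ℝ) < r := by exact_mod_cast hr0
  obtain ⟨hRn, hR0, -⟩ := renewal_supermul f hf hf0 R hR
  set lam : PowerSeries (MonoidAlgebra ℤ G) :=
    PowerSeries.mk fun l => clean_cst G (∑ g, |(Δ.coeff l).coeff g|) with hlam
  set ν : PowerSeries (MonoidAlgebra ℤ G) :=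
    PowerSeries.X ^ d * PowerSeries.C (MonoidAlgebra.single h (1 : ℤ)) with hν
  set q := (ν - lam) * R with hq
  set K := K0 + Δ.natDegree + d + l₀ + 2 with hK
  set Q := PowerSeries.trunc K q with hQ
  have hQc : ∀ l, Q.coeff l = if l < K then PowerSeries.coeff l q else 0 := by
    intro l; rw [hQ, PowerSeries.coeff_trunc]
  have hνR : ∀ l, PowerSeries.coeff l (ν * R) =
      if d ≤ l then MonoidAlgebra.single h (1 : ℤ) * PowerSeries.coeff (l - d) R else 0 := by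
    intro l
    rw [hν, mul_assoc, PowerSeries.coeff_X_pow_mul']
    split_ifs
    · rw [PowerSeries.coeff_C_mul]
    · rfl
  -- the lower bound on `q`
  have hlamR : ∀ l, l < d → PowerSeries.coeff l (lam * R) = 0 := by
    intro l hl
    rw [PowerSeries.coeff_mul]
    refine Finset.sum_eq_zero fun p hp => ?_
    have hp' := Finset.HasAntidiagonal.mem_antidiagonal.1 hp
    rw [hlam, PowerSeries.coeff_mk, clean_lowdeg r hr0 hr1 Δ J hΔ p.1 (by omega)]
    simp [clean_cst_zero]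
  have hqlow : ∀ l g, d ≤ l →
      1 / 2 * (((PowerSeries.coeff (l - d) R).coeff (h⁻¹ * g) : ℤ) : ℝ) ≤
        (((PowerSeries.coeff l q).coeff g : ℤ) : ℝ) := by
    intro l g hl
    have h1 := clean_key r hr0 hr1 f hf hf0 R hR l₀ hgrow d J hJ Δ hΔ l hl g (h⁻¹ * g)
    rw [← hlam] at h1
    rw [hq, sub_mul, map_sub, MonoidAlgebra.coeff_sub, Finsupp.sub_apply, hνR, if_pos hl,
      clean_single_mul_coeff]
    push_cast
    linarith
  have hqn : ∀ l, Nn (PowerSeries.coeff l q) := by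
    intro l g
    by_cases hl : d ≤ l
    · have h1 := hqlow l g hl
      have h2 : (0 : ℝ) ≤ (((PowerSeries.coeff (l - d) R).coeff (h⁻¹ * g) : ℤ) : ℝ) := by
        exact_mod_cast hRn _ _
      have h3 : (0 : ℝ) ≤ (((PowerSeries.coeff l q).coeff g : ℤ) : ℝ) := by linarith
      exact_mod_cast h3
    · rw [hq, sub_mul, map_sub, hνR, if_neg hl, hlamR l (by omega)]
      simp
  have hQn : PNn Q := by
    intro l
    rw [hQc]
    split_ifs
    · exact hqn l
    · exact Nn.zero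
  have hq1 : q * (1 - (f : PowerSeries (MonoidAlgebra ℤ G))) = ν - lam := by
    rw [hq, mul_assoc, mul_comm R, hR, mul_one]
  have hνc : ∀ l, PowerSeries.coeff l ν =
      (Polynomial.monomial d (MonoidAlgebra.single h (1 : ℤ))).coeff l := by
    intro l
    rw [hν, PowerSeries.coeff_X_pow_mul', Polynomial.coeff_monomial]
    by_cases hl : d ≤ l
    · rw [if_pos hl, PowerSeries.coeff_C]
      by_cases hl' : d = l
      · rw [if_pos hl', if_pos (by omega)]
      · rw [if_neg hl', if_neg (by omega)]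
    · rw [if_neg hl, if_neg (by omega)]
  -- coefficients of the new entry
  have hE1 : ∀ l, l < K → (Polynomial.monomial d (MonoidAlgebra.single h (1 : ℤ)) + Δ
      - Q * (1 - f)).coeff l = Δ.coeff l + clean_cst G (∑ g, |(Δ.coeff l).coeff g|) := by
    intro l hl
    have e1 : (Q * (1 - f)).coeff l = PowerSeries.coeff l (ν - lam) := by
      rw [← hq1, Polynomial.coeff_mul, PowerSeries.coeff_mul]
      refine Finset.sum_congr rfl fun p hp => ?_
      have hp' := Finset.HasAntidiagonal.mem_antidiagonal.1 hp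
      rw [hQc, if_pos (by omega)]
      congr 1
      rw [← Polynomial.coeff_coe]
      simp
    rw [Polynomial.coeff_sub, e1, map_sub, hνc, Polynomial.coeff_add, hlam, PowerSeries.coeff_mk]
    ring
  have hE2 : ∀ l, K ≤ l → (Polynomial.monomial d (MonoidAlgebra.single h (1 : ℤ)) + Δ
      - Q * (1 - f)).coeff l = (Q * f).coeff l := by
    intro l hl
    rw [mul_sub, mul_one, Polynomial.coeff_sub, Polynomial.coeff_sub, Polynomial.coeff_add,
      Polynomial.coeff_monomial, if_neg (by omega), hQc, if_neg (by omega),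
      Polynomial.coeff_eq_zero_of_natDegree_lt (show Δ.natDegree < l by omega)]
    ring
  refine ⟨Q, hQn, ?_, ?_, ?_, ?_⟩
  · rw [hQc, if_pos (by omega), hq, PowerSeries.coeff_zero_eq_constantCoeff_apply, map_mul,
      ← PowerSeries.coeff_zero_eq_constantCoeff_apply, map_sub,
      hνc, Polynomial.coeff_monomial, if_neg (by omega), hlam, PowerSeries.coeff_mk,
      clean_lowdeg r hr0 hr1 Δ J hΔ 0 (by omega)]
    simp [clean_cst_zero]
  · intro l
    by_cases hl : l < K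
    · rw [hE1 l hl]
      intro g
      rw [MonoidAlgebra.coeff_add, Finsupp.add_apply, clean_coeff_cst]
      have h1 : |(Δ.coeff l).coeff g| ≤ ∑ g, |(Δ.coeff l).coeff g| :=
        Finset.single_le_sum (f := fun g => |(Δ.coeff l).coeff g|)
          (fun _ _ => abs_nonneg _) (Finset.mem_univ g)
      have h2 := neg_abs_le ((Δ.coeff l).coeff g)
      linarith
    · rw [hE2 l (by omega)]
      exact (hQn.mul hf) l
  · -- nonvanishing
    obtain ⟨j, hj⟩ : ∃ j, f.coeff j ≠ 0 := by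
      by_contra hcon
      push Not at hcon
      exact hfne (Polynomial.ext (by simpa using hcon))
    have hj1 : 1 ≤ j := by
      rcases Nat.eq_zero_or_pos j with hj' | hj'
      · rw [hj'] at hj; exact absurd hf0 hj
      · exact hj'
    intro hcon
    have h1 := hE2 (K - 1 + j) (by omega)
    rw [hcon, Polynomial.coeff_zero, Polynomial.coeff_mul] at h1
    have h2 := congrArg (aug G) h1
    rw [map_zero, map_sum] at h2
    have h3 : ∀ p ∈ Finset.HasAntidiagonal.antidiagonal (K - 1 + j), 0 ≤ aug G (Q.coeff p.1 * f.coeff p.2) :=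
      fun p _ => ((hQn _).mul (hf _)).aug_nonneg
    have h4 := (Finset.sum_eq_zero_iff_of_nonneg h3).1 h2.symm (K - 1, j)
      (Finset.HasAntidiagonal.mem_antidiagonal.2 rfl)
    rw [map_mul] at h4
    have h5 : 0 < aug G (f.coeff j) := (hf j).aug_pos hj
    have h6 : 0 < aug G (Q.coeff (K - 1)) := by
      refine (hQn _).aug_pos ?_
      intro h7
      rw [hQc, if_pos (by omega)] at h7
      have h8 := hqlow (K - 1) 1 (by omega)
      rw [h7] at h8
      have h9 := hgrow (K - 1 - d) (by omega) (h⁻¹ * 1)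
      have h10 : (0 : ℝ) < ((r : ℝ)⁻¹) ^ (K - 1 - d) := by positivity
      simp only [MonoidAlgebra.coeff_zero, Finsupp.coe_zero, Pi.zero_apply, Int.cast_zero] at h8
      linarith
    have h7 := mul_pos h6 h5
    simp only at h4
    omega
  · intro l hl1 hl2 g
    rw [hQc, if_pos (by omega)]
    refine le_trans ?_ (hqlow l g (by omega))
    exact mul_le_mul_of_nonneg_left (hgrow (l - d) (by omega) _) (by norm_num)


lemma clean_exists_monomial (m : Polynomial (MonoidAlgebra ℤ G)) (hm : PNn m)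
    (hm0 : m.coeff 0 = 0) (hne : m ≠ 0) :
    ∃ (d : ℕ) (h : G), 1 ≤ d ∧ 1 ≤ (m.coeff d).coeff h := by
  obtain ⟨d, hd⟩ : ∃ d, m.coeff d ≠ 0 := by
    by_contra hcon
    push Not at hcon
    exact hne (Polynomial.ext (by simpa using hcon))
  obtain ⟨h, hh⟩ : ∃ h, (m.coeff d).coeff h ≠ 0 := by
    by_contra hcon
    push Not at hcon
    apply hd
    apply MonoidAlgebra.ext
    ext g
    simpa using hcon g
  refine ⟨d, h, ?_, ?_⟩
  · rcases Nat.eq_zero_or_pos d with h1 | h1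
    · rw [h1] at hd; exact absurd hm0 hd
    · exact h1
  · have := hm d h
    omega

lemma clean_sub_monomial (m : Polynomial (MonoidAlgebra ℤ G)) (hm : PNn m) (d : ℕ) (h : G)
    (hd : 1 ≤ (m.coeff d).coeff h) :
    PNn (m - Polynomial.monomial d (MonoidAlgebra.single h (1 : ℤ))) := by
  classical
  intro l g
  rw [Polynomial.coeff_sub, Polynomial.coeff_monomial, MonoidAlgebra.coeff_sub, Finsupp.sub_apply]
  have h1 := hm l g
  by_cases hl : d = l
  · subst hl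
    rw [if_pos rfl, MonoidAlgebra.coeff_single, Finsupp.single_apply]
    split_ifs with h2
    · subst h2; omega
    · simpa using h1
  · rw [if_neg hl]; simpa using h1

lemma clean_col (r : ℝ≥0) (hr0 : 0 < r) (hr1 : r < 1) (l₀ d : ℕ) (J : ℕ)
    (Q : Polynomial (MonoidAlgebra ℤ G)) (hQ : PNn Q) (K0 : ℕ)
    (hQlow : ∀ l, l < K0 → d + l₀ ≤ l → ∀ g,
        1 / 2 * ((r : ℝ)⁻¹) ^ (l - d) ≤ (((Q.coeff l).coeff g : ℤ) : ℝ))
    (w : Polynomial (MonoidAlgebra ℤ G)) (hw : PNn w) (d' : ℕ) (h' : G)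
    (hd' : 1 ≤ (w.coeff d').coeff h') (hJ : d + d' + l₀ ≤ J)
    (Δ : Polynomial (MonoidAlgebra ℤ G)) (hΔ : nn (toZr r Δ) < 1 / 2 * (r : ℝ) ^ J)
    (hK0 : Δ.natDegree < K0) : PNn (Δ + Q * w) := by
  classical
  have hr0' : (0 : ℝ) < r := by exact_mod_cast hr0
  intro l g
  have hw1 := clean_sub_monomial w hw d' h' hd'
  have e1 : Δ + Q * w = Δ + Q * Polynomial.monomial d' (MonoidAlgebra.single h' (1 : ℤ)) +
      Q * (w - Polynomial.monomial d' (MonoidAlgebra.single h' (1 : ℤ))) := by ring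
  rw [e1, Polynomial.coeff_add, MonoidAlgebra.coeff_add, Finsupp.add_apply]
  refine add_nonneg ?_ ((hQ.mul hw1) l g)
  rw [Polynomial.coeff_add, MonoidAlgebra.coeff_add, Finsupp.add_apply]
  have hQm : 0 ≤ ((Q * Polynomial.monomial d' (MonoidAlgebra.single h' (1 : ℤ))).coeff l).coeff g :=
    (hQ.mul (PNn.monomial d' (Nn.single h' zero_le_one))) l g
  by_cases hz : Δ.coeff l = 0
  · rw [hz]; simpa using hQm
  · have hlJ : J < l := by
      by_contra hcon
      exact hz (clean_lowdeg r hr0 hr1 Δ J hΔ l (by omega))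
    have hlK : l < K0 := lt_of_le_of_lt (Polynomial.le_natDegree_of_ne_zero hz) hK0
    have e2 : (Q * Polynomial.monomial d' (MonoidAlgebra.single h' (1 : ℤ))).coeff l =
        MonoidAlgebra.single h' (1 : ℤ) * Q.coeff (l - d') := by
      have e5 : l = (l - d') + d' := by omega
      conv_lhs => rw [mul_comm, e5]
      rw [Polynomial.coeff_monomial_mul]
    rw [e2, clean_single_mul_coeff]
    have h1 := hQlow (l - d') (by omega) (by omega) (h'⁻¹ * g)
    have h2 := clean_coeff_nn_le r Δ l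
    have h3 : nn (Δ.coeff l) * (r : ℝ) ^ l < 1 / 2 * (r : ℝ) ^ J := lt_of_le_of_lt h2 hΔ
    have h4 : |(((Δ.coeff l).coeff g : ℤ) : ℝ)| ≤ nn (Δ.coeff l) := nn_coeff_le (Δ.coeff l) g
    have h5 : nn (Δ.coeff l) < 1 / 2 * ((r : ℝ)⁻¹) ^ (l - J) := by
      have e3 : (r : ℝ) ^ J = ((r : ℝ)⁻¹) ^ (l - J) * (r : ℝ) ^ l := by
        have e4 : (r : ℝ) ^ l = (r : ℝ) ^ (l - J) * (r : ℝ) ^ J := by
          rw [← pow_add]; congr 1; omega
        rw [e4, ← mul_assoc, ← mul_pow, inv_mul_cancel₀ hr0'.ne', one_pow, one_mul]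
      rw [e3, ← mul_assoc] at h3
      exact lt_of_mul_lt_mul_right h3 (by positivity)
    have h6 : ((r : ℝ)⁻¹) ^ (l - J) ≤ ((r : ℝ)⁻¹) ^ (l - d' - d) := by
      refine pow_le_pow_right₀ ?_ (by omega)
      exact (one_le_inv₀ hr0').2 (by exact_mod_cast hr1.le)
    have h7 := neg_abs_le (((Δ.coeff l).coeff g : ℤ) : ℝ)
    have h8 : (0 : ℝ) ≤ (((Δ.coeff l).coeff g : ℤ) : ℝ) +
        (((Q.coeff (l - d')).coeff (h'⁻¹ * g) : ℤ) : ℝ) := by linarith
    exact_mod_cast h8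

/-- CLEANING. `T = inl ()`; `M ≥ 0` has all entries `T → o` and `o → T` nonzero and
`R = 1 / (1 - M T T)` satisfies `R_l ≥ r ^ (-l) N_G` for large `l`. If `N` has the same `T`-row as
`1 - M` and the other rows are very close (weighted norm with weight `r`) to those of `1 - M`, then
row operations with the `T`-row turn `N` into `1 - M''` with `M'' ≥ 0`. -/
theorem clean (r : ℝ≥0) (hr0 : 0 < r) (hr1 : r < 1) {O : Type*} [Fintype O] [DecidableEq O]
    (M : Matrix (Unit ⊕ O) (Unit ⊕ O) (Polynomial (MonoidAlgebra ℤ G)))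
    (hnn : ∀ i j, PNn (M i j)) (h0 : ∀ i j, (M i j).coeff 0 = 0)
    (hTo : ∀ o, M (Sum.inl ()) (Sum.inr o) ≠ 0) (hoT : ∀ o, M (Sum.inr o) (Sum.inl ()) ≠ 0)
    (R : PowerSeries (MonoidAlgebra ℤ G))
    (hR : (1 - (M (Sum.inl ()) (Sum.inl ()) : PowerSeries (MonoidAlgebra ℤ G))) * R = 1)
    (hgrow : ∃ l₀ : ℕ, ∀ l, l₀ ≤ l → ∀ g,
      ((r : ℝ)⁻¹) ^ l ≤ (((PowerSeries.coeff l R).coeff g : ℤ) : ℝ)) :
    ∃ ε : ℝ, 0 < ε ∧ ∀ N : Matrix (Unit ⊕ O) (Unit ⊕ O) (Polynomial (MonoidAlgebra ℤ G)),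
      (∀ j, N (Sum.inl ()) j = (1 - M) (Sum.inl ()) j) →
      (∀ o j, nn (toZr r (N (Sum.inr o) j - (1 - M) (Sum.inr o) j)) < ε) →
      ∃ M'' : Matrix (Unit ⊕ O) (Unit ⊕ O) (Polynomial (MonoidAlgebra ℤ G)),
        (∀ i j, PNn (M'' i j)) ∧ (∀ i j, (M'' i j).coeff 0 = 0) ∧
        (M'' (Sum.inl ()) (Sum.inl ()) = M (Sum.inl ()) (Sum.inl ())) ∧
        (∀ o, M'' (Sum.inl ()) (Sum.inr o) ≠ 0 ∧ M'' (Sum.inr o) (Sum.inl ()) ≠ 0) ∧
        ∃ L : Matrix (Unit ⊕ O) (Unit ⊕ O) (Polynomial (MonoidAlgebra ℤ G)),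
          L.det = 1 ∧ L * N = 1 - M'' := by
  classical
  obtain ⟨l₀, hl₀⟩ := hgrow
  set f := M (Sum.inl ()) (Sum.inl ()) with hf
  have hfne : f ≠ 0 := by
    intro hcon
    rw [hcon] at hR
    have hR1 : R = 1 := by simpa using hR
    have h1 := hl₀ (l₀ + 1) (by omega) 1
    rw [hR1, PowerSeries.coeff_one, if_neg (by omega)] at h1
    have h2 : (0 : ℝ) < ((r : ℝ)⁻¹) ^ (l₀ + 1) := by
      have hr0' : (0 : ℝ) < r := by exact_mod_cast hr0
      positivity
    simp only [MonoidAlgebra.coeff_zero, Finsupp.coe_zero, Pi.zero_apply, Int.cast_zero] at h1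
    linarith
  choose d h hd1 hd using fun o => clean_exists_monomial (M (Sum.inr o) (Sum.inl ()))
    (hnn _ _) (h0 _ _) (hoT o)
  choose d' h' hd1' hd' using fun o => clean_exists_monomial (M (Sum.inl ()) (Sum.inr o))
    (hnn _ _) (h0 _ _) (hTo o)
  set J := (∑ o, d o) + (∑ o, d' o) + l₀ with hJ
  have hJd : ∀ o, d o ≤ ∑ o, d o := fun o =>
    Finset.single_le_sum (f := d) (fun _ _ => Nat.zero_le _) (Finset.mem_univ o)
  have hJd' : ∀ o, d' o ≤ ∑ o, d' o := fun o =>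
    Finset.single_le_sum (f := d') (fun _ _ => Nat.zero_le _) (Finset.mem_univ o)
  have hr0' : (0 : ℝ) < r := by exact_mod_cast hr0
  refine ⟨1 / 2 * (r : ℝ) ^ J, by positivity, fun N hN1 hN2 => ?_⟩
  -- errors
  set Δ : O → (Unit ⊕ O) → Polynomial (MonoidAlgebra ℤ G) :=
    fun o j => (1 - M) (Sum.inr o) j - N (Sum.inr o) j with hΔ
  have hΔn : ∀ o j, nn (toZr r (Δ o j)) < 1 / 2 * (r : ℝ) ^ J := by
    intro o j
    have := hN2 o j
    rw [map_sub, nn_sub_comm, ← map_sub] at this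
    exact this
  set K0 : ℕ := (∑ o, ∑ j, (Δ o j).natDegree) + 1 with hK0
  have hK0' : ∀ o j, (Δ o j).natDegree < K0 := by
    intro o j
    have h1 : (Δ o j).natDegree ≤ ∑ j, (Δ o j).natDegree :=
      Finset.single_le_sum (f := fun j => (Δ o j).natDegree) (fun _ _ => Nat.zero_le _)
        (Finset.mem_univ j)
    have h2 : ∑ j, (Δ o j).natDegree ≤ ∑ o, ∑ j, (Δ o j).natDegree :=
      Finset.single_le_sum (f := fun o => ∑ j, (Δ o j).natDegree) (fun _ _ => Nat.zero_le _)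
        (Finset.mem_univ o)
    omega
  choose Q hQ1 hQ2 hQ3 hQ4 hQ5 using fun o => clean_row r hr0 hr1 f (hnn _ _) (h0 _ _) hfne R hR l₀
    hl₀ (d o) (hd1 o) (h o) J (by have := hJd o; omega) (Δ o (Sum.inl ())) (hΔn o _) K0
  let L : Matrix (Unit ⊕ O) (Unit ⊕ O) (Polynomial (MonoidAlgebra ℤ G)) :=
    Matrix.fromBlocks 1 0 (Matrix.of fun o _ => Q o) 1
  have hLN1 : ∀ j, (L * N) (Sum.inl ()) j = (1 - M) (Sum.inl ()) j := by
    intro j
    rw [← hN1]
    simp [L, Matrix.mul_apply, Matrix.fromBlocks_apply₁₁, Matrix.fromBlocks_apply₁₂]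
  have hLN2 : ∀ o j, (L * N) (Sum.inr o) j =
      Q o * (1 - M) (Sum.inl ()) j + (1 - M) (Sum.inr o) j - Δ o j := by
    intro o j
    rw [← hN1, hΔ]
    simp only [L, Matrix.mul_apply, Fintype.sum_sum_type, Matrix.fromBlocks_apply₂₁,
      Matrix.fromBlocks_apply₂₂, Matrix.one_apply, Matrix.of_apply]
    simp
    ring
  have hMT : ∀ j, (1 - L * N) (Sum.inl ()) j = M (Sum.inl ()) j := by
    intro j
    rw [Matrix.sub_apply, hLN1, Matrix.sub_apply]; ring
  have hMoT : ∀ o, (1 - L * N) (Sum.inr o) (Sum.inl ()) =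
      (M (Sum.inr o) (Sum.inl ()) - Polynomial.monomial (d o) (MonoidAlgebra.single (h o) (1 : ℤ))) +
      (Polynomial.monomial (d o) (MonoidAlgebra.single (h o) (1 : ℤ)) + Δ o (Sum.inl ())
        - Q o * (1 - f)) := by
    intro o
    rw [Matrix.sub_apply, hLN2, Matrix.sub_apply, Matrix.sub_apply, ← hf]
    simp only [Matrix.one_apply, reduceCtorEq, if_false, if_true]
    ring
  have hMoo : ∀ o o', (1 - L * N) (Sum.inr o) (Sum.inr o') =
      M (Sum.inr o) (Sum.inr o') + (Δ o (Sum.inr o') + Q o * M (Sum.inl ()) (Sum.inr o')) := by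
    intro o o'
    rw [Matrix.sub_apply, hLN2, Matrix.sub_apply, Matrix.sub_apply]
    simp only [Matrix.one_apply, reduceCtorEq, if_false]
    ring
  have hJ0 : ∀ o j, (Δ o j).coeff 0 = 0 := fun o j =>
    clean_lowdeg r hr0 hr1 _ J (hΔn o j) 0 (Nat.zero_le _)
  have hmul0 : ∀ a b : Polynomial (MonoidAlgebra ℤ G), a.coeff 0 = 0 → (a * b).coeff 0 = 0 := by
    intro a b ha
    rw [Polynomial.mul_coeff_zero, ha, zero_mul]
  refine ⟨1 - L * N, ?_, ?_, hMT _, ?_, L, ?_, by simp⟩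
  · rintro (⟨⟩ | o) j
    · rw [hMT]; exact hnn _ _
    · rcases j with ⟨⟩ | o'
      · rw [hMoT]
        exact (clean_sub_monomial _ (hnn _ _) _ _ (hd o)).add (hQ3 o)
      · rw [hMoo]
        refine (hnn _ _).add (clean_col r hr0 hr1 l₀ (d o) J (Q o) (hQ1 o) K0 (hQ5 o) _ (hnn _ _)
          (d' o') (h' o') (hd' o') ?_ _ (hΔn o _) (hK0' o _))
        have := hJd o
        have := hJd' o'
        omega
  · rintro (⟨⟩ | o) j
    · rw [hMT]; exact h0 _ _
    · rcases j with ⟨⟩ | o'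
      · rw [hMoT, Polynomial.coeff_add, Polynomial.coeff_sub, Polynomial.coeff_sub,
          Polynomial.coeff_add, hmul0 _ _ (hQ2 o), h0, hJ0, Polynomial.coeff_monomial,
          if_neg (by have := hd1 o; omega)]
        simp
      · rw [hMoo, Polynomial.coeff_add, Polynomial.coeff_add, hmul0 _ _ (hQ2 o), h0, hJ0]
        simp
  · intro o
    refine ⟨?_, ?_⟩
    · rw [hMT]; exact hTo o
    · rw [hMoT]
      exact PNn.add_ne_zero_right (clean_sub_monomial _ (hnn _ _) _ _ (hd o)) (hQ3 o) (hQ4 o)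
  · show (Matrix.fromBlocks 1 0 _ 1).det = 1
    rw [Matrix.det_fromBlocks_zero₁₂]; simp

end Pool.Agent.H.MP_345fd7_an
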