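import Pool.Agent.H.MP_345fd7_an.Basic

/-! Basic properties of `CokIso` -/

set_option autoImplicit false

namespace Pool.Agent.H.MP_345fd7_an

open Matrix

variable {S : Type*} [CommRing S] {a b c : Type*} [Fintype a] [DecidableEq a] [Fintype b]
    [DecidableEq b] [Fintype c] [DecidableEq c]

theorem CokIso.symm {P : Matrix a a S} {Q : Matrix b b S} (h : CokIso P Q) : CokIso Q P := by
  obtain ⟨X, X', Y, Y', Z, Z', h1, h2, h3, h4⟩ := h
  exact ⟨Y, Y', X, X', Z', Z, h2, h1, h4, h3⟩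

theorem CokIso.trans {P : Matrix a a S} {Q : Matrix b b S} {R : Matrix c c S} (h : CokIso P Q)
    (h' : CokIso Q R) : CokIso P R := by
  obtain ⟨X1, X1', Y1, Y1', Z1, Z1', h1, h2, h3, h4⟩ := h
  obtain ⟨X2, X2', Y2, Y2', Z2, Z2', k1, k2, k3, k4⟩ := h'
  refine ⟨X2 * X1, X2' * X1', Y1 * Y2, Y1' * Y2', Z2 + X2' * Z1 * Y2, Z1' + Y1' * Z2' * X1,
    ?_, ?_, ?_, ?_⟩
  · rw [Matrix.mul_assoc, h1, ← Matrix.mul_assoc, k1, Matrix.mul_assoc]
  · rw [Matrix.mul_assoc, k2, ← Matrix.mul_assoc, h2, Matrix.mul_assoc]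
  · have e1 : X1 * Y1 = 1 - Q * Z1 := eq_sub_of_add_eq h3
    have e2 : X2 * X1 * (Y1 * Y2) = X2 * Y2 - R * (X2' * Z1 * Y2) := by
      calc X2 * X1 * (Y1 * Y2) = X2 * (X1 * Y1) * Y2 := by simp only [Matrix.mul_assoc]
        _ = X2 * Y2 - (X2 * Q) * Z1 * Y2 := by
          rw [e1, Matrix.mul_sub, Matrix.sub_mul, Matrix.mul_one]; simp only [Matrix.mul_assoc]
        _ = X2 * Y2 - R * (X2' * Z1 * Y2) := by rw [k1]; simp only [Matrix.mul_assoc]
    rw [e2, Matrix.mul_add, ← k3]; abel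
  · have e1 : Y2 * X2 = 1 - Q * Z2' := eq_sub_of_add_eq k4
    have e2 : Y1 * Y2 * (X2 * X1) = Y1 * X1 - P * (Y1' * Z2' * X1) := by
      calc Y1 * Y2 * (X2 * X1) = Y1 * (Y2 * X2) * X1 := by simp only [Matrix.mul_assoc]
        _ = Y1 * X1 - (Y1 * Q) * Z2' * X1 := by
          rw [e1, Matrix.mul_sub, Matrix.sub_mul, Matrix.mul_one]; simp only [Matrix.mul_assoc]
        _ = Y1 * X1 - P * (Y1' * Z2' * X1) := by rw [h2]; simp only [Matrix.mul_assoc]
    rw [e2, Matrix.mul_add, ← h4]; abel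

/-- equivalent matrices (`E`, `F` invertible) -/
theorem CokIso.of_equiv {P Q : Matrix a a S} (E F : Matrix a a S) (hE : IsUnit E.det)
    (hF : IsUnit F.det) (h : P = E * Q * F) : CokIso P Q := by
  -- `E⁻¹ * P = Q * F`
  refine ⟨E⁻¹, F, E, F⁻¹, 0, 0, ?_, ?_, ?_, ?_⟩
  · rw [h, ← Matrix.mul_assoc, ← Matrix.mul_assoc, Matrix.nonsing_inv_mul _ hE, Matrix.one_mul]
  · rw [h, Matrix.mul_assoc, Matrix.mul_nonsing_inv _ hF, Matrix.mul_one]
  · rw [Matrix.nonsing_inv_mul _ hE, Matrix.mul_zero, add_zero]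
  · rw [Matrix.mul_nonsing_inv _ hE, Matrix.mul_zero, add_zero]

theorem CokIso.of_fromBlocks (κ : Matrix b a S) (Q : Matrix b b S) :
    CokIso (Matrix.fromBlocks (1 : Matrix a a S) 0 κ Q) Q := by
  -- `X (x, y) = y - κ x`, `Y y = (0, y)`
  refine ⟨Matrix.fromCols (-κ) 1, Matrix.fromCols 0 1, Matrix.fromRows 0 1,
    Matrix.fromRows 0 1, 0, Matrix.fromBlocks 1 0 0 0, ?_, ?_, ?_, ?_⟩
  · rw [Matrix.fromCols_mul_fromBlocks, Matrix.mul_fromCols]; simp
  · rw [Matrix.fromBlocks_mul_fromRows, Matrix.fromRows_mul]; simp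
  · rw [Matrix.fromCols_mul_fromRows]; simp
  · rw [Matrix.fromRows_mul_fromCols, Matrix.fromBlocks_multiply]
    rw [← Matrix.fromBlocks_one, Matrix.fromBlocks_add]; simp

theorem CokIso.of_reindex (e : a ≃ b) (P : Matrix a a S) : CokIso P (P.submatrix e.symm e.symm) := by
  refine ⟨(1 : Matrix a a S).submatrix e.symm id, (1 : Matrix a a S).submatrix e.symm id,
    (1 : Matrix a a S).submatrix id e.symm, (1 : Matrix a a S).submatrix id e.symm, 0, 0,
    ?_, ?_, ?_, ?_⟩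
  · rw [Matrix.submatrix_mul_equiv P (1 : Matrix a a S) e.symm e.symm id, Matrix.mul_one]
    have := Matrix.submatrix_mul_equiv (1 : Matrix a a S) P e.symm (Equiv.refl a) id
    simpa using this
  · rw [Matrix.submatrix_mul_equiv (1 : Matrix a a S) P id e.symm e.symm, Matrix.one_mul]
    have := Matrix.submatrix_mul_equiv P (1 : Matrix a a S) id (Equiv.refl a) e.symm
    simpa using this.symm
  · have := Matrix.submatrix_mul_equiv (1 : Matrix a a S) (1 : Matrix a a S) e.symm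
      (Equiv.refl a) e.symm
    simpa using this
  · rw [Matrix.submatrix_mul_equiv (1 : Matrix a a S) (1 : Matrix a a S) id e.symm id]
    simp

end Pool.Agent.H.MP_345fd7_an
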