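import Pool.Agent.H.MP_345fd7_an.StructDefs

/-! Elimination of the indices without loops -/

set_option autoImplicit false

namespace Pool.Agent.H.MP_345fd7_an

open Matrix Polynomial

variable {G : Type} [CommGroup G] [Fintype G]

/-- the cut condition passes to the matrix after elimination of `z` -/
theorem elim_cut {J : Type} [Fintype J] [DecidableEq J] (T : J)
    (M : Matrix J J (Polynomial (MonoidAlgebra ℤ G))) (hn : ∀ i j, PNn (M i j))
    (hout : ∀ S : Finset J, S.Nonempty → T ∉ S → ∃ s ∈ S, ∃ j, j ∉ S ∧ M s j ≠ 0)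
    (z : J) (hz : z ≠ T) (S : Finset {j : J // j ≠ z}) (hS : S.Nonempty)
    (hT : (⟨T, hz.symm⟩ : {j : J // j ≠ z}) ∉ S) :
    ∃ s ∈ S, ∃ j, j ∉ S ∧ M s j + M s z * M z j ≠ 0 := by
  classical
  set S0 : Finset J := S.map (Function.Embedding.subtype _) with hS0
  have hmem : ∀ (x : J) (hx : x ≠ z), x ∈ S0 ↔ (⟨x, hx⟩ : {j : J // j ≠ z}) ∈ S := by
    intro x hx
    rw [hS0, Finset.mem_map]
    constructor
    · rintro ⟨y, hy, rfl⟩
      exact hy
    · intro h
      exact ⟨_, h, rfl⟩
  have hz0 : z ∉ S0 := by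
    rw [hS0, Finset.mem_map]
    rintro ⟨y, _, h⟩
    exact y.2 h
  have hne : S0.Nonempty := by simpa [hS0] using hS
  have hT0 : T ∉ S0 := by rw [hmem T hz.symm]; exact hT
  obtain ⟨s, hs, j, hj, hsj⟩ := hout S0 hne hT0
  have hsz : s ≠ z := fun h => hz0 (h ▸ hs)
  by_cases hjz : j = z
  · subst hjz
    have hT1 : T ∉ insert j S0 := by
      rw [Finset.mem_insert, not_or]
      exact ⟨hz.symm, hT0⟩
    obtain ⟨s', hs', j', hj', hsj'⟩ := hout (insert j S0) (Finset.insert_nonempty _ _) hT1
    rw [Finset.mem_insert, not_or] at hj'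
    rcases Finset.mem_insert.1 hs' with h | h
    · subst h
      refine ⟨⟨s, hsz⟩, (hmem s hsz).1 hs, ⟨j', hj'.1⟩, fun h => hj'.2 ((hmem j' hj'.1).2 h), ?_⟩
      exact PNn.add_ne_zero_right (hn _ _) ((hn _ _).mul (hn _ _))
        (PNn.mul_ne_zero (hn _ _) (hn _ _) hsj hsj')
    · have hs'z : s' ≠ j := fun h' => hz0 (h' ▸ h)
      refine ⟨⟨s', hs'z⟩, (hmem s' hs'z).1 h, ⟨j', hj'.1⟩, fun h => hj'.2 ((hmem j' hj'.1).2 h), ?_⟩
      exact PNn.add_ne_zero_left (hn _ _) ((hn _ _).mul (hn _ _)) hsj'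
  · refine ⟨⟨s, hsz⟩, (hmem s hsz).1 hs, ⟨j, hjz⟩, fun h => hj ((hmem j hjz).2 h), ?_⟩
    exact PNn.add_ne_zero_left (hn _ _) ((hn _ _).mul (hn _ _)) hsj

/-- One elimination step: remove `z ≠ T` with `M z z = 0`:
`M' i j = M i j + M i z * M z j` on `{j // j ≠ z}`.
PROOF. det: `L (1 - M)` with `L = 1 + ∑_{i ≠ z} M i z E_{i z}` has zero column `z` except for the
entry `1` at `(z,z)`: block triangular (`Matrix.twoBlockTriangular_det`). res: restrict `K`. out/inn:
for `S ⊆ J ∖ z`, if the cut edge leads to `z`, use the cut `S ∪ {z}`. -/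
theorem elim_step {J : Type} [Fintype J] [DecidableEq J] (T : J)
    (M : Matrix J J (Polynomial (MonoidAlgebra ℤ G))) (p : Polynomial (MonoidAlgebra ℤ G))
    (kT : PowerSeries (MonoidAlgebra ℤ G)) (h : Good T M p kT) (z : J) (hz : z ≠ T)
    (hzz : M z z = 0) :
    Good (J := {j : J // j ≠ z}) ⟨T, hz.symm⟩ (fun i j => M i j + M i z * M z j) p kT := by
  classical
  -- the matrix after the row operations
  set c : J → Polynomial (MonoidAlgebra ℤ G) := fun i => if i = z then 0 else M i z with hc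
  set N : Matrix J J (Polynomial (MonoidAlgebra ℤ G)) :=
    Matrix.of fun i j => (1 - M) i j + c i * (1 - M) z j with hN
  have hNa : ∀ i j, N i j = (1 - M) i j + c i * (1 - M) z j := fun i j => rfl
  have hcz : c z = 0 := by simp [hc]
  have hNz : ∀ i, i ≠ z → N i z = 0 := by
    intro i hi
    rw [hNa]
    simp only [hc, if_neg hi, Matrix.sub_apply, Matrix.one_apply_eq, Matrix.one_apply_ne hi,
      hzz]
    ring
  obtain ⟨M', hM'⟩ : ∃ M' : Matrix {j : J // j ≠ z} {j : J // j ≠ z}
      (Polynomial (MonoidAlgebra ℤ G)), M' = (fun (i j : {j : J // j ≠ z}) =>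
        M i j + M i z * M z j) := ⟨_, rfl⟩
  have hM'a : ∀ i j : {j : J // j ≠ z}, M' i j = M i j + M i z * M z j := fun i j => by rw [hM']
  rw [← hM']
  have hNij : ∀ i j : {j : J // j ≠ z}, N i j = (1 - M') i j := by
    intro i j
    have : (1 : Matrix J J (Polynomial (MonoidAlgebra ℤ G))) i j =
        (1 : Matrix {j : J // j ≠ z} {j : J // j ≠ z} (Polynomial (MonoidAlgebra ℤ G))) i j := by
      rw [Matrix.one_apply, Matrix.one_apply]
      simp only [Subtype.ext_iff]
    rw [hNa, Matrix.sub_apply, Matrix.sub_apply, Matrix.sub_apply, hM'a,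
      Matrix.one_apply_ne j.2.symm, this]
    simp only [hc, if_neg i.2]
    ring
  refine ⟨fun i j => ?_, ?_, ?_, ?_, ?_, ?_⟩
  · rw [hM'a]
    exact (h.nonneg _ _).add ((h.nonneg _ _).mul (h.nonneg _ _))
  · intro i j
    rw [hM'a, Polynomial.coeff_add, Polynomial.mul_coeff_zero, h.zero, h.zero, zero_mul, add_zero]
  · rw [← h.det]
    have h1 : N.det = (1 - M).det :=
      Matrix.det_eq_of_forall_row_eq_smul_add_const c z hcz fun i j => rfl
    have h2 : (Matrix.toSquareBlockProp N fun j => j = z).det = 1 := by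
      have h3 : Matrix.toSquareBlockProp N (fun j => j = z) = 1 := by
        refine Matrix.ext fun i j => ?_
        have hi : (i : J) = z := i.2
        have hj : (j : J) = z := j.2
        have hij : i = j := Subtype.ext (hi.trans hj.symm)
        subst hij
        rw [Matrix.one_apply_eq, Matrix.toSquareBlockProp_def, Matrix.of_apply, hi, hNa, hcz,
          zero_mul, add_zero, Matrix.sub_apply, Matrix.one_apply_eq, hzz, sub_zero]
      rw [h3, Matrix.det_one]
    have h4 := Matrix.twoBlockTriangular_det N (fun j => j = z) (by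
      intro i hi j hj
      rw [hj]
      exact hNz i hi)
    have h6 : N.det = (Matrix.toSquareBlockProp N fun i => ¬ i = z).det := by
      rw [h4]
      convert one_mul _ using 2
      convert h2
    rw [← h1, h6]
    have h5 : (1 - M') = Matrix.toSquareBlockProp N (fun j => ¬ j = z) := by
      refine Matrix.ext fun i j => ?_
      exact (hNij i j).symm
    rw [h5]
  · obtain ⟨K, hK, hT⟩ := h.res
    refine ⟨Matrix.of fun i j => K i j, ?_, hT⟩
    refine Matrix.ext fun i j => ?_
    have hrow : ∀ l : J, ∑ m, (Polynomial.coeToPowerSeries.ringHom (R := MonoidAlgebra ℤ G))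
        ((1 - M) l m) * K m j = (1 : Matrix J J (PowerSeries (MonoidAlgebra ℤ G))) l j := by
      intro l
      rw [← hK, Matrix.mul_apply]
      rfl
    have hN1 : ∑ m, (Polynomial.coeToPowerSeries.ringHom (R := MonoidAlgebra ℤ G))
        (N i m) * K m j = (1 : Matrix J J (PowerSeries (MonoidAlgebra ℤ G))) i j := by
      have : ∀ m, (Polynomial.coeToPowerSeries.ringHom (R := MonoidAlgebra ℤ G)) (N i m) * K m j =
          (Polynomial.coeToPowerSeries.ringHom (R := MonoidAlgebra ℤ G)) ((1 - M) i m) * K m j +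
          (Polynomial.coeToPowerSeries.ringHom (R := MonoidAlgebra ℤ G)) (c i) *
          ((Polynomial.coeToPowerSeries.ringHom (R := MonoidAlgebra ℤ G)) ((1 - M) z m) * K m j) := by
        intro m
        rw [hNa, map_add, map_mul]
        ring
      rw [Finset.sum_congr rfl fun m _ => this m, Finset.sum_add_distrib, ← Finset.mul_sum,
        hrow, hrow, Matrix.one_apply_ne j.2.symm, mul_zero, add_zero]
    have hone : (1 : Matrix J J (PowerSeries (MonoidAlgebra ℤ G))) i j =
        (1 : Matrix {j : J // j ≠ z} {j : J // j ≠ z} (PowerSeries (MonoidAlgebra ℤ G))) i j := by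
      rw [Matrix.one_apply, Matrix.one_apply]
      simp only [Subtype.ext_iff]
    rw [← hone, ← hN1, Matrix.mul_apply]
    rw [← Fintype.sum_subtype_add_sum_subtype (fun m => m ≠ z)]
    have hz0 : ∑ m : {m : J // ¬ m ≠ z}, (Polynomial.coeToPowerSeries.ringHom
        (R := MonoidAlgebra ℤ G)) (N i m) * K m j = 0 := by
      refine Finset.sum_eq_zero fun m _ => ?_
      have : (m : J) = z := not_not.1 m.2
      rw [this, hNz i i.2, map_zero, zero_mul]
    rw [hz0, add_zero]
    refine Finset.sum_congr rfl fun m _ => ?_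
    rw [hNij]
    rfl
  · intro S hS hTS
    obtain ⟨s, hs, j, hj, hsj⟩ := elim_cut T M h.nonneg h.out z hz S hS hTS
    refine ⟨s, hs, j, hj, ?_⟩
    rw [hM'a]
    exact hsj
  · intro S hS hTS
    obtain ⟨s, hs, j, hj, hsj⟩ := elim_cut T Mᵀ (fun i j => h.nonneg j i) h.inn z hz S hS hTS
    refine ⟨s, hs, j, hj, ?_⟩
    rw [hM'a, mul_comm]
    exact hsj

/-- Repeat. (Induction on the cardinality of `J`.) -/
theorem elim_loops {J : Type} [Fintype J] [DecidableEq J] (T : J)
    (M : Matrix J J (Polynomial (MonoidAlgebra ℤ G))) (p : Polynomial (MonoidAlgebra ℤ G))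
    (kT : PowerSeries (MonoidAlgebra ℤ G)) (h : Good T M p kT) :
    ∃ (J' : Type) (_ : Fintype J') (_ : DecidableEq J') (T' : J')
      (M' : Matrix J' J' (Polynomial (MonoidAlgebra ℤ G))),
      Good T' M' p kT ∧ ∀ z, z ≠ T' → M' z z ≠ 0 := by
  induction hn : Fintype.card J using Nat.strong_induction_on generalizing J with
  | _ n ih =>
    by_cases hex : ∃ z, z ≠ T ∧ M z z = 0
    · obtain ⟨z, hz, hzz⟩ := hex
      have hlt : Fintype.card {j : J // j ≠ z} < n := by
        rw [← hn]
        exact Fintype.card_subtype_lt (x := z) (by simp)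
      exact ih _ hlt _ _ (elim_step T M p kT h z hz hzz) rfl
    · push Not at hex
      exact ⟨J, inferInstance, inferInstance, T, M, h, hex⟩

end Pool.Agent.H.MP_345fd7_an
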