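import Pool.Agent.H.MP_345fd7_an.Basic

/-! Evaluation of elements of `Zr r A` at a point `x` with `0 ≤ x ≤ r` -/

set_option autoImplicit false

namespace Pool.Agent.H.MP_345fd7_an

open scoped NNReal

/-- Evaluation is a ring homomorphism (Cauchy product of absolutely convergent series). -/
theorem exists_ev_hom {A : Type*} [CommRing A] [SN A] (ε : A →+* ℝ) (hε : ∀ a, |ε a| ≤ nn a)
    (r : ℝ≥0) (x : ℝ) (hx0 : 0 ≤ x) (hxr : x ≤ r) :
    ∃ ev : Zr r A →+* ℝ, ∀ f : Zr r A,
      HasSum (fun n => ε (PowerSeries.coeff n (f : PowerSeries A)) * x ^ n) (ev f) := by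
  have hsum : ∀ f : Zr r A,
      Summable (fun n => ‖ε (PowerSeries.coeff n (f : PowerSeries A)) * x ^ n‖) := by
    intro f
    obtain ⟨C, hC⟩ := f.2
    refine summable_of_sum_range_le (c := C) (fun n => norm_nonneg _) ?_
    intro N
    refine le_trans ?_ (hC N)
    unfold pn
    refine Finset.sum_le_sum fun n _ => ?_
    rw [Real.norm_eq_abs, abs_mul, abs_pow, abs_of_nonneg hx0]
    exact mul_le_mul (hε _) (pow_le_pow_left₀ hx0 hxr n) (pow_nonneg hx0 n) (nn_nonneg _)
  refine ⟨{ toFun := fun f => ∑' n, ε (PowerSeries.coeff n (f : PowerSeries A)) * x ^ n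
            map_one' := ?_
            map_mul' := ?_
            map_zero' := ?_
            map_add' := ?_ }, fun f => (hsum f).of_norm.hasSum⟩
  · rw [tsum_eq_single 0]
    · simp
    · intro n hn
      simp [PowerSeries.coeff_one, hn]
  · intro f g
    show (∑' n, ε (PowerSeries.coeff n ((f : PowerSeries A) * (g : PowerSeries A))) * x ^ n) = _
    rw [tsum_mul_tsum_eq_tsum_sum_antidiagonal_of_summable_norm (hsum f) (hsum g)]
    refine tsum_congr fun n => ?_
    rw [PowerSeries.coeff_mul, map_sum, Finset.sum_mul]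
    refine Finset.sum_congr rfl fun p hp => ?_
    rw [map_mul, ← Finset.HasAntidiagonal.mem_antidiagonal.1 hp, pow_add]
    ring
  · simp
  · intro f g
    rw [← (hsum f).of_norm.tsum_add (hsum g).of_norm]
    refine tsum_congr fun n => ?_
    show ε (PowerSeries.coeff n ((f : PowerSeries A) + (g : PowerSeries A))) * x ^ n = _
    rw [map_add, map_add, add_mul]

/-- remainders of the digit expansion: `evRem x c n` is `x_{n+1}` -/
noncomputable def evRem (x c : ℝ) : ℕ → ℝ
  | 0 => c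
  | (n + 1) => evRem x c n - ⌊evRem x c n / x ^ (n + 1)⌋ * x ^ (n + 1)

/-- digits of the expansion -/
noncomputable def evDigit (x c : ℝ) : ℕ → ℤ
  | 0 => 0
  | (n + 1) => ⌊evRem x c n / x ^ (n + 1)⌋

lemma evRem_succ (x c : ℝ) (n : ℕ) :
    evRem x c (n + 1) = evRem x c n - (evDigit x c (n + 1) : ℝ) * x ^ (n + 1) := rfl

lemma evDigit_zero (x c : ℝ) : evDigit x c 0 = 0 := rfl

lemma ev_partial (x c : ℝ) (n : ℕ) :
    ∑ i ∈ Finset.range (n + 1), (evDigit x c i : ℝ) * x ^ i = c - evRem x c n := by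
  induction n with
  | zero => simp [evDigit_zero, evRem]
  | succ n ih => rw [Finset.sum_range_succ, ih, evRem_succ]; ring

lemma evRem_bound {x : ℝ} (hx0 : 0 < x) (c : ℝ) (n : ℕ) :
    0 ≤ evRem x c (n + 1) ∧ evRem x c (n + 1) ≤ x ^ (n + 1) := by
  have hp : 0 < x ^ (n + 1) := pow_pos hx0 _
  have h1 := Int.floor_le (evRem x c n / x ^ (n + 1))
  have h2 := (Int.lt_floor_add_one (evRem x c n / x ^ (n + 1))).le
  rw [le_div_iff₀ hp] at h1
  rw [div_le_iff₀ hp] at h2
  constructor
  · show 0 ≤ evRem x c n - ⌊evRem x c n / x ^ (n + 1)⌋ * x ^ (n + 1)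
    linarith
  · show evRem x c n - ⌊evRem x c n / x ^ (n + 1)⌋ * x ^ (n + 1) ≤ _
    linarith

lemma evDigit_bound {x : ℝ} (hx0 : 0 < x) (c : ℝ) (n : ℕ) :
    |(evDigit x c (n + 2) : ℝ)| ≤ x⁻¹ := by
  obtain ⟨h1, h2⟩ := evRem_bound hx0 c n
  have hp : 0 < x ^ (n + 2) := pow_pos hx0 _
  have hd : 0 ≤ evRem x c (n + 1) / x ^ (n + 2) := div_nonneg h1 hp.le
  have h3 : (evDigit x c (n + 2) : ℝ) ≤ evRem x c (n + 1) / x ^ (n + 2) := Int.floor_le _
  have h4 : (0 : ℤ) ≤ evDigit x c (n + 2) := Int.floor_nonneg.2 hd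
  have h5 : evRem x c (n + 1) / x ^ (n + 2) ≤ x⁻¹ := by
    rw [div_le_iff₀ hp, pow_succ' x (n + 1), ← mul_assoc, inv_mul_cancel₀ hx0.ne', one_mul]
    exact h2
  rw [abs_of_nonneg (by exact_mod_cast h4)]
  exact h3.trans h5

lemma evDigit_bounded {x : ℝ} (hx0 : 0 < x) (c : ℝ) :
    ∃ K : ℝ, 0 ≤ K ∧ ∀ n, |(evDigit x c n : ℝ)| ≤ K := by
  refine ⟨|(evDigit x c 1 : ℝ)| + x⁻¹, by positivity, ?_⟩
  intro n
  match n with
  | 0 => rw [evDigit_zero]; simp; positivity
  | 1 => have := inv_pos.2 hx0; linarith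
  | (n + 2) =>
    have := evDigit_bound hx0 c n
    have := abs_nonneg (evDigit x c 1 : ℝ)
    linarith

/-- Digits: every real number is `∑ a_n x ^ n` with bounded integer digits `a_n`, `n ≥ 1`
(`a_n = ⌊x_n / x ^ n⌋`, `x_1 = c`, `x_{n+1} = x_n - a_n x ^ n`). -/
theorem exists_digits {G : Type} [CommGroup G] [Fintype G] (r : ℝ≥0) (hr1 : r < 1) (x : ℝ)
    (hx0 : 0 < x) (hx1 : x < 1) (hxr : x ≤ r) (c : ℝ) :
    ∃ f : Zr r (MonoidAlgebra ℤ G), cc f = 0 ∧
      HasSum (fun n => ((aug G (PowerSeries.coeff n (f : PowerSeries (MonoidAlgebra ℤ G))) : ℤ) : ℝ)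
        * x ^ n) c := by
  classical
  obtain ⟨K, hK0, hK⟩ := evDigit_bounded hx0 c
  have hr1' : (r : ℝ) < 1 := by exact_mod_cast hr1
  have hnn : ∀ n, nn (MonoidAlgebra.single (1 : G) (evDigit x c n)) ≤ K := by
    intro n
    rw [nn_monoidAlgebra, Finset.sum_eq_single (1 : G)]
    · rw [MonoidAlgebra.coeff_single, Finsupp.single_eq_same, nn_int]
      exact hK n
    · intro b _ hb
      rw [MonoidAlgebra.coeff_single, Finsupp.single_apply, if_neg (Ne.symm hb), nn_zero]
    · intro h; exact absurd (Finset.mem_univ _) h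
  have haug : ∀ n, aug G (MonoidAlgebra.single (1 : G) (evDigit x c n)) = evDigit x c n := by
    intro n
    rw [aug_apply, Finset.sum_eq_single (1 : G)]
    · rw [MonoidAlgebra.coeff_single, Finsupp.single_eq_same]
    · intro b _ hb
      rw [MonoidAlgebra.coeff_single, Finsupp.single_apply, if_neg (Ne.symm hb)]
    · intro h; exact absurd (Finset.mem_univ _) h
  let F : PowerSeries (MonoidAlgebra ℤ G) :=
    PowerSeries.mk fun n => MonoidAlgebra.single (1 : G) (evDigit x c n)
  have hF : F ∈ Zr r (MonoidAlgebra ℤ G) := by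
    refine ⟨K * (1 - (r : ℝ))⁻¹, fun N => ?_⟩
    unfold pn
    calc ∑ n ∈ Finset.range N, nn (PowerSeries.coeff n F) * (r : ℝ) ^ n
        ≤ ∑ n ∈ Finset.range N, K * (r : ℝ) ^ n := by
          refine Finset.sum_le_sum fun n _ => ?_
          rw [PowerSeries.coeff_mk]
          exact mul_le_mul_of_nonneg_right (hnn n) (by positivity)
      _ = K * ∑ n ∈ Finset.range N, (r : ℝ) ^ n := by rw [Finset.mul_sum]
      _ ≤ K * (1 - (r : ℝ))⁻¹ := by
          refine mul_le_mul_of_nonneg_left ?_ hK0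
          rw [← tsum_geometric_of_lt_one (by positivity) hr1']
          exact (summable_geometric_of_lt_one (by positivity) hr1').sum_le_tsum _
            (fun _ _ => by positivity)
  refine ⟨⟨F, hF⟩, ?_, ?_⟩
  · rw [cc_apply]
    show PowerSeries.constantCoeff F = 0
    rw [← PowerSeries.coeff_zero_eq_constantCoeff_apply, PowerSeries.coeff_mk, evDigit_zero]
    simp
  · have hfun : (fun n => ((aug G (PowerSeries.coeff n F) : ℤ) : ℝ) * x ^ n) =
        fun n => (evDigit x c n : ℝ) * x ^ n := by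
      funext n
      rw [PowerSeries.coeff_mk, haug]
    show HasSum (fun n => ((aug G (PowerSeries.coeff n F) : ℤ) : ℝ) * x ^ n) c
    rw [hfun]
    have hs : Summable (fun n => (evDigit x c n : ℝ) * x ^ n) := by
      refine Summable.of_norm_bounded (g := fun n => K * x ^ n)
        ((summable_geometric_of_lt_one hx0.le hx1).mul_left K) fun n => ?_
      rw [Real.norm_eq_abs, abs_mul, abs_pow, abs_of_pos hx0]
      exact mul_le_mul_of_nonneg_right (hK n) (by positivity)
    rw [hs.hasSum_iff_tendsto_nat]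
    rw [← Filter.tendsto_add_atTop_iff_nat 2]
    have h1 : (fun n => ∑ i ∈ Finset.range (n + 2), (evDigit x c i : ℝ) * x ^ i) =
        fun n => c - evRem x c (n + 1) := by
      funext n
      exact ev_partial x c (n + 1)
    rw [h1]
    have h2 : Filter.Tendsto (fun n => evRem x c (n + 1)) Filter.atTop (nhds 0) := by
      refine squeeze_zero (fun n => (evRem_bound hx0 c n).1) (fun n => (evRem_bound hx0 c n).2) ?_
      exact (tendsto_pow_atTop_nhds_zero_of_lt_one hx0.le hx1).comp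
        (Filter.tendsto_add_atTop_nat 1)
    have h3 := (tendsto_const_nhds (x := c)).sub h2
    simpa using h3

end Pool.Agent.H.MP_345fd7_an
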