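import Pool.Agent.H.MP_345fd7_an.StructDefs

/-! Expanding the `T`-row -/

set_option autoImplicit false
set_option linter.unusedSectionVars false

namespace Pool.Agent.H.MP_345fd7_an

open Matrix Polynomial

variable {G : Type} [CommGroup G] [Fintype G]

/-- one expansion step of the `T`-row -/
noncomputable def expandStep {J : Type} [Fintype J] [DecidableEq J] (T : J)
    (M : Matrix J J (Polynomial (MonoidAlgebra ℤ G))) :
    Matrix J J (Polynomial (MonoidAlgebra ℤ G)) :=
  Matrix.of fun i j => if i = T then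
    (if j = T then M T T else 0) + ∑ z ∈ Finset.univ.erase T, M T z * M z j else M i j

lemma expandStep_TT {J : Type} [Fintype J] [DecidableEq J] (T : J)
    (M : Matrix J J (Polynomial (MonoidAlgebra ℤ G))) :
    expandStep T M T T = M T T + ∑ z ∈ Finset.univ.erase T, M T z * M z T := by
  simp [expandStep]

lemma expandStep_Tz {J : Type} [Fintype J] [DecidableEq J] (T : J)
    (M : Matrix J J (Polynomial (MonoidAlgebra ℤ G))) {z' : J} (h : z' ≠ T) :
    expandStep T M T z' = ∑ z ∈ Finset.univ.erase T, M T z * M z z' := by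
  simp [expandStep, h]

lemma expandStep_z {J : Type} [Fintype J] [DecidableEq J] (T : J)
    (M : Matrix J J (Polynomial (MonoidAlgebra ℤ G))) {z : J} (h : z ≠ T) (j : J) :
    expandStep T M z j = M z j := by
  simp [expandStep, h]

/-- the row operation matrix, for a vector `v` -/
def expandE {J R : Type} [Fintype J] [DecidableEq J] [CommRing R] (T : J) (v : J → R) :
    Matrix J J R :=
  1 + Matrix.replicateCol Unit (Pi.single T (1 : R)) * Matrix.replicateRow Unit v

lemma expandE_apply {J R : Type} [Fintype J] [DecidableEq J] [CommRing R] (T : J) (v : J → R)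
    (i j : J) : expandE T v i j = (if i = j then 1 else 0) + (if i = T then v j else 0) := by
  simp only [expandE, Matrix.add_apply, Matrix.one_apply, Matrix.mul_apply,
    Matrix.replicateCol_apply, Matrix.replicateRow_apply, Finset.univ_unique,
    Finset.sum_singleton, Pi.single_apply]
  congr 1
  split_ifs <;> simp

lemma expandE_det {J R : Type} [Fintype J] [DecidableEq J] [CommRing R] (T : J) (v : J → R)
    (hv : v T = 0) : (expandE T v).det = 1 := by
  rw [expandE, Matrix.det_one_add_replicateCol_mul_replicateRow]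
  simp [hv]

lemma expandE_mul_apply {J R : Type} [Fintype J] [DecidableEq J] [CommRing R] (T : J) (v : J → R)
    (A : Matrix J J R) (i j : J) : (expandE T v * A) i j =
      A i j + (if i = T then ∑ z, v z * A z j else 0) := by
  rw [Matrix.mul_apply]
  simp only [expandE_apply, add_mul, Finset.sum_add_distrib, ite_mul, one_mul, zero_mul,
    Finset.sum_ite_eq, Finset.mem_univ, if_true]
  congr 1
  split_ifs <;> simp

lemma expandE_mul_neg {J R : Type} [Fintype J] [DecidableEq J] [CommRing R] (T : J) (v : J → R)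
    (hv : v T = 0) : expandE T v * expandE T (-v) = 1 := by
  ext i j
  rw [expandE_mul_apply]
  simp only [expandE_apply, Matrix.one_apply, Pi.neg_apply]
  by_cases hi : i = T
  · simp only [hi, if_true, mul_add, mul_ite, mul_one, mul_zero, Finset.sum_add_distrib,
      Finset.sum_ite_eq', Finset.mem_univ, Finset.sum_ite_eq, hv, zero_mul]
    by_cases hj : T = j
    · subst hj; simp [hv]
    · simp [hj]
  · simp [hi]

lemma expandE_map {J R S : Type} [Fintype J] [DecidableEq J] [CommRing R] [CommRing S]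
    (φ : R →+* S) (T : J) (v : J → R) :
    (expandE T v).map φ = expandE T (fun j => φ (v j)) := by
  ext i j
  simp only [Matrix.map_apply, expandE_apply, map_add]
  congr 1 <;> split_ifs <;> simp

lemma expandStep_eq {J : Type} [Fintype J] [DecidableEq J] (T : J)
    (M : Matrix J J (Polynomial (MonoidAlgebra ℤ G))) :
    1 - expandStep T M = expandE T (fun j => if j = T then 0 else M T j) * (1 - M) := by
  refine Matrix.ext fun i j => ?_
  rw [expandE_mul_apply]
  by_cases hi : i = T
  · subst hi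
    rw [if_pos rfl]
    have h1 : ∑ z, (if z = i then 0 else M i z) * (1 - M) z j =
        ∑ z ∈ Finset.univ.erase i, M i z * (1 - M) z j := by
      rw [← Finset.add_sum_erase Finset.univ _ (Finset.mem_univ i)]
      simp only [if_true, zero_mul, zero_add]
      refine Finset.sum_congr rfl fun z hz => ?_
      rw [if_neg (Finset.ne_of_mem_erase hz)]
    rw [h1]
    simp only [Matrix.sub_apply, Matrix.one_apply, mul_sub, Finset.sum_sub_distrib, mul_ite,
      mul_one, mul_zero]
    rw [Finset.sum_ite_eq']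
    by_cases hj : j = i
    · subst hj
      rw [expandStep_TT]
      simp
      ring
    · rw [expandStep_Tz _ _ hj]
      simp [hj, Ne.symm hj]
      ring
  · rw [if_neg hi]
    simp only [Matrix.sub_apply, expandStep_z _ _ hi, add_zero]

lemma expand_of_eq {f g : Polynomial (MonoidAlgebra ℤ G)} (h : PNn f) (e : f = g) : PNn g :=
  e ▸ h

lemma expand_PNn_mul_sub {f g x y : Polynomial (MonoidAlgebra ℤ G)} (hg : PNn g) (hx : PNn x)
    (h1 : PNn (f - x)) (h2 : PNn (g - y)) : PNn (f * g - x * y) := by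
  have : f * g - x * y = (f - x) * g + x * (g - y) := by ring
  rw [this]
  exact (h1.mul hg).add (hx.mul h2)

lemma expandStep_good {J : Type} [Fintype J] [DecidableEq J] (T : J)
    (M : Matrix J J (Polynomial (MonoidAlgebra ℤ G))) (p : Polynomial (MonoidAlgebra ℤ G))
    (kT : PowerSeries (MonoidAlgebra ℤ G)) (h : Good T M p kT)
    (hl : ∀ z, z ≠ T → M z z ≠ 0) (hTz : ∀ z, z ≠ T → M T z ≠ 0) :
    Good T (expandStep T M) p kT ∧ ∀ z, z ≠ T → expandStep T M T z ≠ 0 := by
  have hTz' : ∀ z, z ≠ T → expandStep T M T z ≠ 0 := by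
    intro z hz
    rw [expandStep_Tz _ _ hz]
    rw [← Finset.add_sum_erase _ _ (Finset.mem_erase.2 ⟨hz, Finset.mem_univ z⟩)]
    refine PNn.add_ne_zero_left ?_ ?_ ?_
    · exact (h.nonneg _ _).mul (h.nonneg _ _)
    · exact PNn.sum _ _ fun i _ => (h.nonneg _ _).mul (h.nonneg _ _)
    · exact PNn.mul_ne_zero (h.nonneg _ _) (h.nonneg _ _) (hTz z hz) (hl z hz)
  obtain ⟨K, hK, hT⟩ := h.res
  set v : J → Polynomial (MonoidAlgebra ℤ G) := fun j => if j = T then 0 else M T j with hv
  have hvT : v T = 0 := by simp [hv]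
  refine ⟨⟨?_, ?_, ?_, ⟨K * expandE T (fun j => -(Polynomial.coeToPowerSeries.ringHom
      (R := MonoidAlgebra ℤ G)) (v j)), ?_, ?_⟩, ?_, ?_⟩, hTz'⟩
  · intro i j
    by_cases hi : i = T
    · subst hi
      by_cases hj : j = i
      · subst hj
        rw [expandStep_TT]
        exact (h.nonneg _ _).add (PNn.sum _ _ fun i _ => (h.nonneg _ _).mul (h.nonneg _ _))
      · rw [expandStep_Tz _ _ hj]
        exact PNn.sum _ _ fun i _ => (h.nonneg _ _).mul (h.nonneg _ _)
    · rw [expandStep_z _ _ hi]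
      exact h.nonneg _ _
  · intro i j
    have h0 : ∀ z j, (M T z * M z j).coeff 0 = 0 := by
      intro z j
      rw [Polynomial.mul_coeff_zero, h.zero, zero_mul]
    by_cases hi : i = T
    · subst hi
      by_cases hj : j = i
      · subst hj
        rw [expandStep_TT, Polynomial.coeff_add, h.zero, Polynomial.finsetSum_coeff, zero_add]
        exact Finset.sum_eq_zero fun z _ => h0 z j
      · rw [expandStep_Tz _ _ hj, Polynomial.finsetSum_coeff]
        exact Finset.sum_eq_zero fun z _ => h0 z j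
    · rw [expandStep_z _ _ hi]
      exact h.zero _ _
  · rw [expandStep_eq, Matrix.det_mul, expandE_det _ _ (by simp), one_mul, h.det]
  · rw [expandStep_eq, Matrix.map_mul, expandE_map]
    rw [Matrix.mul_assoc, ← Matrix.mul_assoc _ K, hK, Matrix.one_mul]
    exact expandE_mul_neg T _ (by simp)
  · rw [Matrix.mul_apply, Finset.sum_eq_single T]
    · rw [expandE_apply, hvT, hT]; simp
    · intro b _ hb
      rw [expandE_apply]; simp [hb]
    · simp
  · intro S hS hTS
    obtain ⟨s, hs, j, hj, hsj⟩ := h.out S hS hTS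
    refine ⟨s, hs, j, hj, ?_⟩
    rw [expandStep_z]
    · exact hsj
    · rintro rfl; exact hTS hs
  · intro S hS hTS
    obtain ⟨s, hs⟩ := hS
    exact ⟨s, hs, T, hTS, hTz' s (by rintro rfl; exact hTS hs)⟩

/-- a nonzero nonnegative polynomial without constant term dominates a monomial -/
lemma expand_exists_monomial {f : Polynomial (MonoidAlgebra ℤ G)} (hf : PNn f) (h0 : f ≠ 0)
    (hc : f.coeff 0 = 0) : ∃ (g : G) (d : ℕ), 1 ≤ d ∧
      PNn (f - Polynomial.monomial d (MonoidAlgebra.single g (1 : ℤ))) := by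
  classical
  obtain ⟨d, hd⟩ : ∃ d, f.coeff d ≠ 0 := by
    by_contra hcon
    push Not at hcon
    exact h0 (Polynomial.ext (by simpa using hcon))
  obtain ⟨g, hg⟩ : ∃ g, (f.coeff d).coeff g ≠ 0 := by
    by_contra hcon
    push Not at hcon
    apply hd
    apply MonoidAlgebra.ext
    ext g
    simpa using hcon g
  refine ⟨g, d, ?_, ?_⟩
  · rcases Nat.eq_zero_or_pos d with h | h
    · subst h; exact absurd hc hd
    · exact h
  · intro n g'
    rw [Polynomial.coeff_sub, Polynomial.coeff_monomial]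
    by_cases hn : d = n
    · subst hn
      rw [if_pos rfl]
      have h1 : (f.coeff d - MonoidAlgebra.single g (1 : ℤ)).coeff g' =
          (f.coeff d).coeff g' - (if g = g' then 1 else 0) := by
        rw [MonoidAlgebra.coeff_sub, Finsupp.sub_apply, MonoidAlgebra.coeff_single,
          Finsupp.single_apply]
      rw [h1]
      by_cases hgg : g = g'
      · subst hgg
        rw [if_pos rfl]
        have := hf d g
        omega
      · rw [if_neg hgg]
        have := hf d g'
        omega
    · rw [if_neg hn, sub_zero]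
      exact hf n g'

/-- PROOF. One step: `row T += ∑_{z ≠ T} M T z * row z` of `1 - M`; the new `T`-row of `M` is
`M' T T = M T T + ∑_{z ≠ T} M T z * M z T`, `M' T z' = ∑_{z ≠ T} M T z * M z z'`.
Monomials `x₁ = h₁ t ^ d₁ ≤ M T z₀`, `x₂ = h₂ t ^ d₂ ≤ M z₀ z₀`, `x₃ = h₃ t ^ d₃ ≤ M z₀ T`
(all `d_i ≥ 1`); `h c = h₁ h₂ ^ c h₃`, `d c = d₁ + c d₂ + d₃`. By induction on `a`,
`M_a T z₀ ≥ x₁ x₂ ^ a` and `M_a T T ≥ ∑_{c < a} x₁ x₂ ^ c x₃`. -/
theorem expand {J : Type} [Fintype J] [DecidableEq J] (T : J)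
    (M : Matrix J J (Polynomial (MonoidAlgebra ℤ G))) (p : Polynomial (MonoidAlgebra ℤ G))
    (kT : PowerSeries (MonoidAlgebra ℤ G)) (h : Good T M p kT)
    (hl : ∀ z, z ≠ T → M z z ≠ 0) (hzT : ∀ z, z ≠ T → M z T ≠ 0)
    (hTz : ∀ z, z ≠ T → M T z ≠ 0) (hex : ∃ z, z ≠ T) :
    ∃ (x : ℕ → G) (d : ℕ → ℕ), StrictMono d ∧ (∀ c, c + 2 ≤ d c) ∧
      ∀ a : ℕ, ∃ M' : Matrix J J (Polynomial (MonoidAlgebra ℤ G)), Good T M' p kT ∧
        (∀ z, z ≠ T → ∀ j, M' z j = M z j) ∧
        (∀ z, z ≠ T → M' T z ≠ 0 ∧ (X : Polynomial (MonoidAlgebra ℤ G)) ^ (a + 1) ∣ M' T z) ∧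
        PNn (M' T T - ∑ c ∈ Finset.range a,
          Polynomial.monomial (d c) (MonoidAlgebra.single (x c) (1 : ℤ))) := by
  obtain ⟨z₀, hz₀⟩ := hex
  obtain ⟨g₁, d₁, hd₁, h₁⟩ := expand_exists_monomial (h.nonneg T z₀) (hTz z₀ hz₀) (h.zero _ _)
  obtain ⟨g₂, d₂, hd₂, h₂⟩ := expand_exists_monomial (h.nonneg z₀ z₀) (hl z₀ hz₀) (h.zero _ _)
  obtain ⟨g₃, d₃, hd₃, h₃⟩ := expand_exists_monomial (h.nonneg z₀ T) (hzT z₀ hz₀) (h.zero _ _)
  have hmm : ∀ (a b : ℕ) (x y : G),
      Polynomial.monomial a (MonoidAlgebra.single x (1 : ℤ)) *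
        Polynomial.monomial b (MonoidAlgebra.single y (1 : ℤ)) =
      Polynomial.monomial (a + b) (MonoidAlgebra.single (x * y) (1 : ℤ)) := by
    intro a b x y
    rw [Polynomial.monomial_mul_monomial, MonoidAlgebra.single_mul_single, one_mul]
  refine ⟨fun c => g₁ * g₂ ^ c * g₃, fun c => d₁ + c * d₂ + d₃, ?_, ?_, ?_⟩
  · intro a b hab
    have : a * d₂ < b * d₂ := Nat.mul_lt_mul_of_pos_right hab hd₂
    show d₁ + a * d₂ + d₃ < d₁ + b * d₂ + d₃
    omega
  · intro c
    have : c * 1 ≤ c * d₂ := Nat.mul_le_mul_left c hd₂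
    show c + 2 ≤ d₁ + c * d₂ + d₃
    omega
  · intro a
    suffices H : ∃ M' : Matrix J J (Polynomial (MonoidAlgebra ℤ G)), Good T M' p kT ∧
        (∀ z, z ≠ T → ∀ j, M' z j = M z j) ∧
        (∀ z, z ≠ T → M' T z ≠ 0 ∧ (X : Polynomial (MonoidAlgebra ℤ G)) ^ (a + 1) ∣ M' T z) ∧
        PNn (M' T T - ∑ c ∈ Finset.range a, Polynomial.monomial (d₁ + c * d₂ + d₃)
          (MonoidAlgebra.single (g₁ * g₂ ^ c * g₃) (1 : ℤ))) ∧
        PNn (M' T z₀ - Polynomial.monomial (d₁ + a * d₂)
          (MonoidAlgebra.single (g₁ * g₂ ^ a) (1 : ℤ))) by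
      obtain ⟨M', h1, h2, h3, h4, -⟩ := H
      exact ⟨M', h1, h2, h3, h4⟩
    induction a with
    | zero =>
      refine ⟨M, h, fun _ _ _ => rfl, ?_, ?_, ?_⟩
      · intro z hz
        refine ⟨hTz z hz, ?_⟩
        rw [zero_add, pow_one, Polynomial.X_dvd_iff]
        exact h.zero _ _
      · simpa using h.nonneg T T
      · simpa using h₁
    | succ a ih =>
      obtain ⟨N, hN, hrow, hTN, hTT, hTz0⟩ := ih
      have hstep := expandStep_good T N p kT hN (fun z hz => by rw [hrow z hz]; exact hl z hz)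
        (fun z hz => (hTN z hz).1)
      refine ⟨expandStep T N, hstep.1, ?_, ?_, ?_, ?_⟩
      · intro z hz j
        rw [expandStep_z _ _ hz, hrow z hz]
      · intro z hz
        refine ⟨hstep.2 z hz, ?_⟩
        rw [expandStep_Tz _ _ hz]
        refine Finset.dvd_sum fun y hy => ?_
        rw [pow_succ]
        refine mul_dvd_mul (hTN y (Finset.ne_of_mem_erase hy)).2 ?_
        rw [Polynomial.X_dvd_iff]
        exact hN.zero _ _
      · rw [expandStep_TT, Finset.sum_range_succ,
          ← Finset.add_sum_erase _ _ (Finset.mem_erase.2 ⟨hz₀, Finset.mem_univ z₀⟩)]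
        have e1 : Polynomial.monomial (d₁ + a * d₂ + d₃)
            (MonoidAlgebra.single (g₁ * g₂ ^ a * g₃) (1 : ℤ)) =
            Polynomial.monomial (d₁ + a * d₂) (MonoidAlgebra.single (g₁ * g₂ ^ a) (1 : ℤ)) *
            Polynomial.monomial d₃ (MonoidAlgebra.single g₃ (1 : ℤ)) := by
          rw [hmm]
        rw [e1]
        have h5 : PNn (N T z₀ * N z₀ T -
            Polynomial.monomial (d₁ + a * d₂) (MonoidAlgebra.single (g₁ * g₂ ^ a) (1 : ℤ)) *
            Polynomial.monomial d₃ (MonoidAlgebra.single g₃ (1 : ℤ))) := by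
          refine expand_PNn_mul_sub (hN.nonneg _ _)
            (PNn.monomial _ (Nn.single _ zero_le_one)) hTz0 ?_
          rw [hrow z₀ hz₀]
          exact h₃
        have h6 : PNn (∑ z ∈ (Finset.univ.erase T).erase z₀, N T z * N z T) :=
          PNn.sum _ _ fun i _ => (hN.nonneg _ _).mul (hN.nonneg _ _)
        exact expand_of_eq ((hTT.add h5).add h6) (by ring)
      · rw [expandStep_Tz _ _ hz₀,
          ← Finset.add_sum_erase _ _ (Finset.mem_erase.2 ⟨hz₀, Finset.mem_univ z₀⟩)]
        have e1 : Polynomial.monomial (d₁ + (a + 1) * d₂)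
            (MonoidAlgebra.single (g₁ * g₂ ^ (a + 1)) (1 : ℤ)) =
            Polynomial.monomial (d₁ + a * d₂) (MonoidAlgebra.single (g₁ * g₂ ^ a) (1 : ℤ)) *
            Polynomial.monomial d₂ (MonoidAlgebra.single g₂ (1 : ℤ)) := by
          rw [hmm]
          congr 2
          · ring
          · rw [pow_succ, mul_assoc]
        rw [e1]
        have h5 : PNn (N T z₀ * N z₀ z₀ -
            Polynomial.monomial (d₁ + a * d₂) (MonoidAlgebra.single (g₁ * g₂ ^ a) (1 : ℤ)) *
            Polynomial.monomial d₂ (MonoidAlgebra.single g₂ (1 : ℤ))) := by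
          refine expand_PNn_mul_sub (hN.nonneg _ _)
            (PNn.monomial _ (Nn.single _ zero_le_one)) hTz0 ?_
          rw [hrow z₀ hz₀]
          exact h₂
        have h6 : PNn (∑ z ∈ (Finset.univ.erase T).erase z₀, N T z * N z z₀) :=
          PNn.sum _ _ fun i _ => (hN.nonneg _ _).mul (hN.nonneg _ _)
        exact expand_of_eq (h5.add h6) (by ring)

end Pool.Agent.H.MP_345fd7_an
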