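import Pool.Agent.H.MP_345fd7_an.StructDefs

/-! The initial matrix `t A` -/

set_option autoImplicit false

namespace Pool.Agent.H.MP_345fd7_an

open Matrix Polynomial

variable {G : Type} [CommGroup G] [Fintype G]

lemma init_out {R : Type*} [Semiring R] {J : Type*} [Fintype J] [DecidableEq J] (A : Matrix J J R)
    (S : Finset J) (h : ∀ s ∈ S, ∀ j, j ∉ S → A s j = 0) (k : ℕ) :
    ∀ s ∈ S, ∀ j, j ∉ S → (A ^ k) s j = 0 := by
  induction k with
  | zero =>
    intro s hs j hj
    rw [pow_zero, Matrix.one_apply_ne]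
    rintro rfl
    exact hj hs
  | succ k ih =>
    intro s hs j hj
    rw [pow_succ', Matrix.mul_apply]
    refine Finset.sum_eq_zero fun x _ => ?_
    by_cases hx : x ∈ S
    · rw [ih x hx j hj, mul_zero]
    · rw [h s hs x hx, zero_mul]

lemma init_inn {R : Type*} [Semiring R] {J : Type*} [Fintype J] [DecidableEq J] (A : Matrix J J R)
    (S : Finset J) (h : ∀ s ∈ S, ∀ j, j ∉ S → A j s = 0) (k : ℕ) :
    ∀ s ∈ S, ∀ j, j ∉ S → (A ^ k) j s = 0 := by
  induction k with
  | zero =>
    intro s hs j hj
    rw [pow_zero, Matrix.one_apply_ne]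
    rintro rfl
    exact hj hs
  | succ k ih =>
    intro s hs j hj
    rw [pow_succ, Matrix.mul_apply]
    refine Finset.sum_eq_zero fun x _ => ?_
    by_cases hx : x ∈ S
    · rw [ih x hx j hj, zero_mul]
    · rw [h s hs x hx, mul_zero]

lemma init_res {R : Type*} [CommRing R] {J : Type*} [Fintype J] [DecidableEq J]
    (A : Matrix J J R) :
    (1 - (X : Polynomial R) • A.map Polynomial.C).map
      (Polynomial.coeToPowerSeries.ringHom (R := R)) *
      (Matrix.of fun i j => PowerSeries.mk fun l => (A ^ l) i j) = 1 := by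
  have h1 : (1 - (X : Polynomial R) • A.map Polynomial.C).map
      (Polynomial.coeToPowerSeries.ringHom (R := R)) =
      1 - (PowerSeries.X : PowerSeries R) • A.map (PowerSeries.C (R := R)) := by
    ext i j : 2
    have hx : (Polynomial.coeToPowerSeries.ringHom (R := R)) (X * Polynomial.C (A i j)) =
        PowerSeries.X * PowerSeries.C (A i j) := by
      rw [map_mul]
      simp
    rw [Matrix.map_apply, Matrix.sub_apply, Matrix.sub_apply, Matrix.smul_apply, Matrix.smul_apply,
      Matrix.map_apply, Matrix.map_apply, smul_eq_mul, smul_eq_mul, map_sub, hx]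
    congr 1
    by_cases hij : i = j
    · subst hij; simp
    · simp [Matrix.one_apply_ne hij]
  rw [h1, Matrix.sub_mul, Matrix.one_mul, Matrix.smul_mul]
  ext i j l
  rw [Matrix.sub_apply, Matrix.smul_apply, smul_eq_mul, map_sub, Matrix.of_apply,
    PowerSeries.coeff_mk, Matrix.mul_apply]
  cases l with
  | zero =>
    rw [PowerSeries.coeff_zero_X_mul, sub_zero, pow_zero]
    by_cases hij : i = j
    · subst hij; simp
    · simp [Matrix.one_apply_ne hij]
  | succ l =>
    rw [PowerSeries.coeff_succ_X_mul, map_sum, pow_succ', Matrix.mul_apply]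
    have h2 : ∀ k, (PowerSeries.coeff l) ((A.map (PowerSeries.C (R := R))) i k *
        (Matrix.of fun i j => PowerSeries.mk fun l => (A ^ l) i j) k j) =
        A i k * (A ^ l) k j := by
      intro k
      rw [Matrix.map_apply, PowerSeries.coeff_C_mul, Matrix.of_apply, PowerSeries.coeff_mk]
    rw [Finset.sum_congr rfl fun k _ => h2 k, sub_self]
    by_cases hij : i = j
    · subst hij; simp [PowerSeries.coeff_one]
    · simp [Matrix.one_apply_ne hij]

/-- `K = ∑ A ^ l t ^ l`; connectivity from `A ^ k ≫ 0`. -/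
theorem init_good {n : ℕ} (A : Matrix (Fin (n + 1)) (Fin (n + 1)) (MonoidAlgebra ℤ G))
    (hA : ∀ i j, Nn (A i j)) (hk : ∃ k : ℕ, 0 < k ∧ ∀ i j g, 0 < ((A ^ k) i j).coeff g) :
    Good (0 : Fin (n + 1)) ((X : Polynomial (MonoidAlgebra ℤ G)) • A.map Polynomial.C)
      (1 - (X : Polynomial (MonoidAlgebra ℤ G)) • A.map Polynomial.C).det
      (PowerSeries.mk fun l => (A ^ l) 0 0) := by
  classical
  obtain ⟨k, -, hk⟩ := hk
  have happ : ∀ i j, ((X : Polynomial (MonoidAlgebra ℤ G)) • A.map Polynomial.C) i j =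
      X * Polynomial.C (A i j) := fun i j => by
    rw [Matrix.smul_apply, smul_eq_mul, Matrix.map_apply]
  have hne : ∀ i j, A i j ≠ 0 →
      ((X : Polynomial (MonoidAlgebra ℤ G)) • A.map Polynomial.C) i j ≠ 0 := by
    intro i j h h'
    apply h
    rw [happ] at h'
    have := congrArg (fun f : Polynomial (MonoidAlgebra ℤ G) => f.coeff 1) h'
    simpa using this
  refine ⟨fun i j => ?_, fun i j => ?_, rfl, ⟨_, init_res A, ?_⟩, ?_, ?_⟩
  · rw [happ]; exact PNn.mul PNn.X (PNn.C (hA i j))
  · rw [happ]; simp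
  · rfl
  · intro S hS hT
    by_contra hcon
    push Not at hcon
    obtain ⟨s, hs⟩ := hS
    have h1 := init_out A S (fun s hs j hj => by
      by_contra h
      exact hne s j h (hcon s hs j hj)) k s hs 0 hT
    have h2 := hk s 0 1
    rw [h1] at h2
    simp at h2
  · intro S hS hT
    by_contra hcon
    push Not at hcon
    obtain ⟨s, hs⟩ := hS
    have h1 := init_inn A S (fun s hs j hj => by
      by_contra h
      exact hne j s h (hcon s hs j hj)) k s hs 0 hT
    have h2 := hk 0 s 1
    rw [h1] at h2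
    simp at h2

end Pool.Agent.H.MP_345fd7_an
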