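import Pool.Agent.H.MP_345fd7_an.Ev

/-! The kernel of the evaluation at `1 / lam` is generated by `det (1 - t A)` -/

set_option autoImplicit false

namespace Pool.Agent.H.MP_345fd7_an

open scoped NNReal
open Matrix Polynomial

section KerAux

/-- the geometric series `∑ A ^ l t ^ l` as a matrix of power series -/
noncomputable def ker_K {R : Type*} [CommRing R] {m : Type*} [Fintype m] [DecidableEq m]
    (A : Matrix m m R) : Matrix m m (PowerSeries R) :=
  Matrix.of fun i j => PowerSeries.mk fun l => (A ^ l) i j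

lemma ker_geom {R : Type*} [CommRing R] {m : Type*} [Fintype m] [DecidableEq m]
    (A : Matrix m m R) :
    (1 - (PowerSeries.X : PowerSeries R) • A.map PowerSeries.C) * ker_K A = 1 := by
  ext i j l
  rw [Matrix.sub_mul, Matrix.one_mul, Matrix.smul_mul, Matrix.sub_apply, Matrix.smul_apply,
    Matrix.mul_apply, smul_eq_mul, map_sub]
  cases l with
  | zero =>
    simp [ker_K, Matrix.one_apply]
  | succ l =>
    rw [PowerSeries.coeff_succ_X_mul, map_sum]
    have h1 : ∀ x : m, (PowerSeries.coeff l)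
        ((A.map (PowerSeries.C : R →+* PowerSeries R)) i x * ker_K A x j) =
        A i x * (A ^ l) x j := by
      intro x
      rw [Matrix.map_apply, PowerSeries.coeff_C_mul]
      simp [ker_K]
    rw [Finset.sum_congr rfl fun x _ => h1 x, ← Matrix.mul_apply, ← pow_succ']
    have h2 : (PowerSeries.coeff (l + 1)) ((1 : Matrix m m (PowerSeries R)) i j) = 0 := by
      rw [Matrix.one_apply]
      split_ifs
      · rw [PowerSeries.coeff_one]; simp
      · simp
    rw [h2]
    simp [ker_K]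

lemma ker_tail (t b : ℕ → ℝ) (ρ F : ℝ) (hρ : 1 < ρ) (hb : ∀ i, 0 ≤ b i)
    (hF : ∀ N, ∑ i ∈ Finset.range N, b i ≤ F) (htb : ∀ i, |t i| * ρ ^ i ≤ b i)
    (ht : HasSum t 0) (N : ℕ) :
    ∑ l ∈ Finset.range N, ρ ^ l * |∑ i ∈ Finset.range (l + 1), t i| ≤ F / (ρ - 1) := by
  have hρ0 : 0 < ρ := by linarith
  have hρ1 : 0 < ρ - 1 := by linarith
  have key : ∀ M, N ≤ M →
      ∑ l ∈ Finset.range N, ρ ^ l * |∑ i ∈ Finset.range (l + 1), t i| ≤
      (∑ l ∈ Finset.range N, ρ ^ l) * |∑ i ∈ Finset.range M, t i| + F / (ρ - 1) := by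
    intro M hM
    have h1 : ∀ l ∈ Finset.range N, ρ ^ l * |∑ i ∈ Finset.range (l + 1), t i| ≤
        ρ ^ l * |∑ i ∈ Finset.range M, t i| + ∑ i ∈ Finset.Ico (l + 1) M, b i * (ρ ^ l / ρ ^ i) := by
      intro l hl
      have hlM : l + 1 ≤ M := by
        have := Finset.mem_range.1 hl; omega
      have h2 : ∑ i ∈ Finset.range (l + 1), t i =
          ∑ i ∈ Finset.range M, t i - ∑ i ∈ Finset.Ico (l + 1) M, t i := by
        rw [← Finset.sum_range_add_sum_Ico t hlM]; ring
      rw [h2]
      have h3 : |∑ i ∈ Finset.range M, t i - ∑ i ∈ Finset.Ico (l + 1) M, t i| ≤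
          |∑ i ∈ Finset.range M, t i| + ∑ i ∈ Finset.Ico (l + 1) M, |t i| :=
        (abs_sub _ _).trans (add_le_add le_rfl (Finset.abs_sum_le_sum_abs _ _))
      refine (mul_le_mul_of_nonneg_left h3 (by positivity)).trans ?_
      rw [mul_add, Finset.mul_sum]
      refine add_le_add le_rfl (Finset.sum_le_sum fun i _ => ?_)
      have h4 : |t i| ≤ b i / ρ ^ i := by
        rw [le_div_iff₀ (by positivity)]; exact htb i
      calc ρ ^ l * |t i| ≤ ρ ^ l * (b i / ρ ^ i) :=
            mul_le_mul_of_nonneg_left h4 (by positivity)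
        _ = b i * (ρ ^ l / ρ ^ i) := by ring
    refine (Finset.sum_le_sum h1).trans ?_
    rw [Finset.sum_add_distrib, ← Finset.sum_mul]
    refine add_le_add le_rfl ?_
    rw [Finset.sum_comm' (s := Finset.range N) (t := fun l => Finset.Ico (l + 1) M)
      (t' := Finset.range M) (s' := fun i => Finset.range (min N i))
      (by
        intro x y
        simp only [Finset.mem_range, Finset.mem_Ico, lt_min_iff]
        constructor
        · rintro ⟨h1, h2, h3⟩; exact ⟨⟨h1, by omega⟩, h3⟩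
        · rintro ⟨⟨h1, h2⟩, h3⟩; exact ⟨h1, by omega, h3⟩)]
    calc ∑ i ∈ Finset.range M, ∑ l ∈ Finset.range (min N i), b i * (ρ ^ l / ρ ^ i)
        ≤ ∑ i ∈ Finset.range M, b i * (1 / (ρ - 1)) := by
          refine Finset.sum_le_sum fun i _ => ?_
          rw [← Finset.mul_sum]
          refine mul_le_mul_of_nonneg_left ?_ (hb i)
          rw [← Finset.sum_div]
          have h5 : ∑ l ∈ Finset.range (min N i), ρ ^ l ≤ ∑ l ∈ Finset.range i, ρ ^ l :=
            Finset.sum_le_sum_of_subset_of_nonneg (by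
              intro x; simp) (fun _ _ _ => by positivity)
          have h6 : ∑ l ∈ Finset.range i, ρ ^ l ≤ ρ ^ i / (ρ - 1) := by
            rw [geom_sum_eq (by linarith : ρ ≠ 1)]
            exact div_le_div_of_nonneg_right (by linarith) hρ1.le
          rw [div_le_div_iff₀ (by positivity) hρ1, one_mul]
          have := h5.trans h6
          rw [le_div_iff₀ hρ1] at this
          exact this
      _ = (∑ i ∈ Finset.range M, b i) * (1 / (ρ - 1)) := by rw [Finset.sum_mul]
      _ ≤ F * (1 / (ρ - 1)) := mul_le_mul_of_nonneg_right (hF M) (by positivity)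
      _ = F / (ρ - 1) := by ring
  have hlim : Filter.Tendsto (fun M => (∑ l ∈ Finset.range N, ρ ^ l) *
      |∑ i ∈ Finset.range M, t i| + F / (ρ - 1)) Filter.atTop
      (nhds ((∑ l ∈ Finset.range N, ρ ^ l) * |0| + F / (ρ - 1))) := by
    refine Filter.Tendsto.add_const _ (Filter.Tendsto.const_mul _ ?_)
    exact (ht.tendsto_sum_nat).abs
  have := ge_of_tendsto hlim (Filter.eventually_atTop.2 ⟨N, key⟩)
  simpa using this

variable {G : Type} [CommGroup G] [Fintype G]

lemma ker_nn (x : MonoidAlgebra ℤ G) : nn x = ∑ g, |((x.coeff g : ℤ) : ℝ)| := rfl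

lemma ker_abs_aug (x : MonoidAlgebra ℤ G) : |((aug G x : ℤ) : ℝ)| ≤ nn x := by
  rw [aug_apply, ker_nn, Int.cast_sum]
  exact Finset.abs_sum_le_sum_abs _ _

/-- one product -/
lemma ker_prod (a k : MonoidAlgebra ℤ G) (v e : ℝ)
    (hk : ∀ g, |((k.coeff g : ℤ) : ℝ) - v| ≤ e) (g : G) :
    |(((a * k).coeff g : ℤ) : ℝ) - ((aug G a : ℤ) : ℝ) * v| ≤ nn a * e := by
  rw [coeff_mul_sum, aug_apply]
  push_cast
  rw [Finset.sum_mul, ← Finset.sum_sub_distrib, ker_nn, Finset.sum_mul]
  refine (Finset.abs_sum_le_sum_abs _ _).trans (Finset.sum_le_sum fun h _ => ?_)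
  rw [← mul_sub, abs_mul]
  exact mul_le_mul_of_nonneg_left (hk _) (abs_nonneg _)

/-- one coefficient of the product of two power series -/
lemma ker_coeff (f : PowerSeries (MonoidAlgebra ℤ G)) (k : ℕ → MonoidAlgebra ℤ G)
    (lam mu C c : ℝ)
    (has : ∀ (l : ℕ) g, |(((k l).coeff g : ℤ) : ℝ) - c * lam ^ l| ≤ C * mu ^ l) (l : ℕ) :
    nn (PowerSeries.coeff l (f * PowerSeries.mk k)) ≤
      (Fintype.card G : ℝ) * (|c| * |∑ p ∈ Finset.HasAntidiagonal.antidiagonal l,
        ((aug G (PowerSeries.coeff p.1 f) : ℤ) : ℝ) * lam ^ p.2| +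
        C * ∑ p ∈ Finset.HasAntidiagonal.antidiagonal l, nn (PowerSeries.coeff p.1 f) * mu ^ p.2) := by
  rw [ker_nn]
  have h1 : ∀ g : G, |(((PowerSeries.coeff l (f * PowerSeries.mk k)).coeff g : ℤ) : ℝ)| ≤
      |c| * |∑ p ∈ Finset.HasAntidiagonal.antidiagonal l,
        ((aug G (PowerSeries.coeff p.1 f) : ℤ) : ℝ) * lam ^ p.2| +
        C * ∑ p ∈ Finset.HasAntidiagonal.antidiagonal l, nn (PowerSeries.coeff p.1 f) * mu ^ p.2 := by
    intro g
    rw [PowerSeries.coeff_mul, MonoidAlgebra.coeff_sum, Finsupp.finsetSum_apply]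
    simp only [PowerSeries.coeff_mk]
    push_cast
    have h3 : ∑ p ∈ Finset.HasAntidiagonal.antidiagonal l,
        ((((PowerSeries.coeff p.1 f) * k p.2).coeff g : ℤ) : ℝ) =
        c * ∑ p ∈ Finset.HasAntidiagonal.antidiagonal l,
          ((aug G (PowerSeries.coeff p.1 f) : ℤ) : ℝ) * lam ^ p.2 +
        ∑ p ∈ Finset.HasAntidiagonal.antidiagonal l, (((((PowerSeries.coeff p.1 f) * k p.2).coeff g : ℤ) : ℝ) -
          ((aug G (PowerSeries.coeff p.1 f) : ℤ) : ℝ) * (c * lam ^ p.2)) := by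
      rw [Finset.mul_sum, ← Finset.sum_add_distrib]
      refine Finset.sum_congr rfl fun p _ => ?_
      ring
    rw [h3]
    refine (abs_add_le _ _).trans (add_le_add ?_ ?_)
    · rw [abs_mul]
    · refine (Finset.abs_sum_le_sum_abs _ _).trans ?_
      rw [Finset.mul_sum]
      refine Finset.sum_le_sum fun p _ => ?_
      refine (ker_prod _ _ _ (C * mu ^ p.2) (fun g => has p.2 g) g).trans
        (le_of_eq ?_)
      ring
  refine (Finset.sum_le_sum fun g _ => h1 g).trans (le_of_eq ?_)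
  rw [Finset.sum_const, Finset.card_univ, nsmul_eq_mul]

/-- the estimate: `f * K00` is in `Zr r` -/
lemma ker_mem (f : PowerSeries (MonoidAlgebra ℤ G)) (k : ℕ → MonoidAlgebra ℤ G)
    (lam mu C c : ℝ) (h1 : 1 < lam) (hC : 0 ≤ C) (h2 : 0 ≤ mu)
    (has : ∀ (l : ℕ) g, |(((k l).coeff g : ℤ) : ℝ) - c * lam ^ l| ≤ C * mu ^ l)
    (r : ℝ≥0) (hr1 : lam⁻¹ < r) (hr2 : r * mu < 1) (hf : f ∈ Zr r (MonoidAlgebra ℤ G))
    (hf0 : HasSum (fun n => ((aug G (PowerSeries.coeff n f) : ℤ) : ℝ) * (lam⁻¹) ^ n) 0) :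
    f * PowerSeries.mk k ∈ Zr r (MonoidAlgebra ℤ G) := by
  obtain ⟨F, hF⟩ := hf
  have hlam : 0 < lam := by linarith
  have hr0 : (0 : ℝ) < r := lt_trans (by positivity) hr1
  have hρ : 1 < (r : ℝ) * lam := by
    have := mul_lt_mul_of_pos_right hr1 hlam
    rwa [inv_mul_cancel₀ (by positivity)] at this
  -- real power series for the error term
  let fr : PowerSeries ℝ := PowerSeries.mk fun i => nn (PowerSeries.coeff i f)
  let mr : PowerSeries ℝ := PowerSeries.mk fun i => mu ^ i
  have e1 : ∀ N, pn r N fr ≤ F := by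
    intro N
    refine le_trans (le_of_eq ?_) (hF N)
    unfold pn
    refine Finset.sum_congr rfl fun i _ => ?_
    rw [PowerSeries.coeff_mk, nn_real, abs_of_nonneg (nn_nonneg _)]
  have e2 : ∀ N, pn r N mr ≤ 1 / (1 - r * mu) := by
    intro N
    unfold pn
    have h3 : ∀ i ∈ Finset.range N, nn (PowerSeries.coeff i mr) * (r : ℝ) ^ i = (r * mu) ^ i := by
      intro i _
      rw [PowerSeries.coeff_mk, nn_real, abs_of_nonneg (by positivity), mul_pow]; ring
    rw [Finset.sum_congr rfl h3, geom_sum_eq (by linarith)]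
    rw [← neg_div_neg_eq, neg_sub, neg_sub]
    have : (0 : ℝ) ≤ (r * mu) ^ N := by positivity
    exact div_le_div_of_nonneg_right (by linarith) (by linarith)
  refine ⟨(Fintype.card G : ℝ) * (|c| * (F / (r * lam - 1)) + C * (F * (1 / (1 - r * mu)))),
    fun N => ?_⟩
  have hF0 : 0 ≤ F := (pn_nonneg r 0 f).trans (hF 0)
  calc pn r N (f * PowerSeries.mk k)
      ≤ ∑ l ∈ Finset.range N, ((Fintype.card G : ℝ) * (|c| *
          |∑ p ∈ Finset.HasAntidiagonal.antidiagonal l,
            ((aug G (PowerSeries.coeff p.1 f) : ℤ) : ℝ) * lam ^ p.2| +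
          C * ∑ p ∈ Finset.HasAntidiagonal.antidiagonal l,
            nn (PowerSeries.coeff p.1 f) * mu ^ p.2)) * (r : ℝ) ^ l := by
        unfold pn
        refine Finset.sum_le_sum fun l _ => mul_le_mul_of_nonneg_right ?_ (by positivity)
        exact ker_coeff f k lam mu C c has l
    _ = (Fintype.card G : ℝ) * (|c| * (∑ l ∈ Finset.range N, (r : ℝ) ^ l *
          |∑ p ∈ Finset.HasAntidiagonal.antidiagonal l,
            ((aug G (PowerSeries.coeff p.1 f) : ℤ) : ℝ) * lam ^ p.2|) +
          C * (∑ l ∈ Finset.range N, (r : ℝ) ^ l * ∑ p ∈ Finset.HasAntidiagonal.antidiagonal l,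
            nn (PowerSeries.coeff p.1 f) * mu ^ p.2)) := by
        rw [Finset.mul_sum, Finset.mul_sum, ← Finset.sum_add_distrib, Finset.mul_sum]
        refine Finset.sum_congr rfl fun l _ => ?_
        ring
    _ ≤ _ := by
        refine mul_le_mul_of_nonneg_left (add_le_add ?_ ?_) (by positivity)
        · refine mul_le_mul_of_nonneg_left ?_ (abs_nonneg _)
          have h5 : ∀ l, (r : ℝ) ^ l * |∑ p ∈ Finset.HasAntidiagonal.antidiagonal l,
              ((aug G (PowerSeries.coeff p.1 f) : ℤ) : ℝ) * lam ^ p.2| =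
              (r * lam) ^ l * |∑ i ∈ Finset.range (l + 1),
                ((aug G (PowerSeries.coeff i f) : ℤ) : ℝ) * (lam⁻¹) ^ i| := by
            intro l
            rw [mul_pow, mul_assoc]
            congr 1
            have h7 : (0 : ℝ) < lam ^ l := by positivity
            rw [show lam ^ l * |∑ i ∈ Finset.range (l + 1),
                ((aug G (PowerSeries.coeff i f) : ℤ) : ℝ) * (lam⁻¹) ^ i| =
                |lam ^ l * ∑ i ∈ Finset.range (l + 1),
                ((aug G (PowerSeries.coeff i f) : ℤ) : ℝ) * (lam⁻¹) ^ i| by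
              rw [abs_mul, abs_of_pos h7]]
            congr 1
            rw [Finset.Nat.sum_antidiagonal_eq_sum_range_succ_mk, Finset.mul_sum]
            refine Finset.sum_congr rfl fun i hi => ?_
            have hi' : i ≤ l := by
              have := Finset.mem_range.1 hi; omega
            rw [inv_pow, pow_sub₀ lam hlam.ne' hi']
            ring
          rw [Finset.sum_congr rfl fun l _ => h5 l]
          refine ker_tail _ (fun i => nn (PowerSeries.coeff i f) * (r : ℝ) ^ i) _ F hρ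
            (fun i => mul_nonneg (nn_nonneg _) (by positivity)) hF ?_ hf0 N
          intro i
          rw [abs_mul, abs_of_pos (show (0 : ℝ) < lam⁻¹ ^ i by positivity), mul_assoc, ← mul_pow]
          have h6 : lam⁻¹ * ((r : ℝ) * lam) = r := by
            field_simp
          rw [h6]
          exact mul_le_mul_of_nonneg_right (ker_abs_aug _) (by positivity)
        · refine mul_le_mul_of_nonneg_left ?_ hC
          refine le_trans (le_of_eq ?_) ((pn_mul r N fr mr).trans
            (mul_le_mul (e1 N) (e2 N) (pn_nonneg r N _) hF0))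
          unfold pn
          refine Finset.sum_congr rfl fun l _ => ?_
          rw [PowerSeries.coeff_mul, nn_real, mul_comm]
          congr 1
          rw [abs_of_nonneg]
          · refine Finset.sum_congr rfl fun p _ => ?_
            rw [PowerSeries.coeff_mk, PowerSeries.coeff_mk]
          · refine Finset.sum_nonneg fun p _ => ?_
            rw [PowerSeries.coeff_mk, PowerSeries.coeff_mk]
            exact mul_nonneg (nn_nonneg _) (by positivity)

end KerAux

section KerMain

variable {R : Type*} [CommRing R] {m : Type*} [Fintype m] [DecidableEq m]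

omit [Fintype m] in
/-- the matrix `1 - t A` over the power series is the image of the one over the polynomials -/
lemma ker_coe (A : Matrix m m R) :
    (1 - (X : Polynomial R) • A.map Polynomial.C).map Polynomial.coeToPowerSeries.ringHom =
      1 - (PowerSeries.X : PowerSeries R) • A.map PowerSeries.C := by
  ext1 i j
  rw [Matrix.map_apply, Matrix.sub_apply, Matrix.sub_apply, Matrix.smul_apply, Matrix.smul_apply,
    map_sub, smul_eq_mul, smul_eq_mul, map_mul, Matrix.map_apply, Matrix.map_apply]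
  congr 1
  · rw [Matrix.one_apply, Matrix.one_apply]
    split_ifs <;> simp
  · simp

lemma ker_det_coe (A : Matrix m m R) :
    (((1 - (X : Polynomial R) • A.map Polynomial.C).det : Polynomial R) : PowerSeries R) =
      (1 - (PowerSeries.X : PowerSeries R) • A.map PowerSeries.C).det := by
  have h := (Polynomial.coeToPowerSeries.ringHom (R := R)).map_det
    (1 - (X : Polynomial R) • A.map Polynomial.C)
  rw [RingHom.mapMatrix_apply, ker_coe] at h
  exact h

lemma ker_adj {n : ℕ} (A : Matrix (Fin (n + 1)) (Fin (n + 1)) R) :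
    (((1 - (X : Polynomial R) • A.map Polynomial.C).det : Polynomial R) : PowerSeries R) *
      ker_K A 0 0 =
    (((1 - (X : Polynomial R) • (A.submatrix Fin.succ Fin.succ).map Polynomial.C).det :
      Polynomial R) : PowerSeries R) := by
  rw [ker_det_coe, ker_det_coe]
  set P := (1 - (PowerSeries.X : PowerSeries R) • A.map PowerSeries.C) with hP
  have h1 : P.adjugate * (P * ker_K A) = P.adjugate := by
    rw [ker_geom, Matrix.mul_one]
  rw [← Matrix.mul_assoc, Matrix.adjugate_mul, Matrix.smul_mul, Matrix.one_mul] at h1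
  have h2 := congrFun (congrFun h1 0) 0
  rw [Matrix.smul_apply, smul_eq_mul] at h2
  rw [h2, Matrix.adjugate_fin_succ_eq_det_submatrix]
  simp only [Fin.val_zero, add_zero, pow_zero, one_mul]
  congr 1
  ext1 i j
  rw [hP]
  simp [Matrix.one_apply, Fin.succAbove_zero]

end KerMain

/-- KERNEL LEMMA. PROOF. Let `K00 = ∑ (A ^ l) 0 0 t ^ l`, `q = det (1 - t A')`, `A'` the
submatrix without the index `0`. (1) `p * K00 = q` (adjugate of `1 - t A`; `(1 - t A) * K = 1` for
`K = ∑ A ^ l t ^ l`). (2) `q` is a unit of `Zr r`: `q * det (∑ A' ^ l t ^ l) = 1` and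
`∑ A' ^ l t ^ l` has entries in `Zr r` as `r * mu < 1`. (3) `f * K00 ∈ Zr r`: the coefficient of
`t ^ l` in `f * K00` is `∑_{j ≤ l} f_j * (A ^ (l-j)) 0 0`, and
`(A ^ (l-j)) 0 0 = c * lam ^ (l-j) * N_G + O (mu ^ (l-j))` where `x * N_G = aug x * N_G`, so it is
`c * lam ^ l * (∑_{j ≤ l} aug f_j lam ^ (-j)) N_G + O (∑_{j ≤ l} |f_j| mu ^ (l-j))`, and
`|∑_{j ≤ l} aug f_j lam ^ (-j)| = |∑_{j > l} ...| ≤ ∑_{j > l} |f_j| lam ^ (-j)`;
`∑_l r ^ l lam ^ l ∑_{j > l} |f_j| lam ^ (-j) ≤ ∑_j |f_j| r ^ j / (r lam - 1)`.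
(4) `f = p * ((f * K00) * q⁻¹)`. -/
theorem ev_ker {G : Type} [CommGroup G] [Fintype G] {n : ℕ}
    (A : Matrix (Fin (n + 1)) (Fin (n + 1)) (MonoidAlgebra ℤ G))
    (lam mu C c : ℝ) (h1 : 1 < lam) (h2 : 1 ≤ mu) (h3 : mu < lam) (hC : 0 ≤ C)
    (has : ∀ (l : ℕ) g, |((((A ^ l) 0 0).coeff g : ℤ) : ℝ) - c * lam ^ l| ≤ C * mu ^ l)
    (has' : ∀ (l : ℕ) i j g,
        |(((((A.submatrix Fin.succ Fin.succ) ^ l) i j).coeff g : ℤ) : ℝ)| ≤ C * mu ^ l)
    (r : ℝ≥0) (hr1 : lam⁻¹ < r) (hr2 : r * mu < 1) (f : Zr r (MonoidAlgebra ℤ G))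
    (hf : HasSum (fun n => ((aug G (PowerSeries.coeff n (f : PowerSeries (MonoidAlgebra ℤ G))) : ℤ)
      : ℝ) * (lam⁻¹) ^ n) 0) :
    toZr r (1 - (X : Polynomial (MonoidAlgebra ℤ G)) • A.map Polynomial.C).det ∣ f := by
  have hmu0 : 0 ≤ mu := by linarith
  set A' := A.submatrix Fin.succ Fin.succ with hA'
  -- (2) `q` is a unit
  have hK' : ∀ i j, ker_K A' i j ∈ Zr r (MonoidAlgebra ℤ G) := by
    intro i j
    refine ⟨(Fintype.card G : ℝ) * (C * (1 / (1 - r * mu))), fun N => ?_⟩
    calc pn r N (ker_K A' i j)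
        ≤ ∑ l ∈ Finset.range N, (Fintype.card G : ℝ) * (C * (r * mu) ^ l) := by
          unfold pn
          refine Finset.sum_le_sum fun l _ => ?_
          have h5 : nn (PowerSeries.coeff l (ker_K A' i j)) ≤ (Fintype.card G : ℝ) *
              (C * mu ^ l) := by
            rw [ker_nn]
            have h6 : ∀ g : G, |(((PowerSeries.coeff l (ker_K A' i j)).coeff g : ℤ) : ℝ)| ≤
                C * mu ^ l := by
              intro g
              have := has' l i j g
              simpa [ker_K] using this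
            refine (Finset.sum_le_sum fun g _ => h6 g).trans (le_of_eq ?_)
            rw [Finset.sum_const, Finset.card_univ, nsmul_eq_mul]
          refine (mul_le_mul_of_nonneg_right h5 (by positivity)).trans (le_of_eq ?_)
          rw [mul_pow]; ring
      _ = (Fintype.card G : ℝ) * (C * ∑ l ∈ Finset.range N, ((r : ℝ) * mu) ^ l) := by
          rw [Finset.mul_sum, Finset.mul_sum]
      _ ≤ _ := by
          refine mul_le_mul_of_nonneg_left (mul_le_mul_of_nonneg_left ?_ hC) (by positivity)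
          rw [geom_sum_eq (by linarith), ← neg_div_neg_eq, neg_sub, neg_sub]
          have : (0 : ℝ) ≤ (r * mu) ^ N := by positivity
          exact div_le_div_of_nonneg_right (by linarith) (by linarith)
  let KZ : Matrix (Fin n) (Fin n) (Zr r (MonoidAlgebra ℤ G)) :=
    Matrix.of fun i j => ⟨ker_K A' i j, hK' i j⟩
  let PZ : Matrix (Fin n) (Fin n) (Zr r (MonoidAlgebra ℤ G)) :=
    (1 - (X : Polynomial (MonoidAlgebra ℤ G)) • A'.map Polynomial.C).map (toZr r)
  have hinj : Function.Injective (Zr r (MonoidAlgebra ℤ G)).subtype := Subtype.val_injective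
  have hPK : PZ * KZ = 1 := by
    have hinj' : Function.Injective ((Zr r (MonoidAlgebra ℤ G)).subtype.mapMatrix :
        Matrix (Fin n) (Fin n) (Zr r (MonoidAlgebra ℤ G)) →+* _) := by
      intro M N h
      ext1 i j
      exact hinj (congrFun (congrFun h i) j)
    apply hinj'
    rw [map_mul, map_one]
    have e1 : (Zr r (MonoidAlgebra ℤ G)).subtype.mapMatrix PZ =
        1 - (PowerSeries.X : PowerSeries (MonoidAlgebra ℤ G)) • A'.map PowerSeries.C := by
      rw [← ker_coe]
      rfl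
    have e2 : (Zr r (MonoidAlgebra ℤ G)).subtype.mapMatrix KZ = ker_K A' := rfl
    rw [e1, e2, ker_geom]
  have hq : toZr r (1 - (X : Polynomial (MonoidAlgebra ℤ G)) • A'.map Polynomial.C).det *
      KZ.det = 1 := by
    have e3 : toZr r (1 - (X : Polynomial (MonoidAlgebra ℤ G)) • A'.map Polynomial.C).det =
        PZ.det := by
      rw [RingHom.map_det]; rfl
    rw [e3, ← Matrix.det_mul, hPK, Matrix.det_one]
  -- (3)
  have hg : (f : PowerSeries (MonoidAlgebra ℤ G)) * ker_K A 0 0 ∈ Zr r (MonoidAlgebra ℤ G) :=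
    ker_mem (f : PowerSeries (MonoidAlgebra ℤ G)) (fun l => (A ^ l) 0 0) lam mu C c h1 hC hmu0
      has r hr1 hr2 f.2 hf
  refine ⟨⟨_, hg⟩ * KZ.det, ?_⟩
  have h4 : toZr r (1 - (X : Polynomial (MonoidAlgebra ℤ G)) • A.map Polynomial.C).det *
      ⟨(f : PowerSeries (MonoidAlgebra ℤ G)) * ker_K A 0 0, hg⟩ = f *
      toZr r (1 - (X : Polynomial (MonoidAlgebra ℤ G)) • A'.map Polynomial.C).det := by
    apply hinj
    rw [map_mul, map_mul]
    show (((1 - (X : Polynomial (MonoidAlgebra ℤ G)) • A.map Polynomial.C).det :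
      Polynomial (MonoidAlgebra ℤ G)) : PowerSeries (MonoidAlgebra ℤ G)) *
      ((f : PowerSeries (MonoidAlgebra ℤ G)) * ker_K A 0 0) =
      (f : PowerSeries (MonoidAlgebra ℤ G)) *
      (((1 - (X : Polynomial (MonoidAlgebra ℤ G)) • A'.map Polynomial.C).det :
      Polynomial (MonoidAlgebra ℤ G)) : PowerSeries (MonoidAlgebra ℤ G))
    rw [hA', ← ker_adj A]
    ring
  rw [← mul_assoc, h4, mul_assoc, hq, mul_one]

/-- `det (1 - t A)` vanishes at `1 / lam`. -/
theorem ev_det {G : Type} [CommGroup G] [Fintype G] {n : ℕ}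
    (A : Matrix (Fin (n + 1)) (Fin (n + 1)) (MonoidAlgebra ℤ G))
    (lam : ℝ) (h1 : 1 < lam) (u : Fin (n + 1) → ℝ) (hu : ∀ i, 0 < u i)
    (heig : ∀ i, ∑ j, ((aug G (A i j) : ℤ) : ℝ) * u j = lam * u i)
    (r : ℝ≥0) (ev : Zr r (MonoidAlgebra ℤ G) →+* ℝ)
    (hev : ∀ f : Zr r (MonoidAlgebra ℤ G),
      HasSum (fun n => ((aug G (PowerSeries.coeff n (f : PowerSeries (MonoidAlgebra ℤ G))) : ℤ) : ℝ)
        * (lam⁻¹) ^ n) (ev f)) :
    ev (toZr r (1 - (X : Polynomial (MonoidAlgebra ℤ G)) • A.map Polynomial.C).det) = 0 := by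
  have hX : ev (toZr r X) = lam⁻¹ := by
    refine (hev (toZr r X)).unique ?_
    have h := hasSum_single (f := fun n => ((aug G (PowerSeries.coeff n
      ((toZr r X : Zr r (MonoidAlgebra ℤ G)) : PowerSeries (MonoidAlgebra ℤ G))) : ℤ) : ℝ)
        * (lam⁻¹) ^ n) 1 (by
      intro b hb
      rw [coe_toZr, Polynomial.coe_X, PowerSeries.coeff_X, if_neg hb]; simp)
    simpa using h
  have hCC : ∀ a, ev (toZr r (Polynomial.C a)) = ((aug G a : ℤ) : ℝ) := by
    intro a
    refine (hev (toZr r (Polynomial.C a))).unique ?_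
    have h := hasSum_single (f := fun n => ((aug G (PowerSeries.coeff n
      ((toZr r (Polynomial.C a) : Zr r (MonoidAlgebra ℤ G)) : PowerSeries (MonoidAlgebra ℤ G)))
        : ℤ) : ℝ) * (lam⁻¹) ^ n) 0 (by
      intro b hb
      rw [coe_toZr, Polynomial.coe_C, PowerSeries.coeff_C, if_neg hb]; simp)
    simpa using h
  rw [← RingHom.comp_apply, RingHom.map_det]
  apply Matrix.exists_mulVec_eq_zero_iff.1
  refine ⟨u, ?_, ?_⟩
  · intro h
    have := hu 0
    rw [h] at this
    exact lt_irrefl _ this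
  · ext i
    have h2 : ∀ j, (((ev.comp (toZr r)).mapMatrix
        (1 - (X : Polynomial (MonoidAlgebra ℤ G)) • A.map Polynomial.C)) i j) =
        (if i = j then 1 else 0) - lam⁻¹ * ((aug G (A i j) : ℤ) : ℝ) := by
      intro j
      rw [RingHom.mapMatrix_apply, Matrix.map_apply, Matrix.sub_apply, Matrix.smul_apply,
        smul_eq_mul, map_sub, map_mul, Matrix.map_apply, Matrix.one_apply]
      rw [RingHom.comp_apply, RingHom.comp_apply, RingHom.comp_apply, hX, hCC]
      congr 1
      split_ifs <;> simp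
    rw [Matrix.mulVec, dotProduct, Finset.sum_congr rfl fun j _ => by rw [h2 j]]
    simp only [sub_mul, Finset.sum_sub_distrib, ite_mul, one_mul, zero_mul, Finset.sum_ite_eq,
      Finset.mem_univ, if_true, mul_assoc, ← Finset.mul_sum]
    rw [heig i]
    have : lam ≠ 0 := by linarith
    field_simp
    simp

end Pool.Agent.H.MP_345fd7_an
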