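import Pool.Agent.H.MP_345fd7_an.LinPrim
import Pool.Agent.H.MP_345fd7_an.Cok

/-! Linearisation: a nonnegative polynomial matrix gives a `G`-primitive matrix -/

set_option autoImplicit false

namespace Pool.Agent.H.MP_345fd7_an

open Matrix Polynomial

variable {G : Type} [CommGroup G] [Fintype G]

lemma lin_natDegree_pos {A : Type*} [Semiring A] {f : Polynomial A} (h0 : f.coeff 0 = 0)
    (h : f ≠ 0) : 0 < f.natDegree := by
  rw [Nat.pos_iff_ne_zero]
  intro hd
  apply h
  rw [Polynomial.eq_C_of_natDegree_eq_zero hd, h0, Polynomial.C_0]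

lemma lin_pow_reindex {A : Type*} [Semiring A] {a b : Type*} [Fintype a] [DecidableEq a]
    [Fintype b] [DecidableEq b] (e : a ≃ b) (M : Matrix a a A) (k : ℕ) :
    (M.submatrix e.symm e.symm) ^ k = (M ^ k).submatrix e.symm e.symm := by
  induction k with
  | zero => simp
  | succ k ih => rw [pow_succ, pow_succ, ih, Matrix.submatrix_mul_equiv]

/-- PROOF. `D i =` the maximum of the degrees of the row `i` (positive since the row contains a
nonzero polynomial without constant term; for the row `T` if `O` is empty, `M T T ≠ 0` because of the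
growth of `R`), then reindex `Σ i, Fin (D i) ≃ Fin p`. -/
theorem lin (G : Type) [CommGroup G] [Fintype G] {O : Type*} [Fintype O] [DecidableEq O]
    (M : Matrix (Unit ⊕ O) (Unit ⊕ O) (Polynomial (MonoidAlgebra ℤ G)))
    (hnn : ∀ i j, PNn (M i j)) (h0 : ∀ i j, (M i j).coeff 0 = 0)
    (hTo : ∀ o, M (Sum.inl ()) (Sum.inr o) ≠ 0 ∧ M (Sum.inr o) (Sum.inl ()) ≠ 0)
    (R : PowerSeries (MonoidAlgebra ℤ G))
    (hR : (1 - (M (Sum.inl ()) (Sum.inl ()) : PowerSeries (MonoidAlgebra ℤ G))) * R = 1)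
    (hpos : ∃ l₀ : ℕ, ∀ l, l₀ ≤ l → ∀ g, 0 < (PowerSeries.coeff l R).coeff g) :
    ∃ (p : ℕ) (Cm : Matrix (Fin p) (Fin p) (MonoidAlgebra ℤ G)),
      (∀ i j, Nn (Cm i j)) ∧ (∃ k : ℕ, 0 < k ∧ ∀ i j g, 0 < ((Cm ^ k) i j).coeff g) ∧
      CokIso (1 - (X : Polynomial (MonoidAlgebra ℤ G)) • Cm.map Polynomial.C) (1 - M) := by
  classical
  set D : Unit ⊕ O → ℕ := fun i => Finset.univ.sup fun j => (M i j).natDegree with hDdef
  have hdeg : ∀ i j, (M i j).natDegree ≤ D i := fun i j =>
    Finset.le_sup (f := fun j => (M i j).natDegree) (Finset.mem_univ j)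
  have hrow : ∀ i, ∃ j, M i j ≠ 0 := by
    rintro (u | o)
    · by_cases hTT : M (Sum.inl ()) (Sum.inl ()) = 0
      · exfalso
        rw [hTT, Polynomial.coe_zero, sub_zero, one_mul] at hR
        obtain ⟨l₀, hl₀⟩ := hpos
        have := hl₀ (l₀ + 1) (Nat.le_succ _) 1
        rw [hR, PowerSeries.coeff_one, if_neg (Nat.succ_ne_zero _)] at this
        simp at this
      · exact ⟨Sum.inl (), hTT⟩
    · exact ⟨Sum.inl (), (hTo o).2⟩
  have hD : ∀ i, 0 < D i := by
    intro i
    obtain ⟨j, hj⟩ := hrow i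
    exact (lin_natDegree_pos (h0 i j) hj).trans_le (hdeg i j)
  have htop : ∀ i, ∃ j, (M i j).coeff (D i) ≠ 0 := by
    intro i
    obtain ⟨j, -, hj⟩ := Finset.exists_mem_eq_sup (Finset.univ : Finset (Unit ⊕ O))
      ⟨Sum.inl (), Finset.mem_univ _⟩ (fun j => (M i j).natDegree)
    refine ⟨j, ?_⟩
    have hj' : D i = (M i j).natDegree := hj
    have hne : M i j ≠ 0 := by
      intro h
      rw [h, Polynomial.natDegree_zero] at hj'
      exact (hD i).ne' hj'
    rw [hj', Polynomial.coeff_natDegree]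
    exact Polynomial.leadingCoeff_ne_zero.2 hne
  obtain ⟨hC, k, hk0, hk⟩ := lin_prim M hnn h0 hTo R hR hpos D hD hdeg htop
  let e := Fintype.equivFin (Σ i : Unit ⊕ O, Fin (D i))
  refine ⟨_, (linM M D).submatrix e.symm e.symm, fun i j => hC _ _, ⟨k, hk0, ?_⟩, ?_⟩
  · intro i j g
    rw [lin_pow_reindex]
    exact hk _ _ g
  · have h1 := CokIso.of_reindex e (1 - (X : Polynomial (MonoidAlgebra ℤ G)) •
      (linM M D).map Polynomial.C)
    have h2 : (1 - (X : Polynomial (MonoidAlgebra ℤ G)) •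
        (linM M D).map Polynomial.C).submatrix e.symm e.symm =
        1 - (X : Polynomial (MonoidAlgebra ℤ G)) •
          ((linM M D).submatrix e.symm e.symm).map Polynomial.C := by
      ext i j : 2
      simp [Matrix.one_apply]
    rw [h2] at h1
    exact h1.symm.trans (lin_cokIso M D hD hdeg h0)

end Pool.Agent.H.MP_345fd7_an
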