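import Pool.Agent.H.MP_345fd7_an.Basic

/-! Linearisation of polynomial matrices: cokernels -/

set_option autoImplicit false

namespace Pool.Agent.H.MP_345fd7_an

open Matrix Polynomial

/-- the linearisation: states `(i, k)`, `k < D i`; `(i,k) → (i,k+1)` with weight `1` and
`(i,k) → (j,0)` with weight the coefficient of `t ^ (k+1)` of `M i j` -/
def linM {A : Type*} [CommRing A] {J : Type*} [DecidableEq J] (M : Matrix J J (Polynomial A))
    (D : J → ℕ) : Matrix (Σ i : J, Fin (D i)) (Σ i : J, Fin (D i)) A :=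
  fun x y => (if (y.2 : ℕ) = 0 then (M x.1 y.1).coeff (x.2 + 1) else 0) +
    (if x.1 = y.1 ∧ (y.2 : ℕ) = x.2 + 1 then 1 else 0)

section aux

variable {J : Type*} [Fintype J] [DecidableEq J]

/-- `e_(i,k) ↦ t ^ k e_i` -/
noncomputable def linCok_X (A : Type*) [CommRing A] (D : J → ℕ) : Matrix J (Σ i : J, Fin (D i)) (Polynomial A) :=
  fun j x => if j = x.1 then X ^ (x.2 : ℕ) else 0

/-- `e_(j,0) ↦ e_j`, `e_(j,k) ↦ 0` for `k ≥ 1` -/
noncomputable def linCok_pi (A : Type*) [CommRing A] (D : J → ℕ) : Matrix J (Σ i : J, Fin (D i)) (Polynomial A) :=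
  fun j x => if j = x.1 ∧ (x.2 : ℕ) = 0 then 1 else 0

/-- `e_i ↦ e_(i,0)` -/
noncomputable def linCok_Y (A : Type*) [CommRing A] (D : J → ℕ) : Matrix (Σ i : J, Fin (D i)) J (Polynomial A) :=
  fun x j => if x.1 = j ∧ (x.2 : ℕ) = 0 then 1 else 0

/-- `e_(i,k) ↦ ∑_{1 ≤ l ≤ k} t ^ (k-l) e_(i,l)` -/
noncomputable def linCok_L (A : Type*) [CommRing A] (D : J → ℕ) :
    Matrix (Σ i : J, Fin (D i)) (Σ i : J, Fin (D i)) (Polynomial A) :=
  fun x y => if x.1 = y.1 ∧ 1 ≤ (x.2 : ℕ) ∧ (x.2 : ℕ) ≤ y.2 then X ^ ((y.2 : ℕ) - x.2) else 0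

variable {A : Type*} [CommRing A]

omit [Fintype J] in
theorem linCok_P_apply (M : Matrix J J (Polynomial A)) (D : J → ℕ) (i j : J) (k : Fin (D i))
    (l : Fin (D j)) :
    (1 - (X : Polynomial A) • (linM M D).map Polynomial.C) ⟨i, k⟩ ⟨j, l⟩ =
      (if i = j ∧ (k : ℕ) = l then 1 else 0) -
        X * (Polynomial.C (if (l : ℕ) = 0 then (M i j).coeff (k + 1) else 0) +
          (if i = j ∧ (l : ℕ) = k + 1 then 1 else 0)) := by
  rw [Matrix.sub_apply, Matrix.smul_apply, Matrix.map_apply, smul_eq_mul, linM, map_add]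
  congr 2
  · rw [Matrix.one_apply]
    refine if_congr ?_ rfl rfl
    constructor
    · intro h
      cases h
      exact ⟨rfl, rfl⟩
    · rintro ⟨h1, h2⟩
      subst h1
      rw [Fin.ext h2]
  · congr 1
    split_ifs <;> simp

theorem linCok_one (M : Matrix J J (Polynomial A)) (D : J → ℕ)
    (hdeg : ∀ i j, (M i j).natDegree ≤ D i) (h0 : ∀ i j, (M i j).coeff 0 = 0) :
    linCok_X A D * (1 - (X : Polynomial A) • (linM M D).map Polynomial.C) =
      (1 - M) * linCok_pi A D := by
  have hM : ∀ i j, ∑ k : Fin (D i), (X : Polynomial A) ^ (k : ℕ) *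
      (X * Polynomial.C ((M i j).coeff (k + 1))) = M i j := by
    intro i j
    conv_rhs => rw [(M i j).as_sum_range_C_mul_X_pow' (n := D i + 1)
      (Nat.lt_succ_of_le (hdeg i j))]
    rw [Finset.sum_range_succ', h0, map_zero, zero_mul, add_zero, Finset.sum_range]
    refine Finset.sum_congr rfl fun k _ => ?_
    rw [pow_succ]; ring
  ext1 i y
  obtain ⟨j, l⟩ := y
  rw [Matrix.mul_apply, Fintype.sum_sigma, Finset.sum_eq_single i]
  · have hl : ∀ k : Fin (D i), (linCok_X A D i ⟨i, k⟩ *
        (1 - (X : Polynomial A) • (linM M D).map Polynomial.C) ⟨i, k⟩ ⟨j, l⟩) =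
        (if i = j ∧ (k : ℕ) = l then X ^ (k : ℕ) else 0) -
          (if (l : ℕ) = 0 then X ^ (k : ℕ) * (X * Polynomial.C ((M i j).coeff (k + 1))) else 0) -
          (if i = j ∧ (l : ℕ) = k + 1 then X ^ ((k : ℕ) + 1) else 0) := by
      intro k
      rw [linCok_P_apply, linCok_X, if_pos rfl]
      rw [mul_sub, mul_add, mul_add, sub_sub]
      congr 1
      · split_ifs <;> simp
      · congr 1
        · split_ifs <;> simp
        · split_ifs
          · rw [pow_succ]; simp
          · simp
    rw [Finset.sum_congr rfl fun k _ => hl k, Finset.sum_sub_distrib, Finset.sum_sub_distrib]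
    rw [Matrix.mul_apply]
    have hR : ∑ i', (1 - M) i i' * linCok_pi A D i' ⟨j, l⟩ =
        if (l : ℕ) = 0 then (1 - M) i j else 0 := by
      rw [Finset.sum_eq_single j]
      · by_cases h : (l : ℕ) = 0
        · rw [linCok_pi, if_pos ⟨rfl, h⟩, if_pos h, mul_one]
        · rw [linCok_pi, if_neg (fun h' => h h'.2), if_neg h, mul_zero]
      · intro i' _ hi'
        rw [linCok_pi, if_neg (fun h => hi' h.1), mul_zero]
      · intro h; exact absurd (Finset.mem_univ _) h
    rw [hR]
    by_cases hl0 : (l : ℕ) = 0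
    · simp only [hl0, if_true, hM]
      have h3 : ∑ k : Fin (D i), (if i = j ∧ (0 : ℕ) = k + 1 then (X : Polynomial A) ^ ((k : ℕ) + 1)
          else 0) = 0 := Finset.sum_eq_zero fun k _ => if_neg (fun h => by omega)
      rw [h3, sub_zero, Matrix.sub_apply, Matrix.one_apply]
      congr 1
      by_cases hij : i = j
      · subst hij
        rw [Finset.sum_eq_single l]
        · simp [hl0]
        · intro b _ hb
          rw [if_neg]
          rintro ⟨_, h⟩
          exact hb (Fin.ext (by omega))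
        · intro h; exact absurd (Finset.mem_univ _) h
      · simp [hij]
    · simp only [hl0, if_false, Finset.sum_const_zero, sub_zero]
      by_cases hij : i = j
      · subst hij
        have hlt := l.2
        rw [Finset.sum_eq_single l, Finset.sum_eq_single (⟨(l : ℕ) - 1, by omega⟩ : Fin (D i))]
        · have e : (l : ℕ) - 1 + 1 = l := by omega
          simp [e]
        · intro b _ hb
          rw [if_neg]
          rintro ⟨_, h⟩
          exact hb (Fin.ext (by simp; omega))
        · intro h; exact absurd (Finset.mem_univ _) h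
        · intro b _ hb
          rw [if_neg]
          rintro ⟨_, h⟩
          exact hb (Fin.ext (by omega))
        · intro h; exact absurd (Finset.mem_univ _) h
      · simp [hij]
  · intro i' _ hi'
    refine Finset.sum_eq_zero fun k _ => ?_
    rw [linCok_X, if_neg (fun h => hi' h.symm), zero_mul]
  · intro h; exact absurd (Finset.mem_univ _) h

theorem linCok_XY (D : J → ℕ) (hD : ∀ i, 0 < D i) :
    (linCok_X A D * linCok_Y A D : Matrix J J (Polynomial A)) = 1 := by
  ext1 i j
  rw [Matrix.mul_apply, Fintype.sum_sigma, Finset.sum_eq_single i]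
  · rw [Finset.sum_eq_single (⟨0, hD i⟩ : Fin (D i))]
    · simp [linCok_X, linCok_Y, Matrix.one_apply]
    · intro b _ hb
      rw [linCok_Y, if_neg, mul_zero]
      rintro ⟨_, h⟩
      exact hb (Fin.ext h)
    · intro h; exact absurd (Finset.mem_univ _) h
  · intro i' _ hi'
    refine Finset.sum_eq_zero fun k _ => ?_
    rw [linCok_X, if_neg (fun h => hi' h.symm), zero_mul]
  · intro h; exact absurd (Finset.mem_univ _) h

theorem linCok_piY (D : J → ℕ) (hD : ∀ i, 0 < D i) :
    (linCok_pi A D * linCok_Y A D : Matrix J J (Polynomial A)) = 1 := by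
  ext1 i j
  rw [Matrix.mul_apply, Fintype.sum_sigma, Finset.sum_eq_single i]
  · rw [Finset.sum_eq_single (⟨0, hD i⟩ : Fin (D i))]
    · simp [linCok_pi, linCok_Y, Matrix.one_apply]
    · intro b _ hb
      rw [linCok_Y, if_neg, mul_zero]
      rintro ⟨_, h⟩
      exact hb (Fin.ext h)
    · intro h; exact absurd (Finset.mem_univ _) h
  · intro i' _ hi'
    refine Finset.sum_eq_zero fun k _ => ?_
    rw [linCok_pi, if_neg (fun h => hi' h.1.symm), zero_mul]
  · intro h; exact absurd (Finset.mem_univ _) h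

theorem linCok_PL (M : Matrix J J (Polynomial A)) (D : J → ℕ) :
    (1 - (X : Polynomial A) • (linM M D).map Polynomial.C) * linCok_L A D =
      1 - linCok_Y A D * linCok_X A D := by
  ext1 x y
  obtain ⟨i, k⟩ := x
  obtain ⟨j, l⟩ := y
  have hR : (1 - linCok_Y A D * linCok_X A D : Matrix _ _ (Polynomial A)) ⟨i, k⟩ ⟨j, l⟩ =
      (if i = j ∧ (k : ℕ) = l then 1 else 0) -
        (if i = j ∧ (k : ℕ) = 0 then X ^ (l : ℕ) else 0) := by
    rw [Matrix.sub_apply, Matrix.mul_apply]
    congr 1
    · rw [Matrix.one_apply]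
      refine if_congr ?_ rfl rfl
      constructor
      · intro h
        cases h
        exact ⟨rfl, rfl⟩
      · rintro ⟨h1, h2⟩
        subst h1
        rw [Fin.ext h2]
    · rw [Finset.sum_eq_single i]
      · simp only [linCok_Y, linCok_X]
        split_ifs <;> simp_all
      · intro b _ hb
        rw [linCok_Y, if_neg (fun h => hb h.1.symm), zero_mul]
      · intro h; exact absurd (Finset.mem_univ _) h
  rw [hR, Matrix.mul_apply, Fintype.sum_sigma, Finset.sum_eq_single j]
  · have ht : ∀ k' : Fin (D j),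
        (1 - (X : Polynomial A) • (linM M D).map Polynomial.C) ⟨i, k⟩ ⟨j, k'⟩ *
          linCok_L A D ⟨j, k'⟩ ⟨j, l⟩ =
        (if i = j ∧ (k : ℕ) = k' then
          (if 1 ≤ (k' : ℕ) ∧ (k' : ℕ) ≤ l then (X : Polynomial A) ^ ((l : ℕ) - k') else 0) else 0) -
        (if i = j ∧ (k' : ℕ) = k + 1 then
          (if 1 ≤ (k' : ℕ) ∧ (k' : ℕ) ≤ l then (X : Polynomial A) ^ ((l : ℕ) - k + 1 - 1) else 0)
          else 0) := by
      intro k'
      rw [linCok_P_apply, linCok_L]
      by_cases h1 : 1 ≤ (k' : ℕ) ∧ (k' : ℕ) ≤ l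
      · have h0 : ¬ ((k' : ℕ) = 0) := by omega
        simp only [h0, if_false, map_zero, zero_add, h1, and_self, if_true]
        rw [sub_mul]
        congr 1
        · split_ifs <;> simp
        · split_ifs with h2
          · rw [mul_one, ← pow_succ']
            congr 1
            omega
          · simp
      · simp only [true_and, h1, if_false, mul_zero, ite_self, sub_self]
    rw [Finset.sum_congr rfl fun k' _ => ht k', Finset.sum_sub_distrib]
    by_cases hij : i = j
    · subst hij
      simp only [true_and]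
      have hlt := l.2
      have hkt := k.2
      have e1 : ∑ k' : Fin (D i), (if (k : ℕ) = k' then
          (if 1 ≤ (k' : ℕ) ∧ (k' : ℕ) ≤ l then (X : Polynomial A) ^ ((l : ℕ) - k') else 0) else 0) =
          (if 1 ≤ (k : ℕ) ∧ (k : ℕ) ≤ l then (X : Polynomial A) ^ ((l : ℕ) - k) else 0) := by
        rw [Finset.sum_eq_single k]
        · rw [if_pos rfl]
        · intro b _ hb
          rw [if_neg (fun h => hb (Fin.ext h.symm))]
        · intro h; exact absurd (Finset.mem_univ _) h
      have e2 : ∑ k' : Fin (D i), (if (k' : ℕ) = k + 1 then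
          (if 1 ≤ (k' : ℕ) ∧ (k' : ℕ) ≤ l then (X : Polynomial A) ^ ((l : ℕ) - k + 1 - 1) else 0)
            else 0) =
          (if (k : ℕ) + 1 ≤ l then (X : Polynomial A) ^ ((l : ℕ) - k) else 0) := by
        by_cases hk : (k : ℕ) + 1 < D i
        · rw [Finset.sum_eq_single (⟨(k : ℕ) + 1, hk⟩ : Fin (D i))]
          · simp
          · intro b _ hb
            rw [if_neg (fun h => hb (Fin.ext h))]
          · intro h; exact absurd (Finset.mem_univ _) h
        · rw [if_neg (by omega)]
          refine Finset.sum_eq_zero fun k' _ => ?_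
          have := k'.2
          rw [if_neg (by omega)]
      rw [e1, e2]
      split_ifs <;> first | omega | simp_all
    · simp [hij]
  · intro i' _ hi'
    refine Finset.sum_eq_zero fun k' _ => ?_
    rw [linCok_L, if_neg (fun h => hi' h.1), mul_zero]
  · intro h; exact absurd (Finset.mem_univ _) h

end aux

/-- PROOF. `P = 1 - t linM`, `Q = 1 - M`, `Yι : e_i ↦ e_(i,0)`, `Xπ : e_(i,k) ↦ t ^ k e_i`,
`π : e_(j,0) ↦ e_j, e_(j,k) ↦ 0 (k ≥ 1)`, `Λ : e_(i,k) ↦ ∑_{1 ≤ l ≤ k} t ^ (k-l) e_(i,l)`.
Then `Xπ * P = Q * π`, `Xπ * Yι = 1`, `π * Yι = 1`, `P * Λ = 1 - Yι * Xπ`, and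
`Yι * Q = P * ((1 - Λ * P) * Yι)`. -/
theorem lin_cokIso {A : Type*} [CommRing A] {J : Type*} [Fintype J] [DecidableEq J]
    (M : Matrix J J (Polynomial A)) (D : J → ℕ) (hD : ∀ i, 0 < D i)
    (hdeg : ∀ i j, (M i j).natDegree ≤ D i) (h0 : ∀ i j, (M i j).coeff 0 = 0) :
    CokIso (1 - (X : Polynomial A) • (linM M D).map Polynomial.C) (1 - M) := by
  have h1 := linCok_one M D hdeg h0
  have h2 := linCok_XY (A := A) D hD
  have h3 := linCok_piY (A := A) D hD
  have h4 := linCok_PL M D
  set P := (1 - (X : Polynomial A) • (linM M D).map Polynomial.C) with hP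
  refine ⟨linCok_X A D, linCok_pi A D, linCok_Y A D, (1 - linCok_L A D * P) * linCok_Y A D, 0, linCok_L A D,
    h1, ?_, ?_, ?_⟩
  · calc linCok_Y A D * (1 - M) = linCok_Y A D * ((1 - M) * (linCok_pi A D * linCok_Y A D)) := by
          rw [h3, Matrix.mul_one]
      _ = linCok_Y A D * (linCok_X A D * P) * linCok_Y A D := by
          rw [h1]; simp only [Matrix.mul_assoc]
      _ = (linCok_Y A D * linCok_X A D) * P * linCok_Y A D := by simp only [Matrix.mul_assoc]
      _ = (1 - P * linCok_L A D) * P * linCok_Y A D := by rw [h4]; congr 2; abel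
      _ = P * ((1 - linCok_L A D * P) * linCok_Y A D) := by
          clear_value P
          simp only [Matrix.sub_mul, Matrix.mul_sub, Matrix.one_mul, Matrix.mul_assoc]
  · rw [h2, Matrix.mul_zero, add_zero]
  · rw [h4]; abel

end Pool.Agent.H.MP_345fd7_an
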