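import Pool.Agent.H.MP_345fd7_an.LinCok

/-! Linearisation of polynomial matrices: primitivity -/

set_option autoImplicit false
set_option linter.unusedSectionVars false

namespace Pool.Agent.H.MP_345fd7_an

open Matrix Polynomial

variable {G : Type} [CommGroup G] [Fintype G]

section aux

/-- coefficientwise order -/
def LinLe (a b : MonoidAlgebra ℤ G) : Prop := Nn (b - a)

omit [Fintype G] in
theorem LinLe.refl (a : MonoidAlgebra ℤ G) : LinLe a a := by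
  rw [LinLe, sub_self]; exact Nn.zero

omit [Fintype G] in
theorem LinLe.trans {a b c : MonoidAlgebra ℤ G} (h : LinLe a b) (h' : LinLe b c) : LinLe a c := by
  have h1 := Nn.add h h'
  have e : b - a + (c - b) = c - a := by abel
  rw [e] at h1
  exact h1

omit [Fintype G] in
theorem LinLe.add {a b c d : MonoidAlgebra ℤ G} (h : LinLe a b) (h' : LinLe c d) :
    LinLe (a + c) (b + d) := by
  have h1 := Nn.add h h'
  have e : b - a + (d - c) = b + d - (a + c) := by abel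
  rw [e] at h1
  exact h1

theorem LinLe.mul_left {a b c : MonoidAlgebra ℤ G} (h : LinLe a b) (hc : Nn c) :
    LinLe (c * a) (c * b) := by
  have h1 := Nn.mul hc h
  rw [mul_sub] at h1
  exact h1

theorem LinLe.mul_right {a b c : MonoidAlgebra ℤ G} (h : LinLe a b) (hc : Nn c) :
    LinLe (a * c) (b * c) := by
  have h1 := Nn.mul h hc
  rw [sub_mul] at h1
  exact h1

omit [Fintype G] in
theorem LinLe.sum {ι : Type*} (s : Finset ι) {a b : ι → MonoidAlgebra ℤ G}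
    (h : ∀ i ∈ s, LinLe (a i) (b i)) : LinLe (∑ i ∈ s, a i) (∑ i ∈ s, b i) := by
  rw [LinLe, ← Finset.sum_sub_distrib]
  exact Nn.sum _ _ h

theorem lin_pos_mul {x y : MonoidAlgebra ℤ G} (hx : Nn x) (hx0 : x ≠ 0)
    (hy : ∀ g, 0 < y.coeff g) : ∀ g, 0 < (x * y).coeff g := by
  intro g
  have hex : ∃ h, 0 < x.coeff h := by
    by_contra hcon
    push Not at hcon
    apply hx0
    apply MonoidAlgebra.ext
    ext g
    exact le_antisymm (hcon g) (hx g)
  obtain ⟨h, hh⟩ := hex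
  rw [coeff_mul_sum]
  refine lt_of_lt_of_le (mul_pos hh (hy (h⁻¹ * g))) ?_
  exact Finset.single_le_sum (f := fun h => x.coeff h * y.coeff (h⁻¹ * g))
    (fun i _ => mul_nonneg (hx i) (hy _).le) (Finset.mem_univ h)

variable {V : Type*} [Fintype V] [DecidableEq V]

theorem lin_mul_nn {P Q : Matrix V V (MonoidAlgebra ℤ G)} (hP : ∀ x y, Nn (P x y))
    (hQ : ∀ x y, Nn (Q x y)) (x y : V) : Nn ((P * Q) x y) := by
  rw [Matrix.mul_apply]
  exact Nn.sum _ _ fun z _ => (hP x z).mul (hQ z y)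

theorem lin_pow_nn {P : Matrix V V (MonoidAlgebra ℤ G)} (hP : ∀ x y, Nn (P x y)) (m : ℕ)
    (x y : V) : Nn ((P ^ m) x y) := by
  induction m generalizing x y with
  | zero =>
    rw [pow_zero, Matrix.one_apply]
    split_ifs
    · exact Nn.one
    · exact Nn.zero
  | succ m ih => rw [pow_succ]; exact lin_mul_nn ih hP x y

theorem lin_sum_le {P Q : Matrix V V (MonoidAlgebra ℤ G)} (hP : ∀ x y, Nn (P x y))
    (hQ : ∀ x y, Nn (Q x y)) (x z : V) (s : Finset V) :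
    LinLe (∑ y ∈ s, P x y * Q y z) ((P * Q) x z) := by
  rw [LinLe, Matrix.mul_apply, ← Finset.sum_sdiff (Finset.subset_univ s), add_sub_cancel_right]
  exact Nn.sum _ _ fun y _ => (hP x y).mul (hQ y z)

theorem lin_single_le {P Q : Matrix V V (MonoidAlgebra ℤ G)} (hP : ∀ x y, Nn (P x y))
    (hQ : ∀ x y, Nn (Q x y)) (x y z : V) :
    LinLe (P x y * Q y z) ((P * Q) x z) := by
  have := lin_sum_le hP hQ x z {y}
  rwa [Finset.sum_singleton] at this

theorem lin_pow_mul_le {P : Matrix V V (MonoidAlgebra ℤ G)} (hP : ∀ x y, Nn (P x y)) (m n : ℕ)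
    (x y z : V) : LinLe ((P ^ m) x y * (P ^ n) y z) ((P ^ (m + n)) x z) := by
  rw [pow_add]
  exact lin_single_le (lin_pow_nn hP m) (lin_pow_nn hP n) x y z

omit [Fintype G] in
/-- nonzero lower bounds -/
theorem LinLe.ne_zero {a b : MonoidAlgebra ℤ G} (h : LinLe a b) (ha : Nn a) (ha0 : a ≠ 0) :
    b ≠ 0 := by
  rintro rfl
  apply ha0
  apply MonoidAlgebra.ext
  ext g
  have h1 := h g
  have h2 := ha g
  simp only [zero_sub, MonoidAlgebra.coeff_neg] at h1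
  have h1' : 0 ≤ -(a.coeff g) := by simpa using h1
  show a.coeff g = (0 : MonoidAlgebra ℤ G).coeff g
  simp only [MonoidAlgebra.coeff_zero, Finsupp.coe_zero, Pi.zero_apply]
  omega

theorem Nn.mul_ne_zero' {x y : MonoidAlgebra ℤ G} (hx : Nn x) (hy : Nn y) (hx0 : x ≠ 0)
    (hy0 : y ≠ 0) : x * y ≠ 0 := by
  intro h
  have h1 := mul_pos (hx.aug_pos hx0) (hy.aug_pos hy0)
  rw [← map_mul, h, map_zero] at h1
  exact lt_irrefl _ h1

end aux

section main

variable {J : Type*} [Fintype J] [DecidableEq J]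

omit [Fintype G] [Fintype J] in
theorem linM_nn (M : Matrix J J (Polynomial (MonoidAlgebra ℤ G)))
    (hnn : ∀ i j, PNn (M i j)) (D : J → ℕ) (x y : Σ i : J, Fin (D i)) :
    Nn (linM M D x y) := by
  rw [linM]
  refine Nn.add ?_ ?_
  · split_ifs
    · exact hnn _ _ _
    · exact Nn.zero
  · split_ifs
    · exact Nn.one
    · exact Nn.zero

/-- one step up -/
theorem linM_up (M : Matrix J J (Polynomial (MonoidAlgebra ℤ G)))
    (hnn : ∀ i j, PNn (M i j)) (D : J → ℕ) (i : J) (k k' : Fin (D i)) (h : (k' : ℕ) = k + 1) :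
    LinLe 1 (linM M D ⟨i, k⟩ ⟨i, k'⟩) := by
  rw [linM, LinLe]
  have h0 : ¬ ((k' : ℕ) = 0) := by omega
  rw [if_neg h0, if_pos ⟨rfl, h⟩, zero_add, sub_self]
  exact Nn.zero

/-- step down -/
theorem linM_down (M : Matrix J J (Polynomial (MonoidAlgebra ℤ G)))
    (hnn : ∀ i j, PNn (M i j)) (D : J → ℕ) (i j : J) (k : Fin (D i)) (k' : Fin (D j))
    (h : (k' : ℕ) = 0) :
    LinLe ((M i j).coeff (k + 1)) (linM M D ⟨i, k⟩ ⟨j, k'⟩) := by
  rw [linM, LinLe]
  have h0 : ¬ (i = j ∧ (0 : ℕ) = k + 1) := by rintro ⟨_, h⟩; omega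
  simp only [h, if_true, h0, if_false, add_zero, sub_self]
  exact Nn.zero

theorem linM_pow_up (M : Matrix J J (Polynomial (MonoidAlgebra ℤ G)))
    (hnn : ∀ i j, PNn (M i j)) (D : J → ℕ) (i : J) (m : ℕ) (k k' : Fin (D i))
    (h : (k' : ℕ) = k + m) : LinLe 1 ((linM M D ^ m) ⟨i, k⟩ ⟨i, k'⟩) := by
  induction m generalizing k' with
  | zero =>
    have : k' = k := Fin.ext (by omega)
    subst this
    rw [pow_zero, Matrix.one_apply_eq]
    exact LinLe.refl _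
  | succ m ih =>
    have hlt : (k : ℕ) + m < D i := by have := k'.2; omega
    have h1 := ih ⟨(k : ℕ) + m, hlt⟩ rfl
    have h2 := linM_up M hnn D i ⟨(k : ℕ) + m, hlt⟩ k' (by simp; omega)
    have h3 := lin_pow_mul_le (linM_nn M hnn D) m 1 ⟨i, k⟩ ⟨i, ⟨(k : ℕ) + m, hlt⟩⟩ ⟨i, k'⟩
    rw [pow_one] at h3
    refine LinLe.trans ?_ h3
    have h4 := LinLe.mul_left h2 (lin_pow_nn (linM_nn M hnn D) m ⟨i, k⟩ ⟨i, ⟨(k : ℕ) + m, hlt⟩⟩)
    rw [mul_one] at h4
    exact h1.trans h4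

theorem linM_pow_down (M : Matrix J J (Polynomial (MonoidAlgebra ℤ G)))
    (hnn : ∀ i j, PNn (M i j)) (D : J → ℕ) (i j : J) (k : Fin (D i)) (k' : Fin (D j))
    (h : (k' : ℕ) = 0) (m : ℕ) (hm : (k : ℕ) + m < D i) :
    LinLe ((M i j).coeff (k + m + 1)) ((linM M D ^ (m + 1)) ⟨i, k⟩ ⟨j, k'⟩) := by
  have h1 := linM_pow_up M hnn D i m k ⟨(k : ℕ) + m, hm⟩ rfl
  have h2 := linM_down M hnn D i j ⟨(k : ℕ) + m, hm⟩ k' h
  have h3 := lin_pow_mul_le (linM_nn M hnn D) m 1 ⟨i, k⟩ ⟨i, ⟨(k : ℕ) + m, hm⟩⟩ ⟨j, k'⟩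
  rw [pow_one] at h3
  refine LinLe.trans ?_ h3
  have h4 := LinLe.mul_left h2 (lin_pow_nn (linM_nn M hnn D) m ⟨i, k⟩ ⟨i, ⟨(k : ℕ) + m, hm⟩⟩)
  refine LinLe.trans ?_ h4
  have h5 := LinLe.mul_right h1 (hnn i j (k + m + 1))
  rwa [one_mul] at h5

/-- the renewal inequality for the linearisation -/
theorem linM_renewal (M : Matrix J J (Polynomial (MonoidAlgebra ℤ G)))
    (hnn : ∀ i j, PNn (M i j)) (D : J → ℕ) (i : J) (hi : 0 < D i)
    (hdeg : (M i i).natDegree ≤ D i) (l : ℕ) (m : Fin (D i)) :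
    LinLe (∑ k ∈ Finset.range l, (M i i).coeff (m + k + 1) *
        (linM M D ^ (l - 1 - k)) ⟨i, ⟨0, hi⟩⟩ ⟨i, ⟨0, hi⟩⟩)
      ((linM M D ^ l) ⟨i, m⟩ ⟨i, ⟨0, hi⟩⟩) := by
  induction l generalizing m with
  | zero =>
    rw [Finset.sum_range_zero, LinLe, sub_zero]
    exact lin_pow_nn (linM_nn M hnn D) _ _ _
  | succ l ih =>
    rw [pow_succ', Finset.sum_range_succ']
    have hd := linM_down M hnn D i i m ⟨0, hi⟩ rfl
    by_cases hm : (m : ℕ) + 1 < D i
    · have hne : (⟨i, ⟨(m : ℕ) + 1, hm⟩⟩ : Σ i : J, Fin (D i)) ≠ ⟨i, ⟨0, hi⟩⟩ := by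
        intro h
        have := (Sigma.mk.inj_iff.1 h).2
        have := eq_of_heq this
        have := congrArg Fin.val this
        simp at this
      have h1 := lin_sum_le (linM_nn M hnn D) (lin_pow_nn (linM_nn M hnn D) l) ⟨i, m⟩
        ⟨i, ⟨0, hi⟩⟩ {⟨i, ⟨(m : ℕ) + 1, hm⟩⟩, ⟨i, ⟨0, hi⟩⟩}
      rw [Finset.sum_pair hne] at h1
      refine LinLe.trans (LinLe.add ?_ ?_) h1
      · have hu := linM_up M hnn D i m ⟨(m : ℕ) + 1, hm⟩ rfl
        have h2 := LinLe.mul_right hu (lin_pow_nn (linM_nn M hnn D) l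
          ⟨i, ⟨(m : ℕ) + 1, hm⟩⟩ ⟨i, ⟨0, hi⟩⟩)
        rw [one_mul] at h2
        refine LinLe.trans ?_ h2
        have h3 := ih ⟨(m : ℕ) + 1, hm⟩
        refine Eq.subst (motive := fun z => LinLe z _) ?_ h3
        refine Finset.sum_congr rfl fun k hk => ?_
        rw [Finset.mem_range] at hk
        have e1 : (m : ℕ) + (k + 1) + 1 = (m : ℕ) + 1 + k + 1 := by ring
        have e2 : l + 1 - 1 - (k + 1) = l - 1 - k := by omega
        rw [e1, e2]
      · have h2 := LinLe.mul_right hd (lin_pow_nn (linM_nn M hnn D) l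
          ⟨i, ⟨0, hi⟩⟩ ⟨i, ⟨0, hi⟩⟩)
        simpa using h2
    · have hz : ∑ k ∈ Finset.range l, (M i i).coeff (m + (k + 1) + 1) *
        (linM M D ^ (l + 1 - 1 - (k + 1))) ⟨i, ⟨0, hi⟩⟩ ⟨i, ⟨0, hi⟩⟩ = 0 := by
        refine Finset.sum_eq_zero fun k _ => ?_
        rw [Polynomial.coeff_eq_zero_of_natDegree_lt (by omega), zero_mul]
      rw [hz, zero_add]
      have h1 := lin_single_le (linM_nn M hnn D) (lin_pow_nn (linM_nn M hnn D) l) ⟨i, m⟩
        ⟨i, ⟨0, hi⟩⟩ ⟨i, ⟨0, hi⟩⟩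
      refine LinLe.trans ?_ h1
      have h2 := LinLe.mul_right hd (lin_pow_nn (linM_nn M hnn D) l
        ⟨i, ⟨0, hi⟩⟩ ⟨i, ⟨0, hi⟩⟩)
      simpa using h2

/-- the renewal sequence is a lower bound -/
theorem linM_ge_renewal (M : Matrix J J (Polynomial (MonoidAlgebra ℤ G)))
    (hnn : ∀ i j, PNn (M i j)) (D : J → ℕ) (i : J) (hi : 0 < D i)
    (hdeg : (M i i).natDegree ≤ D i) (h0 : (M i i).coeff 0 = 0)
    (R : PowerSeries (MonoidAlgebra ℤ G))
    (hR : (1 - (M i i : PowerSeries (MonoidAlgebra ℤ G))) * R = 1) (l : ℕ) :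
    LinLe (PowerSeries.coeff l R) ((linM M D ^ l) ⟨i, ⟨0, hi⟩⟩ ⟨i, ⟨0, hi⟩⟩) := by
  have hR' : R = 1 + (M i i : PowerSeries (MonoidAlgebra ℤ G)) * R := by
    rw [sub_mul, one_mul] at hR
    rw [← hR]; ring
  induction l using Nat.strong_induction_on with
  | _ l ih =>
    rcases Nat.eq_zero_or_pos l with hl | hl
    · subst hl
      have : PowerSeries.coeff 0 R = 1 := by
        rw [hR', map_add, PowerSeries.coeff_mul]
        simp [h0]
      rw [this, pow_zero, Matrix.one_apply_eq]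
      exact LinLe.refl _
    · have h1 := linM_renewal M hnn D i hi hdeg l ⟨0, hi⟩
      refine LinLe.trans ?_ h1
      have h2 : PowerSeries.coeff l R = ∑ k ∈ Finset.range l,
          (M i i).coeff (k + 1) * PowerSeries.coeff (l - 1 - k) R := by
        conv_lhs => rw [hR', map_add, PowerSeries.coeff_mul]
        rw [PowerSeries.coeff_one, if_neg (by omega), zero_add,
          Finset.Nat.sum_antidiagonal_eq_sum_range_succ
            (fun a b => PowerSeries.coeff a (M i i : PowerSeries (MonoidAlgebra ℤ G)) *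
              PowerSeries.coeff b R), Finset.sum_range_succ']
        rw [Polynomial.coeff_coe, h0, zero_mul, add_zero]
        refine Finset.sum_congr rfl fun k _ => ?_
        rw [Polynomial.coeff_coe]
        have e3 : l - (k + 1) = l - 1 - k := by omega
        rw [e3]
      rw [h2]
      refine LinLe.sum _ fun k hk => ?_
      rw [Finset.mem_range] at hk
      have e : ((⟨0, hi⟩ : Fin (D i)) : ℕ) + k + 1 = k + 1 := by simp
      rw [e]
      exact LinLe.mul_left (ih _ (by omega)) (hnn i i _)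

end main

/-- PROOF. Work with nonnegative elements of `ℤG`; `x ≥ 0`, `x ≠ 0`, `y ≫ 0` give `x * y ≫ 0`.
`C = linM M D`. (i) `(C ^ k) (i,0) (i,k) ≥ 1`; more generally `(C ^ m) (i,k) (i,k+m) ≥ 1`.
(ii) `(C ^ (k+1)) (i,0) (j,0) ≥ coeff (k+1) (M i j)`,
`(C ^ (d-k)) (i,k) (j,0) ≥ coeff d (M i j)` for `k < d`. (iii) hence
`(C ^ l) (T,0) (T,0) ≥ coeff l R ≫ 0` for `l ≥ l₀` (`R_l = ∑ f_k R_{l-k}`, induction).
(iv) from `(i,k)` there is an edge path to `(T,0)`: first to `(i, D i - 1)`, then to some `(j,0)`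
(`(M i j).coeff (D i) ≠ 0`), then (if `j ≠ T`) to `(T,0)` since `M j T ≠ 0`. From `(T,0)` one
reaches `(i,0)` (`M T i ≠ 0`), then `(i,k)`. Choose a common exponent. -/
theorem lin_prim {O : Type*} [Fintype O] [DecidableEq O]
    (M : Matrix (Unit ⊕ O) (Unit ⊕ O) (Polynomial (MonoidAlgebra ℤ G)))
    (hnn : ∀ i j, PNn (M i j)) (h0 : ∀ i j, (M i j).coeff 0 = 0)
    (hTo : ∀ o, M (Sum.inl ()) (Sum.inr o) ≠ 0 ∧ M (Sum.inr o) (Sum.inl ()) ≠ 0)
    (R : PowerSeries (MonoidAlgebra ℤ G))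
    (hR : (1 - (M (Sum.inl ()) (Sum.inl ()) : PowerSeries (MonoidAlgebra ℤ G))) * R = 1)
    (hpos : ∃ l₀ : ℕ, ∀ l, l₀ ≤ l → ∀ g, 0 < (PowerSeries.coeff l R).coeff g)
    (D : Unit ⊕ O → ℕ) (hD : ∀ i, 0 < D i) (hdeg : ∀ i j, (M i j).natDegree ≤ D i)
    (htop : ∀ i, ∃ j, (M i j).coeff (D i) ≠ 0) :
    (∀ x y, Nn (linM M D x y)) ∧
      ∃ k : ℕ, 0 < k ∧ ∀ x y g, 0 < ((linM M D ^ k) x y).coeff g := by
  have hC := linM_nn M hnn D
  refine ⟨hC, ?_⟩
  obtain ⟨l₀, hl₀⟩ := hpos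
  set T : Unit ⊕ O := Sum.inl () with hT
  set t0 : Σ i : Unit ⊕ O, Fin (D i) := ⟨T, ⟨0, hD T⟩⟩ with ht0
  have hge := linM_ge_renewal M hnn D T (hD T) (hdeg T T) (h0 T T) R hR
  -- reaching `(T,0)`
  have hjT : ∀ j : Unit ⊕ O, ∃ m, (linM M D ^ m) ⟨j, ⟨0, hD j⟩⟩ t0 ≠ 0 := by
    intro j
    rcases j with ⟨⟩ | o
    · refine ⟨0, ?_⟩
      rw [pow_zero, ht0, Matrix.one_apply_eq]
      exact one_ne_zero
    · have hne := (hTo o).2
      have hex : ∃ d, (M (Sum.inr o) T).coeff d ≠ 0 := by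
        by_contra hcon
        push Not at hcon
        exact hne (Polynomial.ext fun n => by simp [hcon n])
      obtain ⟨d, hd⟩ := hex
      have hd0 : d ≠ 0 := fun h => hd (by rw [h]; exact h0 _ _)
      have hdD : d ≤ D (Sum.inr o) := le_trans (Polynomial.le_natDegree_of_ne_zero hd) (hdeg _ _)
      obtain ⟨d', rfl⟩ := Nat.exists_eq_succ_of_ne_zero hd0
      refine ⟨d' + 1, ?_⟩
      have := linM_pow_down M hnn D (Sum.inr o) T ⟨0, hD _⟩ ⟨0, hD T⟩ rfl d' (by simp; omega)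
      refine this.ne_zero (hnn _ _ _) ?_
      simpa using hd
  have hxT : ∀ x, ∃ m, (linM M D ^ m) x t0 ≠ 0 := by
    rintro ⟨i, k⟩
    obtain ⟨j, hj⟩ := htop i
    obtain ⟨m, hm⟩ := hjT j
    have hk := k.2
    have h1 := linM_pow_down M hnn D i j k ⟨0, hD j⟩ rfl (D i - 1 - k) (by omega)
    have e : (k : ℕ) + (D i - 1 - k) + 1 = D i := by omega
    rw [e] at h1
    have h2 := h1.ne_zero (hnn _ _ _) hj
    refine ⟨(D i - 1 - k + 1) + m, ?_⟩
    refine (lin_pow_mul_le hC _ _ _ ⟨j, ⟨0, hD j⟩⟩ _).ne_zero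
      ((lin_pow_nn hC _ _ _).mul (lin_pow_nn hC _ _ _)) ?_
    exact Nn.mul_ne_zero' (lin_pow_nn hC _ _ _) (lin_pow_nn hC _ _ _) h2 hm
  have hTj : ∀ j : Unit ⊕ O, ∃ m, (linM M D ^ m) t0 ⟨j, ⟨0, hD j⟩⟩ ≠ 0 := by
    intro j
    rcases j with ⟨⟩ | o
    · refine ⟨0, ?_⟩
      rw [pow_zero, ht0, Matrix.one_apply_eq]
      exact one_ne_zero
    · have hne := (hTo o).1
      have hex : ∃ d, (M T (Sum.inr o)).coeff d ≠ 0 := by
        by_contra hcon
        push Not at hcon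
        exact hne (Polynomial.ext fun n => by simp [hcon n])
      obtain ⟨d, hd⟩ := hex
      have hd0 : d ≠ 0 := fun h => hd (by rw [h]; exact h0 _ _)
      have hdD : d ≤ D T := le_trans (Polynomial.le_natDegree_of_ne_zero hd) (hdeg _ _)
      obtain ⟨d', rfl⟩ := Nat.exists_eq_succ_of_ne_zero hd0
      refine ⟨d' + 1, ?_⟩
      have := linM_pow_down M hnn D T (Sum.inr o) ⟨0, hD _⟩ ⟨0, hD _⟩ rfl d' (by simp; omega)
      refine this.ne_zero (hnn _ _ _) ?_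
      simpa using hd
  have hTx : ∀ x, ∃ m, (linM M D ^ m) t0 x ≠ 0 := by
    rintro ⟨i, k⟩
    obtain ⟨m, hm⟩ := hTj i
    have h1 := linM_pow_up M hnn D i k ⟨0, hD i⟩ k (by simp)
    have h2 := h1.ne_zero Nn.one one_ne_zero
    refine ⟨m + k, ?_⟩
    refine (lin_pow_mul_le hC _ _ _ ⟨i, ⟨0, hD i⟩⟩ _).ne_zero
      ((lin_pow_nn hC _ _ _).mul (lin_pow_nn hC _ _ _)) ?_
    exact Nn.mul_ne_zero' (lin_pow_nn hC _ _ _) (lin_pow_nn hC _ _ _) hm h2
  choose mx hmx using hxT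
  choose my hmy using hTx
  refine ⟨(∑ x, mx x) + l₀ + (∑ y, my y) + 1, by omega, fun x y => ?_⟩
  have hx := Finset.single_le_sum (f := mx) (fun _ _ => Nat.zero_le _) (Finset.mem_univ x)
  have hy := Finset.single_le_sum (f := my) (fun _ _ => Nat.zero_le _) (Finset.mem_univ y)
  set k := (∑ x, mx x) + l₀ + (∑ y, my y) + 1 with hk
  obtain ⟨l, hl1, hl2⟩ : ∃ l, l₀ ≤ l ∧ k = mx x + (l + my y) :=
    ⟨k - mx x - my y, by omega, by omega⟩
  rw [hl2]
  have h1 := lin_pow_mul_le hC (mx x) (l + my y) x t0 y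
  have h2 := lin_pow_mul_le hC l (my y) t0 t0 y
  have h3 : LinLe ((linM M D ^ mx x) x t0 * (PowerSeries.coeff l R * (linM M D ^ my y) t0 y))
      ((linM M D ^ (mx x + (l + my y))) x y) :=
    ((((hge l).mul_right (lin_pow_nn hC _ _ _)).trans h2).mul_left (lin_pow_nn hC _ _ _)).trans h1
  have h4 : ∀ g, 0 < ((linM M D ^ mx x) x t0 *
      (PowerSeries.coeff l R * (linM M D ^ my y) t0 y)).coeff g := by
    refine lin_pos_mul (lin_pow_nn hC _ _ _) (hmx x) ?_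
    rw [mul_comm]
    exact lin_pos_mul (lin_pow_nn hC _ _ _) (hmy y) (hl₀ l hl1)
  intro g
  have h5 := h3 g
  rw [MonoidAlgebra.coeff_sub, Finsupp.sub_apply] at h5
  have h6 := h4 g
  omega

end Pool.Agent.H.MP_345fd7_an
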