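import Pool.Agent.H.MP_345fd7_an.Round

/-! The rounding data for `ℤG ⊂ ℝG` -/

set_option autoImplicit false

namespace Pool.Agent.H.MP_345fd7_an

/-- coefficientwise rounding -/
noncomputable def roundInst_rnd (G : Type) [CommGroup G] [Fintype G] (a : MonoidAlgebra ℝ G) :
    MonoidAlgebra ℤ G :=
  MonoidAlgebra.ofCoeff (Finsupp.equivFunOnFinite.symm fun g => ⌊a.coeff g⌋)

lemma roundInst_rnd_coeff (G : Type) [CommGroup G] [Fintype G] (a : MonoidAlgebra ℝ G) (g : G) :
    (roundInst_rnd G a).coeff g = ⌊a.coeff g⌋ := rfl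

/-- coefficientwise rounding -/
theorem exists_roundData (G : Type) [CommGroup G] [Fintype G] :
    Nonempty (RoundData (MonoidAlgebra ℤ G) (MonoidAlgebra ℝ G)) := by
  classical
  have hι : ∀ (x : MonoidAlgebra ℤ G) (g : G),
      ((MonoidAlgebra.mapRingHom G (Int.castRingHom ℝ)) x).coeff g = ((x.coeff g : ℤ) : ℝ) := by
    intro x g
    rw [MonoidAlgebra.coeff_mapRingHom]
    rfl
  refine ⟨{
    ι := MonoidAlgebra.mapRingHom G (Int.castRingHom ℝ)
    nn_ι := ?_
    ι_inj := ?_
    rnd := roundInst_rnd G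
    c0 := Fintype.card G
    rnd_near := ?_
    rnd_ι := ?_
    disc := ?_
    one_le := ?_
    nn_smul := ?_ }⟩
  · intro x
    rw [nn_monoidAlgebra, nn_monoidAlgebra]
    refine Finset.sum_congr rfl fun g _ => ?_
    rw [hι, nn_int, nn_real]
  · intro x y hxy
    apply MonoidAlgebra.ext
    ext g
    have h := hι x g
    rw [hxy, hι y g] at h
    exact_mod_cast h.symm
  · intro a
    rw [nn_monoidAlgebra]
    calc ∑ g, nn ((a - (MonoidAlgebra.mapRingHom G (Int.castRingHom ℝ)) (roundInst_rnd G a)).coeff g)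
        ≤ ∑ _g : G, (1 : ℝ) := by
          refine Finset.sum_le_sum fun g _ => ?_
          rw [MonoidAlgebra.coeff_sub, Finsupp.sub_apply, hι, roundInst_rnd_coeff, nn_real,
            abs_le]
          constructor
          · have := Int.floor_le (a.coeff g); linarith
          · have := Int.lt_floor_add_one (a.coeff g); linarith
      _ = Fintype.card G := by simp
  · intro x
    apply MonoidAlgebra.ext
    ext g
    rw [roundInst_rnd_coeff, hι, Int.floor_intCast]
  · intro x hx
    apply MonoidAlgebra.ext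
    ext g
    have h1 := (nn_coeff_le x g).trans_lt hx
    rw [nn_int] at h1
    have h2 : |x.coeff g| < 1 := by exact_mod_cast h1
    rw [Int.abs_lt_one_iff] at h2
    simpa using h2
  · rw [nn_monoidAlgebra, MonoidAlgebra.one_def, MonoidAlgebra.coeff_single,
      Finset.sum_eq_single (1 : G)]
    · simp [nn_real]
    · intro b _ hb
      rw [Finsupp.single_apply, if_neg (Ne.symm hb), nn_zero]
    · intro h; exact absurd (Finset.mem_univ _) h
  · intro s a
    rw [nn_monoidAlgebra, nn_monoidAlgebra, Finset.mul_sum]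
    refine Finset.sum_congr rfl fun g _ => ?_
    rw [MonoidAlgebra.coeff_smul, Finsupp.smul_apply, nn_real, nn_real, smul_eq_mul, abs_mul]

end Pool.Agent.H.MP_345fd7_an
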