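import Pool.Agent.H.MP_345fd7_an.Basic

/-! From isomorphic cokernels of `1 - tC`, `1 - tB` to shift equivalence of `C`, `B` -/

set_option autoImplicit false

namespace Pool.Agent.H.MP_345fd7_an

open Matrix Polynomial

section SEaux

variable {A : Type*} [CommRing A]

/-- coefficient matrix -/
def seCo {a b : Type*} (k : ℕ) (F : Matrix a b (Polynomial A)) : Matrix a b A :=
  F.map fun p => p.coeff k

lemma seCo_sub {a b : Type*} (k : ℕ) (F F' : Matrix a b (Polynomial A)) :
    seCo k (F - F') = seCo k F - seCo k F' := by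
  ext i j; simp [seCo]

lemma seCo_mul {a b c : Type*} [Fintype b] (k : ℕ) (F : Matrix a b (Polynomial A))
    (F' : Matrix b c (Polynomial A)) :
    seCo k (F * F') = ∑ p ∈ Finset.HasAntidiagonal.antidiagonal k, seCo p.1 F * seCo p.2 F' := by
  ext i j
  rw [Matrix.sum_apply]
  simp only [seCo, Matrix.map_apply, Matrix.mul_apply, Polynomial.finsetSum_coeff,
    Polynomial.coeff_mul]
  rw [Finset.sum_comm]

lemma seCo_one_zero {a : Type*} [DecidableEq a] :
    seCo 0 (1 : Matrix a a (Polynomial A)) = 1 := by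
  ext i j
  by_cases h : i = j
  · subst h; simp [seCo]
  · simp [seCo, h]

lemma seCo_one_succ {a : Type*} [DecidableEq a] (k : ℕ) :
    seCo (k + 1) (1 : Matrix a a (Polynomial A)) = 0 := by
  ext i j
  by_cases h : i = j
  · subst h; simp [seCo, Polynomial.coeff_one]
  · simp [seCo, h]

lemma seCo_left_zero {b c : Type*} [Fintype b] (B : Matrix b b A)
    (F : Matrix b c (Polynomial A)) :
    seCo 0 (((X : Polynomial A) • B.map Polynomial.C) * F) = 0 := by
  ext i j
  rw [Matrix.smul_mul]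
  simp [seCo]

lemma seCo_left_succ {b c : Type*} [Fintype b] (B : Matrix b b A)
    (F : Matrix b c (Polynomial A)) (k : ℕ) :
    seCo (k + 1) (((X : Polynomial A) • B.map Polynomial.C) * F) = B * seCo k F := by
  ext i j
  rw [Matrix.smul_mul]
  simp [seCo, Matrix.mul_apply, Polynomial.finsetSum_coeff]

lemma seCo_right_zero {b c : Type*} [Fintype b] (B : Matrix b b A)
    (F : Matrix c b (Polynomial A)) :
    seCo 0 (F * ((X : Polynomial A) • B.map Polynomial.C)) = 0 := by
  ext i j
  rw [Matrix.mul_smul]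
  simp [seCo]

lemma seCo_right_succ {b c : Type*} [Fintype b] (B : Matrix b b A)
    (F : Matrix c b (Polynomial A)) (k : ℕ) :
    seCo (k + 1) (F * ((X : Polynomial A) • B.map Polynomial.C)) = seCo k F * B := by
  ext i j
  rw [Matrix.mul_smul]
  simp [seCo, Matrix.mul_apply, Polynomial.finsetSum_coeff]

lemma seCo_bound {a b : Type*} [Fintype a] [Fintype b] (F : Matrix a b (Polynomial A)) :
    ∃ K : ℕ, ∀ k, K < k → seCo k F = 0 := by
  refine ⟨∑ i, ∑ j, (F i j).natDegree, fun k hk => ?_⟩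
  ext i j
  refine Polynomial.coeff_eq_zero_of_natDegree_lt (lt_of_le_of_lt ?_ hk)
  refine le_trans ?_ (Finset.single_le_sum (f := fun i => ∑ j, (F i j).natDegree)
    (fun _ _ => Nat.zero_le _) (Finset.mem_univ i))
  exact Finset.single_le_sum (f := fun j => (F i j).natDegree)
    (fun _ _ => Nat.zero_le _) (Finset.mem_univ j)

/-- reversed evaluation -/
def seL {b c : Type*} [Fintype b] [DecidableEq b] (B : Matrix b b A) (K : ℕ)
    (F : Matrix b c (Polynomial A)) : Matrix b c A :=
  ∑ k ∈ Finset.range (K + 1), B ^ (K - k) * seCo k F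

lemma seL_sub {b c : Type*} [Fintype b] [DecidableEq b] (B : Matrix b b A) (K : ℕ)
    (F F' : Matrix b c (Polynomial A)) : seL B K (F - F') = seL B K F - seL B K F' := by
  unfold seL
  rw [← Finset.sum_sub_distrib]
  exact Finset.sum_congr rfl fun k _ => by rw [seCo_sub, Matrix.mul_sub]

lemma seL_succ {b c : Type*} [Fintype b] [DecidableEq b] (B : Matrix b b A) (K : ℕ)
    (F : Matrix b c (Polynomial A)) (h : seCo (K + 1) F = 0) :
    seL B (K + 1) F = B * seL B K F := by
  unfold seL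
  rw [Finset.sum_range_succ, h, Matrix.mul_zero, add_zero, Matrix.mul_sum]
  refine Finset.sum_congr rfl fun k hk => ?_
  have : k ≤ K := by have := Finset.mem_range.1 hk; omega
  rw [← Matrix.mul_assoc, ← pow_succ', Nat.sub_add_comm this]

lemma seL_left {b c : Type*} [Fintype b] [DecidableEq b] (B : Matrix b b A) (K : ℕ)
    (F : Matrix b c (Polynomial A)) :
    seL B (K + 1) (((X : Polynomial A) • B.map Polynomial.C) * F) = B * seL B K F := by
  unfold seL
  rw [Finset.sum_range_succ', seCo_left_zero, Matrix.mul_zero, add_zero, Matrix.mul_sum]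
  refine Finset.sum_congr rfl fun k hk => ?_
  rw [seCo_left_succ, Nat.add_sub_add_right, ← Matrix.mul_assoc, ← Matrix.mul_assoc,
    ← pow_succ, ← pow_succ']

lemma seL_right {b c : Type*} [Fintype b] [DecidableEq b] [Fintype c]
    (B : Matrix b b A) (Cm : Matrix c c A)
    (K : ℕ) (F : Matrix b c (Polynomial A)) :
    seL B (K + 1) (F * ((X : Polynomial A) • Cm.map Polynomial.C)) = seL B K F * Cm := by
  unfold seL
  rw [Finset.sum_range_succ', seCo_right_zero, Matrix.mul_zero, add_zero, Matrix.sum_mul]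
  refine Finset.sum_congr rfl fun k hk => ?_
  rw [seCo_right_succ, Nat.add_sub_add_right, ← Matrix.mul_assoc]

lemma seL_kill {b c : Type*} [Fintype b] [DecidableEq b] (B : Matrix b b A) (K : ℕ)
    (F : Matrix b c (Polynomial A)) (h : seCo (K + 1) F = 0) :
    seL B (K + 1) ((1 - (X : Polynomial A) • B.map Polynomial.C) * F) = 0 := by
  rw [Matrix.sub_mul, Matrix.one_mul, seL_sub, seL_succ B K F h, seL_left, sub_self]

lemma seL_comm {b c : Type*} [Fintype b] [DecidableEq b] [Fintype c] [DecidableEq c]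
    (B : Matrix b b A) (Cm : Matrix c c A) (K : ℕ) (F F' : Matrix b c (Polynomial A))
    (h : seCo (K + 1) F = 0) (h' : seCo (K + 1) F' = 0)
    (e : F * (1 - (X : Polynomial A) • Cm.map Polynomial.C) =
      (1 - (X : Polynomial A) • B.map Polynomial.C) * F') :
    B * seL B K F = seL B K F * Cm := by
  have h1 := congrArg (seL B (K + 1)) e
  rw [seL_kill B K F' h', Matrix.mul_sub, Matrix.mul_one, seL_sub, seL_succ B K F h,
    seL_right, sub_eq_zero] at h1
  exact h1

lemma seL_one {b : Type*} [Fintype b] [DecidableEq b] (B : Matrix b b A) (K : ℕ) :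
    seL B K (1 : Matrix b b (Polynomial A)) = B ^ K := by
  unfold seL
  rw [Finset.sum_range_succ', seCo_one_zero, Matrix.mul_one, Nat.sub_zero,
    Finset.sum_eq_zero, zero_add]
  intro k _
  rw [seCo_one_succ, Matrix.mul_zero]

lemma se_pow_comm {b c : Type*} [Fintype b] [DecidableEq b] [Fintype c] [DecidableEq c]
    (B : Matrix b b A) (Cm : Matrix c c A) (R : Matrix b c A) (h : B * R = R * Cm) (n : ℕ) :
    B ^ n * R = R * Cm ^ n := by
  induction n with
  | zero => simp
  | succ n ih => rw [pow_succ, Matrix.mul_assoc, h, ← Matrix.mul_assoc, ih, Matrix.mul_assoc,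
      pow_succ]

lemma seL_mul {b c : Type*} [Fintype b] [DecidableEq b] [Fintype c] [DecidableEq c]
    (B : Matrix b b A) (Cm : Matrix c c A) (K : ℕ) (F : Matrix b c (Polynomial A))
    (F' : Matrix c b (Polynomial A))
    (hF : ∀ k, K < k → seCo k F = 0) (hF' : ∀ k, K < k → seCo k F' = 0)
    (h : B * seL B K F = seL B K F * Cm) :
    seL B K F * seL Cm K F' = seL B (2 * K) (F * F') := by
  have h1 : seL B K F * seL Cm K F' =
      ∑ p ∈ Finset.range (K + 1) ×ˢ Finset.range (K + 1),
        B ^ (2 * K - (p.1 + p.2)) * (seCo p.1 F * seCo p.2 F') := by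
    rw [Finset.sum_product_right]
    conv_lhs => rw [seL.eq_1 Cm K F']
    rw [Matrix.mul_sum]
    refine Finset.sum_congr rfl fun l hl => ?_
    rw [← Matrix.mul_assoc, ← se_pow_comm B Cm _ h, seL, Matrix.mul_sum, Matrix.sum_mul]
    refine Finset.sum_congr rfl fun k hk => ?_
    have hk' := Finset.mem_range.1 hk
    have hl' := Finset.mem_range.1 hl
    rw [← Matrix.mul_assoc, ← pow_add, Matrix.mul_assoc]
    congr 2
    omega
  rw [h1, seL]
  rw [← Finset.sum_fiberwise_of_maps_to (s := Finset.range (K + 1) ×ˢ Finset.range (K + 1))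
    (t := Finset.range (2 * K + 1)) (g := fun p => p.1 + p.2)]
  · refine Finset.sum_congr rfl fun m hm => ?_
    rw [seCo_mul, Matrix.mul_sum]
    refine (Finset.sum_subset (s₁ := (Finset.range (K + 1) ×ˢ Finset.range (K + 1)).filter
      (fun p => p.1 + p.2 = m)) (s₂ := Finset.HasAntidiagonal.antidiagonal m)
      (f := fun p => B ^ (2 * K - (p.1 + p.2)) * (seCo p.1 F * seCo p.2 F'))
      ?_ ?_).trans ?_
    · intro p hp
      rw [Finset.mem_filter] at hp
      rw [Finset.HasAntidiagonal.mem_antidiagonal]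
      exact hp.2
    · intro p hp hp'
      rw [Finset.HasAntidiagonal.mem_antidiagonal] at hp
      rw [Finset.mem_filter, Finset.mem_product, Finset.mem_range, Finset.mem_range] at hp'
      by_cases h2 : K < p.1
      · rw [hF _ h2]; simp
      · by_cases h3 : K < p.2
        · rw [hF' _ h3]; simp
        · exact absurd ⟨⟨by omega, by omega⟩, hp⟩ hp'
    · refine Finset.sum_congr rfl fun p hp => ?_
      rw [Finset.HasAntidiagonal.mem_antidiagonal] at hp
      rw [hp]
  · intro p hp
    rw [Finset.mem_product, Finset.mem_range, Finset.mem_range] at hp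
    rw [Finset.mem_range]
    omega

end SEaux


/-- PROOF. Let `X X' Y Y' Z Z'` be as in `CokIso (1 - tC) (1 - tB)`, `X = ∑ X_k t ^ k` etc.
(coefficient matrices), `K` larger than all degrees. `R = ∑_{k ≤ K} B ^ (K - k) * X_k`,
`S = ∑_{k ≤ K} C ^ (K - k) * Y_k`. For a matrix `F` (rows indexed by `b`) of degree `≤ K` put
`L_K F = ∑_{k ≤ K} B ^ (K - k) F_k`. `L_{K+1} ((1 - tB) X') = 0` (telescoping) and
`L_{K+1} (X (1 - tC)) = B R - R C`. So `B R = R C`, similarly `C S = S B`.
`R S = ∑_{k,l} B ^ (2K - k - l) X_k Y_l = L_{2K} (X Y) = L_{2K} (1 - (1 - tB) Z) = B ^ (2K)`,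
similarly `S R = C ^ (2K)`. -/
theorem se_of_cokIso {A : Type*} [CommRing A] {a b : Type*} [Fintype a] [DecidableEq a]
    [Fintype b] [DecidableEq b] (Cm : Matrix a a A) (B : Matrix b b A)
    (h : CokIso (1 - (X : Polynomial A) • Cm.map Polynomial.C)
      (1 - (X : Polynomial A) • B.map Polynomial.C)) :
    ∃ ℓ : ℕ, 0 < ℓ ∧ ∃ (R : Matrix b a A) (S : Matrix a b A),
      B * R = R * Cm ∧ S * B = Cm * S ∧ R * S = B ^ ℓ ∧ S * R = Cm ^ ℓ := by
  obtain ⟨P, P', Q, Q', Z, Z', e1, e2, e3, e4⟩ := h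
  obtain ⟨k1, b1⟩ := seCo_bound P
  obtain ⟨k2, b2⟩ := seCo_bound P'
  obtain ⟨k3, b3⟩ := seCo_bound Q
  obtain ⟨k4, b4⟩ := seCo_bound Q'
  obtain ⟨k5, b5⟩ := seCo_bound Z
  obtain ⟨k6, b6⟩ := seCo_bound Z'
  obtain ⟨K, hK⟩ : ∃ K, K = k1 + k2 + k3 + k4 + k5 + k6 + 1 := ⟨_, rfl⟩
  have hR : B * seL B K P = seL B K P * Cm :=
    seL_comm B Cm K P P' (b1 _ (by omega)) (b2 _ (by omega)) e1
  have hS : Cm * seL Cm K Q = seL Cm K Q * B :=
    seL_comm Cm B K Q Q' (b3 _ (by omega)) (b4 _ (by omega)) e2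
  have h2K : 2 * K = (2 * K - 1) + 1 := by omega
  refine ⟨2 * K, by omega, seL B K P, seL Cm K Q, hR, hS.symm, ?_, ?_⟩
  · rw [seL_mul B Cm K P Q (fun k hk => b1 k (by omega)) (fun k hk => b3 k (by omega)) hR]
    have h3 : P * Q = 1 - (1 - (X : Polynomial A) • B.map Polynomial.C) * Z :=
      eq_sub_of_add_eq e3
    rw [h3, seL_sub, seL_one, h2K, seL_kill B _ Z (b5 _ (by omega)), sub_zero]
  · rw [seL_mul Cm B K Q P (fun k hk => b3 k (by omega)) (fun k hk => b1 k (by omega)) hS]
    have h3 : Q * P = 1 - (1 - (X : Polynomial A) • Cm.map Polynomial.C) * Z' :=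
      eq_sub_of_add_eq e4
    rw [h3, seL_sub, seL_one, h2K, seL_kill Cm _ Z' (b6 _ (by omega)), sub_zero]

end Pool.Agent.H.MP_345fd7_an
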