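import Pool.Agent.H.MP_345fd7_an.StructDefs

/-! Making all entries `z → T` and `T → z` nonzero -/

set_option autoImplicit false

namespace Pool.Agent.H.MP_345fd7_an

open Matrix Polynomial

variable {G : Type} [CommGroup G] [Fintype G]

/-- One row operation: `row z₁ += M z₁ z₂ * row z₂` of `1 - M` (`z₁, z₂, T` distinct).
The support can only grow because of the loops. -/
theorem row_step {J : Type} [Fintype J] [DecidableEq J] (T : J)
    (M : Matrix J J (Polynomial (MonoidAlgebra ℤ G))) (p : Polynomial (MonoidAlgebra ℤ G))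
    (kT : PowerSeries (MonoidAlgebra ℤ G)) (h : Good T M p kT) (z₁ z₂ : J) (h12 : z₁ ≠ z₂)
    (hz1 : z₁ ≠ T) (hz2 : z₂ ≠ T) (hl : M z₂ z₂ ≠ 0) :
    ∃ M' : Matrix J J (Polynomial (MonoidAlgebra ℤ G)), Good T M' p kT ∧
      (∀ i j, M i j ≠ 0 → M' i j ≠ 0) ∧ (∀ i, i ≠ z₁ → ∀ j, M' i j = M i j) ∧
      (M z₁ z₂ ≠ 0 → M z₂ T ≠ 0 → M' z₁ T ≠ 0) := by
  classical
  obtain ⟨K, hK, hT⟩ := h.res
  set M' : Matrix J J (Polynomial (MonoidAlgebra ℤ G)) := fun i j =>
    if i = z₁ then (if j = z₂ then M z₁ z₂ * M z₂ z₂ else M z₁ j + M z₁ z₂ * M z₂ j)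
    else M i j with hM'
  have e1 : M' z₁ z₂ = M z₁ z₂ * M z₂ z₂ := by simp [hM']
  have e2 : ∀ j, j ≠ z₂ → M' z₁ j = M z₁ j + M z₁ z₂ * M z₂ j := by
    intro j hj; simp [hM', hj]
  have e3 : ∀ i, i ≠ z₁ → ∀ j, M' i j = M i j := by
    intro i hi j; simp [hM', hi]
  have key : 1 - M' = Matrix.transvection z₁ z₂ (M z₁ z₂) * (1 - M) := by
    ext1 i j
    by_cases hi : i = z₁
    · subst hi
      rw [Matrix.transvection_mul_apply_same]
      by_cases hj : j = z₂
      · subst hj
        simp only [Matrix.sub_apply, e1, Matrix.one_apply_ne h12, Matrix.one_apply_eq]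
        ring
      · rw [Matrix.sub_apply, Matrix.sub_apply, Matrix.sub_apply, e2 j hj,
          Matrix.one_apply_ne (Ne.symm hj)]
        ring
    · rw [Matrix.transvection_mul_apply_of_ne _ _ _ _ hi, Matrix.sub_apply, Matrix.sub_apply,
        e3 i hi]
  have hsupp : ∀ i j, M i j ≠ 0 → M' i j ≠ 0 := by
    intro i j hij
    by_cases hi : i = z₁
    · subst hi
      by_cases hj : j = z₂
      · subst hj
        rw [e1]
        exact (h.nonneg _ _).mul_ne_zero (h.nonneg _ _) hij hl
      · rw [e2 j hj]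
        exact (h.nonneg _ _).add_ne_zero_left ((h.nonneg _ _).mul (h.nonneg _ _)) hij
    · rw [e3 i hi]
      exact hij
  refine ⟨M', ?_, hsupp, e3, ?_⟩
  · refine ⟨?_, ?_, ?_, ?_, ?_, ?_⟩
    · intro i j
      by_cases hi : i = z₁
      · subst hi
        by_cases hj : j = z₂
        · subst hj
          rw [e1]
          exact (h.nonneg _ _).mul (h.nonneg _ _)
        · rw [e2 j hj]
          exact (h.nonneg _ _).add ((h.nonneg _ _).mul (h.nonneg _ _))
      · rw [e3 i hi]
        exact h.nonneg _ _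
    · intro i j
      by_cases hi : i = z₁
      · subst hi
        by_cases hj : j = z₂
        · subst hj
          rw [e1, Polynomial.mul_coeff_zero, h.zero, zero_mul]
        · rw [e2 j hj, Polynomial.coeff_add, Polynomial.mul_coeff_zero, h.zero, h.zero,
            zero_mul, add_zero]
      · rw [e3 i hi]
        exact h.zero _ _
    · rw [key, Matrix.det_mul, Matrix.det_transvection_of_ne _ _ h12, one_mul]
      exact h.det
    · set φ := Polynomial.coeToPowerSeries.ringHom (R := MonoidAlgebra ℤ G) with hφ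
      have ht : (Matrix.transvection z₁ z₂ (M z₁ z₂)).map φ =
          Matrix.transvection z₁ z₂ (φ (M z₁ z₂)) := by
        ext1 a b
        simp only [Matrix.transvection, Matrix.map_apply, Matrix.add_apply, Matrix.one_apply,
          Matrix.single_apply, map_add]
        split_ifs <;> simp
      refine ⟨K * Matrix.transvection z₁ z₂ (-(φ (M z₁ z₂))), ?_, ?_⟩
      · rw [key, Matrix.map_mul, ht, Matrix.mul_assoc, ← Matrix.mul_assoc _ K, hK,
          Matrix.one_mul, Matrix.transvection_mul_transvection_same _ _ h12, add_neg_cancel,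
          Matrix.transvection_zero]
      · rw [Matrix.mul_transvection_apply_of_ne _ _ _ _ (Ne.symm hz2)]
        exact hT
    · intro S hS hTS
      obtain ⟨s, hs, j, hj, hne⟩ := h.out S hS hTS
      exact ⟨s, hs, j, hj, hsupp _ _ hne⟩
    · intro S hS hTS
      obtain ⟨s, hs, j, hj, hne⟩ := h.inn S hS hTS
      exact ⟨s, hs, j, hj, hsupp _ _ hne⟩
  · intro h1 h2
    rw [e2 T (Ne.symm hz2)]
    exact (h.nonneg _ _).add_ne_zero_right ((h.nonneg _ _).mul (h.nonneg _ _))
      ((h.nonneg _ _).mul_ne_zero (h.nonneg _ _) h1 h2)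

/-- Repeat `row_step` (induction on the number of `z` with `M z T = 0`, using `Good.out`). -/
theorem rows {J : Type} [Fintype J] [DecidableEq J] (T : J)
    (M : Matrix J J (Polynomial (MonoidAlgebra ℤ G))) (p : Polynomial (MonoidAlgebra ℤ G))
    (kT : PowerSeries (MonoidAlgebra ℤ G)) (h : Good T M p kT)
    (hl : ∀ z, z ≠ T → M z z ≠ 0) :
    ∃ M' : Matrix J J (Polynomial (MonoidAlgebra ℤ G)), Good T M' p kT ∧
      (∀ i j, M i j ≠ 0 → M' i j ≠ 0) ∧ (∀ z, z ≠ T → M' z T ≠ 0) := by
  classical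
  suffices H : ∀ (n : ℕ) (M : Matrix J J (Polynomial (MonoidAlgebra ℤ G))), Good T M p kT →
      (∀ z, z ≠ T → M z z ≠ 0) →
      (Finset.univ.filter (fun z => z ≠ T ∧ M z T = 0)).card ≤ n →
      ∃ M' : Matrix J J (Polynomial (MonoidAlgebra ℤ G)), Good T M' p kT ∧
        (∀ i j, M i j ≠ 0 → M' i j ≠ 0) ∧ (∀ z, z ≠ T → M' z T ≠ 0) from
    H _ M h hl le_rfl
  intro n
  induction n with
  | zero =>
    intro M h hl hc
    refine ⟨M, h, fun _ _ h => h, ?_⟩
    intro z hz h0
    have : z ∈ Finset.univ.filter (fun z => z ≠ T ∧ M z T = 0) := by simp [hz, h0]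
    rw [Finset.card_eq_zero.1 (Nat.le_zero.1 hc)] at this
    simp at this
  | succ n ih =>
    intro M h hl hc
    rcases Finset.eq_empty_or_nonempty (Finset.univ.filter (fun z => z ≠ T ∧ M z T = 0))
      with he | hne
    · exact ih M h hl (by rw [he]; simp)
    · obtain ⟨s, hs, j, hj, hsj⟩ := h.out _ hne (by simp)
      simp only [Finset.mem_filter, Finset.mem_univ, true_and, not_and] at hs hj
      have hjT : j ≠ T := by
        rintro rfl
        exact hsj hs.2
      have hjM : M j T ≠ 0 := hj hjT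
      have hsj' : s ≠ j := by
        rintro rfl
        exact hjM hs.2
      obtain ⟨M1, hG1, hsupp1, hrow1, hT1⟩ := row_step T M p kT h s j hsj' hs.1 hjT (hl j hjT)
      obtain ⟨M2, hG2, hsupp2, hT2⟩ := ih M1 hG1 (fun z hz => hsupp1 _ _ (hl z hz)) (by
        have hlt : (Finset.univ.filter (fun z => z ≠ T ∧ M1 z T = 0)).card <
            (Finset.univ.filter (fun z => z ≠ T ∧ M z T = 0)).card := by
          apply Finset.card_lt_card
          rw [Finset.ssubset_iff_of_subset]
          · refine ⟨s, by simp [hs.1, hs.2], ?_⟩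
            simp only [Finset.mem_filter, Finset.mem_univ, true_and, not_and]
            intro _
            exact hT1 hsj hjM
          · intro z hz
            simp only [Finset.mem_filter, Finset.mem_univ, true_and] at hz ⊢
            refine ⟨hz.1, ?_⟩
            by_contra hne
            exact hsupp1 _ _ hne hz.2
        omega)
      exact ⟨M2, hG2, fun i j hij => hsupp2 _ _ (hsupp1 _ _ hij), hT2⟩

/-- rows, then columns (by transposition) -/
theorem rows_cols {J : Type} [Fintype J] [DecidableEq J] (T : J)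
    (M : Matrix J J (Polynomial (MonoidAlgebra ℤ G))) (p : Polynomial (MonoidAlgebra ℤ G))
    (kT : PowerSeries (MonoidAlgebra ℤ G)) (h : Good T M p kT)
    (hl : ∀ z, z ≠ T → M z z ≠ 0) :
    ∃ M' : Matrix J J (Polynomial (MonoidAlgebra ℤ G)), Good T M' p kT ∧
      (∀ z, z ≠ T → M' z z ≠ 0) ∧ (∀ z, z ≠ T → M' z T ≠ 0) ∧ (∀ z, z ≠ T → M' T z ≠ 0) := by
  obtain ⟨M1, hG1, hsupp1, hT1⟩ := rows T M p kT h hl
  obtain ⟨M2, hG2, hsupp2, hT2⟩ := rows T M1ᵀ p kT hG1.transpose
    (fun z hz => hsupp1 _ _ (hl z hz))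
  refine ⟨M2ᵀ, hG2.transpose, ?_, ?_, ?_⟩
  · intro z hz
    exact hsupp2 z z (hsupp1 z z (hl z hz))
  · intro z hz
    exact hsupp2 T z (hT1 z hz)
  · intro z hz
    exact hT2 z hz

end Pool.Agent.H.MP_345fd7_an
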