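import Pool.Agent.H.MP_345fd7_an.StructDefs

/-! Splitting a `1 × 1` matrix -/

set_option autoImplicit false
set_option linter.unusedSectionVars false

namespace Pool.Agent.H.MP_345fd7_an

open Matrix Polynomial
open scoped NNReal

variable {G : Type} [CommGroup G] [Fintype G]

open scoped Classical in
theorem split_coeff_of (g h : G) :
    (MonoidAlgebra.of ℤ G g).coeff h = if h = g then 1 else 0 := by
  rw [MonoidAlgebra.of_apply, MonoidAlgebra.coeff_single, Finsupp.single_apply]
  by_cases hgh : g = h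
  · simp [hgh]
  · rw [if_neg hgh, if_neg (fun e => hgh e.symm)]

theorem split_of_mul_coeff (g : G) (x : MonoidAlgebra ℤ G) (h : G) :
    (MonoidAlgebra.of ℤ G g * x).coeff h = x.coeff (g⁻¹ * h) := by
  classical
  rw [coeff_mul_sum, Finset.sum_eq_single g]
  · rw [split_coeff_of, if_pos rfl, one_mul]
  · intro b _ hb
    rw [split_coeff_of, if_neg hb, zero_mul]
  · intro hg
    exact absurd (Finset.mem_univ g) hg

theorem split_coeff_monomial_mul (d : ℕ) (a : MonoidAlgebra ℤ G)
    (k : PowerSeries (MonoidAlgebra ℤ G)) (l : ℕ) :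
    PowerSeries.coeff l ((Polynomial.coeToPowerSeries.ringHom (R := MonoidAlgebra ℤ G))
      (Polynomial.monomial d a) * k) = if d ≤ l then a * PowerSeries.coeff (l - d) k else 0 := by
  have h1 : (Polynomial.coeToPowerSeries.ringHom (R := MonoidAlgebra ℤ G))
      (Polynomial.monomial d a) = PowerSeries.C a * PowerSeries.X ^ d := by
    rw [← Polynomial.C_mul_X_pow_eq_monomial, map_mul, map_pow]
    simp
  rw [h1, mul_assoc, PowerSeries.coeff_C_mul, PowerSeries.coeff_X_pow_mul']
  split_ifs <;> simp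

/-- the coefficients of `(1 - g t ^ d)⁻¹` are at most `1` -/
theorem split_bdd (d : ℕ) (hd : 0 < d) (g : G) (k : PowerSeries (MonoidAlgebra ℤ G))
    (hk : k = 1 + (Polynomial.coeToPowerSeries.ringHom (R := MonoidAlgebra ℤ G))
      (Polynomial.monomial d (MonoidAlgebra.of ℤ G g)) * k) :
    ∀ l h, (PowerSeries.coeff l k).coeff h ≤ 1 := by
  classical
  intro l
  induction l using Nat.strong_induction_on with
  | _ l ih =>
    intro h
    rw [hk, map_add, split_coeff_monomial_mul, PowerSeries.coeff_one]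
    by_cases hl : d ≤ l
    · rw [if_pos hl, if_neg (by omega : ¬ l = 0), zero_add, split_of_mul_coeff]
      exact ih (l - d) (by omega) _
    · rw [if_neg hl, add_zero]
      by_cases h0 : l = 0
      · rw [if_pos h0]
        have h1 : (1 : MonoidAlgebra ℤ G) = MonoidAlgebra.of ℤ G 1 :=
          (map_one (MonoidAlgebra.of ℤ G)).symm
        rw [h1, split_coeff_of]
        split_ifs <;> norm_num
      · rw [if_neg h0]
        simp

theorem split_grow_lt (r : ℝ≥0) (hr0 : 0 < r) (hr1 : r < 1) (k : PowerSeries (MonoidAlgebra ℤ G))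
    (hg : Grow r k) : ¬ ∀ l, 0 < l → ∀ h, (PowerSeries.coeff l k).coeff h ≤ 1 := by
  intro hb
  obtain ⟨l₀, hl₀⟩ := hg 2
  have h1 := hl₀ (l₀ + 1) (by omega) 1
  have h2 := hb (l₀ + 1) (by omega) 1
  have h3 : (((PowerSeries.coeff (l₀ + 1) k).coeff (1 : G) : ℤ) : ℝ) ≤ 1 := by exact_mod_cast h2
  have h4 : (1 : ℝ) ≤ ((r : ℝ)⁻¹) ^ (l₀ + 1) := by
    apply one_le_pow₀
    rw [one_le_inv₀ (by exact_mod_cast hr0)]
    exact_mod_cast hr1.le
  linarith

/-- PROOF. `J = {T}`, `f = M T T`, `p = 1 - f`, `(1 - f) kT = 1`. By growth (`r < 1`, so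
`kT` has unbounded coefficients) `f` is not `0` and not a single monomial `g t ^ d` (then the
coefficients of `kT` would be bounded by `1`), so `f = f₁ + f₂` with `f₁ = g t ^ d` a monomial,
`f₂ ≥ 0` nonzero. Take `J' = Bool`, `T' = false`, `M' = [[f₁, f₂], [f₁, f₂]]`,
`kT' = 1 + f₁ kT = (1 - f₂) / (1 - f)`. -/
theorem split_loops (r : ℝ≥0) (hr0 : 0 < r) (hr1 : r < 1) {J : Type} [Fintype J] [DecidableEq J]
    (T : J) (M : Matrix J J (Polynomial (MonoidAlgebra ℤ G)))
    (p : Polynomial (MonoidAlgebra ℤ G)) (kT : PowerSeries (MonoidAlgebra ℤ G))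
    (h : Good T M p kT) (hg : Grow r kT) (hJ : ∀ z, z = T) :
    ∃ (J' : Type) (_ : Fintype J') (_ : DecidableEq J') (T' : J')
      (M' : Matrix J' J' (Polynomial (MonoidAlgebra ℤ G)))
      (kT' : PowerSeries (MonoidAlgebra ℤ G)),
      Good T' M' p kT' ∧ Grow r kT' ∧ (∀ z, z ≠ T' → M' z z ≠ 0) ∧ ∃ z, z ≠ T' := by
  classical
  set φ := Polynomial.coeToPowerSeries.ringHom (R := MonoidAlgebra ℤ G) with hφ
  set f := M T T with hf
  obtain ⟨K, hK, hKT⟩ := h.res
  have hp : p = 1 - f := by
    rw [← h.det]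
    letI : Unique J := ⟨⟨T⟩, hJ⟩
    rw [Matrix.det_unique]
    have hd : (default : J) = T := hJ _
    rw [hd, Matrix.sub_apply, Matrix.one_apply_eq]
  have hk : (1 - φ f) * kT = 1 := by
    have h1 := congrFun (congrFun hK T) T
    rw [Matrix.mul_apply, Finset.sum_eq_single T, hKT, Matrix.one_apply_eq, Matrix.map_apply,
      Matrix.sub_apply, Matrix.one_apply_eq, map_sub, map_one] at h1
    · exact h1
    · intro b _ hb
      exact absurd (hJ b) hb
    · intro hT
      exact absurd (Finset.mem_univ T) hT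
  have hk' : kT = 1 + φ f * kT := by
    linear_combination hk
  have hf0 : f.coeff 0 = 0 := h.zero T T
  -- `f ≠ 0`
  have hfne : f ≠ 0 := by
    intro h0
    apply split_grow_lt r hr0 hr1 kT hg
    intro l hl g
    rw [h0, map_zero, zero_mul, add_zero] at hk'
    rw [hk', PowerSeries.coeff_one, if_neg (by omega : ¬ l = 0)]
    simp
  obtain ⟨d, hd⟩ : ∃ d, f.coeff d ≠ 0 := by
    by_contra hcon
    push Not at hcon
    exact hfne (Polynomial.ext (by simpa using hcon))
  have hdpos : 0 < d := by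
    rcases Nat.eq_zero_or_pos d with h0 | h0
    · subst h0; exact absurd hf0 hd
    · exact h0
  obtain ⟨g, hgne⟩ : ∃ g, (f.coeff d).coeff g ≠ 0 := by
    by_contra hcon
    push Not at hcon
    apply hd
    apply MonoidAlgebra.ext
    ext g
    simpa using hcon g
  have hgpos : 1 ≤ (f.coeff d).coeff g := by
    have h1 := h.nonneg T T d g
    have h2 : 0 ≤ (f.coeff d).coeff g := h1
    omega
  set f1 : Polynomial (MonoidAlgebra ℤ G) := Polynomial.monomial d (MonoidAlgebra.of ℤ G g)
    with hf1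
  set f2 : Polynomial (MonoidAlgebra ℤ G) := f - f1 with hf2
  have hf1nn : PNn f1 := PNn.monomial d (Nn.of g)
  have hf2nn : PNn f2 := by
    intro n h'
    rw [hf2, Polynomial.coeff_sub, hf1, Polynomial.coeff_monomial]
    by_cases hnd : d = n
    · subst hnd
      rw [if_pos rfl]
      have e1 : (f.coeff d - MonoidAlgebra.of ℤ G g).coeff h' =
          (f.coeff d).coeff h' - (MonoidAlgebra.of ℤ G g).coeff h' := by simp
      rw [e1, split_coeff_of]
      by_cases hh : h' = g
      · subst hh
        rw [if_pos rfl]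
        omega
      · rw [if_neg hh, sub_zero]
        exact h.nonneg T T d h'
    · rw [if_neg hnd, sub_zero]
      exact h.nonneg T T n h'
  have hf1ne : f1 ≠ 0 := by
    intro h0
    have h1 : f1.coeff d = 0 := by rw [h0]; simp
    rw [hf1, Polynomial.coeff_monomial, if_pos rfl] at h1
    have h2 := split_coeff_of g g
    rw [h1, if_pos rfl] at h2
    simp at h2
  have hf2ne : f2 ≠ 0 := by
    intro h0
    have h1 : f = f1 := sub_eq_zero.1 h0
    apply split_grow_lt r hr0 hr1 kT hg
    intro l _ h'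
    rw [h1] at hk'
    exact split_bdd d hdpos g kT hk' l h'
  have hf12 : f = f1 + f2 := by rw [hf2]; ring
  have hf1z : f1.coeff 0 = 0 := by
    rw [hf1, Polynomial.coeff_monomial, if_neg (by omega)]
  have hf2z : f2.coeff 0 = 0 := by
    rw [hf2, Polynomial.coeff_sub, hf0, hf1z, sub_zero]
  have hkey : (1 - φ f1 - φ f2) * kT = 1 := by
    rw [hf12, map_add] at hk
    linear_combination hk
  refine ⟨Fin 2, inferInstance, inferInstance, 0, !![f1, f2; f1, f2], 1 + φ f1 * kT, ?_, ?_, ?_,
    1, by decide⟩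
  · refine ⟨?_, ?_, ?_, ?_, ?_, ?_⟩
    · intro i j
      fin_cases i <;> fin_cases j
      · exact hf1nn
      · exact hf2nn
      · exact hf1nn
      · exact hf2nn
    · intro i j
      fin_cases i <;> fin_cases j
      · exact hf1z
      · exact hf2z
      · exact hf1z
      · exact hf2z
    · rw [Matrix.det_fin_two, hp, hf12]
      simp only [Matrix.sub_apply, Matrix.one_apply_eq, Matrix.of_apply, Matrix.cons_val',
        Matrix.cons_val_zero, Matrix.cons_val_one, Matrix.cons_val_fin_one]
      rw [Matrix.one_apply_ne (by decide), Matrix.one_apply_ne (by decide)]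
      ring
    · refine ⟨!![1 + φ f1 * kT, φ f2 * kT; φ f1 * kT, 1 + φ f2 * kT], ?_, rfl⟩
      have hm : (1 - !![f1, f2; f1, f2]).map φ = !![1 - φ f1, - φ f2; - φ f1, 1 - φ f2] := by
        ext1 i j
        fin_cases i <;> fin_cases j <;> simp
      rw [hm, Matrix.mul_fin_two]
      ext1 i j
      fin_cases i <;> fin_cases j
      · show (1 - φ f1) * (1 + φ f1 * kT) + (- φ f2) * (φ f1 * kT) = (1 : Matrix _ _ _) 0 0
        rw [Matrix.one_apply_eq]
        linear_combination (φ f1) * hkey
      · show (1 - φ f1) * (φ f2 * kT) + (- φ f2) * (1 + φ f2 * kT) = (1 : Matrix _ _ _) 0 1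
        rw [Matrix.one_apply_ne (by decide)]
        linear_combination (φ f2) * hkey
      · show (- φ f1) * (1 + φ f1 * kT) + (1 - φ f2) * (φ f1 * kT) = (1 : Matrix _ _ _) 1 0
        rw [Matrix.one_apply_ne (by decide)]
        linear_combination (φ f1) * hkey
      · show (- φ f1) * (φ f2 * kT) + (1 - φ f2) * (1 + φ f2 * kT) = (1 : Matrix _ _ _) 1 1
        rw [Matrix.one_apply_eq]
        linear_combination (φ f2) * hkey
    · intro S hS hTS
      obtain ⟨s, hs⟩ := hS
      have hs1 : s = 1 := by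
        have : s ≠ 0 := fun e => hTS (e ▸ hs)
        omega
      subst hs1
      exact ⟨1, hs, 0, hTS, hf1ne⟩
    · intro S hS hTS
      obtain ⟨s, hs⟩ := hS
      have hs1 : s = 1 := by
        have : s ≠ 0 := fun e => hTS (e ▸ hs)
        omega
      subst hs1
      exact ⟨1, hs, 0, hTS, hf2ne⟩
  · intro C
    have hr0' : (0 : ℝ) < r := by exact_mod_cast hr0
    obtain ⟨l₀, hl₀⟩ := hg (|C| * ((r : ℝ)⁻¹) ^ d)
    refine ⟨l₀ + d + 1, fun l hl h' => ?_⟩
    have h1 := hl₀ (l - d) (by omega) (g⁻¹ * h')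
    have h2 : (PowerSeries.coeff l (1 + φ f1 * kT)).coeff h' =
        (PowerSeries.coeff (l - d) kT).coeff (g⁻¹ * h') := by
      rw [map_add, hf1, hφ, split_coeff_monomial_mul, if_pos (by omega : d ≤ l),
        PowerSeries.coeff_one, if_neg (by omega : ¬ l = 0), zero_add, split_of_mul_coeff]
    rw [h2]
    refine le_trans ?_ h1
    rw [mul_assoc, ← pow_add, show d + (l - d) = l by omega]
    exact mul_le_mul_of_nonneg_right (le_abs_self C) (by positivity)
  · intro z hz
    have hz1 : z = 1 := by omega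
    subst hz1
    exact hf2ne

end Pool.Agent.H.MP_345fd7_an
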