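import Pool.Agent.H.MP_345fd7_an.Basic

/-! Renewal sequences: `R = 1 / (1 - f)` with `f ≥ 0` -/

set_option autoImplicit false

namespace Pool.Agent.H.MP_345fd7_an

open scoped NNReal

variable {G : Type} [CommGroup G] [Fintype G]

omit [Fintype G] in
lemma renewal_rec (f : Polynomial (MonoidAlgebra ℤ G))
    (R : PowerSeries (MonoidAlgebra ℤ G))
    (hR : (1 - (f : PowerSeries (MonoidAlgebra ℤ G))) * R = 1) (n : ℕ) :
    PowerSeries.coeff n R = PowerSeries.coeff n (1 : PowerSeries (MonoidAlgebra ℤ G)) +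
      ∑ k ∈ Finset.range (n + 1), f.coeff k * PowerSeries.coeff (n - k) R := by
  have h1 : R = 1 + (f : PowerSeries (MonoidAlgebra ℤ G)) * R := by
    have h2 : R - (f : PowerSeries (MonoidAlgebra ℤ G)) * R = 1 := by
      rw [← hR]; ring
    rw [← h2]; ring
  conv_lhs => rw [h1]
  rw [map_add, PowerSeries.coeff_mul]
  congr 1
  rw [Finset.Nat.sum_antidiagonal_eq_sum_range_succ
    (fun i j => PowerSeries.coeff i (f : PowerSeries (MonoidAlgebra ℤ G)) *
      PowerSeries.coeff j R)]
  refine Finset.sum_congr rfl fun k _ => ?_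
  rw [Polynomial.coeff_coe]

/-- `R = 1 / (1 - f)` is nonnegative and supermultiplicative.
PROOF. `R_0 = 1`, `R_l = ∑_{1 ≤ k ≤ l} f_k R_{l-k}`; strong induction on `a`:
`R_{a+b} ≥ ∑_{1 ≤ k ≤ a} f_k R_{a-k+b} ≥ ∑_{1 ≤ k ≤ a} f_k R_{a-k} R_b = R_a R_b`. -/
theorem renewal_supermul (f : Polynomial (MonoidAlgebra ℤ G)) (hf : PNn f) (h0 : f.coeff 0 = 0)
    (R : PowerSeries (MonoidAlgebra ℤ G))
    (hR : (1 - (f : PowerSeries (MonoidAlgebra ℤ G))) * R = 1) :
    (∀ l, Nn (PowerSeries.coeff l R)) ∧ PowerSeries.coeff 0 R = 1 ∧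
      ∀ a b, Nn (PowerSeries.coeff (a + b) R - PowerSeries.coeff a R * PowerSeries.coeff b R) := by
  have hz : PowerSeries.coeff 0 R = 1 := by
    rw [renewal_rec f R hR 0]
    simp [h0]
  have hnn : ∀ l, Nn (PowerSeries.coeff l R) := by
    intro l
    induction l using Nat.strong_induction_on with
    | _ l ih =>
      rcases Nat.eq_zero_or_pos l with h | h
      · subst h; rw [hz]; exact Nn.one
      · rw [renewal_rec f R hR l, PowerSeries.coeff_one, if_neg h.ne', zero_add]
        refine Nn.sum _ _ fun k _ => ?_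
        rcases Nat.eq_zero_or_pos k with hk | hk
        · subst hk; rw [h0, zero_mul]; exact Nn.zero
        · exact (hf k).mul (ih (l - k) (by omega))
  refine ⟨hnn, hz, ?_⟩
  intro a
  induction a using Nat.strong_induction_on with
  | _ a ih =>
    intro b
    rcases Nat.eq_zero_or_pos a with h | h
    · subst h
      rw [hz, zero_add, one_mul, sub_self]; exact Nn.zero
    · have e1 : PowerSeries.coeff (a + b) R - PowerSeries.coeff a R * PowerSeries.coeff b R =
          (∑ k ∈ Finset.range (a + 1), f.coeff k *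
            (PowerSeries.coeff (a - k + b) R -
              PowerSeries.coeff (a - k) R * PowerSeries.coeff b R)) +
          ∑ k ∈ Finset.range b, f.coeff (a + 1 + k) *
            PowerSeries.coeff (a + b - (a + 1 + k)) R := by
        have h3 : a + b + 1 = (a + 1) + b := by ring
        conv_lhs =>
          rw [renewal_rec f R hR (a + b), renewal_rec f R hR a, PowerSeries.coeff_one,
            PowerSeries.coeff_one, if_neg (by omega), if_neg h.ne', zero_add, zero_add, h3,
            Finset.sum_range_add, Finset.sum_mul]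
        rw [add_sub_right_comm, ← Finset.sum_sub_distrib]
        congr 1
        refine Finset.sum_congr rfl fun k hk => ?_
        have hk' : k ≤ a := by
          have := Finset.mem_range.1 hk
          omega
        rw [mul_sub, mul_assoc]
        congr 4
        omega
      rw [e1]
      refine Nn.add (Nn.sum _ _ fun k _ => ?_) (Nn.sum _ _ fun k _ => ?_)
      · rcases Nat.eq_zero_or_pos k with hk | hk
        · subst hk; rw [h0, zero_mul]; exact Nn.zero
        · exact (hf k).mul (ih (a - k) (by omega) b)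
      · exact (hf _).mul (hnn _)

/-- A lower bound on a window propagates. PROOF. The set of `l` with
`∀ g, r ^ (-l) ≤ (R_l) g` is closed under addition (supermultiplicativity:
`(R_a * R_b) g = ∑ h, ... ≥ r ^ (-a) r ^ (-b)`) and contains `[b0, 2 b0]`, hence `[b0, ∞)`. -/
theorem renewal_growth (f : Polynomial (MonoidAlgebra ℤ G)) (hf : PNn f) (h0 : f.coeff 0 = 0)
    (R : PowerSeries (MonoidAlgebra ℤ G))
    (hR : (1 - (f : PowerSeries (MonoidAlgebra ℤ G))) * R = 1)
    (r : ℝ≥0) (hr : 0 < r) (b0 : ℕ) (hb0 : 0 < b0)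
    (hw : ∀ l, b0 ≤ l → l ≤ 2 * b0 → ∀ g, ((r : ℝ)⁻¹) ^ l ≤ (((PowerSeries.coeff l R).coeff g : ℤ) : ℝ)) :
    ∀ l, b0 ≤ l → ∀ g, ((r : ℝ)⁻¹) ^ l ≤ (((PowerSeries.coeff l R).coeff g : ℤ) : ℝ) := by
  obtain ⟨hnn, hz, hsup⟩ := renewal_supermul f hf h0 R hR
  have hri : (0 : ℝ) ≤ (r : ℝ)⁻¹ := by positivity
  have hadd : ∀ a b, (∀ g, ((r : ℝ)⁻¹) ^ a ≤ (((PowerSeries.coeff a R).coeff g : ℤ) : ℝ)) →
      (∀ g, ((r : ℝ)⁻¹) ^ b ≤ (((PowerSeries.coeff b R).coeff g : ℤ) : ℝ)) →
      ∀ g, ((r : ℝ)⁻¹) ^ (a + b) ≤ (((PowerSeries.coeff (a + b) R).coeff g : ℤ) : ℝ) := by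
    intro a b ha hb g
    have h1 := hsup a b g
    have h2 : (PowerSeries.coeff a R * PowerSeries.coeff b R).coeff g ≤
        (PowerSeries.coeff (a + b) R).coeff g := by
      simpa using h1
    have h3 : (PowerSeries.coeff a R).coeff 1 * (PowerSeries.coeff b R).coeff g ≤
        (PowerSeries.coeff a R * PowerSeries.coeff b R).coeff g := by
      rw [coeff_mul_sum]
      have := Finset.single_le_sum (f := fun h : G => (PowerSeries.coeff a R).coeff h *
        (PowerSeries.coeff b R).coeff (h⁻¹ * g)) (s := Finset.univ)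
        (fun h _ => mul_nonneg (hnn a h) (hnn b _)) (Finset.mem_univ (1 : G))
      simpa using this
    have h4 : (((PowerSeries.coeff a R).coeff 1 : ℤ) : ℝ) *
        (((PowerSeries.coeff b R).coeff g : ℤ) : ℝ) ≤
        (((PowerSeries.coeff (a + b) R).coeff g : ℤ) : ℝ) := by
      exact_mod_cast h3.trans h2
    rw [pow_add]
    refine le_trans ?_ h4
    exact mul_le_mul (ha 1) (hb g) (by positivity) (le_trans (by positivity) (ha 1))
  intro l
  induction l using Nat.strong_induction_on with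
  | _ l ih =>
    intro hl
    by_cases h2 : l ≤ 2 * b0
    · exact hw l hl h2
    · have h3 : l = b0 + (l - b0) := by omega
      rw [h3]
      exact hadd b0 (l - b0) (hw b0 le_rfl (by omega)) (ih (l - b0) (by omega) (by omega))

end Pool.Agent.H.MP_345fd7_an
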