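import Pool.Agent.H.MP_345fd7_an.Expand
import Pool.Agent.H.MP_345fd7_an.Renewal

/-! Adding a star of new indices -/

set_option autoImplicit false

namespace Pool.Agent.H.MP_345fd7_an

open Matrix Polynomial
open scoped NNReal

variable {G : Type} [CommGroup G] [Fintype G]

/-- splitting off one index -/
def star_equiv {J : Type} [DecidableEq J] (T : J) : Unit ⊕ {z : J // z ≠ T} ≃ J where
  toFun := Sum.elim (fun _ => T) (fun z => z.1)
  invFun j := if h : j = T then Sum.inl () else Sum.inr ⟨j, h⟩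
  left_inv := by
    rintro (_ | ⟨z, hz⟩)
    · simp
    · simp [hz]
  right_inv := by
    intro j
    by_cases h : j = T
    · simp [h]
    · simp [h]

/-- the reindexing used in `star` -/
def star_reindex {J : Type} [DecidableEq J] (T : J) (n : ℕ) :
    Unit ⊕ ({z : J // z ≠ T} ⊕ Fin n) ≃ J ⊕ Fin n :=
  (Equiv.sumAssoc _ _ _).symm.trans (Equiv.sumCongr (star_equiv T) (Equiv.refl _))

lemma star_reindex_inl {J : Type} [DecidableEq J] (T : J) (n : ℕ) :
    star_reindex T n (Sum.inl ()) = Sum.inl T := rfl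

lemma star_reindex_inr_inl {J : Type} [DecidableEq J] (T : J) (n : ℕ) (z : {z : J // z ≠ T}) :
    star_reindex T n (Sum.inr (Sum.inl z)) = Sum.inl z.1 := rfl

lemma star_reindex_inr_inr {J : Type} [DecidableEq J] (T : J) (n : ℕ) (i : Fin n) :
    star_reindex T n (Sum.inr (Sum.inr i)) = Sum.inr i := rfl

/-- the bordered matrix -/
noncomputable def star_mat {J : Type} [Fintype J] [DecidableEq J] (T : J) {S : Type} [CommRing S]
    (M : Matrix J J S) (n : ℕ) (x : S) (w : Fin n → S) : Matrix (J ⊕ Fin n) (J ⊕ Fin n) S :=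
  Matrix.fromBlocks (M - Matrix.single T T (∑ i, x * w i))
    (Matrix.of fun j _ => if j = T then x else 0) (Matrix.of fun i j => if j = T then w i else 0) 0

lemma star_det {J : Type} [Fintype J] [DecidableEq J] (T : J) {S : Type} [CommRing S]
    (M : Matrix J J S) (n : ℕ) (x : S) (w : Fin n → S) :
    (1 - star_mat T M n x w).det = (1 - M).det := by
  have h1 : (1 : Matrix (J ⊕ Fin n) (J ⊕ Fin n) S) - star_mat T M n x w =
      Matrix.fromBlocks (1 - (M - Matrix.single T T (∑ i, x * w i)))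
        (-(Matrix.of fun j _ => if j = T then x else 0))
        (-(Matrix.of fun i j => if j = T then w i else 0)) 1 := by
    rw [star_mat, ← Matrix.fromBlocks_one, sub_eq_add_neg, Matrix.fromBlocks_neg,
      Matrix.fromBlocks_add]
    simp [sub_eq_add_neg]
  rw [h1, Matrix.det_fromBlocks_one₂₂]
  congr 1
  ext j j'
  simp only [Matrix.sub_apply, Matrix.mul_apply, Matrix.neg_apply, Matrix.of_apply,
    Matrix.single_apply]
  by_cases hj : j = T
  · by_cases hj' : j' = T
    · subst hj; subst hj'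
      simp
      ring
    · subst hj
      simp [hj', Ne.symm hj']
  · simp [hj, Ne.symm hj]

/-- PROOF. `b₀ ≥ 1` from `Grow` (`C = 1`), `c₁ = 2 b₀ + 1`, `a = c₁ + (m + 1)`, `M_a` from `expand`,
`w c = monomial (d c - 1) (x c)` (`c ∈ [c₁, a)`), `f' = M_a T T - ∑_{c₁ ≤ c < a} X * w c ≥ 0`.
`O = {z // z ≠ T} ⊕ Fin (m + 1)`; the new matrix: `T : (f', M_a T z, X)`, `z : (M z T, M z z', 0)`,
`u_c : (w c, 0, 0)`. det: `Matrix.det_fromBlocks_one₂₂` after reindexing
`Unit ⊕ ({z // z ≠ T} ⊕ Fin (m+1)) ≃ J ⊕ Fin (m+1)`. Growth: from `(1 - M_a) K = 1`,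
`(1 - M_a T T) kT = 1 + ∑_{z ≠ T} M_a T z K z T ≡ 1 mod t ^ (a+1)`, so `R' = 1/(1 - f') ≡ kT`
mod `t ^ c₁` (`d c ≥ c₁ + 2` for `c ≥ c₁`); then `renewal_growth`. -/
theorem star (r : ℝ≥0) (hr0 : 0 < r) (hr1 : r < 1) {J : Type} [Fintype J] [DecidableEq J] (T : J)
    (M : Matrix J J (Polynomial (MonoidAlgebra ℤ G))) (p : Polynomial (MonoidAlgebra ℤ G))
    (kT : PowerSeries (MonoidAlgebra ℤ G)) (h : Good T M p kT) (hg : Grow r kT)
    (hl : ∀ z, z ≠ T → M z z ≠ 0) (hzT : ∀ z, z ≠ T → M z T ≠ 0)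
    (hTz : ∀ z, z ≠ T → M T z ≠ 0) (hex : ∃ z, z ≠ T) (m : ℕ) :
    ∃ (O : Type) (_ : Fintype O) (_ : DecidableEq O) (_ : Fin m ↪ O)
      (M' : Matrix (Unit ⊕ O) (Unit ⊕ O) (Polynomial (MonoidAlgebra ℤ G)))
      (R : PowerSeries (MonoidAlgebra ℤ G)),
      (∀ i j, PNn (M' i j)) ∧ (∀ i j, (M' i j).coeff 0 = 0) ∧ (1 - M').det = p ∧
      (∀ o, M' (Sum.inl ()) (Sum.inr o) ≠ 0) ∧ (∀ o, M' (Sum.inr o) (Sum.inl ()) ≠ 0) ∧
      (∃ o, M' (Sum.inl ()) (Sum.inr o) = X) ∧
      (1 - (M' (Sum.inl ()) (Sum.inl ()) : PowerSeries (MonoidAlgebra ℤ G))) * R = 1 ∧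
      (∃ l₀ : ℕ, ∀ l, l₀ ≤ l → ∀ g,
        ((r : ℝ)⁻¹) ^ l ≤ (((PowerSeries.coeff l R).coeff g : ℤ) : ℝ)) := by
  obtain ⟨x, d, -, hd, hM⟩ := expand T M p kT h hl hzT hTz hex
  obtain ⟨l₀, hl₀⟩ := hg 1
  set b0 : ℕ := max l₀ 1 with hb0
  have hb0l : l₀ ≤ b0 := le_max_left _ _
  have hb01 : 1 ≤ b0 := le_max_right _ _
  set c₁ : ℕ := 2 * b0 + 1 with hc₁
  obtain ⟨Ma, hGood, hrow, hrowT, hTT⟩ := hM (c₁ + (m + 1))
  set w : Fin (m + 1) → Polynomial (MonoidAlgebra ℤ G) := fun i =>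
    Polynomial.monomial (d (c₁ + i) - 1) (MonoidAlgebra.single (x (c₁ + i)) (1 : ℤ)) with hw
  have hXw : ∀ i, X * w i =
      Polynomial.monomial (d (c₁ + i)) (MonoidAlgebra.single (x (c₁ + i)) (1 : ℤ)) := by
    intro i
    rw [hw]
    simp only
    rw [Polynomial.X_mul_monomial, Nat.sub_add_cancel]
    have := hd (c₁ + i)
    omega
  set N0 := star_mat T Ma (m + 1) (X : Polynomial (MonoidAlgebra ℤ G)) w with hN0
  set N := N0.submatrix (star_reindex T (m + 1)) (star_reindex T (m + 1)) with hN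
  -- entries
  have e11 : N (Sum.inl ()) (Sum.inl ()) = Ma T T - ∑ i, X * w i := by
    rw [hN, Matrix.submatrix_apply, star_reindex_inl, hN0, star_mat]
    simp
  have e12 : ∀ z : {z : J // z ≠ T}, N (Sum.inl ()) (Sum.inr (Sum.inl z)) = Ma T z.1 := by
    intro z
    rw [hN, Matrix.submatrix_apply, star_reindex_inl, star_reindex_inr_inl, hN0, star_mat]
    simp [Ne.symm z.2]
  have e13 : ∀ i : Fin (m + 1), N (Sum.inl ()) (Sum.inr (Sum.inr i)) = X := by
    intro i
    rw [hN, Matrix.submatrix_apply, star_reindex_inl, star_reindex_inr_inr, hN0, star_mat]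
    simp
  have e21 : ∀ z : {z : J // z ≠ T}, N (Sum.inr (Sum.inl z)) (Sum.inl ()) = Ma z.1 T := by
    intro z
    rw [hN, Matrix.submatrix_apply, star_reindex_inl, star_reindex_inr_inl, hN0, star_mat]
    simp [Ne.symm z.2]
  have e22 : ∀ z z' : {z : J // z ≠ T},
      N (Sum.inr (Sum.inl z)) (Sum.inr (Sum.inl z')) = Ma z.1 z'.1 := by
    intro z z'
    rw [hN, Matrix.submatrix_apply, star_reindex_inr_inl, star_reindex_inr_inl, hN0, star_mat]
    simp [Ne.symm z.2]
  have e23 : ∀ (z : {z : J // z ≠ T}) (i : Fin (m + 1)),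
      N (Sum.inr (Sum.inl z)) (Sum.inr (Sum.inr i)) = 0 := by
    intro z i
    rw [hN, Matrix.submatrix_apply, star_reindex_inr_inl, star_reindex_inr_inr, hN0, star_mat]
    simp [z.2]
  have e31 : ∀ i : Fin (m + 1), N (Sum.inr (Sum.inr i)) (Sum.inl ()) = w i := by
    intro i
    rw [hN, Matrix.submatrix_apply, star_reindex_inl, star_reindex_inr_inr, hN0, star_mat]
    simp
  have e32 : ∀ (i : Fin (m + 1)) (z : {z : J // z ≠ T}),
      N (Sum.inr (Sum.inr i)) (Sum.inr (Sum.inl z)) = 0 := by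
    intro i z
    rw [hN, Matrix.submatrix_apply, star_reindex_inr_inl, star_reindex_inr_inr, hN0, star_mat]
    simp [z.2]
  have e33 : ∀ (i i' : Fin (m + 1)), N (Sum.inr (Sum.inr i)) (Sum.inr (Sum.inr i')) = 0 := by
    intro i i'
    rw [hN, Matrix.submatrix_apply, star_reindex_inr_inr, star_reindex_inr_inr, hN0, star_mat]
    simp
  -- the sum of the removed monomials
  have hsum : ∑ i : Fin (m + 1), X * w i = ∑ c ∈ Finset.Ico c₁ (c₁ + (m + 1)),
      Polynomial.monomial (d c) (MonoidAlgebra.single (x c) (1 : ℤ)) := by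
    rw [Finset.sum_congr rfl fun i _ => hXw i, Finset.sum_Ico_eq_sum_range]
    simp only [Nat.add_sub_cancel_left]
    rw [Finset.sum_range]
  have hf' : PNn (Ma T T - ∑ i, X * w i) := by
    have h1 : Ma T T - ∑ i, X * w i =
        (Ma T T - ∑ c ∈ Finset.range (c₁ + (m + 1)),
          Polynomial.monomial (d c) (MonoidAlgebra.single (x c) (1 : ℤ))) +
        ∑ c ∈ Finset.range c₁,
          Polynomial.monomial (d c) (MonoidAlgebra.single (x c) (1 : ℤ)) := by
      rw [hsum, Finset.range_eq_Ico, ← Finset.sum_Ico_consecutive _ (Nat.zero_le c₁)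
        (Nat.le_add_right c₁ (m + 1)), Finset.range_eq_Ico]
      ring
    rw [h1]
    exact hTT.add (PNn.sum _ _ fun c _ => PNn.monomial _ (Nn.single _ zero_le_one))
  have hwPN : ∀ i, PNn (w i) := fun i => PNn.monomial _ (Nn.single _ zero_le_one)
  have hmon0 : ∀ (k : ℕ) (y : MonoidAlgebra ℤ G), 0 < k →
      (Polynomial.monomial k y).coeff 0 = 0 := by
    intro k y hk
    rw [Polynomial.coeff_monomial, if_neg hk.ne']
  have hf0 : (Ma T T - ∑ i, X * w i).coeff 0 = 0 := by
    rw [Polynomial.coeff_sub, hGood.zero, Polynomial.finsetSum_coeff]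
    simp
  refine ⟨{z : J // z ≠ T} ⊕ Fin (m + 1), inferInstance, inferInstance,
    ⟨fun i => Sum.inr i.castSucc, fun i j hij => by simpa using hij⟩, N, ?_⟩
  -- the inverse
  have hcc : PowerSeries.constantCoeff
      (1 - ((Ma T T - ∑ i, X * w i : Polynomial (MonoidAlgebra ℤ G)) :
        PowerSeries (MonoidAlgebra ℤ G))) = 1 := by
    rw [map_sub, map_one, ← PowerSeries.coeff_zero_eq_constantCoeff_apply,
      Polynomial.coeff_coe, hf0, sub_zero]
  have hRmul : (1 - ((Ma T T - ∑ i, X * w i : Polynomial (MonoidAlgebra ℤ G)) :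
        PowerSeries (MonoidAlgebra ℤ G))) * PowerSeries.invOfUnit
      (1 - ((Ma T T - ∑ i, X * w i : Polynomial (MonoidAlgebra ℤ G)) :
        PowerSeries (MonoidAlgebra ℤ G))) 1 = 1 :=
    PowerSeries.mul_invOfUnit _ _ (by rw [hcc]; rfl)
  set R := PowerSeries.invOfUnit
      (1 - ((Ma T T - ∑ i, X * w i : Polynomial (MonoidAlgebra ℤ G)) :
        PowerSeries (MonoidAlgebra ℤ G))) 1 with hR
  refine ⟨R, ?_, ?_, ?_, ?_, ?_, ?_, ?_, ?_⟩
  · rintro (⟨⟩ | z | i) (⟨⟩ | z' | i')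
    · rw [e11]; exact hf'
    · rw [e12]; exact hGood.nonneg _ _
    · rw [e13]; exact PNn.X
    · rw [e21]; exact hGood.nonneg _ _
    · rw [e22]; exact hGood.nonneg _ _
    · rw [e23]; exact PNn.zero
    · rw [e31]; exact hwPN i
    · rw [e32]; exact PNn.zero
    · rw [e33]; exact PNn.zero
  · rintro (⟨⟩ | z | i) (⟨⟩ | z' | i')
    · rw [e11]; exact hf0
    · rw [e12]; exact hGood.zero _ _
    · rw [e13]; simp
    · rw [e21]; exact hGood.zero _ _
    · rw [e22]; exact hGood.zero _ _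
    · rw [e23]; simp
    · rw [e31]
      refine hmon0 _ _ ?_
      have := hd (c₁ + i)
      omega
    · rw [e32]; simp
    · rw [e33]; simp
  · have h1 : (1 : Matrix (Unit ⊕ ({z : J // z ≠ T} ⊕ Fin (m + 1)))
        (Unit ⊕ ({z : J // z ≠ T} ⊕ Fin (m + 1))) (Polynomial (MonoidAlgebra ℤ G))) - N =
        (1 - N0).submatrix (star_reindex T (m + 1)) (star_reindex T (m + 1)) := by
      rw [Matrix.submatrix_sub, hN]
      simp
    rw [h1, Matrix.det_submatrix_equiv_self, hN0, star_det]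
    exact hGood.det
  · rintro (z | i)
    · rw [e12]; exact (hrowT z.1 z.2).1
    · rw [e13]; exact Polynomial.X_ne_zero
  · rintro (z | i)
    · rw [e21, hrow z.1 z.2]; exact hzT z.1 z.2
    · rw [e31, hw]
      simp only [ne_eq, Polynomial.monomial_eq_zero_iff]
      intro h0
      have h1 := congrArg (fun y : MonoidAlgebra ℤ G => y.coeff (x (c₁ + i))) h0
      simp at h1
  · exact ⟨Sum.inr 0, e13 0⟩
  · rw [e11]; exact hRmul
  · refine ⟨b0, renewal_growth _ hf' hf0 R hRmul r hr0 b0 hb01 ?_⟩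
    -- `R ≡ kT` modulo `X ^ c₁`
    obtain ⟨K, hK, hKT⟩ := hGood.res
    have hKTT := congrFun (congrFun hK T) T
    rw [Matrix.mul_apply, Matrix.one_apply_eq, ← Finset.add_sum_erase _ _ (Finset.mem_univ T),
      hKT] at hKTT
    have hdvd1 : (PowerSeries.X : PowerSeries (MonoidAlgebra ℤ G)) ^ c₁ ∣
        ∑ z ∈ Finset.univ.erase T, ((1 - Ma).map
          (Polynomial.coeToPowerSeries.ringHom (R := MonoidAlgebra ℤ G))) T z * K z T := by
      refine Finset.dvd_sum fun z hz => ?_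
      have hzT' : z ≠ T := Finset.ne_of_mem_erase hz
      refine Dvd.dvd.mul_right ?_ _
      rw [Matrix.map_apply, Matrix.sub_apply, Matrix.one_apply_ne hzT'.symm, zero_sub, map_neg,
        dvd_neg]
      obtain ⟨q, hq⟩ := (hrowT z hzT').2
      rw [hq, map_mul, map_pow]
      refine Dvd.dvd.mul_right ?_ _
      have h2 : (Polynomial.coeToPowerSeries.ringHom (R := MonoidAlgebra ℤ G)) X
          = (PowerSeries.X : PowerSeries (MonoidAlgebra ℤ G)) := by
        simp
      rw [h2]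
      exact pow_dvd_pow _ (by omega)
    have hdvd2 : (PowerSeries.X : PowerSeries (MonoidAlgebra ℤ G)) ^ c₁ ∣
        (Polynomial.coeToPowerSeries.ringHom (R := MonoidAlgebra ℤ G)) (∑ i, X * w i) := by
      rw [map_sum]
      refine Finset.dvd_sum fun i _ => ?_
      rw [hXw i]
      have h3 : Polynomial.monomial (d (c₁ + i)) (MonoidAlgebra.single (x (c₁ + i)) (1 : ℤ)) =
          Polynomial.C (MonoidAlgebra.single (x (c₁ + i)) (1 : ℤ)) * X ^ (d (c₁ + i)) :=
        (Polynomial.C_mul_X_pow_eq_monomial).symm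
      rw [h3, map_mul, map_pow]
      refine Dvd.dvd.mul_left ?_ _
      have h2 : (Polynomial.coeToPowerSeries.ringHom (R := MonoidAlgebra ℤ G)) X
          = (PowerSeries.X : PowerSeries (MonoidAlgebra ℤ G)) := by
        simp
      rw [h2]
      refine pow_dvd_pow _ ?_
      have := hd (c₁ + i)
      omega
    have hdiff : (PowerSeries.X : PowerSeries (MonoidAlgebra ℤ G)) ^ c₁ ∣ R - kT := by
      obtain ⟨u, hu⟩ := hdvd1
      obtain ⟨v, hv⟩ := hdvd2
      have hRmul' : (1 - ((Polynomial.coeToPowerSeries.ringHom (R := MonoidAlgebra ℤ G)) (Ma T T) -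
          (Polynomial.coeToPowerSeries.ringHom (R := MonoidAlgebra ℤ G)) (∑ i, X * w i))) * R
          = 1 := by
        rw [← map_sub]; exact hRmul
      have hKTT' : (1 - (Polynomial.coeToPowerSeries.ringHom (R := MonoidAlgebra ℤ G)) (Ma T T))
          * kT + PowerSeries.X ^ c₁ * u = 1 := by
        rw [hu, Matrix.map_apply, Matrix.sub_apply, Matrix.one_apply_eq, map_sub, map_one] at hKTT
        exact hKTT
      rw [hv] at hRmul'
      refine ⟨R * (u - v * kT), ?_⟩
      generalize (Polynomial.coeToPowerSeries.ringHom (R := MonoidAlgebra ℤ G)) (Ma T T) = F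
        at hRmul' hKTT'
      linear_combination kT * hRmul' - R * hKTT'
    intro l hl1 hl2 g
    have hcoeff : PowerSeries.coeff l R = PowerSeries.coeff l kT := by
      have h4 := (PowerSeries.X_pow_dvd_iff.1 hdiff) l (by omega)
      rw [map_sub, sub_eq_zero] at h4
      exact h4
    rw [hcoeff]
    simpa using hl₀ l (le_trans hb0l hl1) g

end Pool.Agent.H.MP_345fd7_an
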