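import Pool.Agent.H.MP_345fd7_an.Basic

/-! The case `det (1 - t B) = 1 - t` for the trivial group -/

set_option autoImplicit false

namespace Pool.Agent.H.MP_345fd7_an

open Matrix Polynomial

section TrivGen

variable {A : Type*} [CommRing A] [IsDomain A]

/-- Cayley-Hamilton: `B ^ m = B ^ (m - 1)` -/
lemma triv_pow {m : ℕ} (hm : 0 < m) (B : Matrix (Fin m) (Fin m) A)
    (hdet : B.charpolyRev = 1 - (X : Polynomial A)) : B ^ m = B ^ (m - 1) := by
  have h1 := B.reverse_charpoly
  rw [hdet, Polynomial.reverse, Matrix.charpoly_natDegree_eq_dim, Fintype.card_fin] at h1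
  have h2 : B.charpoly = X ^ m - X ^ (m - 1) := by
    rw [← Polynomial.reflect_reflect (N := m) (p := B.charpoly), h1, sub_eq_add_neg,
      Polynomial.reflect_add, Polynomial.reflect_neg]
    have e1 : reflect m (1 : Polynomial A) = X ^ m := by
      have := Polynomial.reflect_monomial (R := A) m 0
      rw [pow_zero] at this
      rw [this, Polynomial.revAt_le (Nat.zero_le m), Nat.sub_zero]
    have e2 : reflect m (X : Polynomial A) = X ^ (m - 1) := by
      have := Polynomial.reflect_monomial (R := A) m 1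
      rw [pow_one] at this
      rw [this, Polynomial.revAt_le hm]
    rw [e1, e2, sub_eq_add_neg]
  have h3 := B.aeval_self_charpoly
  rw [h2, map_sub, map_pow, map_pow, aeval_X] at h3
  exact sub_eq_zero.1 h3

lemma triv_charpolyRev_one_of_isNilpotent {m : ℕ} {N : Matrix (Fin m) (Fin m) A}
    (hN : IsNilpotent N) : N.charpolyRev = 1 := by
  have h1 := Matrix.isUnit_charpolyRev_of_isNilpotent hN
  rw [Polynomial.isUnit_iff] at h1
  obtain ⟨u, _, hu⟩ := h1
  have h2 : eval 0 N.charpolyRev = 1 := Matrix.eval_charpolyRev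
  rw [← hu, eval_C] at h2
  rw [← hu, h2, C_1]

lemma triv_factor {m : ℕ} (E N : Matrix (Fin m) (Fin m) A) (h : E * N = 0) :
    (E + N).charpolyRev = E.charpolyRev * N.charpolyRev := by
  unfold Matrix.charpolyRev
  rw [← Matrix.det_mul]
  congr 1
  have h1 : E.map (C : A →+* A[X]) * N.map (C : A →+* A[X]) = 0 := by
    rw [← Matrix.map_mul, h]
    exact Matrix.map_zero _ (map_zero _)
  have h2 : (E + N).map (C : A →+* A[X]) = E.map C + N.map C := Matrix.map_add _ (map_add _) E N
  have h3 : (X : A[X]) • E.map (C : A →+* A[X]) * ((X : A[X]) • N.map (C : A →+* A[X])) = 0 := by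
    rw [Matrix.smul_mul, Matrix.mul_smul, h1, smul_zero, smul_zero]
  rw [h2, sub_mul, mul_sub, mul_sub, h3, one_mul, mul_one, one_mul, smul_add]
  abel

/-- rank one idempotents over a PID of characteristic zero split -/
lemma triv_idem [IsPrincipalIdealRing A] [CharZero A] {m : ℕ} (E : Matrix (Fin m) (Fin m) A)
    (hE : E * E = E) (htr : E.trace = 1) :
    ∃ (R : Matrix (Fin m) (Fin 1) A) (S : Matrix (Fin 1) (Fin m) A), R * S = E ∧ S * R = 1 := by
  classical
  let f : (Fin m → A) →ₗ[A] (Fin m → A) := Matrix.toLin' E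
  have hff : ∀ x, f (f x) = f x := by
    intro x
    show E.mulVec (E.mulVec x) = E.mulVec x
    rw [Matrix.mulVec_mulVec, hE]
  have hproj : LinearMap.IsProj (LinearMap.range f) f := by
    refine ⟨fun x => ⟨x, rfl⟩, ?_⟩
    rintro _ ⟨y, rfl⟩
    exact hff y
  have ht := hproj.trace
  rw [Matrix.trace_toLin'_eq, htr] at ht
  have hfr : Module.finrank A (LinearMap.range f) = 1 := by
    have : ((Module.finrank A (LinearMap.range f) : ℕ) : A) = ((1 : ℕ) : A) := by
      rw [← ht, Nat.cast_one]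
    exact Nat.cast_injective this
  let b := Module.finBasisOfFinrankEq A (LinearMap.range f) hfr
  have hb : ∀ z : LinearMap.range f, z = (b.repr z 0) • b 0 := by
    intro z
    conv_lhs => rw [← b.sum_repr z]
    rw [Fin.sum_univ_one]
  let R : Matrix (Fin m) (Fin 1) A := Matrix.of fun i _ => (b 0 : Fin m → A) i
  let S : Matrix (Fin 1) (Fin m) A :=
    Matrix.of fun _ j => b.repr ⟨f (Pi.single j 1), ⟨Pi.single j 1, rfl⟩⟩ 0
  have hfe : ∀ j i, f (Pi.single j 1) i = E i j := by
    intro j i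
    show E.mulVec (Pi.single j 1) i = E i j
    rw [Matrix.mulVec_single_one]
    rfl
  have hRS : R * S = E := by
    ext i j
    rw [Matrix.mul_apply, Fin.sum_univ_one]
    show (b 0 : Fin m → A) i * b.repr ⟨f (Pi.single j 1), ⟨Pi.single j 1, rfl⟩⟩ 0 = E i j
    have h1 := congrArg (fun z : LinearMap.range f => (z : Fin m → A) i)
      (hb ⟨f (Pi.single j 1), ⟨Pi.single j 1, rfl⟩⟩)
    rw [← hfe j i]
    refine Eq.trans ?_ h1.symm
    show _ = ((b.repr ⟨f (Pi.single j 1), ⟨Pi.single j 1, rfl⟩⟩ 0) • (b 0 : Fin m → A)) i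
    rw [Pi.smul_apply, smul_eq_mul, mul_comm]
  refine ⟨R, S, hRS, ?_⟩
  -- `R * (S * R) = R`, and `R` is injective
  have hER : E * R = R := by
    ext i k
    have h1 : f (b 0 : Fin m → A) = (b 0 : Fin m → A) := hproj.map_id _ (b 0).2
    have h2 := congrFun h1 i
    rw [Matrix.mul_apply]
    exact h2
  have hRSR : R * (S * R) = R := by rw [← Matrix.mul_assoc, hRS, hER]
  have hb0 : (b 0 : Fin m → A) ≠ 0 := by
    intro h0
    exact b.ne_zero 0 (Subtype.ext h0)
  obtain ⟨i, hi⟩ : ∃ i, (b 0 : Fin m → A) i ≠ 0 := by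
    by_contra hcon
    push Not at hcon
    exact hb0 (funext hcon)
  have h3 : R i 0 * (S * R) 0 0 = R i 0 := by
    have := congrFun (congrFun hRSR i) 0
    rw [Matrix.mul_apply, Fin.sum_univ_one] at this
    exact this
  have h4 : (S * R) 0 0 = 1 := by
    have h5 : R i 0 * ((S * R) 0 0 - 1) = 0 := by rw [mul_sub, h3, mul_one, sub_self]
    rcases mul_eq_zero.1 h5 with h | h
    · exact absurd h hi
    · exact sub_eq_zero.1 h
  ext a c
  rw [Subsingleton.elim a 0, Subsingleton.elim c 0, h4, Matrix.one_apply_eq]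

lemma triv_gen [IsPrincipalIdealRing A] [CharZero A] {m : ℕ} (B : Matrix (Fin m) (Fin m) A)
    (hdet : B.charpolyRev = 1 - (X : Polynomial A)) :
    ∃ ℓ : ℕ, 0 < ℓ ∧
      ∃ (R : Matrix (Fin m) (Fin 1) A) (S : Matrix (Fin 1) (Fin m) A),
        B * R = R ∧ S * B = S ∧ R * S = B ^ ℓ ∧ S * R = 1 := by
  have hm : 0 < m := by
    rcases Nat.eq_zero_or_pos m with h | h
    · exfalso
      subst h
      unfold Matrix.charpolyRev at hdet
      rw [Matrix.det_isEmpty] at hdet
      have : (X : A[X]) = 0 := by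
        have h1 := sub_eq_self.1 hdet.symm
        exact h1
      exact Polynomial.X_ne_zero this
    · exact h
  have hp := triv_pow hm B hdet
  set E := B ^ m with hEdef
  have hBE : B * E = E := by
    have h1 : B * B ^ (m - 1) = B ^ m := by
      rw [← pow_succ', Nat.sub_add_cancel hm]
    calc B * E = B * B ^ (m - 1) := by rw [hp]
      _ = E := h1
  have hEB : E * B = E := by
    rw [hEdef, ← pow_succ, pow_succ', ← hEdef, hBE]
  have hBkE : ∀ k, B ^ k * E = E := by
    intro k
    induction k with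
    | zero => rw [pow_zero, Matrix.one_mul]
    | succ k ih => rw [pow_succ, Matrix.mul_assoc, hBE, ih]
  have hEE : E * E = E := hBkE m
  have hN : IsNilpotent (B - E) := by
    refine ⟨m, ?_⟩
    have h1 : B - E = B * (1 - E) := by rw [Matrix.mul_sub, Matrix.mul_one, hBE]
    have hcomm : Commute B (1 - E) := by
      refine (Commute.one_right B).sub_right ?_
      show B * E = E * B
      rw [hBE, hEB]
    rw [h1, hcomm.mul_pow, ← hEdef]
    obtain ⟨k, rfl⟩ : ∃ k, m = k + 1 := ⟨m - 1, (Nat.sub_add_cancel hm).symm⟩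
    rw [pow_succ', ← Matrix.mul_assoc, Matrix.mul_sub, Matrix.mul_one, hEE, sub_self,
      Matrix.zero_mul]
  have hEN : E * (B - E) = 0 := by rw [Matrix.mul_sub, hEB, hEE, sub_self]
  have hfac := triv_factor E (B - E) hEN
  rw [add_sub_cancel, triv_charpolyRev_one_of_isNilpotent hN, mul_one, hdet] at hfac
  have htr : E.trace = 1 := by
    have h1 := Matrix.coeff_charpolyRev_eq_neg_trace E
    rw [← hfac, coeff_sub, coeff_one, coeff_X_one, if_neg one_ne_zero, zero_sub] at h1
    exact (neg_injective h1).symm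
  obtain ⟨R, S, hRS, hSR⟩ := triv_idem E hEE htr
  refine ⟨m, hm, R, S, ?_, ?_, hRS, hSR⟩
  · have hER : E * R = R := by rw [← hRS, Matrix.mul_assoc, hSR, Matrix.mul_one]
    calc B * R = B * (E * R) := by rw [hER]
      _ = (B * E) * R := by rw [Matrix.mul_assoc]
      _ = R := by rw [hBE, hER]
  · have hSE : S * E = S := by rw [← hRS, ← Matrix.mul_assoc, hSR, Matrix.one_mul]
    calc S * B = (S * E) * B := by rw [hSE]
      _ = S * (E * B) := by rw [Matrix.mul_assoc]
      _ = S := by rw [hEB, hSE]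

end TrivGen

/-- PROOF. Transport to `ℤ` (`MonoidAlgebra.uniqueRingEquiv` or similar). `det (1 - t B) = 1 - t`
means `charpoly B = t ^ (m-1) (t - 1)`, `m ≥ 1`; Cayley-Hamilton: `B ^ m = B ^ (m-1)`, so
`E = B ^ m` is idempotent, `B E = E = E B`, and its trace is `1` (the trace of `B ^ m` is determined
by the characteristic polynomial; or: the charpoly of `E`, or rank over `ℚ`). Its image is a free
`ℤ`-module of rank `1` (`LinearMap.IsProj.trace`), so `E = v φ` with `v : Fin m → ℤ` a column, `φ` a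
row, and `φ v = 1` (as `E v = v`). `R = v`, `S = φ`, `ℓ = m`. -/
theorem triv_case (G : Type) [CommGroup G] [Fintype G] (hG : Fintype.card G = 1) {m : ℕ}
    (B : Matrix (Fin m) (Fin m) (MonoidAlgebra ℤ G))
    (hdet : (1 - (X : Polynomial (MonoidAlgebra ℤ G)) • B.map Polynomial.C).det =
      1 - (X : Polynomial (MonoidAlgebra ℤ G))) :
    ∃ ℓ : ℕ, 0 < ℓ ∧
      ∃ (R : Matrix (Fin m) (Fin 1) (MonoidAlgebra ℤ G))
        (S : Matrix (Fin 1) (Fin m) (MonoidAlgebra ℤ G)),
        B * R = R ∧ S * B = S ∧ R * S = B ^ ℓ ∧ S * R = 1 := by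
  have : Subsingleton G := (Fintype.card_le_one_iff_subsingleton).1 hG.le
  let e : MonoidAlgebra ℤ G ≃+* ℤ := MonoidAlgebra.uniqueRingEquiv G
  have : IsDomain (MonoidAlgebra ℤ G) := MulEquiv.isDomain ℤ e.toMulEquiv
  have : IsPrincipalIdealRing (MonoidAlgebra ℤ G) :=
    IsPrincipalIdealRing.of_surjective e.symm.toRingHom e.symm.surjective
  have : CharZero (MonoidAlgebra ℤ G) :=
    charZero_of_injective_ringHom (f := e.symm.toRingHom) e.symm.injective
  exact triv_gen B hdet

end Pool.Agent.H.MP_345fd7_an
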