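import Pool.Agent.H.MP_345fd7_an.Basic

/-! Splitting off a unimodular row -/

set_option autoImplicit false

namespace Pool.Agent.H.MP_345fd7_an

open Matrix Polynomial

/-- PROOF. Write `T = inl ()`, `M T T = X * ψ`, `w ρ = M T (inr ρ)` for `ρ ≠ o`, `M T (inr o) = X`.
`R` has rows: `T : (1 - X ψ, -X at o, -w ρ)` (the `T`-row of `1 - M`), `inr o : (ψ at T, 1 at o, 0)`,
`inr ρ : e_ρ`. Its inverse `R'` has rows `T : (1, X at o, w ρ)`, `inr o : (-ψ, 1 - X ψ at o, -ψ w ρ)`,
`inr ρ : e_ρ`. The `T`-row of `(1 - M) * R'` is `e_T`; `κ`, `Ω'` are the other blocks. -/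
theorem unimod {A : Type*} [CommRing A] {O : Type*} [Fintype O] [DecidableEq O]
    (M : Matrix (Unit ⊕ O) (Unit ⊕ O) (Polynomial A)) (h0 : ∀ i j, (M i j).coeff 0 = 0)
    (o : O) (ho : M (Sum.inl ()) (Sum.inr o) = X) :
    ∃ (κ : Matrix O Unit (Polynomial A)) (Ω' : Matrix O O (Polynomial A))
      (R : Matrix (Unit ⊕ O) (Unit ⊕ O) (Polynomial A)),
      R.det = 1 ∧ 1 - M = Matrix.fromBlocks 1 0 κ Ω' * R ∧
      (∀ i j, (Ω' i j).coeff 0 = (1 : Matrix O O A) i j) := by
  classical
  obtain ⟨ψ, hψ⟩ : ∃ ψ : Polynomial A, M (Sum.inl ()) (Sum.inl ()) = X * ψ := by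
    refine ⟨divX (M (Sum.inl ()) (Sum.inl ())), ?_⟩
    have h := X_mul_divX_add (M (Sum.inl ()) (Sum.inl ()))
    rw [h0, Polynomial.C_0, add_zero] at h
    exact h.symm
  set a : Matrix Unit Unit (Polynomial A) := (1 - M).toBlocks₁₁ with ha
  set B : Matrix Unit O (Polynomial A) := (1 - M).toBlocks₁₂ with hB
  set E : Matrix O Unit (Polynomial A) := (1 - M).toBlocks₂₁ with hE
  set F : Matrix O O (Polynomial A) := (1 - M).toBlocks₂₂ with hF
  have hM : 1 - M = Matrix.fromBlocks a B E F := (Matrix.fromBlocks_toBlocks _).symm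
  set C : Matrix O Unit (Polynomial A) := fun ρ _ => if ρ = o then ψ else 0 with hC
  have hBij : ∀ u ρ, B u ρ = - M (Sum.inl ()) (Sum.inr ρ) := by
    intro u ρ
    simp [hB, Matrix.toBlocks₁₂]
  have haC : a - B * C = 1 := by
    ext u v : 2
    have h1 : (B * C) u v = - (X * ψ) := by
      rw [Matrix.mul_apply, Finset.sum_eq_single o]
      · rw [hBij, ho]; simp [hC]
      · intro ρ _ hρ; simp [hC, hρ]
      · intro h; exact absurd (Finset.mem_univ _) h
    rw [Matrix.sub_apply, h1]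
    simp [ha, Matrix.toBlocks₁₁, hψ]
  set R : Matrix (Unit ⊕ O) (Unit ⊕ O) (Polynomial A) := Matrix.fromBlocks a B C 1 with hR
  set R' : Matrix (Unit ⊕ O) (Unit ⊕ O) (Polynomial A) :=
    Matrix.fromBlocks 1 (-B) (-C) (1 + C * B) with hR'
  have hcomb : a * -B + B * (1 + C * B) = 0 := by
    have : a * -B + B * (1 + C * B) = -(a - B * C) * B + B := by
      rw [Matrix.mul_add, Matrix.mul_one, ← Matrix.mul_assoc, Matrix.mul_neg, neg_sub,
        Matrix.sub_mul]
      abel
    rw [this, haC]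
    simp
  have hRR' : R * R' = 1 := by
    rw [hR, hR', Matrix.fromBlocks_multiply, ← Matrix.fromBlocks_one]
    congr 1
    · rw [Matrix.mul_one, Matrix.mul_neg, ← sub_eq_add_neg]; exact haC
    · rw [Matrix.mul_one, Matrix.one_mul]; simp
    · rw [Matrix.one_mul, Matrix.mul_neg]; abel
  have hR'R : R' * R = 1 := _root_.mul_eq_one_comm.1 hRR'
  refine ⟨E + F * -C, E * -B + F * (1 + C * B), R, ?_, ?_, ?_⟩
  · rw [hR, Matrix.det_fromBlocks_one₂₂, haC, Matrix.det_one]
  · have h2 : Matrix.fromBlocks 1 0 (E + F * -C) (E * -B + F * (1 + C * B)) = (1 - M) * R' := by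
      rw [hM, hR', Matrix.fromBlocks_multiply, hcomb, Matrix.mul_one, Matrix.mul_one,
        Matrix.mul_neg B C, ← sub_eq_add_neg, haC]
    rw [h2, Matrix.mul_assoc, hR'R, Matrix.mul_one]
  · intro i j
    have hBc : ∀ u ρ, (B u ρ).coeff 0 = 0 := by
      intro u ρ
      rw [hBij, Polynomial.coeff_neg, h0, neg_zero]
    have hFc : ∀ i j, (F i j).coeff 0 = (1 : Matrix O O A) i j := by
      intro i j
      have : F i j = (1 - M) (Sum.inr i) (Sum.inr j) := rfl
      rw [this, Matrix.sub_apply, Polynomial.coeff_sub, h0, sub_zero]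
      by_cases hij : i = j
      · subst hij; simp
      · rw [Matrix.one_apply_ne hij, Matrix.one_apply_ne (by simpa using hij)]; simp
    rw [Matrix.add_apply, Polynomial.coeff_add, Matrix.mul_apply, Matrix.mul_apply,
      Polynomial.finsetSum_coeff, Polynomial.finsetSum_coeff]
    have h1 : ∀ u : Unit, (E i u * (-B) u j).coeff 0 = 0 := by
      intro u
      rw [Polynomial.mul_coeff_zero, Matrix.neg_apply, Polynomial.coeff_neg, hBc, neg_zero,
        mul_zero]
    have h2 : ∀ k, (F i k * (1 + C * B : Matrix O O (Polynomial A)) k j).coeff 0 =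
        (1 : Matrix O O A) i k * (1 : Matrix O O A) k j := by
      intro k
      rw [Polynomial.mul_coeff_zero, hFc, Matrix.add_apply, Polynomial.coeff_add, Matrix.mul_apply,
        Polynomial.finsetSum_coeff]
      have h3 : ∀ u : Unit, (C k u * B u j).coeff 0 = 0 := by
        intro u
        rw [Polynomial.mul_coeff_zero, hBc, mul_zero]
      rw [Finset.sum_eq_zero fun u _ => h3 u, add_zero]
      congr 1
      by_cases hkj : k = j
      · subst hkj; simp
      · rw [Matrix.one_apply_ne hkj, Matrix.one_apply_ne hkj]; simp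
    rw [Finset.sum_eq_zero fun u _ => h1 u, zero_add, Finset.sum_congr rfl fun k _ => h2 k,
      ← Matrix.mul_apply, Matrix.one_mul]

end Pool.Agent.H.MP_345fd7_an
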