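import Pool.Agent.H.MP_345fd7_an.Basic

/-! Matrices near the identity are elementary up to a diagonal matrix; Whitehead lemma -/

set_option autoImplicit false

namespace Pool.Agent.H.MP_345fd7_an

open Matrix

/-- the diagonal matrix with entry `u` at `o` and `1` elsewhere -/
def Dg {O S : Type*} [DecidableEq O] [CommRing S] (o : O) (u : S) : Matrix O O S :=
  Matrix.diagonal (Function.update (fun _ => (1 : S)) o u)

section aux

variable {O S : Type*} [Fintype O] [DecidableEq O] [CommRing S]

lemma near_Dg_mul (o : O) (u v : S) : Dg o u * Dg o v = Dg o (u * v) := by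
  unfold Dg
  rw [Matrix.diagonal_mul_diagonal]
  congr 1
  ext i
  by_cases h : i = o
  · subst h; simp
  · simp [h]

omit [Fintype O] in
lemma near_Dg_one (o : O) : (Dg o (1 : S) : Matrix O O S) = 1 := by
  unfold Dg
  rw [← Matrix.diagonal_one]
  congr 1
  ext i
  by_cases h : i = o
  · subst h; simp
  · simp [h]

lemma near_det_Dg (o : O) (u : S) : (Dg o u : Matrix O O S).det = u := by
  unfold Dg
  rw [Matrix.det_diagonal, Finset.prod_update_of_mem (Finset.mem_univ o)]
  simp

/-- conjugation of a transvection by a diagonal matrix -/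
lemma near_diag_transvection (d e : O → S) (i j : O) (hij : i ≠ j) (hd : d j * e j = 1) (c : S) :
    Matrix.diagonal d * Matrix.transvection i j c =
      Matrix.transvection i j (d i * c * e j) * Matrix.diagonal d := by
  ext a b
  rw [Matrix.diagonal_mul, Matrix.mul_diagonal]
  simp only [Matrix.transvection, Matrix.add_apply, Matrix.one_apply, Matrix.single_apply]
  by_cases h1 : a = b
  · subst h1
    have : ¬ (i = a ∧ j = a) := fun h => hij (h.1.trans h.2.symm)
    simp [this]
  · by_cases h2 : i = a ∧ j = b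
    · obtain ⟨rfl, rfl⟩ := h2
      simp [h1]
      linear_combination (- (d i * c)) * hd
    · simp [h1, h2]

lemma near_Dg_Elem (o : O) (u v : S) (huv : u * v = 1) {E : Matrix O O S} (hE : E ∈ Elem O S) :
    ∃ E' ∈ Elem O S, Dg o u * E = E' * Dg o u := by
  induction hE using Submonoid.closure_induction with
  | mem x hx =>
    obtain ⟨i, j, h, c, rfl⟩ := hx
    refine ⟨_, transvection_mem_Elem h _,
      near_diag_transvection _ (Function.update (fun _ => (1 : S)) o v) i j h ?_ c⟩
    by_cases hj : j = o
    · subst hj; simp [huv]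
    · simp [hj]
  | one => exact ⟨1, Submonoid.one_mem _, by simp⟩
  | mul x y _ _ hx hy =>
    obtain ⟨x', hx', h1⟩ := hx
    obtain ⟨y', hy', h2⟩ := hy
    refine ⟨x' * y', Submonoid.mul_mem _ hx' hy', ?_⟩
    rw [← Matrix.mul_assoc, h1, Matrix.mul_assoc, h2, Matrix.mul_assoc]

/-- the set of the matrices `E * Dg o u` -/
def NearD (o : O) (W : Matrix O O S) : Prop :=
  ∃ E ∈ Elem O S, ∃ u : S, IsUnit u ∧ W = E * Dg o u

lemma NearD.mul {o : O} {W V : Matrix O O S} (hW : NearD o W) (hV : NearD o V) :
    NearD o (W * V) := by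
  obtain ⟨E, hE, u, hu, rfl⟩ := hW
  obtain ⟨F, hF, v, hv, rfl⟩ := hV
  obtain ⟨u', hu'⟩ := hu.exists_right_inv
  obtain ⟨F', hF', h⟩ := near_Dg_Elem o u u' hu' hF
  refine ⟨E * F', Submonoid.mul_mem _ hE hF', u * v, hu.mul hv, ?_⟩
  rw [← near_Dg_mul, Matrix.mul_assoc, ← Matrix.mul_assoc (Dg o u), h]
  simp only [Matrix.mul_assoc]

lemma NearD.of_Elem (o : O) {E : Matrix O O S} (hE : E ∈ Elem O S) : NearD o E :=
  ⟨E, hE, 1, isUnit_one, by rw [near_Dg_one, Matrix.mul_one]⟩

/-- Whitehead lemma -/
lemma near_whitehead (a o : O) (hao : a ≠ o) (u v : S) (huv : u * v = 1) :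
    ∃ E ∈ Elem O S, E * Dg o u = Dg a u := by
  set X : Matrix O O S := Matrix.single a o 1 with hX
  set Y : Matrix O O S := Matrix.single o a 1 with hY
  have hXX : X * X = 0 := by
    rw [hX, Matrix.single_mul_single_of_ne _ _ _ _ hao.symm]
  have hYY : Y * Y = 0 := by
    rw [hY, Matrix.single_mul_single_of_ne _ _ _ _ hao]
  have hXY : X * Y = Matrix.single a a 1 := by
    rw [hX, hY, Matrix.single_mul_single_same]; simp
  have hYX : Y * X = Matrix.single o o 1 := by
    rw [hX, hY, Matrix.single_mul_single_same]; simp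
  have hXYX : X * Y * X = X := by
    rw [hXY, hX, Matrix.single_mul_single_same]; simp
  have hYXY : Y * X * Y = Y := by
    rw [hYX, hY, Matrix.single_mul_single_same]; simp
  have t1 : ∀ c : S, Matrix.transvection a o c = 1 + c • X := by
    intro c; rw [Matrix.transvection, hX, Matrix.smul_single]; simp
  have t2 : ∀ c : S, Matrix.transvection o a c = 1 + c • Y := by
    intro c; rw [Matrix.transvection, hY, Matrix.smul_single]; simp
  have key : ∀ p q : S, p * q = 1 →
      Matrix.transvection a o p * Matrix.transvection o a (-q) * Matrix.transvection a o p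
        = 1 + p • X - q • Y - X * Y - Y * X := by
    intro p q hpq
    rw [t1, t2]
    have : (1 + p • X) * (1 + (-q) • Y) * (1 + p • X) =
        1 + (2 * p) • X - q • Y - (p * q) • (X * Y) - (p * q) • (Y * X) + (p * p) • (X * X)
          - (p * q * p) • (X * Y * X) := by
      simp only [add_mul, mul_add, one_mul, mul_one, Matrix.smul_mul, Matrix.mul_smul, smul_smul]
      module
    rw [this, hpq, hXX, hXYX]
    module
  refine ⟨Matrix.transvection a o u * Matrix.transvection o a (-v) * Matrix.transvection a o u *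
    (Matrix.transvection a o (-1) * Matrix.transvection o a (-(-1)) *
      Matrix.transvection a o (-1)), ?_, ?_⟩
  · have m1 := fun c : S => transvection_mem_Elem (S := S) hao c
    have m2 := fun c : S => transvection_mem_Elem (S := S) hao.symm c
    exact Submonoid.mul_mem _ (Submonoid.mul_mem _ (Submonoid.mul_mem _ (m1 _) (m2 _)) (m1 _))
      (Submonoid.mul_mem _ (Submonoid.mul_mem _ (m1 _) (m2 _)) (m1 _))
  · rw [key u v huv, key (-1) (-1) (by ring)]
    have h1 : (1 + u • X - v • Y - X * Y - Y * X) * (1 + (-1 : S) • X - (-1 : S) • Y - X * Y - Y * X)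
        = 1 + (u - 1) • (X * Y) + (v - 1) • (Y * X) := by
      have e1 : X * (X * Y) = 0 := by rw [← Matrix.mul_assoc, hXX, Matrix.zero_mul]
      have e2 : X * (Y * X) = X := by rw [← Matrix.mul_assoc, hXYX]
      have e3 : Y * (X * Y) = Y := by rw [← Matrix.mul_assoc, hYXY]
      have e4 : Y * (Y * X) = 0 := by rw [← Matrix.mul_assoc, hYY, Matrix.zero_mul]
      have e5 : X * Y * Y = 0 := by rw [Matrix.mul_assoc, hYY, Matrix.mul_zero]
      have e6 : Y * X * X = 0 := by rw [Matrix.mul_assoc, hXX, Matrix.mul_zero]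
      have e7 : X * Y * (X * Y) = X * Y := by rw [← Matrix.mul_assoc, hXYX]
      have e8 : X * Y * (Y * X) = 0 := by rw [← Matrix.mul_assoc, e5, Matrix.zero_mul]
      have e9 : Y * X * (X * Y) = 0 := by rw [← Matrix.mul_assoc, e6, Matrix.zero_mul]
      have e10 : Y * X * (Y * X) = Y * X := by rw [← Matrix.mul_assoc, hYXY]
      simp only [add_mul, mul_add, sub_mul, mul_sub, one_mul, mul_one, Matrix.smul_mul,
        Matrix.mul_smul, smul_smul, hXX, hYY, hXYX, hYXY, e1, e2, e3, e4, e5, e6, e7, e8, e9, e10,
        smul_zero]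
      module
    rw [h1, hXY, hYX]
    ext i j
    unfold Dg
    rw [Matrix.mul_diagonal]
    simp only [Matrix.add_apply, Matrix.smul_apply, Matrix.single_apply, Matrix.one_apply,
      Matrix.diagonal_apply, smul_eq_mul, Function.update_apply]
    by_cases hij : i = j
    · subst hij
      by_cases hia : i = a
      · subst hia
        simp [hao, hao.symm]
      · by_cases hio : i = o
        · subst hio
          simp [hia, Ne.symm hia]
          linear_combination huv
        · simp [hia, hio, Ne.symm hia, Ne.symm hio]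
    · have h2 : ¬ (a = i ∧ a = j) := fun h => hij (h.1.symm.trans h.2)
      have h3 : ¬ (o = i ∧ o = j) := fun h => hij (h.1.symm.trans h.2)
      simp [hij, h2, h3]

lemma NearD.of_Dg (o a : O) {u : S} (hu : IsUnit u) : NearD o (Dg a u) := by
  by_cases hao : a = o
  · subst hao
    exact ⟨1, Submonoid.one_mem _, u, hu, by rw [Matrix.one_mul]⟩
  · obtain ⟨v, hv⟩ := hu.exists_right_inv
    obtain ⟨E, hE, h⟩ := near_whitehead a o hao u v hv
    exact ⟨E, hE, u, hu, h.symm⟩

lemma near_col_mem (a : O) (f : O → S) (s : Finset O) (ha : a ∉ s) :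
    1 + ∑ i ∈ s, Matrix.single i a (f i) ∈ Elem O S := by
  induction s using Finset.induction_on with
  | empty => simp [Submonoid.one_mem]
  | insert i s hi ih =>
    have hs : a ∉ s := fun h => ha (Finset.mem_insert_of_mem h)
    have hia : i ≠ a := fun h => ha (h ▸ Finset.mem_insert_self i s)
    have h1 := Submonoid.mul_mem _ (transvection_mem_Elem (S := S) hia (f i)) (ih hs)
    convert h1 using 1
    rw [Finset.sum_insert hi, Matrix.transvection, add_mul, one_mul, mul_add, mul_one,
      Finset.mul_sum]
    have : ∑ j ∈ s, Matrix.single i a (f i) * Matrix.single j a (f j) = 0 := by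
      refine Finset.sum_eq_zero fun j hj => ?_
      rw [Matrix.single_mul_single_of_ne]
      exact fun h => hs (h ▸ hj)
    rw [this]
    abel

lemma near_row_mem (a : O) (f : O → S) (s : Finset O) (ha : a ∉ s) :
    1 + ∑ i ∈ s, Matrix.single a i (f i) ∈ Elem O S := by
  induction s using Finset.induction_on with
  | empty => simp [Submonoid.one_mem]
  | insert i s hi ih =>
    have hs : a ∉ s := fun h => ha (Finset.mem_insert_of_mem h)
    have hia : a ≠ i := fun h => ha (h ▸ Finset.mem_insert_self i s)
    have h1 := Submonoid.mul_mem _ (ih hs) (transvection_mem_Elem (S := S) hia (f i))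
    convert h1 using 1
    rw [Finset.sum_insert hi, Matrix.transvection, mul_add, mul_one, add_mul, one_mul,
      Finset.sum_mul]
    have : ∑ j ∈ s, Matrix.single a j (f j) * Matrix.single a i (f i) = 0 := by
      refine Finset.sum_eq_zero fun j hj => ?_
      rw [Matrix.single_mul_single_of_ne]
      exact fun h => hs (h ▸ hj)
    rw [this]
    abel

end aux

section main

variable {S : Type*} [CommRing S] [SN S] {O : Type*} [Fintype O] [DecidableEq O]

/-- one step of Gaussian elimination -/
def nearStep (a : O) (y : S) (W : Matrix O O S) : Matrix O O S :=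
  Matrix.of fun i j => if i = a ∨ j = a then (1 : Matrix O O S) i j else W i j - W i a * y * W a j

omit [SN S] in
lemma near_col_apply (a : O) (f : O → S) (M : Matrix O O S) (i j : O) :
    ((∑ i ∈ Finset.univ.erase a, Matrix.single i a (f i)) * M) i j =
      if i = a then 0 else f i * M a j := by
  rw [Finset.sum_mul, Matrix.sum_apply]
  split_ifs with h
  · refine Finset.sum_eq_zero fun l hl => ?_
    rw [Matrix.single_mul_apply_of_ne]
    rw [h]
    exact fun h' => (Finset.ne_of_mem_erase hl) h'.symm
  · rw [Finset.sum_eq_single i]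
    · rw [Matrix.single_mul_apply_same]
    · intro l _ hl
      rw [Matrix.single_mul_apply_of_ne]
      exact hl.symm
    · intro h'
      exact absurd (Finset.mem_erase.2 ⟨h, Finset.mem_univ i⟩) h'

omit [SN S] in
lemma near_row_apply (a : O) (g : O → S) (M : Matrix O O S) (i j : O) :
    (M * (∑ j ∈ Finset.univ.erase a, Matrix.single a j (g j))) i j =
      if j = a then 0 else M i a * g j := by
  rw [Finset.mul_sum, Matrix.sum_apply]
  split_ifs with h
  · refine Finset.sum_eq_zero fun l hl => ?_
    rw [Matrix.mul_single_apply_of_ne]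
    rw [h]
    exact fun h' => (Finset.ne_of_mem_erase hl) h'.symm
  · rw [Finset.sum_eq_single j]
    · rw [Matrix.mul_single_apply_same]
    · intro l _ hl
      rw [Matrix.mul_single_apply_of_ne]
      exact hl.symm
    · intro h'
      exact absurd (Finset.mem_erase.2 ⟨h, Finset.mem_univ j⟩) h'

omit [SN S] in
lemma near_step_eq (a : O) (y : S) (W : Matrix O O S) (hy : W a a * y = 1) :
    (1 + ∑ i ∈ Finset.univ.erase a, Matrix.single i a (-(W i a * y))) * W *
      (1 + ∑ j ∈ Finset.univ.erase a, Matrix.single a j (-(y * W a j))) =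
      nearStep a y W * Dg a (W a a) := by
  ext i j
  rw [mul_add, mul_one, Matrix.add_apply, near_row_apply, add_mul, one_mul, Matrix.add_apply,
    Matrix.add_apply, near_col_apply, near_col_apply]
  unfold Dg nearStep
  rw [Matrix.mul_diagonal, Matrix.of_apply, Function.update_apply]
  by_cases hi : i = a
  · subst hi
    by_cases hj : j = i
    · subst hj
      simp
    · simp [hj, Ne.symm hj]
      linear_combination (- W i j) * hy
  · by_cases hj : j = a
    · subst hj
      simp [hi]
      linear_combination (- W i j) * hy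
    · simp [hi, hj]
      linear_combination (W i a * y * W a j) * hy

lemma near_step_nn (a : O) (y : S) (W : Matrix O O S)
    (hy : nn y * (1 - nn (W a a - 1)) ≤ 1) (h : nn (W - 1) < 1) :
    nn (nearStep a y W - 1) ≤ nn (W - 1) := by
  set w : O → O → ℝ := fun i j => nn ((W - 1) i j) with hw
  have hw0 : ∀ i j, 0 ≤ w i j := fun i j => nn_nonneg _
  set A : ℝ := ∑ i ∈ Finset.univ.erase a, w i a with hA
  set B : ℝ := ∑ j ∈ Finset.univ.erase a, w a j with hB
  have hA0 : 0 ≤ A := Finset.sum_nonneg fun i _ => hw0 i a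
  have hB0 : 0 ≤ B := Finset.sum_nonneg fun i _ => hw0 a i
  have hy0 : 0 ≤ nn y := nn_nonneg y
  have hWaa : nn (W a a - 1) = w a a := by
    rw [hw]; simp only [Matrix.sub_apply, Matrix.one_apply_eq]
  have hWia : ∀ i, i ≠ a → nn (W i a) = w i a := by
    intro i hi
    rw [hw]; simp only [Matrix.sub_apply, Matrix.one_apply_ne hi, sub_zero]
  have hWaj : ∀ j, j ≠ a → nn (W a j) = w a j := by
    intro i hi
    rw [hw]; simp only [Matrix.sub_apply, Matrix.one_apply_ne hi.symm, sub_zero]
  have htot : nn (W - 1) = w a a + B + (A + ∑ i ∈ Finset.univ.erase a,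
      ∑ j ∈ Finset.univ.erase a, w i j) := by
    rw [nn_matrix, ← Finset.add_sum_erase _ _ (Finset.mem_univ a), hA, ← Finset.sum_add_distrib,
      hB]
    congr 1
    · rw [← Finset.add_sum_erase _ _ (Finset.mem_univ a)]
    · refine Finset.sum_congr rfl fun i _ => ?_
      rw [← Finset.add_sum_erase _ _ (Finset.mem_univ a)]
  have hD0 : 0 ≤ ∑ i ∈ Finset.univ.erase a, ∑ j ∈ Finset.univ.erase a, w i j :=
    Finset.sum_nonneg fun i _ => Finset.sum_nonneg fun j _ => hw0 i j
  have hstep : nn (nearStep a y W - 1) ≤ ∑ i ∈ Finset.univ.erase a,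
      ∑ j ∈ Finset.univ.erase a, (w i j + w i a * nn y * w a j) := by
    rw [nn_matrix, ← Finset.add_sum_erase _ _ (Finset.mem_univ a)]
    have h0 : ∑ j, nn ((nearStep a y W - 1) a j) = 0 := by
      refine Finset.sum_eq_zero fun j _ => ?_
      rw [Matrix.sub_apply, nearStep, Matrix.of_apply, if_pos (Or.inl rfl), sub_self, nn_zero]
    rw [h0, zero_add]
    refine Finset.sum_le_sum fun i hi => ?_
    have hia : i ≠ a := Finset.ne_of_mem_erase hi
    rw [← Finset.add_sum_erase _ _ (Finset.mem_univ a)]
    have h1 : nn ((nearStep a y W - 1) i a) = 0 := by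
      rw [Matrix.sub_apply, nearStep, Matrix.of_apply, if_pos (Or.inr rfl), sub_self, nn_zero]
    rw [h1, zero_add]
    refine Finset.sum_le_sum fun j hj => ?_
    have hja : j ≠ a := Finset.ne_of_mem_erase hj
    rw [Matrix.sub_apply, nearStep, Matrix.of_apply, if_neg (by tauto)]
    have h2 : W i j - W i a * y * W a j - (1 : Matrix O O S) i j
        = (W - 1) i j - W i a * y * W a j := by rw [Matrix.sub_apply]; ring
    rw [h2]
    refine (nn_sub _ _).trans (add_le_add le_rfl ?_)
    refine (nn_mul _ _).trans ?_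
    rw [hWaj j hja]
    refine mul_le_mul_of_nonneg_right ?_ (hw0 _ _)
    refine (nn_mul _ _).trans ?_
    rw [hWia i hia]
  have hsum : ∑ i ∈ Finset.univ.erase a, ∑ j ∈ Finset.univ.erase a,
      (w i j + w i a * nn y * w a j) =
      ∑ i ∈ Finset.univ.erase a, ∑ j ∈ Finset.univ.erase a, w i j + A * nn y * B := by
    simp only [Finset.sum_add_distrib]
    congr 1
    rw [hA, Finset.sum_mul, Finset.sum_mul]
    refine Finset.sum_congr rfl fun i _ => ?_
    rw [hB, Finset.mul_sum]
  rw [hsum] at hstep
  refine hstep.trans ?_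
  rw [htot] at h ⊢
  rw [hWaa] at hy
  have h3 : A ≤ 1 - w a a := by linarith
  have h4 : A * nn y ≤ 1 := by nlinarith
  have h5 : A * nn y * B ≤ 1 * B := mul_le_mul_of_nonneg_right h4 hB0
  have := hw0 a a
  linarith

lemma near_induct (hinv : ∀ x : S, nn x < 1 → ∃ y, (1 + x) * y = 1 ∧ nn y * (1 - nn x) ≤ 1)
    (o : O) (s : Finset O) : ∀ W : Matrix O O S, nn (W - 1) < 1 →
      (∀ i j, (i ∉ s ∨ j ∉ s) → W i j = (1 : Matrix O O S) i j) → NearD o W := by
  induction s using Finset.induction_on with
  | empty =>
    intro W _ hW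
    have : W = 1 := by
      ext i j
      exact hW i j (Or.inl (Finset.notMem_empty i))
    rw [this]
    exact NearD.of_Elem o (Submonoid.one_mem _)
  | insert a s ha ih =>
    intro W h hW
    have hx : nn (W a a - 1) < 1 := by
      have h1 := nn_entry_le (W - 1) a a
      rw [Matrix.sub_apply, Matrix.one_apply_eq] at h1
      exact h1.trans_lt h
    obtain ⟨y, hy1, hy2⟩ := hinv _ hx
    rw [add_sub_cancel] at hy1
    have hstep : NearD o (nearStep a y W) := by
      refine ih _ ((near_step_nn a y W hy2 h).trans_lt h) ?_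
      intro i j hij
      unfold nearStep
      rw [Matrix.of_apply]
      split_ifs with hc
      · rfl
      · push Not at hc
        rcases hij with hi | hj
        · have hi' : i ∉ insert a s := by
            rw [Finset.mem_insert]; push Not; exact ⟨hc.1, hi⟩
          rw [hW i j (Or.inl hi'), hW i a (Or.inl hi'), Matrix.one_apply_ne hc.1]
          simp
        · have hj' : j ∉ insert a s := by
            rw [Finset.mem_insert]; push Not; exact ⟨hc.2, hj⟩
          rw [hW i j (Or.inr hj'), hW a j (Or.inr hj'), Matrix.one_apply_ne (Ne.symm hc.2)]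
          simp
    have hprod := hstep.mul (NearD.of_Dg o a (IsUnit.of_mul_eq_one y hy1))
    rw [← near_step_eq a y W hy1] at hprod
    obtain ⟨C', hC', hC1, hC2⟩ := exists_inv_of_mem_Elem
      (near_col_mem a (fun i => -(W i a * y)) (Finset.univ.erase a) (Finset.notMem_erase a _))
    obtain ⟨R', hR', hR1, hR2⟩ := exists_inv_of_mem_Elem
      (near_row_mem a (fun j => -(y * W a j)) (Finset.univ.erase a) (Finset.notMem_erase a _))
    have := ((NearD.of_Elem o hC').mul hprod).mul (NearD.of_Elem o hR')
    rwa [← Matrix.mul_assoc, ← Matrix.mul_assoc, hC2, Matrix.one_mul, Matrix.mul_assoc, hR1,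
      Matrix.mul_one] at this

end main

/-- Gaussian elimination: if `nn (W - 1) < 1` (entry sum norm) then `W = E * Dg o u` with `E`
elementary and `u` a unit.
PROOF. Let `𝒟 = {E * Dg o u}`; it is a monoid: `Dg o u * transvection i j c * Dg o u⁻¹` is a
transvection. It contains `Dg a u` for every `a` and every unit `u` (Whitehead:
`Dg a u * Dg o u⁻¹ ∈ Elem`, `a ≠ o`: product of the transvections
`t_ao(u) t_oa(-u⁻¹) t_ao(u) t_ao(-1) t_oa(1) t_ao(-1)`). Then induction on a finset `s` such that
`W` agrees with `1` outside `s × s`: pick `a ∈ s`, `W a a = 1 + x` is a unit with inverse `y`,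
`nn y ≤ 1 / (1 - nn x)`; clear column and row `a` by transvections; the new matrix `W'` has
`W' i j = W i j - W i a * y * W a j` on `s \ {a}` and
`nn (W' - 1) ≤ nn (W - 1)` because `∑_i nn (W i a) * nn y ≤ 1` (`i ≠ a`). -/
theorem near_identity {S : Type*} [CommRing S] [SN S]
    (hinv : ∀ x : S, nn x < 1 → ∃ y, (1 + x) * y = 1 ∧ nn y * (1 - nn x) ≤ 1)
    {O : Type*} [Fintype O] [DecidableEq O] (o : O) (W : Matrix O O S) (h : nn (W - 1) < 1) :
    ∃ E ∈ Elem O S, ∃ u : S, IsUnit u ∧ W = E * Dg o u :=
  near_induct hinv o Finset.univ W h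
    (fun i j hij => by simp at hij)

/-- A product of matrices near the identity, of determinant one, is elementary. -/
theorem prod_near_mem_Elem {S : Type*} [CommRing S] [SN S]
    (hinv : ∀ x : S, nn x < 1 → ∃ y, (1 + x) * y = 1 ∧ nn y * (1 - nn x) ≤ 1)
    {O : Type*} [Fintype O] [DecidableEq O] (L : List (Matrix O O S))
    (hL : ∀ W ∈ L, nn (W - 1) < 1) (hdet : L.prod.det = 1) :
    L.prod ∈ Elem O S := by
  rcases isEmpty_or_nonempty O with hO | ⟨⟨o⟩⟩
  · have : L.prod = 1 := Subsingleton.elim _ _
    rw [this]; exact Submonoid.one_mem _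
  · have h1 : NearD o L.prod := by
      clear hdet
      induction L with
      | nil => exact NearD.of_Elem o (Submonoid.one_mem _)
      | cons W L ih =>
        rw [List.prod_cons]
        exact NearD.mul (near_identity hinv o W (hL W (by simp)))
          (ih fun V hV => hL V (by simp [hV]))
    obtain ⟨E, hE, u, hu, h2⟩ := h1
    rw [h2, Matrix.det_mul, det_of_mem_Elem hE, near_det_Dg, one_mul] at hdet
    rw [h2, hdet, near_Dg_one, Matrix.mul_one]
    exact hE

end Pool.Agent.H.MP_345fd7_an
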