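import Mathlib

/-! Exponential convergence of powers of stochastic matrices and decay for substochastic ones -/

set_option autoImplicit false

namespace Pool.Agent.H.MP_345fd7_an

theorem pfasym_geo (a : ℕ → ℝ) (h0 : ∀ l, 0 ≤ a l) (hanti : ∀ l, a (l + 1) ≤ a l) (k : ℕ)
    (hk : 0 < k) (ρ : ℝ) (hρ : ρ < 1) (h : ∀ l, a (l + k) ≤ ρ * a l) :
    ∃ C μ : ℝ, 0 ≤ C ∧ 0 ≤ μ ∧ μ < 1 ∧ ∀ l, a l ≤ C * μ ^ l := by
  have hanti' : Antitone a := antitone_nat_of_succ_le hanti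
  set ρ' : ℝ := max ρ (1 / 2) with hρ'
  have hρ'0 : 0 < ρ' := lt_of_lt_of_le (by norm_num) (le_max_right _ _)
  have hρ'1 : ρ' < 1 := max_lt hρ (by norm_num)
  set μ : ℝ := ρ' ^ ((1 : ℝ) / k) with hμ
  have hk' : (0 : ℝ) < k := by exact_mod_cast hk
  have hμ0 : 0 < μ := Real.rpow_pos_of_pos hρ'0 _
  have hμ1 : μ < 1 := Real.rpow_lt_one hρ'0.le hρ'1 (by positivity)
  have hμk : μ ^ k = ρ' := by
    rw [hμ, ← Real.rpow_natCast, ← Real.rpow_mul hρ'0.le]
    rw [one_div, inv_mul_cancel₀ hk'.ne', Real.rpow_one]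
  refine ⟨a 0 / ρ', μ, by have := h0 0; positivity, hμ0.le, hμ1, ?_⟩
  intro l
  induction l using Nat.strong_induction_on with
  | _ l ih =>
    rcases lt_or_ge l k with hl | hl
    · have h1 : a l ≤ a 0 := hanti' (Nat.zero_le l)
      have h2 : ρ' ≤ μ ^ l := by
        rw [← hμk]
        exact pow_le_pow_of_le_one hμ0.le hμ1.le hl.le
      calc a l ≤ a 0 := h1
        _ = a 0 / ρ' * ρ' := by field_simp
        _ ≤ a 0 / ρ' * μ ^ l := by
          apply mul_le_mul_of_nonneg_left h2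
          have := h0 0; positivity
    · obtain ⟨m, rfl⟩ := Nat.exists_eq_add_of_le' hl
      have h1 := ih m (by omega)
      calc a (m + k) ≤ ρ * a m := h m
        _ ≤ ρ' * a m := mul_le_mul_of_nonneg_right (le_max_left _ _) (h0 m)
        _ ≤ ρ' * (a 0 / ρ' * μ ^ m) := mul_le_mul_of_nonneg_left h1 hρ'0.le
        _ = a 0 / ρ' * μ ^ (m + k) := by rw [pow_add, hμk]; ring

theorem pfasym_contract {X : Type*} [Fintype X] [Nonempty X] (K : Matrix X X ℝ) (δ : ℝ)
    (hδ0 : 0 ≤ δ) (hδ : ∀ x z, δ ≤ K x z) (hrow : ∀ x, ∑ y, K x y = 1) (f : X → ℝ) (c : ℝ)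
    (hc : ∀ x x', f x - f x' ≤ c) (x x' : X) :
    ∑ z, K x z * f z - ∑ z, K x' z * f z ≤ (1 - δ) * c := by
  obtain ⟨z0, hz0⟩ := Finite.exists_min f
  have hc0 : 0 ≤ c := by have := hc z0 z0; simpa using this
  have h1 : ∑ z, K x z * f z - ∑ z, K x' z * f z = ∑ z, (K x z - K x' z) * (f z - f z0) := by
    have h2 : ∑ z, (K x z - K x' z) * (f z - f z0) =
        ∑ z, K x z * f z - ∑ z, K x' z * f z - (∑ z, K x z - ∑ z, K x' z) * f z0 := by
      rw [sub_mul, Finset.sum_mul, Finset.sum_mul, ← Finset.sum_sub_distrib,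
        ← Finset.sum_sub_distrib, ← Finset.sum_sub_distrib]
      exact Finset.sum_congr rfl fun z _ => by ring
    rw [h2, hrow, hrow]; ring
  rw [h1]
  have h3 : ∑ z, (K x z - K x' z) * (f z - f z0) ≤ ∑ z, (K x z - δ) * c := by
    refine Finset.sum_le_sum fun z _ => ?_
    have h4 : 0 ≤ f z - f z0 := sub_nonneg.2 (hz0 z)
    calc (K x z - K x' z) * (f z - f z0) ≤ (K x z - δ) * (f z - f z0) :=
          mul_le_mul_of_nonneg_right (by linarith [hδ x' z]) h4
      _ ≤ (K x z - δ) * c := mul_le_mul_of_nonneg_left (hc z z0) (by linarith [hδ x z])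
  refine h3.trans ?_
  rw [← Finset.sum_mul, Finset.sum_sub_distrib, hrow, Finset.sum_const, nsmul_eq_mul]
  refine mul_le_mul_of_nonneg_right ?_ hc0
  have h5 : (1 : ℝ) ≤ (Finset.univ : Finset X).card := by
    rw [Finset.card_univ]
    exact_mod_cast Fintype.card_pos
  nlinarith

theorem pfasym_pow {X : Type*} [Fintype X] [DecidableEq X] (P : Matrix X X ℝ)
    (hP : ∀ x y, 0 ≤ P x y) (hrow : ∀ x, ∑ y, P x y = 1) (l : ℕ) :
    (∀ x y, 0 ≤ (P ^ l) x y) ∧ (∀ x, ∑ y, (P ^ l) x y = 1) := by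
  induction l with
  | zero =>
    refine ⟨fun x y => ?_, fun x => ?_⟩
    · rw [pow_zero, Matrix.one_apply]; split_ifs <;> norm_num
    · simp [Matrix.one_apply]
  | succ l ih =>
    refine ⟨fun x y => ?_, fun x => ?_⟩
    · rw [pow_succ, Matrix.mul_apply]
      exact Finset.sum_nonneg fun z _ => mul_nonneg (ih.1 _ _) (hP _ _)
    · simp_rw [pow_succ, Matrix.mul_apply]
      rw [Finset.sum_comm]
      simp_rw [← Finset.mul_sum, hrow, mul_one]
      exact ih.2 x

/-- Powers of a primitive stochastic matrix converge exponentially fast to a positive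
rank one limit. (Doeblin: the oscillation `max - min` of each column of `P ^ l` is contracted by a
factor `1 - δ` every `k` steps, and `min_x (P ^ l) x y` is nondecreasing in `l`.) -/
theorem stoch_limit {X : Type*} [Fintype X] [DecidableEq X] [Nonempty X] (P : Matrix X X ℝ)
    (hP : ∀ x y, 0 ≤ P x y) (hrow : ∀ x, ∑ y, P x y = 1)
    (hk : ∃ k : ℕ, 0 < k ∧ ∀ x y, 0 < (P ^ k) x y) :
    ∃ (π : X → ℝ) (C μ : ℝ), (∀ y, 0 < π y) ∧ 0 ≤ C ∧ 0 ≤ μ ∧ μ < 1 ∧
      ∀ (l : ℕ) x y, |(P ^ l) x y - π y| ≤ C * μ ^ l := by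
  obtain ⟨k, hk0, hkpos⟩ := hk
  -- the minimal entry of `P ^ k`
  obtain ⟨p0, hp0⟩ := Finite.exists_min (fun p : X × X => (P ^ k) p.1 p.2)
  set δ : ℝ := (P ^ k) p0.1 p0.2 with hδ
  have hδpos : 0 < δ := hkpos _ _
  have hδle : ∀ x z, δ ≤ (P ^ k) x z := fun x z => hp0 (x, z)
  -- oscillation
  let o : ℕ → ℝ := fun l => (Finset.univ : Finset (X × X × X)).sup' Finset.univ_nonempty
    (fun q => (P ^ l) q.1 q.2.2 - (P ^ l) q.2.1 q.2.2)
  have ho : ∀ l x x' y, (P ^ l) x y - (P ^ l) x' y ≤ o l := fun l x x' y =>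
    Finset.le_sup' (f := fun q : X × X × X => (P ^ l) q.1 q.2.2 - (P ^ l) q.2.1 q.2.2)
      (Finset.mem_univ (x, x', y))
  have hole : ∀ l c, (∀ x x' y, (P ^ l) x y - (P ^ l) x' y ≤ c) → o l ≤ c := fun l c h =>
    Finset.sup'_le _ _ fun q _ => h _ _ _
  have ho0 : ∀ l, 0 ≤ o l := fun l => by
    have := ho l p0.1 p0.1 p0.1
    simpa using this
  have hanti : ∀ l, o (l + 1) ≤ o l := by
    intro l
    refine hole _ _ fun x x' y => ?_
    have h1 := pfasym_contract P 0 le_rfl hP hrow (fun z => (P ^ l) z y) (o l)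
      (fun z z' => ho l z z' y) x x'
    rw [pow_succ', Matrix.mul_apply, Matrix.mul_apply]
    simpa using h1
  have hcon : ∀ l, o (l + k) ≤ (1 - δ) * o l := by
    intro l
    refine hole _ _ fun x x' y => ?_
    have h1 := pfasym_contract (P ^ k) δ hδpos.le hδle (pfasym_pow P hP hrow k).2
      (fun z => (P ^ l) z y) (o l) (fun z z' => ho l z z' y) x x'
    rw [add_comm l k, pow_add, Matrix.mul_apply, Matrix.mul_apply]
    exact h1
  obtain ⟨C, μ, hC, hμ0, hμ1, hbound⟩ := pfasym_geo o ho0 hanti k hk0 (1 - δ) (by linarith) hcon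
  -- comparison of different powers
  have hcomp : ∀ l m x x' y, |(P ^ (m + l)) x' y - (P ^ l) x y| ≤ o l := by
    intro l m x x' y
    have h1 : (P ^ (m + l)) x' y - (P ^ l) x y =
        ∑ z, (P ^ m) x' z * ((P ^ l) z y - (P ^ l) x y) := by
      simp_rw [mul_sub]
      rw [Finset.sum_sub_distrib, ← Finset.sum_mul, (pfasym_pow P hP hrow m).2, one_mul,
        pow_add, Matrix.mul_apply]
    rw [h1, abs_le]
    constructor
    · have h2 : ∑ z, (P ^ m) x' z * (-(o l)) ≤ ∑ z, (P ^ m) x' z * ((P ^ l) z y - (P ^ l) x y) :=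
        Finset.sum_le_sum fun z _ => mul_le_mul_of_nonneg_left
          (by linarith [ho l x z y]) ((pfasym_pow P hP hrow m).1 _ _)
      rw [← Finset.sum_mul, (pfasym_pow P hP hrow m).2, one_mul] at h2
      exact h2
    · have h2 : ∑ z, (P ^ m) x' z * ((P ^ l) z y - (P ^ l) x y) ≤ ∑ z, (P ^ m) x' z * (o l) :=
        Finset.sum_le_sum fun z _ => mul_le_mul_of_nonneg_left
          (ho l z x y) ((pfasym_pow P hP hrow m).1 _ _)
      rw [← Finset.sum_mul, (pfasym_pow P hP hrow m).2, one_mul] at h2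
      exact h2
  obtain ⟨x0⟩ := ‹Nonempty X›
  have hcauchy : ∀ y, CauchySeq (fun l => (P ^ l) x0 y) := by
    intro y
    refine cauchySeq_of_le_geometric μ C hμ1 fun l => ?_
    rw [dist_comm, Real.dist_eq]
    have := hcomp l 1 x0 x0 y
    rw [add_comm 1 l] at this
    exact this.trans (hbound l)
  choose π hπ using fun y => cauchySeq_tendsto_of_complete (hcauchy y)
  refine ⟨π, C, μ, ?_, hC, hμ0, hμ1, ?_⟩
  · intro y
    refine lt_of_lt_of_le hδpos ?_
    have h1 : Filter.Tendsto (fun m => (P ^ (m + k)) x0 y) Filter.atTop (nhds (π y)) :=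
      (hπ y).comp (Filter.tendsto_add_atTop_nat k)
    refine ge_of_tendsto' h1 fun m => ?_
    rw [pow_add, Matrix.mul_apply]
    calc δ = ∑ z, (P ^ m) x0 z * δ := by
          rw [← Finset.sum_mul, (pfasym_pow P hP hrow m).2, one_mul]
      _ ≤ _ := Finset.sum_le_sum fun z _ =>
          mul_le_mul_of_nonneg_left (hδle _ _) ((pfasym_pow P hP hrow m).1 _ _)
  · intro l x y
    refine le_trans ?_ (hbound l)
    have h1 : Filter.Tendsto (fun m => |(P ^ l) x y - (P ^ (m + l)) x0 y|) Filter.atTop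
        (nhds (|(P ^ l) x y - π y|)) :=
      (tendsto_const_nhds.sub ((hπ y).comp (Filter.tendsto_add_atTop_nat l))).abs
    refine le_of_tendsto' h1 fun m => ?_
    rw [abs_sub_comm]
    exact hcomp l m x x0 y

/-- Powers of a strictly substochastic matrix decay exponentially. -/
theorem substoch_decay {Y : Type*} [Fintype Y] [DecidableEq Y] (Q : Matrix Y Y ℝ)
    (hQ : ∀ x y, 0 ≤ Q x y) (hrow : ∀ x, ∑ y, Q x y ≤ 1)
    (hk : ∃ k : ℕ, 0 < k ∧ ∀ x, ∑ y, (Q ^ k) x y < 1) :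
    ∃ (C μ : ℝ), 0 ≤ C ∧ 0 ≤ μ ∧ μ < 1 ∧ ∀ (l : ℕ) x y, |(Q ^ l) x y| ≤ C * μ ^ l := by
  rcases isEmpty_or_nonempty Y with hY | hY
  · exact ⟨0, 0, le_rfl, le_rfl, by norm_num, fun l x => (hY.false x).elim⟩
  obtain ⟨k, hk0, hk1⟩ := hk
  have hnn : ∀ l x y, 0 ≤ (Q ^ l) x y := by
    intro l
    induction l with
    | zero => intro x y; rw [pow_zero, Matrix.one_apply]; split_ifs <;> norm_num
    | succ l ih =>
      intro x y
      rw [pow_succ, Matrix.mul_apply]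
      exact Finset.sum_nonneg fun z _ => mul_nonneg (ih _ _) (hQ _ _)
  obtain ⟨x1, hx1⟩ := Finite.exists_max (fun x : Y => ∑ y, (Q ^ k) x y)
  set ρ : ℝ := ∑ y, (Q ^ k) x1 y with hρ
  have hρ1 : ρ < 1 := hk1 x1
  have hstep : ∀ (l m : ℕ) (c : ℝ), (∀ x, ∑ y, (Q ^ m) x y ≤ c) →
      ∑ x, ∑ y, (Q ^ (l + m)) x y ≤ c * ∑ x, ∑ y, (Q ^ l) x y := by
    intro l m c hc
    rw [Finset.mul_sum]
    refine Finset.sum_le_sum fun x _ => ?_
    simp_rw [pow_add, Matrix.mul_apply]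
    rw [Finset.sum_comm, Finset.mul_sum]
    refine Finset.sum_le_sum fun z _ => ?_
    rw [← Finset.mul_sum, mul_comm c]
    exact mul_le_mul_of_nonneg_left (hc z) (hnn _ _ _)
  obtain ⟨C, μ, hC, hμ0, hμ1, hbound⟩ := pfasym_geo (fun l => ∑ x, ∑ y, (Q ^ l) x y)
    (fun l => Finset.sum_nonneg fun x _ => Finset.sum_nonneg fun y _ => hnn l x y)
    (fun l => by
      have := hstep l 1 1 (by simpa using hrow)
      simpa using this) k hk0 ρ hρ1 (fun l => hstep l k ρ hx1)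
  refine ⟨C, μ, hC, hμ0, hμ1, fun l x y => ?_⟩
  rw [abs_of_nonneg (hnn l x y)]
  refine le_trans ?_ (hbound l)
  refine le_trans ?_ (Finset.single_le_sum (f := fun x => ∑ y, (Q ^ l) x y)
    (fun x _ => Finset.sum_nonneg fun y _ => hnn l x y) (Finset.mem_univ x))
  exact Finset.single_le_sum (f := fun y => (Q ^ l) x y) (fun y _ => hnn l x y) (Finset.mem_univ y)

end Pool.Agent.H.MP_345fd7_an
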