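import Mathlib

/-! Perron eigenvector (existence) -/

set_option autoImplicit false

namespace Pool.Agent.H.MP_345fd7_an

open Matrix

lemma pfEig_pos {V : Type*} [Fintype V] (B : Matrix V V ℝ) (hB : ∀ i j, 0 < B i j)
    (x : V → ℝ) (hx : ∀ i, 0 ≤ x i) (hx0 : x ≠ 0) (i : V) : 0 < (B *ᵥ x) i := by
  obtain ⟨j, hj⟩ := Function.ne_iff.1 hx0
  have hj' : 0 < x j := lt_of_le_of_ne (hx j) (Ne.symm hj)
  exact Finset.sum_pos' (fun l _ => mul_nonneg (hB i l).le (hx l))
    ⟨j, Finset.mem_univ j, mul_pos (hB i j) hj'⟩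

/-- Existence of a positive eigenvector of a nonnegative real matrix some power of which is
positive. (Compactness: maximise `t` such that `t x ≤ A x` for some `x` in the simplex; if
`A x ≠ t x` then `A ^ k (A x) > t A ^ k x` in all entries contradicts maximality, applied to the
normalisation of `A ^ k x`.) -/
theorem pf_eigen {V : Type*} [Fintype V] [DecidableEq V] [Nonempty V] (A : Matrix V V ℝ)
    (hA : ∀ i j, 0 ≤ A i j) (hk : ∃ k : ℕ, 0 < k ∧ ∀ i j, 0 < (A ^ k) i j) :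
    ∃ lam : ℝ, 0 < lam ∧ ∃ u : V → ℝ, (∀ i, 0 < u i) ∧ ∀ i, ∑ j, A i j * u j = lam * u i := by
  obtain ⟨k, hk0, hk⟩ := hk
  set B : ℝ := ∑ i, ∑ j, A i j with hB
  set K : Set (ℝ × (V → ℝ)) := {p | (0 ≤ p.1 ∧ p.1 ≤ B) ∧ ((∀ i, 0 ≤ p.2 i) ∧ ∑ i, p.2 i = 1) ∧
    ∀ i, p.1 * p.2 i ≤ (A *ᵥ p.2) i} with hK
  have hxle : ∀ x : V → ℝ, (∀ i, 0 ≤ x i) → ∑ i, x i = 1 → ∀ i, x i ≤ 1 := by
    intro x hx hs i
    rw [← hs]
    exact Finset.single_le_sum (fun j _ => hx j) (Finset.mem_univ i)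
  have hbound : ∀ (t : ℝ) (x : V → ℝ), (∀ i, 0 ≤ x i) → ∑ i, x i = 1 →
      (∀ i, t * x i ≤ (A *ᵥ x) i) → t ≤ B := by
    intro t x hx hs ht
    have h1 : ∑ i, t * x i ≤ ∑ i, (A *ᵥ x) i := Finset.sum_le_sum fun i _ => ht i
    rw [← Finset.mul_sum, hs, mul_one] at h1
    refine h1.trans ?_
    rw [hB]
    refine Finset.sum_le_sum fun i _ => ?_
    refine Finset.sum_le_sum fun j _ => ?_
    exact mul_le_of_le_one_right (hA i j) (hxle x hx hs j)
  have hKc : IsCompact K := by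
    have h1 : IsCompact (Set.Icc (0 : ℝ) B ×ˢ (Set.pi Set.univ fun _ : V => Set.Icc (0 : ℝ) 1)) :=
      isCompact_Icc.prod (isCompact_univ_pi fun _ => isCompact_Icc)
    apply h1.of_isClosed_subset
    · have c1 : IsClosed {p : ℝ × (V → ℝ) | 0 ≤ p.1 ∧ p.1 ≤ B} := by
        apply IsClosed.inter
        · exact isClosed_le continuous_const continuous_fst
        · exact isClosed_le continuous_fst continuous_const
      have c2 : IsClosed {p : ℝ × (V → ℝ) | (∀ i, 0 ≤ p.2 i) ∧ ∑ i, p.2 i = 1} := by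
        apply IsClosed.inter
        · have : {p : ℝ × (V → ℝ) | ∀ i, 0 ≤ p.2 i} = ⋂ i, {p | 0 ≤ p.2 i} := by
            ext p
            simp
          show IsClosed {p : ℝ × (V → ℝ) | ∀ i, 0 ≤ p.2 i}
          rw [this]
          exact isClosed_iInter fun i => isClosed_le continuous_const (by fun_prop)
        · exact isClosed_eq (by fun_prop) continuous_const
      have c3 : IsClosed {p : ℝ × (V → ℝ) | ∀ i, p.1 * p.2 i ≤ (A *ᵥ p.2) i} := by
        have : {p : ℝ × (V → ℝ) | ∀ i, p.1 * p.2 i ≤ (A *ᵥ p.2) i}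
            = ⋂ i, {p | p.1 * p.2 i ≤ (A *ᵥ p.2) i} := by
          ext p
          simp
        rw [this]
        refine isClosed_iInter fun i => isClosed_le (by fun_prop) ?_
        unfold mulVec dotProduct
        fun_prop
      exact c1.inter (c2.inter c3)
    · rintro ⟨t, x⟩ ⟨h1, ⟨h2, h3⟩, h4⟩
      refine ⟨h1, ?_⟩
      intro i _
      exact ⟨h2 i, hxle x h2 h3 i⟩
  have hKn : K.Nonempty := by
    obtain ⟨i0⟩ := ‹Nonempty V›
    refine ⟨(0, Pi.single i0 1), ⟨le_refl _, Finset.sum_nonneg fun i _ =>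
      Finset.sum_nonneg fun j _ => hA i j⟩, ⟨fun i => ?_, ?_⟩, fun i => ?_⟩
    · by_cases h : i = i0
      · subst h; simp
      · simp [h]
    · simp
    · simp [hA]
  obtain ⟨⟨t, x⟩, hmem, hmax⟩ := hKc.exists_isMaxOn hKn continuous_fst.continuousOn
  obtain ⟨⟨ht0, htB⟩, ⟨hx, hxs⟩, htx⟩ := hmem
  simp only at ht0 htB hx hxs htx
  have hx0 : x ≠ 0 := by
    rintro rfl
    simp at hxs
  set y : V → ℝ := (A ^ k) *ᵥ x with hy
  have hypos : ∀ i, 0 < y i := pfEig_pos (A ^ k) hk x hx hx0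
  have heq : A *ᵥ x = t • x := by
    by_contra hne
    set w : V → ℝ := A *ᵥ x - t • x with hw
    have hw0 : w ≠ 0 := sub_ne_zero.2 hne
    have hwn : ∀ i, 0 ≤ w i := fun i => by
      rw [hw]
      simpa using htx i
    have h1 : ∀ i, 0 < ((A ^ k) *ᵥ w) i := pfEig_pos (A ^ k) hk w hwn hw0
    have h2 : (A ^ k) *ᵥ w = A *ᵥ y - t • y := by
      rw [hw, hy, mulVec_sub, mulVec_smul, mulVec_mulVec, mulVec_mulVec, ← pow_succ, ← pow_succ']
    rw [h2] at h1
    obtain ⟨i1, _, hi1⟩ := Finset.exists_min_image Finset.univ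
      (fun i => (A *ᵥ y - t • y) i / y i) Finset.univ_nonempty
    set ε := (A *ᵥ y - t • y) i1 / y i1 with hε
    have hεpos : 0 < ε := div_pos (h1 i1) (hypos i1)
    have h3 : ∀ i, (t + ε) * y i ≤ (A *ᵥ y) i := by
      intro i
      have h4 := hi1 i (Finset.mem_univ i)
      rw [le_div_iff₀ (hypos i)] at h4
      simp only [Pi.sub_apply, Pi.smul_apply, smul_eq_mul] at h4
      have h5 : ε * y i ≤ (A *ᵥ y) i - t * y i := h4
      linarith
    set s := ∑ i, y i with hs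
    have hspos : 0 < s := Finset.sum_pos (fun i _ => hypos i) Finset.univ_nonempty
    have h6 : ∀ i, 0 ≤ (s⁻¹ • y) i := fun i => by
      simp only [Pi.smul_apply, smul_eq_mul]
      exact mul_nonneg (inv_nonneg.2 hspos.le) (hypos i).le
    have h7 : ∑ i, (s⁻¹ • y) i = 1 := by
      simp only [Pi.smul_apply, smul_eq_mul, ← Finset.mul_sum]
      exact inv_mul_cancel₀ hspos.ne'
    have h8 : ∀ i, (t + ε) * (s⁻¹ • y) i ≤ (A *ᵥ (s⁻¹ • y)) i := by
      intro i
      rw [mulVec_smul]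
      simp only [Pi.smul_apply, smul_eq_mul]
      rw [mul_left_comm]
      exact mul_le_mul_of_nonneg_left (h3 i) (inv_nonneg.2 hspos.le)
    have h9 := hbound _ _ h6 h7 h8
    have h10 : t + ε ≤ t := hmax (show ((t + ε, s⁻¹ • y) : ℝ × (V → ℝ)) ∈ K from
      ⟨⟨by linarith, h9⟩, ⟨h6, h7⟩, h8⟩)
    linarith
  have hpow : ∀ m : ℕ, (A ^ m) *ᵥ x = t ^ m • x := by
    intro m
    induction m with
    | zero => simp
    | succ m ih =>
      rw [pow_succ, ← mulVec_mulVec, heq, mulVec_smul, ih, smul_smul, pow_succ']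
  have hfin : ∀ i, 0 < t ^ k * x i := by
    intro i
    have := hypos i
    rw [hy, hpow] at this
    simpa using this
  have htpos : 0 < t := by
    rcases ht0.lt_or_eq with h | h
    · exact h
    · exfalso
      obtain ⟨i⟩ := ‹Nonempty V›
      have := hfin i
      rw [← h, zero_pow hk0.ne', zero_mul] at this
      exact lt_irrefl _ this
  refine ⟨t, htpos, x, fun i => ?_, fun i => ?_⟩
  · exact (pos_iff_pos_of_mul_pos (hfin i)).1 (pow_pos htpos k)
  · have := congrFun heq i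
    simpa [mulVec, dotProduct] using this

end Pool.Agent.H.MP_345fd7_an
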