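import Pool.Agent.H.MP_345fd7_an.Basic
import Pool.Agent.H.MP_345fd7_an.PFEig
import Pool.Agent.H.MP_345fd7_an.PFAsym

/-! Asymptotics of powers of a `G`-primitive matrix -/

set_option autoImplicit false

namespace Pool.Agent.H.MP_345fd7_an

open Matrix

section aux

variable {G : Type} [CommGroup G] [Fintype G]

lemma pfMain_conv (x y : MonoidAlgebra ℤ G) (g h : G) :
    ∑ t, ((x.coeff (g⁻¹ * t) : ℤ) : ℝ) * ((y.coeff (t⁻¹ * h) : ℤ) : ℝ) =
      (((x * y).coeff (g⁻¹ * h) : ℤ) : ℝ) := by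
  rw [coeff_mul_sum]
  push_cast
  refine Fintype.sum_equiv (Equiv.mulLeft g⁻¹) _ _ fun t => ?_
  simp only [Equiv.coe_mulLeft]
  congr 3
  rw [mul_inv, inv_inv]
  rw [mul_comm g, mul_assoc, mul_inv_cancel_left]

lemma pfMain_pow {I : Type*} [Fintype I] [DecidableEq I] [DecidableEq G]
    (A : Matrix I I (MonoidAlgebra ℤ G))
    (lam : ℝ) (hlam : lam ≠ 0) (u : I → ℝ) (hu : ∀ i, u i ≠ 0) (P : Matrix (I × G) (I × G) ℝ)
    (hP : ∀ x y, P x y = (((A x.1 y.1).coeff (x.2⁻¹ * y.2) : ℤ) : ℝ) * u y.1 / (lam * u x.1))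
    (l : ℕ) : ∀ x y, (P ^ l) x y =
      ((((A ^ l) x.1 y.1).coeff (x.2⁻¹ * y.2) : ℤ) : ℝ) * u y.1 / (lam ^ l * u x.1) := by
  induction l with
  | zero =>
    intro x y
    rw [pow_zero, pow_zero, pow_zero, one_mul, Matrix.one_apply, Matrix.one_apply]
    by_cases hxy : x = y
    · subst hxy
      simp [hu]
    · rw [if_neg hxy]
      by_cases h1 : x.1 = y.1
      · have h2 : ¬ (x.2 = y.2) := fun h => hxy (Prod.ext h1 h)
        rw [if_pos h1, MonoidAlgebra.one_def, MonoidAlgebra.coeff_single, Finsupp.single_apply,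
          if_neg]
        · simp
        · intro h
          exact h2 (inv_mul_eq_one.1 h.symm)
      · rw [if_neg h1]; simp
  | succ l ih =>
    intro x y
    rw [pow_succ, Matrix.mul_apply, Fintype.sum_prod_type, pow_succ A, Matrix.mul_apply,
      MonoidAlgebra.coeff_sum, Finsupp.finsetSum_apply]
    push_cast
    rw [Finset.sum_mul, Finset.sum_div]
    refine Finset.sum_congr rfl fun m _ => ?_
    rw [← pfMain_conv, Finset.sum_mul, Finset.sum_div]
    refine Finset.sum_congr rfl fun t _ => ?_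
    rw [ih, hP]
    simp only
    have := hu m
    have := hu x.1
    field_simp
    ring

lemma pfMain_sub {X Y : Type*} [Fintype X] [DecidableEq X] [Fintype Y] [DecidableEq Y]
    (P : Matrix X X ℝ) (hP : ∀ x y, 0 ≤ P x y) (ι : Y → X) (hι : Function.Injective ι) (l : ℕ) :
    (∀ x y, 0 ≤ (P ^ l) x y) ∧ ∀ y z, ((P.submatrix ι ι) ^ l) y z ≤ (P ^ l) (ι y) (ι z) := by
  induction l with
  | zero =>
    refine ⟨fun x y => ?_, fun y z => ?_⟩
    · rw [pow_zero, Matrix.one_apply]; split_ifs <;> norm_num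
    · rw [pow_zero, pow_zero, Matrix.one_apply, Matrix.one_apply]
      by_cases h : y = z
      · simp [h]
      · rw [if_neg h, if_neg fun h' => h (hι h')]
  | succ l ih =>
    refine ⟨fun x y => ?_, fun y z => ?_⟩
    · rw [pow_succ, Matrix.mul_apply]
      exact Finset.sum_nonneg fun j _ => mul_nonneg (ih.1 _ _) (hP _ _)
    · rw [pow_succ, pow_succ, Matrix.mul_apply, Matrix.mul_apply]
      calc ∑ j, ((P.submatrix ι ι) ^ l) y j * (P.submatrix ι ι) j z
          ≤ ∑ j, (P ^ l) (ι y) (ι j) * P (ι j) (ι z) :=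
            Finset.sum_le_sum fun j _ => mul_le_mul_of_nonneg_right (ih.2 y j) (hP _ _)
        _ = ∑ x ∈ Finset.univ.map ⟨ι, hι⟩, (P ^ l) (ι y) x * P x (ι z) := by
            rw [Finset.sum_map]; rfl
        _ ≤ _ := Finset.sum_le_sum_of_subset_of_nonneg (Finset.subset_univ _)
            fun j _ _ => mul_nonneg (ih.1 _ _) (hP _ _)

lemma pfMain_row {X : Type*} [Fintype X] [DecidableEq X] (P : Matrix X X ℝ)
    (hrow : ∀ x, ∑ y, P x y = 1) (l : ℕ) : ∀ x, ∑ y, (P ^ l) x y = 1 := by
  induction l with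
  | zero => intro x; simp [Matrix.one_apply]
  | succ l ih =>
    intro x
    simp only [pow_succ, Matrix.mul_apply]
    rw [Finset.sum_comm]
    simp only [← Finset.mul_sum, hrow, mul_one, ih]

end aux

/-- Perron-Frobenius data of a `G`-primitive matrix.
PROOF. Let `Ā i j = aug (A i j)` (real); `Ā ^ k > 0`; `pf_eigen` gives `lam`, `u`.
On `X = Fin (n+1) × G` let
`P (i,g) (j,h) = (A i j).coeff (g⁻¹ * h) * u j / (lam * u i)`; it is stochastic, and by induction
`(P ^ l) (i,g) (j,h) = ((A ^ l) i j).coeff (g⁻¹ * h) * u j / (lam ^ l * u i)`, so `P ^ k > 0`.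
`stoch_limit` gives `π`; since `(P ^ l) (i,g) (j,h)` depends only on `g⁻¹ h`, `π (j,h)` does not
depend on `h`. Put `c i j = u i * π (j,1) / u j`. The matrix with index `0` deleted:
`Q (i,g) (j,h) = P (i.succ,g) (j.succ,h)` is substochastic and `Q ^ k ≤ P ^ k` restricted, hence its row
sums are `≤ 1 - ∑ h, (P ^ k) (i.succ,g) (0,h) < 1`; `substoch_decay`. Take `mu = max 1 (lam * μ')` with
`μ'` the maximum of the two rates. `lam > 1`: `lam ^ k * u i = ∑ j, (Ā ^ k) i j * u j ≥ |G| * ∑ j, u j`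
which is `> u i` unless `n = 0` and `|G| = 1`; and in that case `A 0 0 = lam` is an integer `≥ 1`,
different from `1`. -/
theorem pf_main {G : Type} [CommGroup G] [Fintype G] {n : ℕ}
    (A : Matrix (Fin (n + 1)) (Fin (n + 1)) (MonoidAlgebra ℤ G))
    (hA : ∀ i j, Nn (A i j))
    (hk : ∃ k : ℕ, 0 < k ∧ ∀ i j g, 0 < ((A ^ k) i j).coeff g)
    (hnt : ¬ (n = 0 ∧ Fintype.card G = 1 ∧ A 0 0 = 1)) :
    ∃ (lam mu C : ℝ) (c : Fin (n + 1) → Fin (n + 1) → ℝ) (u : Fin (n + 1) → ℝ),
      1 < lam ∧ 1 ≤ mu ∧ mu < lam ∧ 0 ≤ C ∧ (∀ i j, 0 < c i j) ∧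
      (∀ (l : ℕ) i j g,
        |((((A ^ l) i j).coeff g : ℤ) : ℝ) - c i j * lam ^ l| ≤ C * mu ^ l) ∧
      (∀ (l : ℕ) i j g,
        |(((((A.submatrix Fin.succ Fin.succ) ^ l) i j).coeff g : ℤ) : ℝ)| ≤ C * mu ^ l) ∧
      (∀ i, 0 < u i) ∧ (∀ i, ∑ j, ((aug G (A i j) : ℤ) : ℝ) * u j = lam * u i) := by
  classical
  obtain ⟨k, hk0, hk⟩ := hk
  set φ : MonoidAlgebra ℤ G →+* ℝ := (Int.castRingHom ℝ).comp (aug G) with hφ
  set Ab : Matrix (Fin (n + 1)) (Fin (n + 1)) ℝ := A.map φ with hAb
  have hAbe : ∀ i j, Ab i j = ((aug G (A i j) : ℤ) : ℝ) := fun i j => rfl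
  have hAbk : ∀ l : ℕ, Ab ^ l = (A ^ l).map φ := by
    intro l
    exact (map_pow (φ.mapMatrix (m := Fin (n + 1))) A l).symm
  have hcard : (1 : ℝ) ≤ Fintype.card G := by
    exact_mod_cast Fintype.card_pos
  have hAbk2 : ∀ i j, (Fintype.card G : ℝ) ≤ (Ab ^ k) i j := by
    intro i j
    rw [hAbk, Matrix.map_apply, hφ]
    show (Fintype.card G : ℝ) ≤ ((aug G ((A ^ k) i j) : ℤ) : ℝ)
    rw [aug_apply]
    have : (Fintype.card G : ℤ) ≤ ∑ g, ((A ^ k) i j).coeff g := by
      have h1 : ∑ _g : G, (1 : ℤ) ≤ ∑ g, ((A ^ k) i j).coeff g :=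
        Finset.sum_le_sum fun g _ => hk i j g
      simpa using h1
    exact_mod_cast this
  obtain ⟨lam, hlam0, u, hu, hev⟩ := pf_eigen Ab
    (fun i j => by rw [hAbe]; exact_mod_cast (hA i j).aug_nonneg)
    ⟨k, hk0, fun i j => by have := hAbk2 i j; linarith⟩
  -- eigenvector of powers
  have hevk : ∀ l : ℕ, ∀ i, ∑ j, (Ab ^ l) i j * u j = lam ^ l * u i := by
    intro l
    induction l with
    | zero => intro i; simp [Matrix.one_apply]
    | succ l ih =>
      intro i
      calc ∑ j, (Ab ^ (l + 1)) i j * u j = ∑ j, ∑ m, (Ab ^ l) i m * (Ab m j * u j) := by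
            refine Finset.sum_congr rfl fun j _ => ?_
            rw [pow_succ, Matrix.mul_apply, Finset.sum_mul]
            exact Finset.sum_congr rfl fun m _ => by ring
        _ = ∑ m, (Ab ^ l) i m * (lam * u m) := by
            rw [Finset.sum_comm]
            refine Finset.sum_congr rfl fun m _ => ?_
            rw [← Finset.mul_sum, hev]
        _ = lam * ∑ m, (Ab ^ l) i m * u m := by
            rw [Finset.mul_sum]
            exact Finset.sum_congr rfl fun m _ => by ring
        _ = _ := by rw [ih]; ring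
  have hlam1 : 1 < lam := by
    by_cases hcase : n = 0 ∧ Fintype.card G = 1
    · obtain ⟨hn, hG⟩ := hcase
      subst hn
      have h1 := hev 0
      rw [Fin.sum_univ_one, hAbe] at h1
      have h2 : ((aug G (A 0 0) : ℤ) : ℝ) = lam := by
        have := hu 0
        exact mul_right_cancel₀ this.ne' h1
      have hsub : Subsingleton G := Fintype.card_le_one_iff_subsingleton.1 hG.le
      have hG1 : ∀ x : MonoidAlgebra ℤ G, aug G x = x.coeff 1 := by
        intro x
        rw [aug_apply]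
        exact Fintype.sum_subsingleton _ 1
      have h3 : aug G (A 0 0) ≠ 1 := by
        intro h
        refine hnt ⟨rfl, hG, ?_⟩
        rw [hG1] at h
        apply MonoidAlgebra.ext
        ext g
        rw [Subsingleton.elim g 1, h]
        simp
      have h4 : (0 : ℝ) < ((aug G (A 0 0) : ℤ) : ℝ) := by rw [h2]; exact hlam0
      have h5 : 0 < aug G (A 0 0) := by exact_mod_cast h4
      have h6 : 1 < aug G (A 0 0) := lt_of_le_of_ne (by omega) (Ne.symm h3)
      rw [← h2]
      exact_mod_cast h6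
    · have h1 := hevk k 0
      have h2 : (Fintype.card G : ℝ) * ∑ j, u j ≤ lam ^ k * u 0 := by
        rw [← h1, Finset.mul_sum]
        exact Finset.sum_le_sum fun j _ => mul_le_mul_of_nonneg_right (hAbk2 0 j) (hu j).le
      have h3 : u 0 ≤ ∑ j, u j :=
        Finset.single_le_sum (f := u) (fun j _ => (hu j).le) (Finset.mem_univ 0)
      have h4 : u 0 < (Fintype.card G : ℝ) * ∑ j, u j := by
        by_cases hn : n = 0
        · have hG : Fintype.card G ≠ 1 := fun h => hcase ⟨hn, h⟩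
          have hG2 : 2 ≤ Fintype.card G := by
            have : 0 < Fintype.card G := Fintype.card_pos
            omega
          have hG3 : (2 : ℝ) ≤ Fintype.card G := by exact_mod_cast hG2
          have := hu 0
          nlinarith
        · have h5 : u 0 < ∑ j, u j := by
            have hn' : (1 : Fin (n + 1)) ≠ 0 := by
              intro h
              have := congrArg Fin.val h
              rw [Fin.val_one'] at this
              simp at this
              omega
            have h6 : ∑ j ∈ ({0, 1} : Finset (Fin (n + 1))), u j ≤ ∑ j, u j :=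
              Finset.sum_le_sum_of_subset_of_nonneg (Finset.subset_univ _)
                fun j _ _ => (hu j).le
            rw [Finset.sum_pair hn'.symm] at h6
            have := hu 1
            linarith
          have h7 : 0 < ∑ j, u j := (hu 0).trans h5
          nlinarith
      have h5 : 1 < lam ^ k := by
        have := hu 0
        by_contra hle
        push Not at hle
        nlinarith
      by_contra hle
      push Not at hle
      exact absurd (pow_le_one₀ hlam0.le hle) (not_le.2 h5)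
  -- the stochastic matrix
  set P : Matrix (Fin (n + 1) × G) (Fin (n + 1) × G) ℝ := Matrix.of fun x y =>
    (((A x.1 y.1).coeff (x.2⁻¹ * y.2) : ℤ) : ℝ) * u y.1 / (lam * u x.1) with hPdef
  have hPe : ∀ x y, P x y =
    (((A x.1 y.1).coeff (x.2⁻¹ * y.2) : ℤ) : ℝ) * u y.1 / (lam * u x.1) := fun x y => rfl
  have hPpow := fun l => pfMain_pow A lam hlam0.ne' u (fun i => (hu i).ne') P hPe l
  have hP0 : ∀ x y, 0 ≤ P x y := by
    intro x y
    rw [hPe]
    have h1 : (0 : ℝ) ≤ (((A x.1 y.1).coeff (x.2⁻¹ * y.2) : ℤ) : ℝ) := by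
      exact_mod_cast hA x.1 y.1 _
    have := hu x.1
    have := hu y.1
    positivity
  have hProw : ∀ x, ∑ y, P x y = 1 := by
    intro x
    rw [Fintype.sum_prod_type]
    have h1 : ∀ j, ∑ h : G, P x (j, h) = Ab x.1 j * u j / (lam * u x.1) := by
      intro j
      rw [hAbe, aug_apply]
      push_cast
      rw [Finset.sum_mul, Finset.sum_div]
      exact Fintype.sum_equiv (Equiv.mulLeft x.2⁻¹) _ _ fun h => by simp [hPe]
    rw [Finset.sum_congr rfl fun j _ => h1 j, ← Finset.sum_div, hev]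
    have := hu x.1
    exact div_self (by positivity)
  have hPk : ∀ x y, 0 < (P ^ k) x y := by
    intro x y
    rw [hPpow]
    have h1 : (0 : ℝ) < ((((A ^ k) x.1 y.1).coeff (x.2⁻¹ * y.2) : ℤ) : ℝ) := by
      exact_mod_cast hk x.1 y.1 _
    have := hu x.1
    have := hu y.1
    positivity
  obtain ⟨π, C1, μ1, hπ, hC1, hμ10, hμ11, hlim⟩ := stoch_limit P hP0 hProw ⟨k, hk0, hPk⟩
  -- translation invariance
  have hπ1 : ∀ j h, π (j, h) = π (j, 1) := by
    intro j h
    have h1 : ∀ l : ℕ, |π (j, h) - π (j, 1)| ≤ 2 * C1 * μ1 ^ l := by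
      intro l
      have h2 := hlim l (j, 1) (j, h)
      have h3 := hlim l (j, h⁻¹) (j, 1)
      have h4 : (P ^ l) (j, 1) (j, h) = (P ^ l) (j, h⁻¹) (j, 1) := by
        rw [hPpow, hPpow]; simp
      rw [h4] at h2
      have h5 : π (j, h) - π (j, 1) = ((P ^ l) (j, h⁻¹) (j, 1) - π (j, 1)) -
        ((P ^ l) (j, h⁻¹) (j, 1) - π (j, h)) := by ring
      rw [h5]
      refine (abs_sub _ _).trans ?_
      linarith
    have h2 : Filter.Tendsto (fun l : ℕ => 2 * C1 * μ1 ^ l) Filter.atTop (nhds (2 * C1 * 0)) :=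
      (tendsto_pow_atTop_nhds_zero_of_lt_one hμ10 hμ11).const_mul _
    rw [mul_zero] at h2
    have h3 : |π (j, h) - π (j, 1)| ≤ 0 := ge_of_tendsto' h2 h1
    have h4 := abs_nonpos_iff.1 h3
    linarith
  -- the substochastic matrix
  set ι : Fin n × G → Fin (n + 1) × G := fun x => (x.1.succ, x.2) with hι
  have hιinj : Function.Injective ι := by
    intro a b hab
    rw [hι] at hab
    simp only [Prod.mk.injEq, Fin.succ_inj] at hab
    exact Prod.ext hab.1 hab.2
  have hQe := fun l => pfMain_sub P hP0 ι hιinj l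
  have hQrow : ∀ x, ∑ y, (P.submatrix ι ι) x y ≤ 1 := by
    intro x
    calc ∑ y, (P.submatrix ι ι) x y = ∑ y ∈ Finset.univ.map ⟨ι, hιinj⟩, P (ι x) y := by
          rw [Finset.sum_map]; rfl
      _ ≤ ∑ y, P (ι x) y :=
          Finset.sum_le_sum_of_subset_of_nonneg (Finset.subset_univ _) fun j _ _ => hP0 _ _
      _ = 1 := hProw _
  have hQk : ∀ x, ∑ y, ((P.submatrix ι ι) ^ k) x y < 1 := by
    intro x
    calc ∑ y, ((P.submatrix ι ι) ^ k) x y ≤ ∑ y, (P ^ k) (ι x) (ι y) :=
          Finset.sum_le_sum fun y _ => (hQe k).2 x y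
      _ = ∑ y ∈ Finset.univ.map ⟨ι, hιinj⟩, (P ^ k) (ι x) y := by
          rw [Finset.sum_map]; rfl
      _ < ∑ y, (P ^ k) (ι x) y := by
          refine Finset.sum_lt_sum_of_subset (Finset.subset_univ _) (i := (0, 1))
            (Finset.mem_univ _) ?_ (hPk _ _) fun j _ _ => (hPk _ _).le
          rw [Finset.mem_map]
          rintro ⟨a, _, ha⟩
          exact Fin.succ_ne_zero _ (congrArg Prod.fst ha)
      _ = 1 := pfMain_row P hProw k _
  obtain ⟨C2, μ2, hC2, hμ20, hμ21, hdec⟩ := substoch_decay (P.submatrix ι ι)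
    (fun x y => hP0 _ _) hQrow ⟨k, hk0, hQk⟩
  have hQpow := fun l => pfMain_pow (A.submatrix Fin.succ Fin.succ) lam hlam0.ne'
    (fun i => u i.succ) (fun i => (hu _).ne') (P.submatrix ι ι) (fun x y => rfl) l
  -- constants
  set M : ℝ := ∑ i, ∑ j, u i / u j with hM
  have hMle : ∀ i j, u i / u j ≤ M := by
    intro i j
    refine le_trans ?_ (Finset.single_le_sum (f := fun i => ∑ j, u i / u j)
      (fun i' _ => Finset.sum_nonneg fun j _ => (div_pos (hu _) (hu _)).le) (Finset.mem_univ i))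
    exact Finset.single_le_sum (f := fun j => u i / u j)
      (fun j' _ => (div_pos (hu _) (hu _)).le) (Finset.mem_univ j)
  have hM0 : 0 ≤ M := (div_pos (hu 0) (hu 0)).le.trans (hMle 0 0)
  set mu : ℝ := max 1 (lam * max μ1 μ2) with hmu
  have hpow : ∀ (μ : ℝ), 0 ≤ μ → μ ≤ max μ1 μ2 → ∀ l : ℕ, lam ^ l * μ ^ l ≤ mu ^ l := by
    intro μ h0 h1 l
    rw [← mul_pow]
    refine pow_le_pow_left₀ (by positivity) ?_ l
    exact (mul_le_mul_of_nonneg_left h1 hlam0.le).trans (le_max_right _ _)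
  have hmu0 : 0 ≤ mu := zero_le_one.trans (le_max_left _ _)
  refine ⟨lam, mu, M * (C1 + C2), fun i j => u i * π (j, 1) / u j, u, hlam1, le_max_left _ _, ?_,
    by positivity, ?_, ?_, ?_, hu, hev⟩
  · rw [hmu]
    refine max_lt hlam1 ?_
    have : max μ1 μ2 < 1 := max_lt hμ11 hμ21
    nlinarith
  · intro i j
    exact div_pos (mul_pos (hu i) (hπ _)) (hu j)
  · intro l i j g
    have h1 := hlim l (i, 1) (j, g)
    have h2 := hPpow l (i, 1) (j, g)
    simp only [inv_one, one_mul] at h2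
    have hui := hu i
    have huj := hu j
    have hll : 0 < lam ^ l := by positivity
    have h3 : ((((A ^ l) i j).coeff g : ℤ) : ℝ) = (P ^ l) (i, 1) (j, g) * (lam ^ l * (u i / u j)) := by
      rw [h2]; field_simp
    have h4 : ((((A ^ l) i j).coeff g : ℤ) : ℝ) - u i * π (j, 1) / u j * lam ^ l =
        ((P ^ l) (i, 1) (j, g) - π (j, g)) * (lam ^ l * (u i / u j)) := by
      rw [h3, hπ1 j g]; ring
    rw [h4, abs_mul, abs_of_pos (show 0 < lam ^ l * (u i / u j) by positivity)]
    calc |(P ^ l) (i, 1) (j, g) - π (j, g)| * (lam ^ l * (u i / u j))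
        ≤ (C1 * μ1 ^ l) * (lam ^ l * M) := by
          refine mul_le_mul h1 ?_ (by positivity) (by positivity)
          exact mul_le_mul_of_nonneg_left (hMle i j) hll.le
      _ = M * C1 * (lam ^ l * μ1 ^ l) := by ring
      _ ≤ M * (C1 + C2) * mu ^ l := by
          refine mul_le_mul ?_ (hpow μ1 hμ10 (le_max_left _ _) l) (by positivity) (by positivity)
          exact mul_le_mul_of_nonneg_left (by linarith) hM0
  · intro l i j g
    have h1 := hdec l (i, 1) (j, g)
    have h2 := hQpow l (i, 1) (j, g)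
    simp only [inv_one, one_mul] at h2
    have hui := hu i.succ
    have huj := hu j.succ
    have hll : 0 < lam ^ l := by positivity
    have h3 : (((((A.submatrix Fin.succ Fin.succ) ^ l) i j).coeff g : ℤ) : ℝ) =
        ((P.submatrix ι ι) ^ l) (i, 1) (j, g) * (lam ^ l * (u i.succ / u j.succ)) := by
      rw [h2]; field_simp
    rw [h3, abs_mul, abs_of_pos (show 0 < lam ^ l * (u i.succ / u j.succ) by positivity)]
    calc |((P.submatrix ι ι) ^ l) (i, 1) (j, g)| * (lam ^ l * (u i.succ / u j.succ))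
        ≤ (C2 * μ2 ^ l) * (lam ^ l * M) := by
          refine mul_le_mul h1 ?_ (by positivity) (by positivity)
          exact mul_le_mul_of_nonneg_left (hMle i.succ j.succ) hll.le
      _ = M * C2 * (lam ^ l * μ2 ^ l) := by ring
      _ ≤ M * (C1 + C2) * mu ^ l := by
          refine mul_le_mul ?_ (hpow μ2 hμ20 (le_max_right _ _) l) (by positivity) (by positivity)
          exact mul_le_mul_of_nonneg_left (by linarith) hM0

end Pool.Agent.H.MP_345fd7_an
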