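import Pool.Agent.H.MP_345fd7_an.Basic

/-! Two matrices with the same determinant `p` generating the kernel of a surjection onto `ℝ` -/

set_option autoImplicit false

namespace Pool.Agent.H.MP_345fd7_an

open Matrix

lemma prop5_list_mem {O : Type*} [Fintype O] [DecidableEq O]
    (L : List (TransvectionStruct O ℝ)) : (L.map TransvectionStruct.toMatrix).prod ∈ Elem O ℝ := by
  apply Submonoid.list_prod_mem
  intro M hM
  obtain ⟨t, _, rfl⟩ := List.mem_map.1 hM
  exact transvection_mem_Elem t.hij t.c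

lemma prop5_adj {O : Type*} [Fintype O] [DecidableEq O] {M N : Matrix O O ℝ} (hM : M ∈ Elem O ℝ)
    (h : M * N = 1) : M.adjugate = N := by
  have h1 : M.adjugate * M = 1 := by rw [adjugate_mul, det_of_mem_Elem hM, one_smul]
  calc M.adjugate = M.adjugate * (M * N) := by rw [h, mul_one]
    _ = N := by rw [← Matrix.mul_assoc, h1, one_mul]

lemma prop5_transvec_row {O : Type*} [Fintype O] [DecidableEq O] (i j : O) (c : ℝ) (v : O → ℝ) :
    v ᵥ* transvection i j c = v + v i • Pi.single j c := by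
  unfold transvection
  rw [vecMul_add, vecMul_one]
  congr 1
  funext l
  simp only [vecMul, dotProduct, Pi.smul_apply, smul_eq_mul, single_apply, Pi.single_apply]
  rw [Finset.sum_eq_single i]
  · by_cases h : j = l
    · simp [h]
    · simp [h, Ne.symm h]
  · intro b _ hb
    simp [Ne.symm hb]
  · intro h; exact absurd (Finset.mem_univ _) h

lemma prop5_sigma {O : Type*} [Fintype O] [DecidableEq O] (a b : O) :
    ∃ σ ∈ Elem O ℝ, ∀ j, σ a j = if j = b then 1 else 0 := by
  have key : ∀ σ : Matrix O O ℝ, (Pi.single a 1 ᵥ* σ = Pi.single b 1) →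
      ∀ j, σ a j = if j = b then 1 else 0 := by
    intro σ h j
    have h1 := congrFun h j
    rw [single_one_vecMul] at h1
    rw [Pi.single_apply] at h1
    exact h1
  by_cases hab : a = b
  · subst hab
    refine ⟨1, Submonoid.one_mem _, key 1 ?_⟩
    rw [vecMul_one]
  · refine ⟨transvection a b 1 * transvection b a (-1) * transvection a b 1,
      Submonoid.mul_mem _ (Submonoid.mul_mem _ (transvection_mem_Elem hab _)
        (transvection_mem_Elem (Ne.symm hab) _)) (transvection_mem_Elem hab _), key _ ?_⟩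
    rw [← vecMul_vecMul, ← vecMul_vecMul, prop5_transvec_row, prop5_transvec_row,
      prop5_transvec_row]
    funext j
    simp only [Pi.add_apply, Pi.smul_apply, Pi.single_apply, smul_eq_mul]
    have hba : ¬ b = a := fun h => hab h.symm
    simp only [hab, hba, if_true, if_false]
    split_ifs <;> simp_all

lemma prop5_real {O : Type*} [Fintype O] [DecidableEq O] (N₁ N₂ : Matrix O O ℝ)
    (h1 : N₁.det = 0) (h2 : N₂.det = 0) : ∃ g ∈ Elem O ℝ, N₂.adjugate * g * N₁ = 0 := by
  obtain ⟨L₁, L₁', D₁, e1⟩ := Pivot.exists_list_transvec_mul_diagonal_mul_list_transvec N₁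
  obtain ⟨L₂, L₂', D₂, e2⟩ := Pivot.exists_list_transvec_mul_diagonal_mul_list_transvec N₂
  have m1 := prop5_list_mem L₁
  have m1' := prop5_list_mem L₁'
  have m2 := prop5_list_mem L₂
  have m2' := prop5_list_mem L₂'
  generalize (L₁.map TransvectionStruct.toMatrix).prod = A at *
  generalize (L₁'.map TransvectionStruct.toMatrix).prod = A' at *
  generalize (L₂.map TransvectionStruct.toMatrix).prod = B at *
  generalize (L₂'.map TransvectionStruct.toMatrix).prod = B' at *
  have z1 : ∃ a, D₁ a = 0 := by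
    rw [e1, det_mul, det_mul, det_of_mem_Elem m1, det_of_mem_Elem m1', det_diagonal] at h1
    simp only [one_mul, mul_one] at h1
    obtain ⟨a, _, ha⟩ := Finset.prod_eq_zero_iff.1 h1
    exact ⟨a, ha⟩
  have z2 : ∃ a, D₂ a = 0 := by
    rw [e2, det_mul, det_mul, det_of_mem_Elem m2, det_of_mem_Elem m2', det_diagonal] at h2
    simp only [one_mul, mul_one] at h2
    obtain ⟨a, _, ha⟩ := Finset.prod_eq_zero_iff.1 h2
    exact ⟨a, ha⟩
  obtain ⟨a₁, ha₁⟩ := z1
  obtain ⟨a₂, ha₂⟩ := z2
  obtain ⟨σ, hσ, hσr⟩ := prop5_sigma a₂ a₁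
  obtain ⟨Ai, hAi, hA1, hA2⟩ := exists_inv_of_mem_Elem m1
  obtain ⟨Bi, hBi, hB1, hB2⟩ := exists_inv_of_mem_Elem m2
  refine ⟨B * σ * Ai, Submonoid.mul_mem _ (Submonoid.mul_mem _ m2 hσ) hAi, ?_⟩
  have hmid : (diagonal D₂).adjugate * σ * diagonal D₁ = 0 := by
    rw [adjugate_diagonal]
    ext i j
    rw [mul_diagonal, diagonal_mul, Matrix.zero_apply]
    by_cases hi : i = a₂
    · rw [hi, hσr]
      by_cases hj : j = a₁
      · rw [hj, ha₁, mul_zero]
      · rw [if_neg hj, mul_zero, zero_mul]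
    · have : ∏ l ∈ Finset.univ.erase i, D₂ l = 0 :=
        Finset.prod_eq_zero (Finset.mem_erase.2 ⟨Ne.symm hi, Finset.mem_univ _⟩) ha₂
      rw [this, zero_mul, zero_mul]
  have hadjB := prop5_adj m2 hB1
  rw [e2, e1, adjugate_mul_distrib, adjugate_mul_distrib, hadjB]
  calc B'.adjugate * ((diagonal D₂).adjugate * Bi) * (B * σ * Ai) * (A * diagonal D₁ * A')
      = B'.adjugate * ((diagonal D₂).adjugate * (Bi * B) * σ * (Ai * A) * diagonal D₁) * A' := by
        simp only [Matrix.mul_assoc]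
    _ = B'.adjugate * ((diagonal D₂).adjugate * σ * diagonal D₁) * A' := by
        rw [hB2, hA2, mul_one, mul_one]
    _ = 0 := by rw [hmid, mul_zero, zero_mul]

lemma prop5_map {S T : Type*} [CommRing S] [CommRing T] (φ : S →+* T) {O : Type*} [Fintype O]
    [DecidableEq O] (i j : O) (f : S) :
    (transvection i j f).map φ = transvection i j (φ f) := by
  unfold transvection
  rw [Matrix.map_add _ (map_add φ), Matrix.map_one _ (map_zero φ) (map_one φ)]
  congr 1
  ext a b
  simp only [map_apply, single_apply]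
  split_ifs <;> simp

lemma prop5_lift {S A₀ : Type*} [CommRing S] [CommRing A₀] (ccm : S →+* A₀) (ev : S →+* ℝ)
    (hsurj : ∀ c : ℝ, ∃ f : S, ccm f = 0 ∧ ev f = c) {O : Type*} [Fintype O] [DecidableEq O]
    {g : Matrix O O ℝ} (hg : g ∈ Elem O ℝ) :
    ∃ G ∈ Elem O S, G.map ev = g ∧ G.map ccm = 1 := by
  induction hg using Submonoid.closure_induction with
  | mem x hx =>
    obtain ⟨i, j, hij, c, rfl⟩ := hx
    obtain ⟨f, hf0, hf⟩ := hsurj c
    refine ⟨transvection i j f, transvection_mem_Elem hij f, ?_, ?_⟩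
    · rw [prop5_map, hf]
    · rw [prop5_map, hf0, transvection_zero]
  | one => exact ⟨1, Submonoid.one_mem _, by simp, by simp⟩
  | mul x y _ _ hx hy =>
    obtain ⟨X, hX, hX1, hX2⟩ := hx
    obtain ⟨Y, hY, hY1, hY2⟩ := hy
    refine ⟨X * Y, Submonoid.mul_mem _ hX hY, ?_, ?_⟩
    · rw [Matrix.map_mul, hX1, hY1]
    · rw [Matrix.map_mul, hX2, hY2, mul_one]

/-- PROOF. Let `N₁ = ev P₁`, `N₂ = ev P₂` (real, singular). By
`Matrix.Pivot.exists_list_transvec_mul_diagonal_mul_list_transvec`, `N_i = L_i D_i L_i'` with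
products of transvections `L_i, L_i'` and `D_i` diagonal with a zero entry at an index `a_i`.
`adj N₂ = L₂'⁻¹ adj(D₂) L₂⁻¹` and `adj D₂` vanishes except possibly at `(a₂, a₂)`. Let `σ` be a
product of transvections whose row `a₂` is `e_{a₁}` (`1` if `a₁ = a₂`, otherwise
`t_{a₂a₁}(1) t_{a₁a₂}(-1) t_{a₂a₁}(1)`). Then `g = L₂ σ L₁⁻¹ ∈ Elem O ℝ` satisfies
`adj N₂ * g * N₁ = 0`. Lift `g` to `G ∈ Elem O S` with `ev G = g`, `cc G = 1` (lift each
transvection, using `hsurj`). All entries of `adj P₂ * G * P₁` are in `ker ev`, so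
`adj P₂ * G * P₁ = p • W`; multiply by `P₂`: `p • (G * P₁) = p • (P₂ * W)`, so `G * P₁ = P₂ * W`
(`p` is regular), `p * det W = p`, `det W = 1`, and `cc W = 1`. -/
theorem prop5 {S A₀ : Type*} [CommRing S] [CommRing A₀] (ccm : S →+* A₀) (ev : S →+* ℝ)
    (hsurj : ∀ c : ℝ, ∃ f : S, ccm f = 0 ∧ ev f = c) (p : S) (hp0 : ev p = 0)
    (hker : ∀ f, ev f = 0 → p ∣ f) (hreg : ∀ x, p * x = 0 → x = 0)
    {O : Type*} [Fintype O] [DecidableEq O] (P₁ P₂ : Matrix O O S)
    (h1 : P₁.det = p) (h2 : P₂.det = p) (c1 : P₁.map ccm = 1) (c2 : P₂.map ccm = 1) :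
    ∃ G ∈ Elem O S, ∃ W : Matrix O O S, G * P₁ = P₂ * W ∧ W.det = 1 ∧ W.map ccm = 1 := by
  have d1 : (P₁.map ev).det = 0 := by
    have := RingHom.map_det ev P₁
    rw [h1, hp0] at this
    exact this.symm
  have d2 : (P₂.map ev).det = 0 := by
    have := RingHom.map_det ev P₂
    rw [h2, hp0] at this
    exact this.symm
  obtain ⟨g, hg, hg0⟩ := prop5_real _ _ d1 d2
  obtain ⟨G, hG, hGe, hGc⟩ := prop5_lift ccm ev hsurj hg
  have hev : (P₂.adjugate * G * P₁).map ev = 0 := by
    rw [Matrix.map_mul, Matrix.map_mul, hGe]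
    have := RingHom.map_adjugate ev P₂
    simp only [RingHom.mapMatrix_apply] at this
    rw [this, hg0]
  have hdiv : ∀ i j, ∃ x, (P₂.adjugate * G * P₁) i j = p * x := by
    intro i j
    have h3 := congrFun (congrFun hev i) j
    exact hker _ h3
  choose w hw using hdiv
  set W : Matrix O O S := Matrix.of w with hW
  have hpW : P₂.adjugate * G * P₁ = p • W := by
    ext i j
    rw [hw, Matrix.smul_apply, smul_eq_mul, hW, of_apply]
  have hmain : p • (G * P₁) = p • (P₂ * W) := by
    have h3 : P₂ * (P₂.adjugate * G * P₁) = p • (G * P₁) := by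
      rw [← Matrix.mul_assoc, ← Matrix.mul_assoc, mul_adjugate, h2, smul_mul, smul_mul, one_mul]
    rw [← h3, hpW, Matrix.mul_smul]
  have hGP : G * P₁ = P₂ * W := by
    ext i j
    have h3 := congrFun (congrFun hmain i) j
    rw [Matrix.smul_apply, Matrix.smul_apply, smul_eq_mul, smul_eq_mul] at h3
    have h4 := hreg ((G * P₁) i j - (P₂ * W) i j) (by rw [mul_sub, h3, sub_self])
    exact sub_eq_zero.1 h4
  refine ⟨G, hG, W, hGP, ?_, ?_⟩
  · have h3 := congrArg det hGP
    rw [det_mul, det_mul, det_of_mem_Elem hG, h1, h2, one_mul] at h3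
    have h4 := hreg (W.det - 1) (by rw [mul_sub, mul_one, ← h3, sub_self])
    exact sub_eq_zero.1 h4
  · have h3 := congrArg (fun M => M.map ccm) hGP
    simp only [Matrix.map_mul, hGc, c1, c2, one_mul] at h3
    exact h3.symm

end Pool.Agent.H.MP_345fd7_an
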