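import Pool.Agent.H.MP_345fd7_an.Basic

/-! Nonnegative polynomial matrices with a distinguished index `T` -/

set_option autoImplicit false
set_option linter.unusedSectionVars false

namespace Pool.Agent.H.MP_345fd7_an

open Matrix Polynomial
open scoped NNReal

variable {G : Type} [CommGroup G] [Fintype G]

/-- `M ≥ 0` over `ℤG[X]` without constant terms, `det (1 - M) = p`, `(1 - M)⁻¹ T T = kT`, and
strong connectivity (in the form of cuts not containing `T`). -/
structure Good {J : Type} [Fintype J] [DecidableEq J] (T : J)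
    (M : Matrix J J (Polynomial (MonoidAlgebra ℤ G))) (p : Polynomial (MonoidAlgebra ℤ G))
    (kT : PowerSeries (MonoidAlgebra ℤ G)) : Prop where
  nonneg : ∀ i j, PNn (M i j)
  zero : ∀ i j, (M i j).coeff 0 = 0
  det : (1 - M).det = p
  res : ∃ K : Matrix J J (PowerSeries (MonoidAlgebra ℤ G)),
    (1 - M).map (Polynomial.coeToPowerSeries.ringHom (R := MonoidAlgebra ℤ G)) * K = 1 ∧
      K T T = kT
  out : ∀ S : Finset J, S.Nonempty → T ∉ S → ∃ s ∈ S, ∃ j, j ∉ S ∧ M s j ≠ 0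
  inn : ∀ S : Finset J, S.Nonempty → T ∉ S → ∃ s ∈ S, ∃ j, j ∉ S ∧ M j s ≠ 0

/-- exponential growth beyond `r ^ (-l)` -/
def Grow (r : ℝ≥0) (k : PowerSeries (MonoidAlgebra ℤ G)) : Prop :=
  ∀ C : ℝ, ∃ l₀ : ℕ, ∀ l, l₀ ≤ l → ∀ g,
    C * ((r : ℝ)⁻¹) ^ l ≤ (((PowerSeries.coeff l k).coeff g : ℤ) : ℝ)

theorem Good.transpose {J : Type} [Fintype J] [DecidableEq J] {T : J}
    {M : Matrix J J (Polynomial (MonoidAlgebra ℤ G))} {p : Polynomial (MonoidAlgebra ℤ G)}
    {kT : PowerSeries (MonoidAlgebra ℤ G)} (h : Good T M p kT) : Good T Mᵀ p kT := by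
  obtain ⟨K, hK, hT⟩ := h.res
  refine ⟨fun i j => h.nonneg j i, fun i j => h.zero j i, ?_, ⟨Kᵀ, ?_, hT⟩, h.inn, h.out⟩
  · rw [← h.det, ← Matrix.det_transpose (1 - M)]
    congr 1
    rw [Matrix.transpose_sub, Matrix.transpose_one]
  · have h1 := _root_.mul_eq_one_comm.1 hK
    have h2 := congrArg Matrix.transpose h1
    rw [Matrix.transpose_mul, Matrix.transpose_one] at h2
    rw [← h2]
    congr 1
    rw [← Matrix.transpose_one, ← Matrix.transpose_sub, Matrix.transpose_one,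
      Matrix.transpose_map]

end Pool.Agent.H.MP_345fd7_an
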